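import Pool.Agent.Lib.BedF.SpecB
import Mathlib.Analysis.SpecialFunctions.Exponential

/-!
# Theorem F (MP_6f050a_an), module Aff: global affine families near the given ones
-/

set_option autoImplicit false

open scoped Topology
open Set Filter Metric

namespace Pool.Agent.Lib.BedF

namespace AffM

/-- A continuous linear map bounded from below on a finite dimensional space has a continuous linear
inverse. -/
theorem inverse {E : Type} [NormedAddCommGroup E] [NormedSpace ℂ E] [FiniteDimensional ℂ E]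
    (A : E →L[ℂ] E) (k : ℝ) (hk : 0 < k)
    (hA : ∀ x, k * ‖x‖ ≤ ‖A x‖) : ∃ B : E →L[ℂ] E, B * A = 1 ∧ A * B = 1 ∧ ‖B‖ ≤ k⁻¹ := by
  have hinj : Function.Injective (A : E →ₗ[ℂ] E) := by
    intro x y hxy
    have h1 : A (x - y) = 0 := by
      rw [map_sub]
      exact sub_eq_zero.2 hxy
    have h2 := hA (x - y)
    rw [h1, norm_zero] at h2
    have h3 : ‖x - y‖ ≤ 0 := by
      by_contra h
      have h4 : 0 < k * ‖x - y‖ := mul_pos hk (not_le.1 h)
      linarith
    exact sub_eq_zero.1 (norm_le_zero_iff.1 h3)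
  let e := LinearEquiv.ofInjectiveEndo (A : E →ₗ[ℂ] E) hinj
  have h1 : ∀ x, e.symm (A x) = x := fun x => e.symm_apply_apply x
  have h2 : ∀ x, A (e.symm x) = x := fun x => e.apply_symm_apply x
  refine ⟨LinearMap.toContinuousLinearMap (e.symm : E →ₗ[ℂ] E),
    ContinuousLinearMap.ext h1, ContinuousLinearMap.ext h2, ?_⟩
  refine ContinuousLinearMap.opNorm_le_bound _ (inv_nonneg.2 hk.le) fun x => ?_
  have h3 := hA (e.symm x)
  rw [h2 x] at h3
  change ‖e.symm x‖ ≤ k⁻¹ * ‖x‖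
  rw [inv_mul_eq_div, le_div_iff₀ hk]
  linarith

section
variable (A : Type) [NormedRing A] [NormedAlgebra ℂ A] [CompleteSpace A]

theorem expNegMul (Y : A) : NormedSpace.exp (-Y) * NormedSpace.exp Y = 1 := by
  let +nondep : NormedAlgebra ℚ A := .restrictScalars ℚ ℂ A
  rw [← NormedSpace.exp_add_of_commute (Commute.neg_left (Commute.refl Y)), neg_add_cancel,
    NormedSpace.exp_zero]

theorem expMulNeg (Y : A) : NormedSpace.exp Y * NormedSpace.exp (-Y) = 1 := by
  have h := expNegMul A (-Y)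
  rwa [neg_neg] at h

theorem expDiff : Differentiable ℂ (NormedSpace.exp : A → A) := fun x =>
  (NormedSpace.exp_analytic (𝕂 := ℂ) x).differentiableAt

end

variable {G F : Type} [NormedAddCommGroup G] [NormedSpace ℂ G] [NormedAddCommGroup F] [NormedSpace ℂ F]

lemma af_eq (M : F →L[ℂ] F) (q : F) :
    af M q = (ContinuousLinearMap.inl ℂ F ℂ).comp (M.comp (ContinuousLinearMap.fst ℂ F ℂ)) +
      (ContinuousLinearMap.inl ℂ F ℂ).comp
        (ContinuousLinearMap.smulRightL ℂ (F × ℂ) F (ContinuousLinearMap.snd ℂ F ℂ) q) +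
      (ContinuousLinearMap.inr ℂ F ℂ).comp (ContinuousLinearMap.snd ℂ F ℂ) := by
  refine ContinuousLinearMap.ext fun z => ?_
  obtain ⟨x, s⟩ := z
  simp [af]

lemma af_diff {s : Set G} {M : G → (F →L[ℂ] F)} {q : G → F} (hM : DifferentiableOn ℂ M s)
    (hq : DifferentiableOn ℂ q s) : DifferentiableOn ℂ (fun x => af (M x) (q x)) s := by
  have h1 : DifferentiableOn ℂ (fun x => (ContinuousLinearMap.inl ℂ F ℂ).comp
      ((M x).comp (ContinuousLinearMap.fst ℂ F ℂ))) s :=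
    (differentiableOn_const _).clm_comp (hM.clm_comp (differentiableOn_const _))
  have h2 : DifferentiableOn ℂ (fun x => (ContinuousLinearMap.inl ℂ F ℂ).comp
      (ContinuousLinearMap.smulRightL ℂ (F × ℂ) F (ContinuousLinearMap.snd ℂ F ℂ) (q x))) s :=
    (differentiableOn_const _).clm_comp
      ((ContinuousLinearMap.differentiable _).comp_differentiableOn hq)
  have h3 := (h1.add h2).add (differentiableOn_const
    ((ContinuousLinearMap.inr ℂ F ℂ).comp (ContinuousLinearMap.snd ℂ F ℂ)))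
  refine h3.congr fun x _ => ?_
  rw [af_eq]
  rfl

lemma pr_af (M : F →L[ℂ] F) (q : F) : pr F * af M q = pr F := by
  refine ContinuousLinearMap.ext fun z => ?_
  obtain ⟨x, s⟩ := z
  simp [af, pr]

lemma af_app (M : F →L[ℂ] F) (q v : F) (s : ℂ) : af M q (v, s) = (M v + s • q, s) := by
  simp [af]

lemma af_mul (M M' : F →L[ℂ] F) (q q' : F) : af M q * af M' q' = af (M * M') (M q' + q) := by
  refine ContinuousLinearMap.ext fun z => ?_
  obtain ⟨v, s⟩ := z
  change af M q (af M' q' (v, s)) = _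
  rw [af_app, af_app, af_app]
  refine Prod.ext ?_ rfl
  change M (M' v + s • q') + s • q = M (M' v) + s • (M q' + q)
  rw [map_add, map_smul, smul_add, add_assoc]

lemma af_one : af (1 : F →L[ℂ] F) 0 = 1 := by
  refine ContinuousLinearMap.ext fun z => ?_
  obtain ⟨v, s⟩ := z
  rw [af_app]
  simp

lemma af_sub_one (M : F →L[ℂ] F) (q : F) : ‖af M q - 1‖ ≤ ‖M - 1‖ + ‖q‖ := by
  refine ContinuousLinearMap.opNorm_le_bound _ (by positivity) fun z => ?_
  obtain ⟨v, s⟩ := z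
  have e : (af M q - 1) (v, s) = ((M - 1) v + s • q, 0) := by
    change af M q (v, s) - (v, s) = _
    rw [af_app]
    refine Prod.ext ?_ ?_
    · change M v + s • q - v = (M v - v) + s • q
      abel
    · change s - s = 0
      exact sub_self s
  rw [e]
  have hv : ‖v‖ ≤ ‖(v, s)‖ := norm_fst_le (v, s)
  have hs : ‖s‖ ≤ ‖(v, s)‖ := norm_snd_le (v, s)
  have h1 : ‖((M - 1) v + s • q, (0 : ℂ))‖ = ‖(M - 1) v + s • q‖ := by
    rw [Prod.norm_def, norm_zero]
    exact max_eq_left (norm_nonneg _)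
  rw [h1]
  calc ‖(M - 1) v + s • q‖ ≤ ‖(M - 1) v‖ + ‖s • q‖ := norm_add_le _ _
    _ ≤ ‖M - 1‖ * ‖v‖ + ‖s‖ * ‖q‖ := by
        rw [norm_smul]
        exact add_le_add ((M - 1).le_opNorm v) le_rfl
    _ ≤ ‖M - 1‖ * ‖(v, s)‖ + ‖(v, s)‖ * ‖q‖ := by gcongr
    _ = (‖M - 1‖ + ‖q‖) * ‖(v, s)‖ := by ring

lemma af_norm (M : F →L[ℂ] F) (q : F) : ‖af M q‖ ≤ ‖M - 1‖ + ‖q‖ + ‖(1 : (F × ℂ) →L[ℂ] (F × ℂ))‖ := by
  calc ‖af M q‖ = ‖(af M q - 1) + 1‖ := by rw [sub_add_cancel]
    _ ≤ ‖af M q - 1‖ + ‖(1 : (F × ℂ) →L[ℂ] (F × ℂ))‖ := norm_add_le _ _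
    _ ≤ _ := add_le_add (af_sub_one M q) le_rfl

/-- Affine families. -/
lemma af_fmy {ρ : ℝ} {g : ℕ → G → G} {M : ℕ → G → (F →L[ℂ] F)} {q : ℕ → G → F} (hM : Fmy ρ g M)
    (hq : Fmy ρ g q) : Fmy ρ g (fun n x => af (M n x) (q n x)) where
  diff := fun n => af_diff (hM.diff n) (hq.diff n)
  comp := fun n x hx => by rw [hM.comp n x hx, hq.comp n x hx]
  bdd := fun n => by
    obtain ⟨B, hB⟩ := hM.bdd n
    obtain ⟨B', hB'⟩ := hq.bdd n
    refine ⟨(B + ‖(1 : F →L[ℂ] F)‖) + B' + ‖(1 : (F × ℂ) →L[ℂ] (F × ℂ))‖, fun x hx => ?_⟩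
    refine (af_norm _ _).trans ?_
    have h1 : ‖M n x - 1‖ ≤ B + ‖(1 : F →L[ℂ] F)‖ :=
      (norm_sub_le _ _).trans (add_le_add (hB x hx) le_rfl)
    exact add_le_add (add_le_add h1 (hB' x hx)) le_rfl

/-- Composition of a family with an entire map which is bounded on bounded sets. -/
lemma comp_fmy {W V : Type} [NormedAddCommGroup W] [NormedSpace ℂ W] [NormedAddCommGroup V]
    [NormedSpace ℂ V] {ρ : ℝ} {g : ℕ → G → G} {P : ℕ → G → W} (hP : Fmy ρ g P) (e : W → V)
    (he : Differentiable ℂ e) (hb : ∀ B : ℝ, ∃ B' : ℝ, ∀ X, ‖X‖ ≤ B → ‖e X‖ ≤ B') :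
    Fmy ρ g (fun n x => e (P n x)) where
  diff := fun n => he.comp_differentiableOn (hP.diff n)
  comp := fun n x hx => by rw [hP.comp n x hx]
  bdd := fun n => by
    obtain ⟨B, hB⟩ := hP.bdd n
    obtain ⟨B', hB'⟩ := hb B
    exact ⟨B', fun x hx => hB' _ (hB x hx)⟩

/-- Application of a family of endomorphisms to a family of vectors. -/
lemma app_fmy {ρ : ℝ} {g : ℕ → G → G} {M : ℕ → G → (F →L[ℂ] F)} {q : ℕ → G → F} (hM : Fmy ρ g M)
    (hq : Fmy ρ g q) : Fmy ρ g (fun n x => -(M n x) (q n x)) where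
  diff := fun n => ((hM.diff n).clm_apply (hq.diff n)).neg
  comp := fun n x hx => by rw [hM.comp n x hx, hq.comp n x hx]
  bdd := fun n => by
    obtain ⟨B, hB⟩ := hM.bdd n
    obtain ⟨B', hB'⟩ := hq.bdd n
    refine ⟨|B| * |B'|, fun x hx => ?_⟩
    rw [norm_neg]
    exact ((M n x).le_opNorm _).trans (mul_le_mul ((hB x hx).trans (le_abs_self B))
      ((hB' x hx).trans (le_abs_self B')) (norm_nonneg _) (abs_nonneg _))

end AffM

open AffM in
/-- Global affine families near the given ones. -/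
theorem affP : S_Fam → S_Log → S_Exu → S_Aff := by
  intro hFam hLog hExu F _ _ _
  have hcF : CompleteSpace F := FiniteDimensional.complete ℂ F
  obtain ⟨δ, hδ, lg, hlgd, hlg⟩ := hLog (F →L[ℂ] F)
  refine ⟨δ, hδ, ?_⟩
  intro G _ _ _ R C c C' g a b M q hS hC' hCR hb hMd hqd hMb m ε hε
  have hR := hS.R_pos
  have hc := hS.c_pos
  obtain ⟨bi, hbi1, hbi2, hbin⟩ := inverse (b m) c hc (hb m)
  -- the logarithm
  have hX : ∀ x ∈ ball (0 : G) R, bi * M m x ∈ ball (1 : F →L[ℂ] F) δ := by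
    intro x hx
    rw [mem_ball_zero_iff] at hx
    rw [mem_ball, dist_eq_norm]
    have e : bi * M m x - 1 = bi * (M m x - b m) := by rw [mul_sub, hbi1]
    rw [e]
    have h1 : ‖bi * (M m x - b m)‖ ≤ c⁻¹ * (C' * ‖x‖) :=
      (norm_mul_le _ _).trans (mul_le_mul hbin (hMb m x (by rw [mem_ball_zero_iff]; exact hx))
        (norm_nonneg _) (inv_nonneg.2 hc.le))
    have h2 : C' * ‖x‖ < C' * R := mul_lt_mul_of_pos_left hx hC'
    have h3 : c⁻¹ * (C' * ‖x‖) < δ := by
      rw [inv_mul_lt_iff₀ hc]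
      linarith
    exact lt_of_le_of_lt h1 h3
  have hNd : DifferentiableOn ℂ (fun x => lg (bi * M m x)) (ball 0 R) := by
    refine hlgd.comp ?_ hX
    exact (differentiableOn_const bi).mul (hMd m)
  have hNe : ∀ x ∈ ball (0 : G) R, NormedSpace.exp (lg (bi * M m x)) = bi * M m x :=
    fun x hx => hlg _ (hX x hx)
  -- bound for the logarithm
  have hsub : closedBall (0 : G) (R / 2) ⊆ ball 0 R := closedBall_subset_ball (by linarith)
  have hsub' : ball (0 : G) (R / 2) ⊆ ball 0 R := ball_subset_ball (by linarith)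
  have hprG : ProperSpace G := FiniteDimensional.proper ℂ G
  obtain ⟨B, hB⟩ := (isCompact_closedBall (0 : G) (R / 2)).exists_bound_of_continuousOn
    (hNd.continuousOn.mono hsub)
  obtain ⟨B₂, hB₂, hB₃⟩ := hExu F B
  obtain ⟨ε', hε', hε'1, hE⟩ := hB₃ (ε / 2) (by linarith)
  -- the families
  obtain ⟨N', hN', hN'a⟩ := hFam G (F →L[ℂ] F) R C c g a hS m ε' _ hε' hNd
  have hε2 : 0 < ε * c / (2 * (|B₂| + 1)) := by positivity
  obtain ⟨q', hq', hq'a⟩ := hFam G F R C c g a hS m _ _ hε2 (hqd m)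
  -- exponentials of bounded sets are bounded
  have hbd : ∀ B : ℝ, ∃ B' : ℝ, ∀ X : F →L[ℂ] F, ‖X‖ ≤ B → ‖NormedSpace.exp X‖ ≤ B' ∧
      ‖NormedSpace.exp (-X)‖ ≤ B' := by
    intro B
    obtain ⟨B', hB', _⟩ := hExu F B
    exact ⟨B', fun X hX => hB' X (by linarith)⟩
  have hf1 : Fmy (R / 2) g (fun n x => b m * NormedSpace.exp (N' n x)) := by
    refine comp_fmy hN' (fun X => b m * NormedSpace.exp X)
      ((differentiable_const _).mul (expDiff _)) fun B => ?_
    obtain ⟨B', hB'⟩ := hbd B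
    refine ⟨‖b m‖ * B', fun X hX => (norm_mul_le _ _).trans ?_⟩
    exact mul_le_mul_of_nonneg_left (hB' X hX).1 (norm_nonneg _)
  have hf2 : Fmy (R / 2) g (fun n x => NormedSpace.exp (-N' n x) * bi) := by
    have hd : Differentiable ℂ (fun X : F →L[ℂ] F => NormedSpace.exp (-X)) :=
      (expDiff (F →L[ℂ] F)).comp differentiable_fun_id.neg
    refine comp_fmy hN' (fun X => NormedSpace.exp (-X) * bi)
      (hd.mul (differentiable_const _)) fun B => ?_
    obtain ⟨B', hB'⟩ := hbd B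
    refine ⟨B' * ‖bi‖, fun X hX => (norm_mul_le _ _).trans ?_⟩
    exact mul_le_mul_of_nonneg_right (hB' X hX).2 (norm_nonneg _)
  refine ⟨fun n x => af (b m * NormedSpace.exp (N' n x)) (q' n x),
    fun n x => af (NormedSpace.exp (-N' n x) * bi) (-(NormedSpace.exp (-N' n x) * bi) (q' n x)),
    af_fmy hf1 hq', af_fmy hf2 (app_fmy hf2 hq'), ?_, ?_⟩
  · intro n x hx
    set Y := N' n x with hY
    have e1 : (b m * NormedSpace.exp Y) * (NormedSpace.exp (-Y) * bi) = 1 := by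
      rw [mul_assoc, ← mul_assoc (NormedSpace.exp Y), expMulNeg, one_mul, hbi2]
    have e2 : (NormedSpace.exp (-Y) * bi) * (b m * NormedSpace.exp Y) = 1 := by
      rw [mul_assoc, ← mul_assoc bi, hbi1, one_mul, expNegMul]
    refine ⟨?_, ?_, pr_af _ _⟩
    · have e3 : (b m * NormedSpace.exp Y) ((NormedSpace.exp (-Y) * bi) (q' n x)) = q' n x := by
        change ((b m * NormedSpace.exp Y) * (NormedSpace.exp (-Y) * bi)) (q' n x) = _
        rw [e1]
        rfl
      rw [af_mul, e1, map_neg, e3, neg_add_cancel, af_one]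
    · rw [af_mul, e2, add_neg_cancel, af_one]
  · intro x hx
    have hxR := hsub' hx
    set Y := N' m x with hY
    set X := lg (bi * M m x) with hXd
    have hXB : ‖X‖ ≤ B := hB x (ball_subset_closedBall hx)
    have hXY : ‖X - Y‖ ≤ ε' := by
      rw [norm_sub_rev]
      exact hN'a x hx
    have hYB : ‖Y‖ ≤ B + 1 := by
      have e : Y = X - (X - Y) := by abel
      calc ‖Y‖ = ‖X - (X - Y)‖ := by rw [← e]
        _ ≤ ‖X‖ + ‖X - Y‖ := norm_sub_le _ _
        _ ≤ B + 1 := by linarith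
    have h1 := hE X Y hXB hXY
    rw [af_mul]
    have e1 : NormedSpace.exp (-Y) * bi * M m x = NormedSpace.exp (-Y) * NormedSpace.exp X := by
      rw [hNe x hxR, mul_assoc]
    have e2 : (NormedSpace.exp (-Y) * bi) (q m x) + -(NormedSpace.exp (-Y) * bi) (q' m x) =
        (NormedSpace.exp (-Y) * bi) (q m x - q' m x) := by
      rw [map_sub]
      abel
    rw [e1, e2]
    refine (af_sub_one _ _).trans ?_
    have h2 : ‖(NormedSpace.exp (-Y) * bi) (q m x - q' m x)‖ ≤ ε / 2 := by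
      have h3 : ‖NormedSpace.exp (-Y)‖ ≤ |B₂| + 1 := by
        have := (hB₂ Y hYB).2
        linarith [le_abs_self B₂]
      have h4 : ‖NormedSpace.exp (-Y) * bi‖ ≤ (|B₂| + 1) * c⁻¹ :=
        (norm_mul_le _ _).trans (mul_le_mul h3 hbin (norm_nonneg _) (by positivity))
      have h5 : ‖q m x - q' m x‖ ≤ ε * c / (2 * (|B₂| + 1)) := by
        rw [norm_sub_rev]
        exact hq'a x hx
      calc ‖(NormedSpace.exp (-Y) * bi) (q m x - q' m x)‖
          ≤ ‖NormedSpace.exp (-Y) * bi‖ * ‖q m x - q' m x‖ := ContinuousLinearMap.le_opNorm _ _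
        _ ≤ ((|B₂| + 1) * c⁻¹) * (ε * c / (2 * (|B₂| + 1))) :=
            mul_le_mul h4 h5 (norm_nonneg _) (by positivity)
        _ = ε / 2 := by field_simp
    linarith

end Pool.Agent.Lib.BedF
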