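import Pool.Agent.Lib.BedF.SpecB

/-!
# Agl: the angle is bounded
-/

set_option autoImplicit false

open scoped Topology
open Set Filter Metric

namespace Pool.Agent.Lib.BedF

namespace AglM

theorem steps {k : ℕ} {Λ : ℕ → (Fin k → ℂ) →L[ℂ] (Fin k → ℂ)} {c : ℝ} (hc : 0 < c)
    (h : ∀ n z, c * ‖Λ n z‖ ≤ ‖Λ (n + 1) z‖ ∧ ‖Λ (n + 1) z‖ ≤ ‖Λ n z‖) (n : ℕ) (z : Fin k → ℂ) :
    ∀ m : ℕ, c ^ m * ‖Λ n z‖ ≤ ‖Λ (n + m) z‖ ∧ ‖Λ (n + m) z‖ ≤ ‖Λ n z‖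
  | 0 => by
    rw [pow_zero, one_mul, Nat.add_zero]
    exact ⟨le_rfl, le_rfl⟩
  | m + 1 => by
    obtain ⟨h1, h2⟩ := steps hc h n z m
    obtain ⟨h3, h4⟩ := h (n + m) z
    rw [← Nat.add_assoc]
    refine ⟨?_, h4.trans h2⟩
    calc c ^ (m + 1) * ‖Λ n z‖ = c * (c ^ m * ‖Λ n z‖) := by ring
      _ ≤ c * ‖Λ (n + m) z‖ := mul_le_mul_of_nonneg_left h1 hc.le
      _ ≤ _ := h3

theorem small {C η : ℝ} (hC : 0 < C) (hη : 0 < η) : ∃ m : ℕ, C * Real.exp (-(η * m)) ≤ 1 / 4 := by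
  obtain ⟨m, hm⟩ := exists_nat_gt (Real.log (4 * C) / η)
  refine ⟨m, ?_⟩
  have h1 : Real.log (4 * C) ≤ η * m := by
    rw [div_lt_iff₀ hη] at hm
    exact hm.le.trans_eq (mul_comm _ _)
  have h2 : Real.exp (-(η * m)) ≤ Real.exp (-Real.log (4 * C)) :=
    Real.exp_le_exp.2 (neg_le_neg h1)
  rw [Real.exp_neg (Real.log (4 * C)), Real.exp_log (by linarith)] at h2
  calc C * Real.exp (-(η * m)) ≤ C * (4 * C)⁻¹ := mul_le_mul_of_nonneg_left h2 hC.le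
    _ = 1 / 4 := by field_simp

end AglM

theorem aglP : S_Agl := by
  intro k Λ c C η U W hc hC hη hΛ hd
  obtain ⟨m, hm⟩ := AglM.small hC hη
  have hcm : 0 < c ^ m := pow_pos hc m
  refine ⟨1 + 2 * (c ^ m)⁻¹, by positivity, fun n u hu w hw => ?_⟩
  have hN1 : 0 ≤ ‖Λ n u‖ := norm_nonneg _
  have hS : 0 ≤ ‖Λ n (u + w)‖ := norm_nonneg _
  rcases hN1.eq_or_lt with h0 | h0
  · rw [← h0]
    positivity
  have hgoal1 : ‖Λ n u‖ ≤ ‖Λ n (u + w)‖ → ‖Λ n u‖ ≤ (1 + 2 * (c ^ m)⁻¹) * ‖Λ n (u + w)‖ := by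
    intro h
    refine h.trans ?_
    have : 0 ≤ 2 * (c ^ m)⁻¹ * ‖Λ n (u + w)‖ := by positivity
    linarith [add_mul 1 (2 * (c ^ m)⁻¹) ‖Λ n (u + w)‖]
  by_cases hcase : 2 * ‖Λ n u‖ ≤ ‖Λ n w‖
  · apply hgoal1
    have h1 : ‖Λ n w‖ ≤ ‖Λ n (u + w)‖ + ‖Λ n u‖ := by
      have h2 : Λ n w = Λ n (u + w) - Λ n u := by
        rw [map_add, add_sub_cancel_left]
      rw [h2]
      exact norm_sub_le _ _
    linarith
  · rw [not_le] at hcase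
    have h1 := hd n m u hu w hw
    have hA : 0 ≤ ‖Λ (n + m) u‖ := norm_nonneg _
    have hB : 0 ≤ ‖Λ n w‖ := norm_nonneg _
    have h2 : C * Real.exp (-(η * m)) * (‖Λ n w‖ * ‖Λ (n + m) u‖) ≤
        1 / 4 * (2 * ‖Λ n u‖ * ‖Λ (n + m) u‖) := by
      apply mul_le_mul hm _ (by positivity) (by norm_num)
      exact mul_le_mul_of_nonneg_right hcase.le hA
    have h3 : ‖Λ (n + m) w‖ ≤ ‖Λ (n + m) u‖ / 2 := by
      have h4 : ‖Λ (n + m) w‖ * ‖Λ n u‖ ≤ ‖Λ (n + m) u‖ / 2 * ‖Λ n u‖ := by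
        refine (h1.trans h2).trans (le_of_eq ?_)
        ring
      exact le_of_mul_le_mul_right h4 h0
    have h5 : ‖Λ (n + m) u‖ ≤ ‖Λ (n + m) (u + w)‖ + ‖Λ (n + m) w‖ := by
      have h6 : Λ (n + m) u = Λ (n + m) (u + w) - Λ (n + m) w := by
        rw [map_add, add_sub_cancel_right]
      rw [h6]
      exact norm_sub_le _ _
    have h7 := (AglM.steps hc hΛ n (u + w) m).2
    have h8 := (AglM.steps hc hΛ n u m).1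
    have h9 : c ^ m * ‖Λ n u‖ ≤ 2 * ‖Λ n (u + w)‖ := by linarith
    have h10 : ‖Λ n u‖ ≤ 2 * (c ^ m)⁻¹ * ‖Λ n (u + w)‖ := by
      have h11 : ‖Λ n u‖ = (c ^ m)⁻¹ * (c ^ m * ‖Λ n u‖) := by
        rw [inv_mul_cancel_left₀ hcm.ne']
      rw [h11]
      calc (c ^ m)⁻¹ * (c ^ m * ‖Λ n u‖) ≤ (c ^ m)⁻¹ * (2 * ‖Λ n (u + w)‖) :=
            mul_le_mul_of_nonneg_left h9 (inv_pos.2 hcm).le
        _ = _ := by ring
    linarith [add_mul 1 (2 * (c ^ m)⁻¹) ‖Λ n (u + w)‖]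

end Pool.Agent.Lib.BedF
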