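import Pool.Agent.Lib.BedF.SpecB

/-!
# Theorem F (MP_6f050a_an): the basin of the skew sequence (`S_Asm`)
-/

set_option autoImplicit false

open scoped Topology
open Set Filter Metric

namespace Pool.Agent.Lib.BedF

namespace AsmM

variable {F : Type} [NormedAddCommGroup F] [NormedSpace ℂ F]

theorem af_app (M : F →L[ℂ] F) (q v : F) (s : ℂ) : af M q (v, s) = (M v + s • q, s) := by
  simp [af]

theorem snd_eq {T : (F × ℂ) →L[ℂ] (F × ℂ)} (hT : pr F * T = pr F) (p : F × ℂ) : (T p).2 = p.2 := by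
  have h := congrArg (fun S : (F × ℂ) →L[ℂ] (F × ℂ) => (S p).2) hT
  simpa [pr] using h

theorem inj_of_unit {T : (F × ℂ) →L[ℂ] (F × ℂ)} (hT : IsUnit T) : Function.Injective T := by
  obtain ⟨S, hS⟩ := hT.exists_left_inv
  intro p p' h
  have h1 : S (T p) = S (T p') := by rw [h]
  have h2 : ∀ p, S (T p) = p := by
    intro p
    have := congrArg (fun R : (F × ℂ) →L[ℂ] (F × ℂ) => R p) hS
    simpa using this
  rwa [h2, h2] at h1

theorem surj_of_unit {T : (F × ℂ) →L[ℂ] (F × ℂ)} (hT : IsUnit T) (p : F × ℂ) : ∃ s, T s = p := by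
  obtain ⟨S, hS⟩ := hT.exists_right_inv
  refine ⟨S p, ?_⟩
  have := congrArg (fun R : (F × ℂ) →L[ℂ] (F × ℂ) => R p) hS
  simpa using this

/-- the equality of the first components is enough -/
theorem eq_of_fst {T : (F × ℂ) →L[ℂ] (F × ℂ)} (hT : IsUnit T) (hp : pr F * T = pr F) {v v' : F} {s : ℂ}
    (h : (T (v, s)).1 = (T (v', s)).1) : v = v' := by
  have h2 : T (v, s) = T (v', s) := by
    refine Prod.ext h ?_
    rw [snd_eq hp, snd_eq hp]
  exact congrArg Prod.fst (inj_of_unit hT h2)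

theorem mem_fst {G : Type} [NormedAddCommGroup G] [NormedSpace ℂ G] {r : ℝ} {z : G × F}
    (hz : z ∈ ball (0 : G × F) r) : z.1 ∈ ball (0 : G) r := by
  rw [mem_ball_zero_iff] at hz ⊢
  exact lt_of_le_of_lt (norm_fst_le z) hz

theorem mem_snd {G : Type} [NormedAddCommGroup G] [NormedSpace ℂ G] {r : ℝ} {z : G × F}
    (hz : z ∈ ball (0 : G × F) r) : z.2 ∈ ball (0 : F) r := by
  rw [mem_ball_zero_iff] at hz ⊢
  exact lt_of_le_of_lt (norm_snd_le z) hz

/-- the orbits of a contraction -/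
theorem orb_le {G : Type} [NormedAddCommGroup G] [NormedSpace ℂ G] {r : ℝ} {g : ℕ → G → G}
    (hg : ∀ n, ∀ x ∈ ball (0 : G) r, ‖g n x‖ ≤ 1 / 4 * ‖x‖) (n : ℕ) {x : G} (hx : x ∈ ball (0 : G) r) (j : ℕ) :
    ‖orb g n j x‖ ≤ (1 / 4) ^ j * ‖x‖ ∧ orb g n j x ∈ ball (0 : G) r := by
  induction j with
  | zero => exact ⟨by simp [orb], hx⟩
  | succ j ih =>
    have h1 : ‖orb g n (j + 1) x‖ ≤ 1 / 4 * ‖orb g n j x‖ := hg (n + j) _ ih.2
    have h2 : ‖orb g n (j + 1) x‖ ≤ (1 / 4) ^ (j + 1) * ‖x‖ := by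
      calc ‖orb g n (j + 1) x‖ ≤ 1 / 4 * ‖orb g n j x‖ := h1
        _ ≤ 1 / 4 * ((1 / 4) ^ j * ‖x‖) := by
            exact mul_le_mul_of_nonneg_left ih.1 (by norm_num)
        _ = (1 / 4) ^ (j + 1) * ‖x‖ := by ring
    refine ⟨h2, ?_⟩
    rw [mem_ball_zero_iff]
    have h3 := ih.2
    rw [mem_ball_zero_iff] at h3
    have h4 := norm_nonneg (orb g n j x)
    linarith

/-- the recursion of the norms -/
theorem rec_le {a : ℕ → ℝ} {K : ℝ} (ha : ∀ j, a (j + 1) ≤ a j / 2 + K * (1 / 4) ^ j) (j : ℕ) :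
    a j ≤ (1 / 2) ^ j * a 0 + 4 * K * ((1 / 2) ^ j - (1 / 4) ^ j) := by
  induction j with
  | zero => simp
  | succ j ih =>
    have h1 := ha j
    have h2 : a j / 2 + K * (1 / 4) ^ j ≤
        ((1 / 2) ^ j * a 0 + 4 * K * ((1 / 2) ^ j - (1 / 4) ^ j)) / 2 + K * (1 / 4) ^ j := by linarith
    refine le_trans h1 (le_trans h2 (le_of_eq ?_))
    rw [pow_succ, pow_succ]
    ring

theorem small {a : ℕ → ℝ} {K t : ℝ} (hK : 0 ≤ K) (h0 : 0 ≤ a 0) (ht : 0 < t)
    (ha : ∀ j, a (j + 1) ≤ a j / 2 + K * (1 / 4) ^ j) : ∃ j, a j < t := by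
  have hp : 0 < a 0 + 4 * K + 1 := by linarith
  obtain ⟨j, hj⟩ := exists_pow_lt_of_lt_one (div_pos ht hp) (by norm_num : (1 / 2 : ℝ) < 1)
  refine ⟨j, ?_⟩
  have h1 := rec_le ha j
  have h2 : (0 : ℝ) ≤ 4 * K * (1 / 4) ^ j := by positivity
  have h3 : (0 : ℝ) < (1 / 2) ^ j := by positivity
  rw [lt_div_iff₀ hp] at hj
  nlinarith

end AsmM

open AsmM

theorem asmP : S_Asm := by
  intro G F H _ _ _ _ _ _ r C' g h φ M q σ hr hg hφ hMq hφd hcov hσd hσ hB
  obtain ⟨Ψ₁, d1, c1, i1, m1, s1⟩ := hB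
  refine ⟨fun n z => (Ψ₁ n z.1, (σ n z.1 (φ n z, 1)).1), ?_, ?_, ?_, ?_, ?_⟩
  · -- differentiable
    intro n
    have hf : DifferentiableOn ℂ (fun z : G × F => z.1) (ball 0 r) := differentiableOn_fst
    have hm : MapsTo (fun z : G × F => z.1) (ball 0 r) (ball 0 r) := fun z hz => mem_fst hz
    have h1 : DifferentiableOn ℂ (fun z : G × F => Ψ₁ n z.1) (ball 0 r) := (d1 n).comp hf hm
    have h2 : DifferentiableOn ℂ (fun z : G × F => σ n z.1) (ball 0 r) := (hσd n).comp hf hm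
    have h3 : DifferentiableOn ℂ (fun z : G × F => (φ n z, (1 : ℂ))) (ball 0 r) :=
      (hφd n).prodMk (differentiableOn_const _)
    exact h1.prodMk (h2.clm_apply h3).fst
  · -- compatible
    intro n z hz
    have hz1 := mem_fst hz
    refine Prod.ext (c1 n z.1 hz1) ?_
    change (σ (n + 1) (g n z.1) (φ (n + 1) (sk g h n z), 1)).1 = (σ n z.1 (φ n z, 1)).1
    have e1 : (φ (n + 1) (sk g h n z), (1 : ℂ)) = af (M n z.1) (q n z.1) (φ n z, 1) := by
      rw [af_app, hφ n z hz, one_smul]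
    rw [e1, ← (hσ n z.1 hz1).2.2]
    rfl
  · -- injective
    intro n z hz z' hz' he
    have hz1 := mem_fst hz
    have e1 : z.1 = z'.1 := i1 n hz1 (mem_fst hz') (congrArg Prod.fst he)
    have e2 : (σ n z.1 (φ n z, 1)).1 = (σ n z'.1 (φ n z', 1)).1 := congrArg Prod.snd he
    rw [← e1] at e2
    have e3 : φ n z = φ n z' := eq_of_fst (hσ n z.1 hz1).1 (hσ n z.1 hz1).2.1 e2
    refine Prod.ext e1 ((hcov n z.1 hz1).1 z.2 (mem_snd hz) z'.2 (mem_snd hz') ?_)
    rw [Prod.mk.eta, e1, Prod.mk.eta]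
    exact e3
  · -- immersion
    intro n z hz w hw
    have hz1 := mem_fst hz
    have hnG : ball (0 : G) r ∈ 𝓝 z.1 := isOpen_ball.mem_nhds hz1
    have hn : ball (0 : G × F) r ∈ 𝓝 z := isOpen_ball.mem_nhds hz
    have f1 : HasFDerivAt (fun z : G × F => z.1) (ContinuousLinearMap.fst ℂ G F) z := hasFDerivAt_fst
    have h1 : HasFDerivAt (fun z : G × F => Ψ₁ n z.1)
        ((fderiv ℂ (Ψ₁ n) z.1).comp (ContinuousLinearMap.fst ℂ G F)) z :=
      HasFDerivAt.comp z ((d1 n).differentiableAt hnG).hasFDerivAt f1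
    have h2 : HasFDerivAt (fun z : G × F => σ n z.1)
        ((fderiv ℂ (σ n) z.1).comp (ContinuousLinearMap.fst ℂ G F)) z :=
      HasFDerivAt.comp z ((hσd n).differentiableAt hnG).hasFDerivAt f1
    have h3 : HasFDerivAt (fun z : G × F => (φ n z, (1 : ℂ)))
        ((fderiv ℂ (φ n) z).prod (0 : (G × F) →L[ℂ] ℂ)) z :=
      ((hφd n).differentiableAt hn).hasFDerivAt.prodMk (hasFDerivAt_const _ _)
    have h4 := h2.clm_apply h3
    have h5 := h1.prodMk h4.fst
    have hw' := hw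
    rw [h5.fderiv] at hw'
    have w1 := congrArg Prod.fst hw'
    have w2 := congrArg Prod.snd hw'
    have e1 : w.1 = 0 := by
      apply m1 n z.1 hz1
      simpa using w1
    have e2 : (σ n z.1 (fderiv ℂ (φ n) z w, 0)).1 = (σ n z.1 (0, 0)).1 := by
      have e3 : (σ n z.1 ((0 : F), (0 : ℂ))).1 = 0 := by
        have : ((0 : F), (0 : ℂ)) = 0 := rfl
        rw [this, map_zero]; rfl
      rw [e3]
      simpa [e1] using w2
    have e4 : fderiv ℂ (φ n) z w = 0 := eq_of_fst (hσ n z.1 hz1).1 (hσ n z.1 hz1).2.1 e2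
    have e5 : w = (0, w.2) := Prod.ext e1 rfl
    have e6 : w.2 = 0 := by
      refine (hcov n z.1 hz1).2.1 z.2 (mem_snd hz) w.2 ?_
      rw [Prod.mk.eta, ← e5]
      exact e4
    exact Prod.ext e1 e6
  · -- onto
    rintro ⟨u, v⟩
    obtain ⟨n, x, hx, hu⟩ := s1 u
    have hxj : ∀ j, orb g n j x ∈ ball (0 : G) r := fun j => (orb_le hg n hx j).2
    have huj : ∀ j, Ψ₁ (n + j) (orb g n j x) = u := by
      intro j
      induction j with
      | zero => exact hu
      | succ j ih => exact (c1 (n + j) _ (hxj j)).trans ih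
    choose s hs using fun j => surj_of_unit (hσ (n + j) _ (hxj j)).1 (v, (1 : ℂ))
    have hs2 : ∀ j, s j = ((s j).1, 1) := by
      intro j
      refine Prod.ext rfl ?_
      have := snd_eq (hσ (n + j) _ (hxj j)).2.1 (s j)
      rw [hs j] at this
      exact this.symm
    have hrec : ∀ j, (s (j + 1)).1 = M (n + j) (orb g n j x) (s j).1 + q (n + j) (orb g n j x) := by
      intro j
      have e1 : σ (n + j + 1) (g (n + j) (orb g n j x))
          (af (M (n + j) (orb g n j x)) (q (n + j) (orb g n j x)) (s j)) = (v, 1) := by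
        have := congrArg (fun T : (F × ℂ) →L[ℂ] (F × ℂ) => T (s j)) (hσ (n + j) _ (hxj j)).2.2
        rw [← hs j]
        exact this
      have e2 : σ (n + j + 1) (g (n + j) (orb g n j x)) (s (j + 1)) = (v, 1) := hs (j + 1)
      have e3 := inj_of_unit (hσ (n + j + 1) _ (hxj (j + 1))).1 (e2.trans e1.symm)
      have e4 := congrArg Prod.fst e3
      rw [e4, hs2 j, af_app, one_smul]
    obtain ⟨j, hj⟩ : ∃ j, ‖(s j).1‖ < r / 2 := by
      refine small (a := fun j => ‖(s j).1‖) (K := |C'| * r) (by positivity) (norm_nonneg _) (by linarith) ?_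
      intro j
      change ‖(s (j + 1)).1‖ ≤ ‖(s j).1‖ / 2 + |C'| * r * (1 / 4) ^ j
      rw [hrec j]
      have b1 := (hMq (n + j) _ (hxj j)).1
      have b2 := (hMq (n + j) _ (hxj j)).2
      have b3 : ‖M (n + j) (orb g n j x) (s j).1‖ ≤ ‖(s j).1‖ / 2 := by
        refine le_trans (ContinuousLinearMap.le_opNorm _ _) ?_
        have := mul_le_mul_of_nonneg_right b1 (norm_nonneg (s j).1)
        linarith
      have b4 : C' * ‖orb g n j x‖ ≤ |C'| * r * (1 / 4) ^ j := by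
        have t1 := (orb_le hg n hx j).1
        have t2 : ‖x‖ ≤ r := by
          rw [mem_ball_zero_iff] at hx
          exact hx.le
        calc C' * ‖orb g n j x‖ ≤ |C'| * ‖orb g n j x‖ :=
              mul_le_mul_of_nonneg_right (le_abs_self _) (norm_nonneg _)
          _ ≤ |C'| * ((1 / 4) ^ j * r) := by
              refine mul_le_mul_of_nonneg_left (le_trans t1 ?_) (abs_nonneg _)
              exact mul_le_mul_of_nonneg_left t2 (by positivity)
          _ = |C'| * r * (1 / 4) ^ j := by ring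
      exact le_trans (norm_add_le _ _) (by linarith)
    obtain ⟨y, hy, hφy⟩ := (hcov (n + j) _ (hxj j)).2.2 (s j).1 hj
    refine ⟨n + j, (orb g n j x, y), ?_, ?_⟩
    · rw [mem_ball_zero_iff, Prod.norm_def]
      have a1 := hxj j
      rw [mem_ball_zero_iff] at a1 hy
      exact max_lt a1 hy
    · refine Prod.ext (huj j) ?_
      change (σ (n + j) (orb g n j x) (φ (n + j) (orb g n j x, y), 1)).1 = v
      rw [hφy, ← hs2 j, hs j]

end Pool.Agent.Lib.BedF
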