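import Pool.Agent.Lib.BedF.SpecA

/-!
# BedF, BSq: block sequences are attracting sequences
-/

set_option autoImplicit false

open scoped Topology
open Set Filter Metric

namespace Pool.Agent.Lib.BedF

namespace BSqM

section
variable {G F : Type} [NormedAddCommGroup G] [NormedSpace ℂ G] [NormedAddCommGroup F] [NormedSpace ℂ F]

/-- The block map. -/
theorem pm_apply (a : G →L[ℂ] G) (b : F →L[ℂ] F) (x : G × F) : (a.prodMap b) x = (a x.1, b x.2) := rfl

theorem up {a : G →L[ℂ] G} {b : F →L[ℂ] F} (ha : ∀ x, ‖a x‖ ≤ 1 / 8 * ‖x‖) (hb : ‖b‖ ≤ 1 / 8) (x : G × F) :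
    ‖(a.prodMap b) x‖ ≤ 1 / 8 * ‖x‖ := by
  rw [pm_apply, Prod.norm_def]
  have h1 : ‖x.1‖ ≤ ‖x‖ := norm_fst_le x
  have h2 : ‖x.2‖ ≤ ‖x‖ := norm_snd_le x
  refine max_le ?_ ?_
  · exact (ha x.1).trans (by linarith)
  · refine (b.le_opNorm x.2).trans ?_
    have : ‖b‖ * ‖x.2‖ ≤ 1 / 8 * ‖x.2‖ := mul_le_mul_of_nonneg_right hb (norm_nonneg _)
    linarith

theorem low {a : G →L[ℂ] G} {b : F →L[ℂ] F} {c : ℝ} (hc : 0 < c) (ha : ∀ x, c * ‖x‖ ≤ ‖a x‖)
    (hb : ∀ y, c * ‖y‖ ≤ ‖b y‖) (x : G × F) : c * ‖x‖ ≤ ‖(a.prodMap b) x‖ := by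
  rw [pm_apply, Prod.norm_def, Prod.norm_def, mul_max_of_nonneg _ _ hc.le]
  exact max_le_max (ha x.1) (hb x.2)

end

end BSqM

open BSqM in
theorem bsqP : S_Inv → S_BSq := by
  intro hI G F _ _ _ _ _ _ R C c f a b hB
  have hR := hB.R_pos
  have hC := hB.C_pos
  have hc := hB.c_pos
  have hCR : 0 < C * R := mul_pos hC hR
  have hc2 : c ^ 2 ≤ c := by nlinarith [hB.c_le]
  have hs : 4096 * (C * R) ≤ c ^ 2 := by
    have := hB.small
    norm_num at this
    linarith [this]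
  have hθ : 2 * C * R < c := by nlinarith
  have hquad : ∀ n, ∀ x ∈ ball (0 : G × F) R, ∀ y ∈ ball (0 : G × F) R,
      ‖(f n x - ((a n).prodMap (b n)) x) - (f n y - ((a n).prodMap (b n)) y)‖ ≤
        C * (‖x‖ + ‖y‖) * ‖x - y‖ := fun n x hx y hy => hB.quad n x hx y hy
  have hlow : ∀ n (x : G × F), c * ‖x‖ ≤ ‖((a n).prodMap (b n)) x‖ := fun n x =>
    BSqM.low hc (hB.alow n) (hB.blow n) x
  have hup : ∀ n (x : G × F), ‖((a n).prodMap (b n)) x‖ ≤ 1 / 8 * ‖x‖ := fun n x =>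
    BSqM.up (hB.aup n) (hB.bup n) x
  have hinv := fun n => hI (G × F) ((a n).prodMap (b n)) c (2 * C * R) R (f n) (by positivity) hθ
    (hlow n) (hB.diff n) (by
      intro x hx y hy
      refine (hquad n x hx y hy).trans ?_
      refine mul_le_mul_of_nonneg_right ?_ (norm_nonneg _)
      have h1 : ‖x‖ < R := by simpa using hx
      have h2 : ‖y‖ < R := by simpa using hy
      nlinarith)
  have hpos : 0 < c - 2 * C * R := by linarith
  refine ⟨hR, by norm_num, by norm_num, hC, hc, hB.diff, ?_, ?_, ?_, hquad, ?_, hlow⟩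
  · intro n x hx y hy hxy
    have h := (hinv n).1 x hx y hy
    rw [hxy, sub_self, norm_zero] at h
    have h3 : ‖x - y‖ ≤ 0 := by
      by_contra hne
      push Not at hne
      have := mul_pos hpos hne
      linarith
    exact sub_eq_zero.mp (norm_le_zero_iff.mp h3)
  · intro n x hx w hw
    have h := (hinv n).2.1 x hx w
    rw [hw, norm_zero] at h
    have h3 : ‖w‖ ≤ 0 := by
      by_contra hne
      push Not at hne
      have := mul_pos hpos hne
      linarith
    exact norm_le_zero_iff.mp h3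
  · intro n x hx
    have h0 : (0 : G × F) ∈ ball (0 : G × F) R := mem_ball_self hR
    have h := hquad n x hx 0 h0
    rw [hB.zero n, map_zero, sub_zero, sub_zero, norm_zero, add_zero, sub_zero] at h
    have h1 : ‖x‖ < R := by simpa using hx
    have hn := norm_nonneg x
    have h2 : C * ‖x‖ * ‖x‖ ≤ 1 / 8 * ‖x‖ := by
      refine mul_le_mul_of_nonneg_right ?_ hn
      have h3 : C * ‖x‖ ≤ C * R := mul_le_mul_of_nonneg_left h1.le hC.le
      nlinarith [hB.c_le]
    have h4 : ‖f n x‖ ≤ ‖f n x - ((a n).prodMap (b n)) x‖ + ‖((a n).prodMap (b n)) x‖ := by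
      have := norm_add_le (f n x - ((a n).prodMap (b n)) x) (((a n).prodMap (b n)) x)
      rwa [sub_add_cancel] at this
    have h5 := hup n x
    linarith
  · intro n x
    refine (hup n x).trans ?_
    have hn := norm_nonneg x
    linarith

end Pool.Agent.Lib.BedF
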