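import Pool.Agent.Lib.BedF.SpecB
import Pool.Agent.Lib.BedG.Main
import Pool.Agent.Lib.BedD.Main

set_option autoImplicit false

open scoped Topology
open Set Filter Metric

namespace Pool.Agent.Lib.BedF

theorem bseP : S_Bse := by
  intro k r D C c f A U W hf hFC
  obtain ⟨C₁, lam, mu, hC, h0, h1, hmu, hor, hb⟩ := hFC.base
  have htop : U 0 = ⊤ := hFC.top
  rcases hor with h5 | ⟨h2, h3⟩
  · exact BedG.seqDC BedG.sQL BedG.sQB BedG.seqGC k r D C c f A hf
      ⟨C₁, lam, mu, hC, h0, h1, hmu, h5, fun n q z => hb n q z (by rw [htop]; trivial)⟩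
  · rw [htop, finrank_top, Module.finrank_fin_fun] at h2
    subst h2
    exact BedD.seqDC BedD.sQL BedD.sQB BedD.seqEC r D C c f A hf
      ⟨C₁, lam, mu, hC, h0, h1, hmu, h3, fun n q z => hb n q z (by rw [htop]; trivial)⟩

end Pool.Agent.Lib.BedF
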