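import Pool.Agent.Lib.BedF.SpecA
import Pool.Agent.Lib.Osgood

set_option autoImplicit false

open scoped Topology
open Set Filter Metric

namespace Pool.Agent.Lib.BedF

theorem cauP : S_Cau := by
  intro G F W _ _ _ _ _ _ _ _ _ R K η hK hη hb ρ hρ z hz w hw
  have hρ0 : 0 < ρ := by
    have := mem_ball_zero_iff.1 hz
    exact lt_of_le_of_lt (norm_nonneg _) this
  have hsub : ∀ u ∈ ball (0 : G × F) ρ, ball u ρ ⊆ ball (0 : G × F) (2 * ρ) := by
    intro u hu v hv
    rw [mem_ball_zero_iff] at hu ⊢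
    rw [mem_ball, dist_eq_norm] at hv
    have := norm_add_le (v - u) u
    rw [sub_add_cancel] at this
    linarith
  have hR : ball (0 : G × F) (2 * ρ) ⊆ ball 0 R := ball_subset_ball hρ
  have hd : ∀ u ∈ ball (0 : G × F) ρ, ‖fderiv ℂ η u‖ ≤ 4 * K * ρ := by
    intro u hu
    have h1 := Pool.Agent.Lib.Osgood.norm_fderiv_le (f := η) (z := u) (R := ρ) (M := K * (2 * ρ) * (2 * ρ)) hρ0
      (hη.mono ((hsub u hu).trans hR)) (fun v hv => by
        have h2 := hsub u hu hv
        have h3 := hb v (hR h2)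
        rw [mem_ball_zero_iff] at h2
        have h4 : ‖v.2‖ ≤ ‖v‖ := norm_snd_le v
        refine h3.trans ?_
        have h5 : K * ‖v‖ ≤ K * (2 * ρ) := mul_le_mul_of_nonneg_left h2.le hK
        exact mul_le_mul h5 (h4.trans h2.le) (norm_nonneg _) (by positivity))
    refine h1.trans (le_of_eq ?_)
    field_simp
    ring
  have hconv : Convex ℝ (ball (0 : G × F) ρ) := convex_ball _ _
  have hdiff : ∀ u ∈ ball (0 : G × F) ρ, DifferentiableAt ℂ η u := by
    intro u hu
    refine (hη u (hR (ball_subset_ball (by linarith) hu))).differentiableAt ?_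
    exact isOpen_ball.mem_nhds (hR (ball_subset_ball (by linarith) hu))
  have := hconv.norm_image_sub_le_of_norm_fderiv_le (𝕜 := ℂ) hdiff hd hw hz
  exact this

end Pool.Agent.Lib.BedF
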