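import Pool.Agent.Lib.BedF.SpecA

/-!
# Theorem F (MP_6f050a_an): pull back, contraction (`S_Ct`)
-/

set_option autoImplicit false

open scoped Topology
open Set Filter Metric

namespace Pool.Agent.Lib.BedF

namespace CtM

section
variable {G F : Type} [NormedAddCommGroup G] [NormedSpace ℂ G] [NormedAddCommGroup F] [NormedSpace ℂ F]
  {R C c : ℝ} {f : ℕ → G × F → G × F} {a : ℕ → G →L[ℂ] G} {b : ℕ → F →L[ℂ] F}

theorem low (hB : Blk R C c f a b) (n : ℕ) (x : G) : max (16 * ‖b n‖) c * ‖x‖ ≤ ‖a n x‖ := by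
  rcases le_total (16 * ‖b n‖) c with h | h
  · rw [max_eq_right h]; exact hB.alow n x
  · rw [max_eq_left h]; exact hB.dom n x

theorem CR (hB : Blk R C c f a b) : C * R ≤ c / 4096 := by
  have h1 := hB.small
  have h2 := hB.c_le
  have h3 := hB.c_pos
  have h4 : c ^ 2 ≤ c := by nlinarith
  norm_num at h1
  linarith

theorem KR (hB : Blk R C c f a b) : 16 * C / c * R ≤ c / 256 := by
  have h1 := hB.small
  have h3 := hB.c_pos
  have h4 : 16 * C / c * R = 16 * C * R / c := by ring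
  rw [h4, div_le_iff₀ h3]
  norm_num at h1
  nlinarith

theorem Kpos (hB : Blk R C c f a b) : 0 < 16 * C / c :=
  div_pos (mul_pos (by norm_num) hB.C_pos) hB.c_pos

theorem lin (hB : Blk R C c f a b) (n : ℕ) (z w : G × F) :
    ‖((a n z.1, b n z.2) : G × F) - (a n w.1, b n w.2)‖ ≤ 1 / 8 * ‖z - w‖ := by
  rw [Prod.mk_sub_mk, ← map_sub, ← map_sub, Prod.norm_mk]
  refine max_le ?_ ?_
  · refine (hB.aup n _).trans ?_
    have := norm_fst_le (z - w)
    rw [Prod.fst_sub] at this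
    linarith
  · refine ((b n).le_opNorm _).trans ?_
    have h1 := norm_snd_le (z - w)
    rw [Prod.snd_sub] at h1
    have h2 := hB.bup n
    exact mul_le_mul h2 h1 (norm_nonneg _) (by norm_num)

theorem flip (hB : Blk R C c f a b) (n : ℕ) (z w : G × F) (hz : z ∈ ball (0 : G × F) R)
    (hw : w ∈ ball (0 : G × F) R) : ‖f n z - f n w‖ ≤ 1 / 4 * ‖z - w‖ := by
  have h1 := hB.quad n z hz w hw
  have h2 := lin hB n z w
  have h3 : f n z - f n w = ((f n z - (a n z.1, b n z.2)) - (f n w - (a n w.1, b n w.2)))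
      + (((a n z.1, b n z.2) : G × F) - (a n w.1, b n w.2)) := by abel
  rw [h3]
  refine (norm_add_le _ _).trans ?_
  rw [mem_ball_zero_iff] at hz hw
  have h4 := CR hB
  have h5 := hB.c_le
  have h6 : C * (‖z‖ + ‖w‖) ≤ 1 / 8 := by
    have h7 : C * (‖z‖ + ‖w‖) ≤ C * (2 * R) := mul_le_mul_of_nonneg_left (by linarith) hB.C_pos.le
    linarith
  have h8 := mul_le_mul_of_nonneg_right h6 (norm_nonneg (z - w))
  linarith

theorem fz (hB : Blk R C c f a b) (n : ℕ) (z : G × F) (hz : z ∈ ball (0 : G × F) R) :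
    ‖f n z‖ ≤ 1 / 4 * ‖z‖ := by
  have h := flip hB n z 0 hz (mem_ball_self hB.R_pos)
  rwa [hB.zero, sub_zero, sub_zero] at h

end

section
variable {G F : Type} [NormedAddCommGroup G] [NormedSpace ℂ G] [FiniteDimensional ℂ G]
  [NormedAddCommGroup F] [NormedSpace ℂ F] [FiniteDimensional ℂ F]
  {R C c : ℝ} {f : ℕ → G × F → G × F} {a : ℕ → G →L[ℂ] G} {b : ℕ → F →L[ℂ] F}

omit [NormedSpace ℂ G] [FiniteDimensional ℂ G] [NormedSpace ℂ F] [FiniteDimensional ℂ F] in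
theorem nx0 (x : G) : ‖((x, 0) : G × F)‖ = ‖x‖ := by
  rw [Prod.norm_mk, norm_zero, max_eq_left (norm_nonneg x)]

omit [FiniteDimensional ℂ G] [FiniteDimensional ℂ F] in
theorem dfP (hB : Blk R C c f a b) (n : ℕ) {η : G × F → G} (hη : Cls R C c η) :
    DifferentiableOn ℂ (fun x : G => PP (f n) η (x, 0)) (ball 0 R) := by
  have h0 : DifferentiableOn ℂ (fun x : G => ((x, 0) : G × F)) (ball 0 R) :=
    (differentiable_id.prodMk (differentiable_const 0)).differentiableOn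
  have h1 : DifferentiableOn ℂ (fun x : G => f n (x, 0)) (ball 0 R) := by
    refine (hB.diff n).comp h0 ?_
    intro x hx
    rw [mem_ball_zero_iff] at hx ⊢
    rwa [nx0]
  have h2 : DifferentiableOn ℂ (fun x : G => η (f n (x, 0))) (ball 0 R) := by
    refine hη.1.comp h1 ?_
    intro x hx
    have hx' : ((x, 0) : G × F) ∈ ball (0 : G × F) R := by
      rw [mem_ball_zero_iff] at hx ⊢
      rwa [nx0]
    have h3 := fz hB n _ hx'
    rw [mem_ball_zero_iff] at hx ⊢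
    rw [nx0] at h3
    have := hB.R_pos
    linarith
  exact h1.fst.add h2

theorem lpP (hCau : S_Cau) (hB : Blk R C c f a b) (n : ℕ) {η : G × F → G} (hη : Cls R C c η) (x : G)
    (hx : x ∈ ball (0 : G) R) (y : G) (hy : y ∈ ball (0 : G) R) :
    ‖(PP (f n) η (x, 0) - a n x) - (PP (f n) η (y, 0) - a n y)‖ ≤ max (16 * ‖b n‖) c / 2 * ‖x - y‖ := by
  have hx' : ((x, 0) : G × F) ∈ ball (0 : G × F) R := by
    rw [mem_ball_zero_iff] at hx ⊢
    rwa [nx0]
  have hy' : ((y, 0) : G × F) ∈ ball (0 : G × F) R := by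
    rw [mem_ball_zero_iff] at hy ⊢
    rwa [nx0]
  have hR := hB.R_pos
  have hxy : ((x, 0) : G × F) - (y, 0) = (x - y, 0) := by rw [Prod.mk_sub_mk, sub_zero]
  have h1 := hB.quad n _ hx' _ hy'
  have h2 := (norm_fst_le _).trans h1
  rw [hxy, nx0, nx0, nx0] at h2
  have h3 := flip hB n _ _ hx' hy'
  rw [hxy, nx0] at h3
  have m1 : f n (x, 0) ∈ ball (0 : G × F) (R / 4) := by
    have h4 := fz hB n _ hx'
    rw [mem_ball_zero_iff] at hx ⊢
    rw [nx0] at h4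
    linarith
  have m2 : f n (y, 0) ∈ ball (0 : G × F) (R / 4) := by
    have h4 := fz hB n _ hy'
    rw [mem_ball_zero_iff] at hy ⊢
    rw [nx0] at h4
    linarith
  have h5 := hCau G F G (R / 2) (16 * C / c) η (Kpos hB).le hη.1 hη.2 (R / 4) (by linarith) _ m1 _ m2
  have h6 : (PP (f n) η (x, 0) - a n x) - (PP (f n) η (y, 0) - a n y)
      = ((f n (x, 0) - (a n x, b n 0)) - (f n (y, 0) - (a n y, b n 0))).1
        + (η (f n (x, 0)) - η (f n (y, 0))) := by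
    simp only [PP, Prod.fst_sub]
    abel
  rw [h6]
  refine (norm_add_le _ _).trans ?_
  rw [mem_ball_zero_iff] at hx hy
  have h7 : C * (‖x‖ + ‖y‖) ≤ c / 2048 := by
    have h8 : C * (‖x‖ + ‖y‖) ≤ C * (2 * R) := mul_le_mul_of_nonneg_left (by linarith) hB.C_pos.le
    have := CR hB
    linarith
  have h9 : 4 * (16 * C / c) * (R / 4) ≤ c / 256 := by
    have := KR hB
    linarith
  have h10 : ‖η (f n (x, 0)) - η (f n (y, 0))‖ ≤ c / 256 * (1 / 4 * ‖x - y‖) :=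
    h5.trans (mul_le_mul h9 h3 (norm_nonneg _) (by have := hB.c_pos; positivity))
  have h11 := mul_le_mul_of_nonneg_right h7 (norm_nonneg (x - y))
  have h12 : c * ‖x - y‖ ≤ max (16 * ‖b n‖) c * ‖x - y‖ :=
    mul_le_mul_of_nonneg_right (le_max_right _ _) (norm_nonneg _)
  have h13 : 0 ≤ c * ‖x - y‖ := mul_nonneg hB.c_pos.le (norm_nonneg _)
  have h14 := h2.trans h11
  linarith

end

end CtM

open CtM in
theorem ctP : S_Inv → S_Cau → S_Ct := by
  intro hInv hCau G F _ _ _ _ _ _ R C c f a b hB n η₁ η₂ η₁' η₂' δ hδ h₁ h₂ p₁ p₂ hd z hz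
  have hR := hB.R_pos
  have hc := hB.c_pos
  have hz' : ‖z‖ < R / 2 := mem_ball_zero_iff.1 hz
  have hzR : z ∈ ball (0 : G × F) R := by rw [mem_ball_zero_iff]; linarith
  rcases (norm_nonneg z).eq_or_lt with h0 | hz0
  · have b1 := p₁.1.2 z hz
    have b2 := p₂.1.2 z hz
    rw [← h0, mul_zero, zero_mul] at b1 b2
    rw [norm_le_zero_iff.1 b1, norm_le_zero_iff.1 b2, sub_zero, norm_zero, ← h0, mul_zero, zero_mul]
  obtain ⟨m1, e1⟩ := p₁.2 z hz
  obtain ⟨m2, e2⟩ := p₂.2 z hz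
  set α : ℝ := max (16 * ‖b n‖) c with hα
  have hcα : c ≤ α := le_max_right _ _
  have hbα : 16 * ‖b n‖ ≤ α := le_max_left _ _
  have hα0 : 0 < α := hc.trans_le hcα
  have I := (hInv G (a n) α (α / 2) R (fun x : G => PP (f n) η₁ (x, 0)) (by linarith) (by linarith)
    (low hB n) (dfP hB n h₁) (lpP hCau hB n h₁)).1 _ m1 _ m2
  have hsub : (z.1 + η₁' z) - (z.1 + η₂' z) = η₁' z - η₂' z := by abel
  rw [hsub] at I
  -- the difference
  have hdiff : PP (f n) η₁ (z.1 + η₁' z, 0) - PP (f n) η₁ (z.1 + η₂' z, 0)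
      = (η₁ (f n z) - η₂ (f n z)) - (η₁ (f n (z.1 + η₂' z, 0)) - η₂ (f n (z.1 + η₂' z, 0))) := by
    rw [e1]
    have e2' : (f n (z.1 + η₂' z, 0)).1 + η₂ (f n (z.1 + η₂' z, 0)) = (f n z).1 + η₂ (f n z) := e2
    have e3 : (f n (z.1 + η₂' z, 0)).1 = (f n z).1 + η₂ (f n z) - η₂ (f n (z.1 + η₂' z, 0)) := by
      rw [← e2']; abel
    simp only [PP]
    rw [e3]
    abel
  rw [hdiff] at I
  -- sizes
  have hK := Kpos hB
  have hKR := KR hB
  have hCR := CR hB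
  have z1 := norm_fst_le z
  have z2 := norm_snd_le z
  have q1 : ‖η₂' z‖ ≤ c / 512 * ‖z.2‖ := by
    refine (p₂.1.2 z hz).trans (mul_le_mul_of_nonneg_right ?_ (norm_nonneg _))
    have := mul_le_mul_of_nonneg_left hz'.le hK.le
    linarith
  have q2 : ‖η₂' z‖ ≤ 1 / 512 * ‖z.2‖ :=
    q1.trans (mul_le_mul_of_nonneg_right (by have := hB.c_le; linarith) (norm_nonneg _))
  have q3 : ‖z.1 + η₂' z‖ ≤ 2 * ‖z‖ - 1 / 2 * ‖z‖ := by
    refine (norm_add_le _ _).trans ?_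
    linarith [norm_nonneg z]
  have hx2 : ((z.1 + η₂' z, 0) : G × F) ∈ ball (0 : G × F) R := by
    rw [mem_ball_zero_iff, nx0]; exact mem_ball_zero_iff.1 m2
  have mf1 : f n z ∈ ball (0 : G × F) (‖z‖ / 2) := by
    rw [mem_ball_zero_iff]
    have := fz hB n z hzR
    linarith
  have mf2 : f n (z.1 + η₂' z, 0) ∈ ball (0 : G × F) (‖z‖ / 2) := by
    rw [mem_ball_zero_iff]
    have := fz hB n _ hx2
    rw [nx0] at this
    linarith
  have D := hCau G F G (R / 2) δ (fun w => η₁ w - η₂ w) hδ (h₁.1.sub h₂.1) hd (‖z‖ / 2) (by linarith) _ mf1 _ mf2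
  have J := I.trans D
  -- the distance of the images
  have hdist : ‖z - (z.1 + η₂' z, 0)‖ ≤ ‖z.2‖ := by
    have h3 : z - (z.1 + η₂' z, 0) = (- η₂' z, z.2) := by
      ext
      · simp
      · simp
    rw [h3, Prod.norm_mk, norm_neg]
    exact max_le (by linarith [norm_nonneg z.2]) le_rfl
  have Q := hB.quad n z hzR _ hx2
  have Q2 : C * (‖z‖ + ‖((z.1 + η₂' z, 0) : G × F)‖) * ‖z - (z.1 + η₂' z, 0)‖ ≤ c / 2048 * ‖z.2‖ := by
    refine mul_le_mul ?_ hdist (norm_nonneg _) (by positivity)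
    rw [nx0]
    have h4 : C * (‖z‖ + ‖z.1 + η₂' z‖) ≤ C * (2 * R) :=
      mul_le_mul_of_nonneg_left (by linarith [mem_ball_zero_iff.1 m2]) hB.C_pos.le
    linarith
  have L : ‖((a n z.1, b n z.2) : G × F) - (a n (z.1 + η₂' z), b n 0)‖ ≤ α / 16 * ‖z.2‖ := by
    rw [Prod.mk_sub_mk, ← map_sub, ← map_sub, Prod.norm_mk, sub_zero]
    refine max_le ?_ ?_
    · refine (hB.aup n _).trans ?_
      have h5 : z.1 - (z.1 + η₂' z) = - η₂' z := by abel
      rw [h5, norm_neg]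
      have h6 := mul_le_mul_of_nonneg_right hcα (norm_nonneg z.2)
      have h7 : 0 ≤ c * ‖z.2‖ := mul_nonneg hc.le (norm_nonneg _)
      linarith
    · refine ((b n).le_opNorm _).trans (mul_le_mul_of_nonneg_right ?_ (norm_nonneg _))
      linarith
  have M : ‖f n z - f n (z.1 + η₂' z, 0)‖ ≤ α / 15 * ‖z.2‖ := by
    have h8 : f n z - f n (z.1 + η₂' z, 0)
        = ((f n z - (a n z.1, b n z.2)) - (f n (z.1 + η₂' z, 0) - (a n (z.1 + η₂' z), b n 0)))
        + (((a n z.1, b n z.2) : G × F) - (a n (z.1 + η₂' z), b n 0)) := by abel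
    rw [h8]
    refine (norm_add_le _ _).trans ?_
    have h9 := Q.trans Q2
    have h6 := mul_le_mul_of_nonneg_right hcα (norm_nonneg z.2)
    have h7 : 0 ≤ c * ‖z.2‖ := mul_nonneg hc.le (norm_nonneg _)
    linarith
  have N : 4 * δ * (‖z‖ / 2) * ‖f n z - f n (z.1 + η₂' z, 0)‖ ≤ 4 * δ * (‖z‖ / 2) * (α / 15 * ‖z.2‖) :=
    mul_le_mul_of_nonneg_left M (by positivity)
  have O := J.trans N
  have P : α * ‖η₁' z - η₂' z‖ ≤ α * (δ / 2 * ‖z‖ * ‖z.2‖) := by
    have h10 : 0 ≤ α * (δ * ‖z‖ * ‖z.2‖) := by positivity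
    have h11 : 4 * δ * (‖z‖ / 2) * (α / 15 * ‖z.2‖) = 2 / 15 * (α * (δ * ‖z‖ * ‖z.2‖)) := by ring
    have h12 : (α - α / 2) * ‖η₁' z - η₂' z‖ = 1 / 2 * (α * ‖η₁' z - η₂' z‖) := by ring
    have h13 : α * (δ / 2 * ‖z‖ * ‖z.2‖) = 1 / 2 * (α * (δ * ‖z‖ * ‖z.2‖)) := by ring
    rw [h11, h12] at O
    rw [h13]
    linarith
  exact le_of_mul_le_mul_left P hα0

end Pool.Agent.Lib.BedF
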