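import Pool.Agent.Lib.BedF.SpecA
import Pool.Agent.Lib.Osgood

/-!
# Theorem F (MP_6f050a_an), task Cvr: `φ n (x, .)` is an open embedding of small balls
-/

set_option autoImplicit false

open scoped Topology
open Set Filter Metric

namespace Pool.Agent.Lib.BedF

/-- Task Cvr. -/
theorem cvrP : S_Inv → S_Cvr := by
  intro hInv G F _ _ _ _ _ _ ρ C' φ hρ hC hd hb
  refine ⟨min (ρ / 2) (1 / (8 * C')), by positivity, (min_le_left _ _).trans (by linarith), ?_⟩
  intro r hr hr0 n x hx
  let _ : NormedSpace ℝ F := NormedSpace.complexToReal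
  have h1 : r ≤ ρ / 2 := hr0.trans (min_le_left _ _)
  have h2 : r ≤ 1 / (8 * C') := hr0.trans (min_le_right _ _)
  have h3 : C' * r ≤ 1 / 8 := by
    rw [le_div_iff₀ (by positivity)] at h2
    linarith
  have hx' : ‖x‖ < r := by simpa using hx
  have hmem : ∀ y : F, ‖y‖ < ρ → (x, y) ∈ ball (0 : G × F) ρ := by
    intro y hy
    rw [mem_ball_zero_iff, Prod.norm_def]
    exact max_lt (by linarith) hy
  have hpair : ∀ y : F, HasFDerivAt (fun y : F => (x, y)) (ContinuousLinearMap.inr ℂ G F) y :=
    fun y => hasFDerivAt_prodMk_right x y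
  have hφd : ∀ y : F, ‖y‖ < ρ → DifferentiableAt ℂ (φ n) (x, y) := fun y hy =>
    (hd n).differentiableAt (isOpen_ball.mem_nhds (hmem y hy))
  have hψd : ∀ y : F, ‖y‖ < ρ → HasFDerivAt (fun y => φ n (x, y))
      ((fderiv ℂ (φ n) (x, y)).comp (ContinuousLinearMap.inr ℂ G F)) y := fun y hy =>
    (hφd y hy).hasFDerivAt.comp y (hpair y)
  have hed : ∀ y : F, ‖y‖ < ρ → DifferentiableAt ℂ (fun y => φ n (x, y) - y) y := fun y hy =>
    (hψd y hy).differentiableAt.sub differentiableAt_id
  have heb : ∀ y ∈ ball (0 : F) r, ‖fderiv ℂ (fun y => φ n (x, y) - y) y‖ ≤ 1 / 2 := by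
    intro y hy
    have hy' : ‖y‖ < r := by simpa using hy
    have hw2 : ∀ w ∈ ball y r, ‖w‖ < 2 * r := by
      intro w hw
      have h4 : ‖w - y‖ < r := by simpa [dist_eq_norm] using hw
      have h5 : ‖w‖ ≤ ‖w - y‖ + ‖y‖ := by
        have := norm_add_le (w - y) y
        rwa [sub_add_cancel] at this
      linarith
    have h6 : ∀ w ∈ ball y r, ‖φ n (x, w) - w‖ ≤ C' * (2 * r) ^ 2 := by
      intro w hw
      have h7 := hw2 w hw
      refine (hb n (x, w) (hmem w (by linarith))).trans ?_
      refine mul_le_mul_of_nonneg_left ?_ hC.le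
      exact pow_le_pow_left₀ (norm_nonneg _) h7.le 2
    have h8 := Pool.Agent.Lib.Osgood.norm_fderiv_le (f := fun y => φ n (x, y) - y) hr
      (fun w hw => (hed w (by linarith [hw2 w hw])).differentiableWithinAt) h6
    refine h8.trans ?_
    rw [div_le_iff₀ hr]
    nlinarith
  have hlip : ∀ y ∈ ball (0 : F) r, ∀ y' ∈ ball (0 : F) r,
      ‖(φ n (x, y) - (ContinuousLinearMap.id ℂ F) y) - (φ n (x, y') - (ContinuousLinearMap.id ℂ F) y')‖
        ≤ 1 / 2 * ‖y - y'‖ := by
    intro y hy y' hy'
    exact Convex.norm_image_sub_le_of_norm_fderiv_le (𝕜 := ℂ) (f := fun y => φ n (x, y) - y)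
      (fun w hw => hed w (by have : ‖w‖ < r := by simpa using hw
                             linarith)) heb (convex_ball _ _) hy' hy
  have hI := hInv F (ContinuousLinearMap.id ℂ F) 1 (1 / 2) r (fun y => φ n (x, y)) (by norm_num)
    (by norm_num) (fun y => by simp)
    (fun y hy => (hψd y (by have : ‖y‖ < r := by simpa using hy
                            linarith)).differentiableAt.differentiableWithinAt) hlip
  obtain ⟨hI1, hI2, hI3, -⟩ := hI
  refine ⟨?_, ?_, ?_⟩
  · intro y hy y' hy' hyy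
    have h4 := hI1 y hy y' hy'
    simp only [hyy, sub_self, norm_zero] at h4
    have h5 : ‖y - y'‖ ≤ 0 := by linarith
    exact sub_eq_zero.1 (norm_le_zero_iff.1 h5)
  · intro y hy w hw
    have hyr : ‖y‖ < r := by simpa using hy
    have h4 := hI2 y hy w
    rw [(hψd y (by linarith)).fderiv] at h4
    simp only [ContinuousLinearMap.comp_apply, ContinuousLinearMap.inr_apply, hw, norm_zero] at h4
    have h5 : ‖w‖ ≤ 0 := by linarith
    exact norm_le_zero_iff.1 h5
  · intro v hv
    have h0 : φ n (x, 0) = 0 := by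
      have h4 := hb n (x, 0) (hmem 0 (by simpa using hρ))
      simpa using h4
    refine hI3 0 r subset_rfl v ?_
    simp only [h0, sub_zero]
    linarith

end Pool.Agent.Lib.BedF
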