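import Pool.Agent.Lib.Bed.DefsM
import Pool.Agent.Lib.Bed.SpecN

/-!
# Stable manifolds with dominated splittings (MP_6f050a_an, Theorem F): definitions

`E = E_0 ⊕ E_1 ⊕ ... ⊕ E_r` dominated, `E_1, ..., E_r` bunched.  Fast blocks are split off one by one.
All spaces `G`, `F` are finite dimensional complex normed spaces, `G × F` has the sup norm; `G` is the slow block,
`F` the fast block.
-/

set_option autoImplicit false

open scoped Topology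
open Set Filter Metric

namespace Pool.Agent.Lib.BedF

/-! ## Sequences of maps -/

section
variable {E : Type} [NormedAddCommGroup E] [NormedSpace ℂ E]

/-- A uniformly attracting sequence of injective holomorphic maps of the ball of radius `r`, with linear parts `L n`
(`Bed.SeqD` for a general space). -/
structure Sq (r D C c : ℝ) (f : ℕ → E → E) (L : ℕ → E →L[ℂ] E) : Prop where
  r_pos : 0 < r
  D_pos : 0 < D
  D_lt : D < 1
  C_pos : 0 < C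
  c_pos : 0 < c
  diff : ∀ n, DifferentiableOn ℂ (f n) (ball 0 r)
  inj : ∀ n, InjOn (f n) (ball 0 r)
  dinj : ∀ n, ∀ x ∈ ball (0 : E) r, ∀ w, fderiv ℂ (f n) x w = 0 → w = 0
  contr : ∀ n, ∀ x ∈ ball (0 : E) r, ‖f n x‖ ≤ D * ‖x‖
  quad : ∀ n, ∀ x ∈ ball (0 : E) r, ∀ y ∈ ball (0 : E) r,
    ‖(f n x - L n x) - (f n y - L n y)‖ ≤ C * (‖x‖ + ‖y‖) * ‖x - y‖
  contrL : ∀ n x, ‖L n x‖ ≤ D * ‖x‖
  low : ∀ n x, c * ‖x‖ ≤ ‖L n x‖

/-- `i` steps of the orbit of `z`, starting at the time `m`. -/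
def orb {E : Type} (f : ℕ → E → E) (m : ℕ) : ℕ → E → E
  | 0, z => z
  | i + 1, z => f (m + i) (orb f m i z)

/-- The basin of `f` is biholomorphic to the space `H`. -/
def Bas (H : Type) [NormedAddCommGroup H] [NormedSpace ℂ H] (r : ℝ) (f : ℕ → E → E) : Prop :=
  ∃ Ψ : ℕ → E → H, (∀ n, DifferentiableOn ℂ (Ψ n) (ball 0 r)) ∧
    (∀ n, ∀ x ∈ ball (0 : E) r, Ψ (n + 1) (f n x) = Ψ n x) ∧
    (∀ n, InjOn (Ψ n) (ball 0 r)) ∧
    (∀ n, ∀ x ∈ ball (0 : E) r, ∀ w, fderiv ℂ (Ψ n) x w = 0 → w = 0) ∧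
    ∀ u, ∃ n, ∃ x ∈ ball (0 : E) r, Ψ n x = u

end

section
variable {G F : Type} [NormedAddCommGroup G] [NormedSpace ℂ G] [NormedAddCommGroup F] [NormedSpace ℂ F]

/-- Sequences on `G × F` with block diagonal linear parts `(a n, b n)`: `b n` is dominated by `a n` and bunched.  The
radius `R` is small. -/
structure Blk (R C c : ℝ) (f : ℕ → G × F → G × F) (a : ℕ → G →L[ℂ] G) (b : ℕ → F →L[ℂ] F) : Prop where
  R_pos : 0 < R
  C_pos : 0 < C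
  c_pos : 0 < c
  c_le : c ≤ 1
  small : 2 ^ 12 * C * R ≤ c ^ 2
  diff : ∀ n, DifferentiableOn ℂ (f n) (ball 0 R)
  zero : ∀ n, f n 0 = 0
  quad : ∀ n, ∀ z ∈ ball (0 : G × F) R, ∀ w ∈ ball (0 : G × F) R,
    ‖(f n z - (a n z.1, b n z.2)) - (f n w - (a n w.1, b n w.2))‖ ≤ C * (‖z‖ + ‖w‖) * ‖z - w‖
  aup : ∀ n x, ‖a n x‖ ≤ 1 / 8 * ‖x‖
  bup : ∀ n, ‖b n‖ ≤ 1 / 8
  alow : ∀ n x, c * ‖x‖ ≤ ‖a n x‖
  blow : ∀ n y, c * ‖y‖ ≤ ‖b n y‖
  dom : ∀ n x, 16 * ‖b n‖ * ‖x‖ ≤ ‖a n x‖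
  bun : ∀ n y, 16 * ‖b n‖ ^ 2 * ‖y‖ ≤ ‖b n y‖

/-- The functions `η` with `η = O(‖z‖ ‖z.2‖)` on the ball of radius `R / 2`, `K = 16 C / c`. -/
def Cls (R C c : ℝ) (η : G × F → G) : Prop :=
  DifferentiableOn ℂ η (ball 0 (R / 2)) ∧ ∀ z ∈ ball (0 : G × F) (R / 2), ‖η z‖ ≤ 16 * C / c * ‖z‖ * ‖z.2‖

/-- The first component of `f z`, corrected by `η`. -/
def PP (f : G × F → G × F) (η : G × F → G) (z : G × F) : G := (f z).1 + η (f z)

/-- `η'` is the pull back of `η` by `f`: the solution of `PP f η (x + η' z, 0) = PP f η z`. -/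
def IsPB (R C c : ℝ) (f : G × F → G × F) (η η' : G × F → G) : Prop :=
  Cls R C c η' ∧ ∀ z ∈ ball (0 : G × F) (R / 2), z.1 + η' z ∈ ball (0 : G) R ∧
    PP f η (z.1 + η' z, 0) = PP f η z

/-- The skew map with the components `g n`, `h n`. -/
def sk (g : ℕ → G → G) (h : ℕ → G × F → F) (n : ℕ) (z : G × F) : G × F := (g n z.1, h n z)

/-- Skew sequences `(x, y) ↦ (g n x, h n (x, y))` with bunched linear parts `b n` in the fibres, the
radius `R` is small. -/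
structure Skw (R C c : ℝ) (g : ℕ → G → G) (h : ℕ → G × F → F) (b : ℕ → F →L[ℂ] F) : Prop where
  R_pos : 0 < R
  C_pos : 0 < C
  c_pos : 0 < c
  c_le : c ≤ 1
  small : 2 ^ 12 * C * R ≤ c ^ 2
  gdiff : ∀ n, DifferentiableOn ℂ (g n) (ball 0 R)
  gcontr : ∀ n, ∀ x ∈ ball (0 : G) R, ‖g n x‖ ≤ 1 / 4 * ‖x‖
  hdiff : ∀ n, DifferentiableOn ℂ (h n) (ball 0 R)
  h0 : ∀ n, h n 0 = 0
  hquad : ∀ n, ∀ z ∈ ball (0 : G × F) R, ∀ w ∈ ball (0 : G × F) R,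
    ‖(h n z - b n z.2) - (h n w - b n w.2)‖ ≤ C * (‖z‖ + ‖w‖) * ‖z - w‖
  bup : ∀ n, ‖b n‖ ≤ 1 / 8
  blow : ∀ n y, c * ‖y‖ ≤ ‖b n y‖
  bun : ∀ n y, 16 * ‖b n‖ ^ 2 * ‖y‖ ≤ ‖b n y‖

/-- The derivative of `h n` in the direction of the fibre. -/
noncomputable def AA (h : ℕ → G × F → F) (n : ℕ) (z : G × F) : F →L[ℂ] F :=
  (fderiv ℂ (h n) z).comp (ContinuousLinearMap.inr ℂ G F)

/-- The derivative of `j` steps in the direction of the fibre. -/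
noncomputable def TT (g : ℕ → G → G) (h : ℕ → G × F → F) (n : ℕ) : ℕ → G × F → (F →L[ℂ] F)
  | 0, _ => 1
  | j + 1, z => AA h (n + j) (orb (sk g h) n j z) * TT g h n j z

/-- A sequence of maps of the ball of radius `R` of `G`, with linear parts `a n`; `R` is small. -/
structure Slw (R C c : ℝ) (g : ℕ → G → G) (a : ℕ → G →L[ℂ] G) : Prop where
  R_pos : 0 < R
  C_pos : 0 < C
  c_pos : 0 < c
  small : 2 ^ 5 * C * R ≤ c
  diff : ∀ n, DifferentiableOn ℂ (g n) (ball 0 R)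
  zero : ∀ n, g n 0 = 0
  contr : ∀ n, ∀ x ∈ ball (0 : G) R, ‖g n x‖ ≤ 1 / 4 * ‖x‖
  quad : ∀ n, ∀ x ∈ ball (0 : G) R, ∀ y ∈ ball (0 : G) R,
    ‖(g n x - a n x) - (g n y - a n y)‖ ≤ C * (‖x‖ + ‖y‖) * ‖x - y‖
  low : ∀ n x, c * ‖x‖ ≤ ‖a n x‖

/-- A compatible family of bounded holomorphic functions on the balls of radius `ρ`: a function on the basin of `g`. -/
structure Fmy {W : Type} [NormedAddCommGroup W] [NormedSpace ℂ W] (ρ : ℝ) (g : ℕ → G → G)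
    (P : ℕ → G → W) : Prop where
  diff : ∀ n, DifferentiableOn ℂ (P n) (ball 0 ρ)
  comp : ∀ n, ∀ x ∈ ball (0 : G) ρ, P (n + 1) (g n x) = P n x
  bdd : ∀ n, ∃ B : ℝ, ∀ x ∈ ball (0 : G) ρ, ‖P n x‖ ≤ B

/-- The affine map `v ↦ M v + q` of `F` as a linear map of `F × ℂ`. -/
noncomputable def af (M : F →L[ℂ] F) (q : F) : (F × ℂ) →L[ℂ] (F × ℂ) :=
  ((M.comp (ContinuousLinearMap.fst ℂ F ℂ)) + (ContinuousLinearMap.snd ℂ F ℂ).smulRight q).prod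
    (ContinuousLinearMap.snd ℂ F ℂ)

/-- The projection of `F × ℂ` on `0 × ℂ`; `T` is affine if `pr * T = pr`. -/
noncomputable def pr (F : Type) [NormedAddCommGroup F] [NormedSpace ℂ F] : (F × ℂ) →L[ℂ] (F × ℂ) :=
  (0 : (F × ℂ) →L[ℂ] F).prod (ContinuousLinearMap.snd ℂ F ℂ)

end

/-! ## The condition (F) -/

/-- The condition for the slowest block: the rates of contraction on `U` are between `mu` and `lam`, `lam^5 < mu^2`, or
`U` is two dimensional and `lam^3 < mu`. -/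
def BC {V : Type} [AddCommGroup V] [Module ℂ V] (N : ℕ → V → ℝ) (U : Submodule ℂ V) : Prop :=
  ∃ C lam mu : ℝ, 0 < C ∧ 0 < lam ∧ lam < 1 ∧ 0 < mu ∧
    (lam ^ 5 < mu ^ 2 ∨ (Module.finrank ℂ U = 2 ∧ lam ^ 3 < mu)) ∧
    ∀ n m : ℕ, ∀ v ∈ U, mu ^ m * N n v ≤ C * N (n + m) v ∧ N (n + m) v ≤ C * lam ^ m * N n v

/-- Condition (F) for the space `T` and the norms `N n` (`N n v` is the norm of `df^n v`): `T` is the direct sum of
`U 0` and `W 0, ..., W (r-1)`, `U i = U 0 + W 0 + ... + W (i-1)`; `W i` is dominated by `U i` and bunched. -/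
structure FC {V : Type} [AddCommGroup V] [Module ℂ V] (N : ℕ → V → ℝ) (r : ℕ) (U W : ℕ → Submodule ℂ V)
    (T : Submodule ℂ V) : Prop where
  top : U r = T
  sup : ∀ i < r, U (i + 1) = U i ⊔ W i
  disj : ∀ i < r, Disjoint (U i) (W i)
  dom : ∃ C η : ℝ, 0 < C ∧ 0 < η ∧ ∀ i < r, ∀ n m : ℕ, ∀ u ∈ U i, ∀ w ∈ W i,
    N (n + m) w * N n u ≤ C * Real.exp (-(η * m)) * (N n w * N (n + m) u)
  bun : ∃ C η : ℝ, 0 < C ∧ 0 < η ∧ ∀ i < r, ∀ n m : ℕ, ∀ v ∈ W i, ∀ w ∈ W i,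
    N (n + m) v ^ 2 * N n w ≤ C * Real.exp (-(η * m)) * (N n v ^ 2 * N (n + m) w)
  base : BC N (U 0)

end Pool.Agent.Lib.BedF
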