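import Pool.Agent.Lib.BedF.SpecA
import Pool.Agent.Lib.Bed.Wei

/-!
# Theorem F (MP_6f050a_an), module Dev: the affine structure of the fibres
-/

set_option autoImplicit false
set_option linter.unusedSectionVars false

open scoped Topology
open Set Filter Metric

namespace Pool.Agent.Lib.BedF

namespace DevM

theorem orb_head {E : Type} (f : ℕ → E → E) (n j : ℕ) (z : E) :
    orb f n (j + 1) z = orb f (n + 1) j (f n z) := by
  induction j with
  | zero => rfl
  | succ j ih =>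
    show f (n + (j + 1)) (orb f n (j + 1) z) = f (n + 1 + j) (orb f (n + 1) j (f n z))
    rw [ih, show n + (j + 1) = n + 1 + j by omega]

section

variable {G F : Type} [NormedAddCommGroup G] [NormedSpace ℂ G] [NormedAddCommGroup F] [NormedSpace ℂ F]

theorem TT_head (g : ℕ → G → G) (h : ℕ → G × F → F) (n j : ℕ) (z : G × F) :
    TT g h n (j + 1) z = TT g h (n + 1) j (sk g h n z) * AA h n z := by
  induction j with
  | zero =>
    show AA h n z * 1 = 1 * AA h n z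
    rw [mul_one, one_mul]
  | succ j ih =>
    show AA h (n + (j + 1)) (orb (sk g h) n (j + 1) z) * TT g h n (j + 1) z =
      (AA h (n + 1 + j) (orb (sk g h) (n + 1) j (sk g h n z)) *
        TT g h (n + 1) j (sk g h n z)) * AA h n z
    rw [ih, orb_head, show n + (j + 1) = n + 1 + j by omega, mul_assoc]

theorem inv_app (T : F →L[ℂ] F) (hT : IsUnit T) (v : F) : T (Ring.inverse T v) = v := by
  have h := Ring.mul_inverse_cancel T hT
  have h1 : (T * Ring.inverse T) v = v := by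
    rw [h]
    rfl
  exact h1

theorem inv_eq (T : F →L[ℂ] F) (hT : IsUnit T) (u v : F) (h : T u = v) : Ring.inverse T v = u := by
  have h1 := Ring.inverse_mul_cancel T hT
  have h2 : (Ring.inverse T * T) u = u := by
    rw [h1]
    rfl
  rw [← h]
  exact h2

/-- the approximations -/
noncomputable def Dj (g : ℕ → G → G) (h : ℕ → G × F → F) (n j : ℕ) (p : G × F × F) : F :=
  Ring.inverse (TT g h n j (p.1, p.2.1))
    ((orb (sk g h) n j (p.1, p.2.2)).2 - (orb (sk g h) n j (p.1, p.2.1)).2)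

theorem mem_z {r : ℝ} (p : G × F × F) (hp : p ∈ ball (0 : G × F × F) r) :
    (p.1, p.2.1) ∈ ball (0 : G × F) r := by
  rw [mem_ball_zero_iff] at hp ⊢
  refine lt_of_le_of_lt ?_ hp
  rw [norm_prod_le_iff]
  exact ⟨norm_fst_le p, (norm_fst_le p.2).trans (norm_snd_le p)⟩

theorem mem_w {r : ℝ} (p : G × F × F) (hp : p ∈ ball (0 : G × F × F) r) :
    (p.1, p.2.2) ∈ ball (0 : G × F) r := by
  rw [mem_ball_zero_iff] at hp ⊢
  refine lt_of_le_of_lt ?_ hp
  rw [norm_prod_le_iff]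
  exact ⟨norm_fst_le p, (norm_snd_le p.2).trans (norm_snd_le p)⟩

theorem mem_p {r : ℝ} (x : G) (y y' : F) (h1 : (x, y) ∈ ball (0 : G × F) r)
    (h2 : (x, y') ∈ ball (0 : G × F) r) : (x, y, y') ∈ ball (0 : G × F × F) r := by
  rw [mem_ball_zero_iff] at h1 h2 ⊢
  have ha : ‖x‖ < r := lt_of_le_of_lt (norm_fst_le (x, y)) h1
  have hb : ‖y‖ < r := lt_of_le_of_lt (norm_snd_le (x, y)) h1
  have hc : ‖y'‖ < r := lt_of_le_of_lt (norm_snd_le (x, y')) h2
  rw [Prod.norm_def, Prod.norm_def]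
  exact max_lt ha (max_lt hb hc)

end

section

variable {G F : Type} [NormedAddCommGroup G] [NormedSpace ℂ G] [FiniteDimensional ℂ G]
  [NormedAddCommGroup F] [NormedSpace ℂ F] [FiniteDimensional ℂ F]

theorem diff_Dj (hOrb : S_Orb) (R C c : ℝ) (g : ℕ → G → G) (h : ℕ → G × F → F)
    (b : ℕ → F →L[ℂ] F) (hs : Skw R C c g h b) (n j : ℕ) :
    DifferentiableOn ℂ (Dj g h n j) (ball 0 (R / 2)) := by
  have : CompleteSpace F := FiniteDimensional.complete ℂ F
  obtain ⟨ho, hT, -, -, hU, -, -⟩ := hOrb G F R C c g h b hs n j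
  have hz : DifferentiableOn ℂ (fun p : G × F × F => (p.1, p.2.1)) (ball 0 (R / 2)) := by
    fun_prop
  have hw : DifferentiableOn ℂ (fun p : G × F × F => (p.1, p.2.2)) (ball 0 (R / 2)) := by
    fun_prop
  have h1 : DifferentiableOn ℂ (fun p : G × F × F => TT g h n j (p.1, p.2.1)) (ball 0 (R / 2)) :=
    hT.comp hz (fun p hp => mem_z p hp)
  have h2 : DifferentiableOn ℂ (fun p : G × F × F => Ring.inverse (TT g h n j (p.1, p.2.1)))
      (ball 0 (R / 2)) := by
    intro p hp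
    have hu := (hU (p.1, p.2.1) (mem_z p hp)).1
    exact (differentiableAt_inverse hu).comp_differentiableWithinAt p (h1 p hp)
  have h3 : DifferentiableOn ℂ (fun p : G × F × F => (orb (sk g h) n j (p.1, p.2.2)).2)
      (ball 0 (R / 2)) := (ho.comp hw (fun p hp => mem_w p hp)).snd
  have h4 : DifferentiableOn ℂ (fun p : G × F × F => (orb (sk g h) n j (p.1, p.2.1)).2)
      (ball 0 (R / 2)) := (ho.comp hz (fun p hp => mem_z p hp)).snd
  exact h2.clm_apply (h3.sub h4)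

theorem step (hFib : S_Fib) (hOrb : S_Orb) (R C c : ℝ) (g : ℕ → G → G) (h : ℕ → G × F → F)
    (b : ℕ → F →L[ℂ] F) (hs : Skw R C c g h b) (n j : ℕ) (p : G × F × F)
    (hp : p ∈ ball (0 : G × F × F) (R / 2)) :
    ‖Dj g h n (j + 1) p - Dj g h n j p‖ ≤ 8 * (C / c) * (1 / 4) ^ j * ‖p.2.2 - p.2.1‖ ^ 2 := by
  have hc := hs.c_pos
  have hC := hs.C_pos
  set z : G × F := (p.1, p.2.1) with hzdef
  set w : G × F := (p.1, p.2.2) with hwdef
  have hz : z ∈ ball (0 : G × F) (R / 2) := mem_z p hp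
  have hw : w ∈ ball (0 : G × F) (R / 2) := mem_w p hp
  obtain ⟨-, -, h3, h4, h5, hpos, hbg⟩ := hOrb G F R C c g h b hs n j
  obtain ⟨-, -, -, -, h5', hpos', -⟩ := hOrb G F R C c g h b hs n (j + 1)
  obtain ⟨-, -, -, -, f5, -, ⟨-, f7⟩, -⟩ := hFib G F R C c g h b hs (n + j)
  have hin : ∀ v ∈ ball (0 : G × F) (R / 2), orb (sk g h) n j v ∈ ball (0 : G × F) (R / 2) := by
    intro v hv
    have h6 := h3 v hv
    rw [mem_ball_zero_iff] at hv ⊢
    refine lt_of_le_of_lt (h6.trans ?_) hv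
    have h7 : ((1 : ℝ) / 4) ^ j ≤ 1 := pow_le_one₀ (by norm_num) (by norm_num)
    nlinarith [norm_nonneg v]
  obtain ⟨h41, h42⟩ := h4 z hz w hw rfl
  have hd := f5 (orb (sk g h) n j z) (hin z hz) (orb (sk g h) n j w) (hin w hw) h41
  obtain ⟨hU, -⟩ := h5 z hz
  obtain ⟨hU', hlow⟩ := h5' z hz
  -- the step
  set d : F := (orb (sk g h) n j w).2 - (orb (sk g h) n j z).2 with hddef
  set d' : F := (orb (sk g h) n (j + 1) w).2 - (orb (sk g h) n (j + 1) z).2 with hd'def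
  have hdd : ‖d' - AA h (n + j) (orb (sk g h) n j z) d‖ ≤ 4 * C * ‖d‖ ^ 2 := hd
  have hTj : TT g h n (j + 1) z = AA h (n + j) (orb (sk g h) n j z) * TT g h n j z := rfl
  have h6 : Ring.inverse (TT g h n (j + 1) z) (AA h (n + j) (orb (sk g h) n j z) d) =
      Ring.inverse (TT g h n j z) d := by
    refine inv_eq _ hU' _ _ ?_
    rw [hTj]
    show AA h (n + j) (orb (sk g h) n j z) (TT g h n j z (Ring.inverse (TT g h n j z) d)) = _
    rw [inv_app _ hU]
  have h7 : Dj g h n (j + 1) p - Dj g h n j p =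
      Ring.inverse (TT g h n (j + 1) z) (d' - AA h (n + j) (orb (sk g h) n j z) d) := by
    rw [map_sub, h6]
    rfl
  set P : ℝ := ∏ i ∈ Finset.range j, ga R C c b (n + i) with hPdef
  set Q : ℝ := ∏ i ∈ Finset.range j, be R C b (n + i) with hQdef
  have hP' : ∏ i ∈ Finset.range (j + 1), ga R C c b (n + i) = P * ga R C c b (n + j) := by
    rw [Finset.prod_range_succ]
  rw [hP'] at hpos' hlow
  have h8 := (hlow (Ring.inverse (TT g h n (j + 1) z)
    (d' - AA h (n + j) (orb (sk g h) n j z) d))).2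
  rw [inv_app _ hU', ← h7] at h8
  -- h8 : P * ga * ‖D (j+1) - D j‖ ≤ ‖d' - A d‖
  have hga : 0 < ga R C c b (n + j) := by
    have := f7
    linarith
  have hD0 : 0 ≤ ‖Dj g h n (j + 1) p - Dj g h n j p‖ := norm_nonneg _
  set N : ℝ := ‖Dj g h n (j + 1) p - Dj g h n j p‖ with hN
  have hdn : ‖d‖ ≤ Q * ‖p.2.2 - p.2.1‖ := h42
  have hd2 : ‖d‖ ^ 2 ≤ (1 / 4) ^ j * P * ‖p.2.2 - p.2.1‖ ^ 2 := by
    have h9 : ‖d‖ ^ 2 ≤ (Q * ‖p.2.2 - p.2.1‖) ^ 2 := pow_le_pow_left₀ (norm_nonneg _) hdn 2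
    rw [mul_pow] at h9
    have h10 := mul_le_mul_of_nonneg_right hbg (sq_nonneg ‖p.2.2 - p.2.1‖)
    linarith
  have h11 : P * (c / 2) * N ≤ 4 * C * ((1 / 4) ^ j * P * ‖p.2.2 - p.2.1‖ ^ 2) := by
    have h12 : P * (c / 2) * N ≤ P * ga R C c b (n + j) * N :=
      mul_le_mul_of_nonneg_right (mul_le_mul_of_nonneg_left f7 hpos.le) hD0
    have h13 : 4 * C * ‖d‖ ^ 2 ≤ 4 * C * ((1 / 4) ^ j * P * ‖p.2.2 - p.2.1‖ ^ 2) :=
      mul_le_mul_of_nonneg_left hd2 (by positivity)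
    linarith
  have h14 : P * ((c / 2) * N) ≤ P * ((c / 2) * (8 * (C / c) * (1 / 4) ^ j *
      ‖p.2.2 - p.2.1‖ ^ 2)) := by
    have h15 : (c / 2) * (8 * (C / c) * (1 / 4) ^ j * ‖p.2.2 - p.2.1‖ ^ 2) =
        4 * C * ((1 / 4) ^ j * ‖p.2.2 - p.2.1‖ ^ 2) := by
      field_simp
      ring
    rw [h15]
    linarith
  exact le_of_mul_le_mul_left (le_of_mul_le_mul_left h14 hpos) (by positivity)

theorem Dj_zero (g : ℕ → G → G) (h : ℕ → G × F → F) (n : ℕ) (p : G × F × F) :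
    Dj g h n 0 p = p.2.2 - p.2.1 := by
  unfold Dj
  exact inv_eq _ isUnit_one _ _ rfl

theorem part_bd (hFib : S_Fib) (hOrb : S_Orb) (R C c : ℝ) (g : ℕ → G → G) (h : ℕ → G × F → F)
    (b : ℕ → F →L[ℂ] F) (hs : Skw R C c g h b) (n j : ℕ) (p : G × F × F)
    (hp : p ∈ ball (0 : G × F × F) (R / 2)) :
    ‖Dj g h n j p - (p.2.2 - p.2.1)‖ ≤
      32 / 3 * (C / c) * (1 - (1 / 4) ^ j) * ‖p.2.2 - p.2.1‖ ^ 2 := by
  induction j with
  | zero =>
    rw [Dj_zero, sub_self, norm_zero, pow_zero, sub_self]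
    simp
  | succ j ih =>
    have h1 := step hFib hOrb R C c g h b hs n j p hp
    have h2 : ‖Dj g h n (j + 1) p - (p.2.2 - p.2.1)‖ ≤
        ‖Dj g h n (j + 1) p - Dj g h n j p‖ + ‖Dj g h n j p - (p.2.2 - p.2.1)‖ := by
      have h3 : Dj g h n (j + 1) p - (p.2.2 - p.2.1) =
        (Dj g h n (j + 1) p - Dj g h n j p) + (Dj g h n j p - (p.2.2 - p.2.1)) := by abel
      rw [h3]
      exact norm_add_le _ _
    refine (h2.trans (add_le_add h1 ih)).trans (le_of_eq ?_)
    rw [pow_succ]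
    ring

theorem comp_Dj (hOrb : S_Orb) (R C c : ℝ) (g : ℕ → G → G) (h : ℕ → G × F → F)
    (b : ℕ → F →L[ℂ] F) (hs : Skw R C c g h b) (n j : ℕ) (x : G) (y y' : F)
    (h1 : (x, y) ∈ ball (0 : G × F) (R / 2))
    (h2 : sk g h n (x, y) ∈ ball (0 : G × F) (R / 2)) :
    Dj g h (n + 1) j (g n x, h n (x, y), h n (x, y')) =
      AA h n (x, y) (Dj g h n (j + 1) (x, y, y')) := by
  obtain ⟨-, -, -, -, h5, -, -⟩ := hOrb G F R C c g h b hs (n + 1) j
  obtain ⟨-, -, -, -, h5', -, -⟩ := hOrb G F R C c g h b hs n (j + 1)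
  have hU := (h5 _ h2).1
  have hU' := (h5' _ h1).1
  refine inv_eq _ hU _ _ ?_
  show TT g h (n + 1) j (sk g h n (x, y)) (AA h n (x, y) (Dj g h n (j + 1) (x, y, y'))) = _
  have h3 : TT g h (n + 1) j (sk g h n (x, y)) (AA h n (x, y) (Dj g h n (j + 1) (x, y, y'))) =
      TT g h n (j + 1) (x, y) (Dj g h n (j + 1) (x, y, y')) := by
    rw [TT_head]
    rfl
  rw [h3]
  unfold Dj
  rw [inv_app _ hU', orb_head, orb_head]
  rfl

end

end DevM

open DevM in
theorem devP : S_Fib → S_Orb → S_Dev := by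
  intro hFib hOrb G F _ _ _ _ _ _ R C c g h b hs
  have : CompleteSpace F := FiniteDimensional.complete ℂ F
  have hc := hs.c_pos
  have hC := hs.C_pos
  have hR := hs.R_pos
  have hq : 0 < C / c := div_pos hC hc
  -- the limits
  have hlim : ∀ n : ℕ, ∃ H : G × F × F → F, DifferentiableOn ℂ H (ball 0 (R / 2)) ∧
      ∀ p ∈ ball (0 : G × F × F) (R / 2), Tendsto (fun j => Dj g h n j p) atTop (𝓝 (H p)) := by
    intro n
    have hsum : Summable fun j : ℕ => 8 * (C / c) * R ^ 2 * (1 / 4 : ℝ) ^ j :=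
      (summable_geometric_of_lt_one (by norm_num) (by norm_num)).mul_left _
    obtain ⟨H, hH1, hH2, -, -⟩ := Bed.sWei (G × F × F) F (ball 0 (R / 2)) (Dj g h n)
      (fun j => 8 * (C / c) * R ^ 2 * (1 / 4 : ℝ) ^ j) isOpen_ball
      (fun j => diff_Dj hOrb R C c g h b hs n j) hsum (fun j p hp => by
        refine (step hFib hOrb R C c g h b hs n j p hp).trans ?_
        have h1 : ‖p.2.2 - p.2.1‖ ≤ R := by
          rw [mem_ball_zero_iff] at hp
          have ha : ‖p.2.1‖ < R / 2 :=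
            lt_of_le_of_lt ((norm_fst_le p.2).trans (norm_snd_le p)) hp
          have hb : ‖p.2.2‖ < R / 2 :=
            lt_of_le_of_lt ((norm_snd_le p.2).trans (norm_snd_le p)) hp
          have := norm_sub_le p.2.2 p.2.1
          linarith
        have h2 : ‖p.2.2 - p.2.1‖ ^ 2 ≤ R ^ 2 := pow_le_pow_left₀ (norm_nonneg _) h1 2
        have h3 : 0 ≤ 8 * (C / c) * (1 / 4 : ℝ) ^ j := by positivity
        have h4 := mul_le_mul_of_nonneg_left h2 h3
        linarith)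
    exact ⟨H, hH1, hH2⟩
  choose Dv hDv1 hDv2 using hlim
  refine ⟨Dv, hDv1, ?_, ?_, ?_⟩
  · intro n x y y' hp
    have h1 := (hDv2 n _ hp).sub_const (y' - y)
    have h2 := h1.norm
    refine le_of_tendsto h2 (Eventually.of_forall fun j => ?_)
    have h3 := part_bd hFib hOrb R C c g h b hs n j _ hp
    refine h3.trans ?_
    show 32 / 3 * (C / c) * (1 - (1 / 4) ^ j) * ‖y' - y‖ ^ 2 ≤ 16 * C / c * ‖y' - y‖ ^ 2
    have h4 : (0 : ℝ) ≤ (1 / 4) ^ j := by positivity
    have h5 : 32 / 3 * (C / c) * (1 - (1 / 4 : ℝ) ^ j) ≤ 16 * C / c := by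
      have h6 : 16 * C / c = 16 * (C / c) := by ring
      rw [h6]
      have h7 := mul_nonneg hq.le h4
      nlinarith
    exact mul_le_mul_of_nonneg_right h5 (sq_nonneg _)
  · intro n x y y' hp
    obtain ⟨-, f2, -⟩ := hFib G F R C c g h b hs n
    have hz : (x, y) ∈ ball (0 : G × F) (R / 2) := mem_z (x, y, y') hp
    have hw : (x, y') ∈ ball (0 : G × F) (R / 2) := mem_w (x, y, y') hp
    have hin : ∀ v ∈ ball (0 : G × F) (R / 2), sk g h n v ∈ ball (0 : G × F) (R / 2) := by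
      intro v hv
      rw [mem_ball_zero_iff] at hv
      have h6 := f2 v (by rw [mem_ball_zero_iff]; linarith)
      rw [mem_ball_zero_iff]
      have := norm_nonneg v
      linarith
    have hp' : (g n x, h n (x, y), h n (x, y')) ∈ ball (0 : G × F × F) (R / 2) :=
      mem_p _ _ _ (hin _ hz) (hin _ hw)
    have h1 := hDv2 (n + 1) _ hp'
    have h2 := (hDv2 n _ hp).comp (tendsto_add_atTop_nat 1)
    have h3 := ((AA h n (x, y)).continuous.tendsto _).comp h2
    refine tendsto_nhds_unique h1 (h3.congr fun j => ?_)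
    exact (comp_Dj hOrb R C c g h b hs n j x y y' hz (hin _ hz)).symm
  · intro n x y y' hp
    exact hDv2 n _ hp

end Pool.Agent.Lib.BedF
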