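import Pool.Agent.Lib.BedF.SpecB

/-!
# BedF, Exu: the exponential of endomorphisms
-/

set_option autoImplicit false

open scoped Topology
open Set Filter Metric

namespace Pool.Agent.Lib.BedF

namespace ExuM

theorem expCont (A : Type) [NormedRing A] [NormedAlgebra ℂ A] [CompleteSpace A] :
    Continuous (fun X : A => NormedSpace.exp X) := by
  let +nondep : NormedAlgebra ℚ A := .restrictScalars ℚ ℂ A
  exact NormedSpace.exp_continuous

theorem expNegMul (A : Type) [NormedRing A] [NormedAlgebra ℂ A] [CompleteSpace A] (Y : A) :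
    NormedSpace.exp (-Y) * NormedSpace.exp Y = 1 := by
  let +nondep : NormedAlgebra ℚ A := .restrictScalars ℚ ℂ A
  rw [← NormedSpace.exp_add_of_commute (Commute.neg_left (Commute.refl Y)), neg_add_cancel,
    NormedSpace.exp_zero]

end ExuM

open ExuM in
/-- The exponential of endomorphisms is bounded and uniformly continuous on balls. -/
theorem exuP : S_Exu := by
  intro F _ _ _ B
  have hF : CompleteSpace F := FiniteDimensional.complete ℂ F
  have hP : ProperSpace (F →L[ℂ] F) := FiniteDimensional.proper ℂ (F →L[ℂ] F)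
  have hK : IsCompact (closedBall (0 : F →L[ℂ] F) (B + 1)) := isCompact_closedBall _ _
  have hc : ContinuousOn (fun X : F →L[ℂ] F => NormedSpace.exp X) (closedBall 0 (B + 1)) :=
    (expCont (F →L[ℂ] F)).continuousOn
  obtain ⟨C, hC⟩ := hK.exists_bound_of_continuousOn hc
  have h1 : ∀ X : F →L[ℂ] F, ‖X‖ ≤ B + 1 → ‖NormedSpace.exp X‖ ≤ C ∧ ‖NormedSpace.exp (-X)‖ ≤ C := by
    intro X hX
    refine ⟨hC X (by rw [mem_closedBall_zero_iff]; exact hX), hC (-X) ?_⟩
    rw [mem_closedBall_zero_iff, norm_neg]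
    exact hX
  refine ⟨C, h1, fun ε hε => ?_⟩
  have hu := hK.uniformContinuousOn_of_continuous hc
  rw [Metric.uniformContinuousOn_iff] at hu
  obtain ⟨δ, hδ, hd⟩ := hu (ε / (|C| + 1)) (by positivity)
  refine ⟨min 1 (δ / 2), lt_min one_pos (by linarith), min_le_left _ _, fun X Y hX hXY => ?_⟩
  have hX1 : ‖X‖ ≤ B + 1 := by linarith
  have hY1 : ‖Y‖ ≤ B + 1 := by
    have e : Y = X - (X - Y) := by abel
    have h2 : ‖X - Y‖ ≤ 1 := hXY.trans (min_le_left _ _)
    calc ‖Y‖ = ‖X - (X - Y)‖ := by rw [← e]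
      _ ≤ ‖X‖ + ‖X - Y‖ := norm_sub_le _ _
      _ ≤ B + 1 := by linarith
  have h3 : dist X Y < δ := by
    rw [dist_eq_norm]
    have := hXY.trans (min_le_right _ _)
    linarith
  have h4 := hd X (by rw [mem_closedBall_zero_iff]; exact hX1) Y
    (by rw [mem_closedBall_zero_iff]; exact hY1) h3
  rw [dist_eq_norm] at h4
  have h5 : NormedSpace.exp (-Y) * NormedSpace.exp X - 1 =
      NormedSpace.exp (-Y) * (NormedSpace.exp X - NormedSpace.exp Y) := by
    rw [mul_sub, expNegMul]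
  rw [h5]
  have h6 : ‖NormedSpace.exp (-Y)‖ ≤ C := (h1 Y hY1).2
  have h7 : ‖NormedSpace.exp (-Y)‖ ≤ |C| + 1 := by linarith [le_abs_self C]
  calc ‖NormedSpace.exp (-Y) * (NormedSpace.exp X - NormedSpace.exp Y)‖
      ≤ ‖NormedSpace.exp (-Y)‖ * ‖NormedSpace.exp X - NormedSpace.exp Y‖ := norm_mul_le _ _
    _ ≤ (|C| + 1) * (ε / (|C| + 1)) := mul_le_mul h7 h4.le (norm_nonneg _) (by positivity)
    _ = ε := by field_simp

end Pool.Agent.Lib.BedF
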