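import Pool.Agent.Lib.BedF.SpecB

/-!
# The condition (F) passes to subspaces of the filtration and to subsequences
-/

set_option autoImplicit false

open scoped Topology
open Set Filter Metric

namespace Pool.Agent.Lib.BedF

namespace FCtM

section

variable {V : Type} [AddCommGroup V] [Module ℂ V] {N : ℕ → V → ℝ} {r : ℕ} {U W : ℕ → Submodule ℂ V}
  {T : Submodule ℂ V}

theorem U_le (h : FC N r U W T) {i : ℕ} (hi : i ≤ r) : ∀ l, l ≤ i → U l ≤ U i := by
  intro l hl
  induction i with
  | zero =>
    have : l = 0 := by omega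
    rw [this]
  | succ i ih =>
    rcases Nat.lt_or_ge i l with h1 | h1
    · have : l = i + 1 := by omega
      rw [this]
    · rw [h.sup i (by omega)]
      exact (ih (by omega) h1).trans le_sup_left

theorem W_le (h : FC N r U W T) {i : ℕ} (hi : i ≤ r) {l : ℕ} (hl : l < i) : W l ≤ U i := by
  have h1 : W l ≤ U (l + 1) := by
    rw [h.sup l (by omega)]
    exact le_sup_right
  exact h1.trans (U_le h hi (l + 1) (by omega))

end

end FCtM

open FCtM

theorem fctP : S_FCt := by
  intro V V' _ _ _ _ N N' j r i q U W T α β h hi hq hα hβ hj hr h0 hN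
  have hmul : ∀ n m : ℕ, q * (n + m) = q * n + q * m := fun n m => by ring
  have hlo : ∀ n m x, α * N' (n + m) x ≤ N (q * n + q * m) (j x) := fun n m x => by
    rw [← hmul]
    exact (hN (n + m) x).1
  have hup : ∀ n m x, N (q * n + q * m) (j x) ≤ β * N' (n + m) x := fun n m x => by
    rw [← hmul]
    exact (hN (n + m) x).2
  have hN0 : ∀ n x, 0 ≤ N (q * n) (j x) := fun n x =>
    (mul_nonneg hα.le (h0 n x)).trans (hN n x).1
  have hN1 : ∀ n m x, 0 ≤ N (q * n + q * m) (j x) := fun n m x =>
    (mul_nonneg hα.le (h0 (n + m) x)).trans (hlo n m x)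
  have hexp : ∀ (η : ℝ) (m : ℕ), 0 < η →
      Real.exp (-(η * ((q * m : ℕ) : ℝ))) ≤ Real.exp (-(η * (m : ℝ))) := by
    intro η m hη
    rw [Real.exp_le_exp, neg_le_neg_iff]
    apply mul_le_mul_of_nonneg_left _ hη.le
    have : m ≤ q * m := Nat.le_mul_of_pos_left m hq
    exact_mod_cast this
  refine ⟨?_, ?_, ?_, ?_, ?_, ?_⟩
  · rw [eq_top_iff]
    intro x _
    rw [Submodule.mem_comap, ← hr]
    exact LinearMap.mem_range_self j x
  · intro l hl
    apply le_antisymm
    · intro x hx
      rw [Submodule.mem_comap, h.sup l (by omega), Submodule.mem_sup] at hx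
      obtain ⟨u, hu, w, hw, huw⟩ := hx
      have hu' : u ∈ LinearMap.range j := by
        rw [hr]
        exact U_le h hi l hl.le hu
      have hw' : w ∈ LinearMap.range j := by
        rw [hr]
        exact W_le h hi hl hw
      obtain ⟨x1, rfl⟩ := hu'
      obtain ⟨x2, rfl⟩ := hw'
      have hx : x1 + x2 = x := hj (by rw [map_add, huw])
      rw [← hx]
      exact Submodule.add_mem_sup hu hw
    · have e : U (l + 1) = U l ⊔ W l := h.sup l (by omega)
      show (U l).comap j ⊔ (W l).comap j ≤ (U (l + 1)).comap j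
      rw [e]
      exact sup_le (Submodule.comap_mono le_sup_left) (Submodule.comap_mono le_sup_right)
  · intro l hl
    rw [Submodule.disjoint_def]
    intro x hx1 hx2
    have := (Submodule.disjoint_def.1 (h.disj l (by omega))) (j x) hx1 hx2
    exact hj (by rw [this, map_zero])
  · obtain ⟨C, η, hC, hη, hd⟩ := h.dom
    refine ⟨β ^ 2 / α ^ 2 * C, η, by positivity, hη, ?_⟩
    intro l hl n m u hu w hw
    have h1 := hd l (by omega) (q * n) (q * m) (j u) hu (j w) hw
    have h2 := hexp η m hη
    have h3 : (α * N' (n + m) w) * (α * N' n u) ≤ N (q * n + q * m) (j w) * N (q * n) (j u) :=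
      mul_le_mul (hlo n m w) (hN n u).1 (mul_nonneg hα.le (h0 n u)) (hN1 n m w)
    have h4 : N (q * n) (j w) * N (q * n + q * m) (j u) ≤ (β * N' n w) * (β * N' (n + m) u) :=
      mul_le_mul (hN n w).2 (hup n m u) (hN1 n m u) (mul_nonneg hβ.le (h0 n w))
    have h5 : (α * N' (n + m) w) * (α * N' n u) ≤
        C * Real.exp (-(η * (m : ℝ))) * ((β * N' n w) * (β * N' (n + m) u)) := by
      refine h3.trans (h1.trans ?_)
      apply mul_le_mul _ h4 (mul_nonneg (hN0 n w) (hN1 n m u)) (by positivity)
      exact mul_le_mul_of_nonneg_left h2 hC.le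
    have h6 : N' (n + m) w * N' n u = ((α * N' (n + m) w) * (α * N' n u)) / α ^ 2 := by
      field_simp
    have h7 : β ^ 2 / α ^ 2 * C * Real.exp (-(η * (m : ℝ))) * (N' n w * N' (n + m) u) =
        (C * Real.exp (-(η * (m : ℝ))) * ((β * N' n w) * (β * N' (n + m) u))) / α ^ 2 := by
      ring
    rw [h6, h7]
    exact div_le_div_of_nonneg_right h5 (by positivity)
  · obtain ⟨C, η, hC, hη, hd⟩ := h.bun
    refine ⟨β ^ 3 / α ^ 3 * C, η, by positivity, hη, ?_⟩
    intro l hl n m v hv w hw
    have h1 := hd l (by omega) (q * n) (q * m) (j v) hv (j w) hw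
    have h2 := hexp η m hη
    have a1 : (α * N' (n + m) v) ^ 2 ≤ N (q * n + q * m) (j v) ^ 2 :=
      pow_le_pow_left₀ (mul_nonneg hα.le (h0 (n + m) v)) (hlo n m v) 2
    have a2 : N (q * n) (j v) ^ 2 ≤ (β * N' n v) ^ 2 :=
      pow_le_pow_left₀ (hN0 n v) (hN n v).2 2
    have h3 : (α * N' (n + m) v) ^ 2 * (α * N' n w) ≤ N (q * n + q * m) (j v) ^ 2 * N (q * n) (j w) :=
      mul_le_mul a1 (hN n w).1 (mul_nonneg hα.le (h0 n w)) (by positivity)
    have h4 : N (q * n) (j v) ^ 2 * N (q * n + q * m) (j w) ≤ (β * N' n v) ^ 2 * (β * N' (n + m) w) :=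
      mul_le_mul a2 (hup n m w) (hN1 n m w) (by positivity)
    have h5 : (α * N' (n + m) v) ^ 2 * (α * N' n w) ≤
        C * Real.exp (-(η * (m : ℝ))) * ((β * N' n v) ^ 2 * (β * N' (n + m) w)) := by
      refine h3.trans (h1.trans ?_)
      apply mul_le_mul _ h4 (mul_nonneg (by positivity) (hN1 n m w)) (by positivity)
      exact mul_le_mul_of_nonneg_left h2 hC.le
    have h6 : N' (n + m) v ^ 2 * N' n w = ((α * N' (n + m) v) ^ 2 * (α * N' n w)) / α ^ 3 := by
      field_simp
    have h7 : β ^ 3 / α ^ 3 * C * Real.exp (-(η * (m : ℝ))) * (N' n v ^ 2 * N' (n + m) w) =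
        (C * Real.exp (-(η * (m : ℝ))) * ((β * N' n v) ^ 2 * (β * N' (n + m) w))) / α ^ 3 := by
      ring
    rw [h6, h7]
    exact div_le_div_of_nonneg_right h5 (by positivity)
  · obtain ⟨C, lam, mu, hC, hl0, hl1, hm0, hcond, hb⟩ := h.base
    have hfin : Module.finrank ℂ ((U 0).comap j) = Module.finrank ℂ (U 0) := by
      have e1 : ((U 0).comap j).map j = U 0 := by
        apply Submodule.map_comap_eq_self
        rw [hr]
        exact U_le h hi 0 (Nat.zero_le i)
      have e2 := (Submodule.equivMapOfInjective j hj ((U 0).comap j)).finrank_eq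
      rw [e2, e1]
    refine ⟨C * (β / α), lam ^ q, mu ^ q, by positivity, by positivity,
      pow_lt_one₀ hl0.le hl1 hq.ne', by positivity, ?_, ?_⟩
    · rcases hcond with h5 | ⟨h2, h3⟩
      · left
        have := pow_lt_pow_left₀ h5 (by positivity) hq.ne'
        calc (lam ^ q) ^ 5 = (lam ^ 5) ^ q := by rw [← pow_mul, ← pow_mul, mul_comm]
          _ < (mu ^ 2) ^ q := this
          _ = (mu ^ q) ^ 2 := by rw [← pow_mul, ← pow_mul, mul_comm]
      · right
        refine ⟨hfin.trans h2, ?_⟩
        have := pow_lt_pow_left₀ h3 (by positivity) hq.ne'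
        calc (lam ^ q) ^ 3 = (lam ^ 3) ^ q := by rw [← pow_mul, ← pow_mul, mul_comm]
          _ < mu ^ q := this
    · intro n m v hv
      obtain ⟨b1, b2⟩ := hb (q * n) (q * m) (j v) hv
      rw [← pow_mul, ← pow_mul]
      constructor
      · have c1 : α * (mu ^ (q * m) * N' n v) ≤ α * (C * (β / α) * N' (n + m) v) := by
          calc α * (mu ^ (q * m) * N' n v) = mu ^ (q * m) * (α * N' n v) := by ring
            _ ≤ mu ^ (q * m) * N (q * n) (j v) :=
                mul_le_mul_of_nonneg_left (hN n v).1 (by positivity)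
            _ ≤ C * N (q * n + q * m) (j v) := b1
            _ ≤ C * (β * N' (n + m) v) := mul_le_mul_of_nonneg_left (hup n m v) hC.le
            _ = α * (C * (β / α) * N' (n + m) v) := by field_simp
        exact le_of_mul_le_mul_left c1 hα
      · have c1 : α * N' (n + m) v ≤ α * (C * (β / α) * lam ^ (q * m) * N' n v) := by
          calc α * N' (n + m) v ≤ N (q * n + q * m) (j v) := hlo n m v
            _ ≤ C * lam ^ (q * m) * N (q * n) (j v) := b2
            _ ≤ C * lam ^ (q * m) * (β * N' n v) :=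
                mul_le_mul_of_nonneg_left (hN n v).2 (by positivity)
            _ = α * (C * (β / α) * lam ^ (q * m) * N' n v) := by field_simp
        exact le_of_mul_le_mul_left c1 hα

end Pool.Agent.Lib.BedF
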