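import Pool.Agent.Lib.BedF.SpecB
import Pool.Agent.Lib.Bed.Wei

/-!
# Fam: functions on the basin which approximate a given function at the time `m`
-/

set_option autoImplicit false

open scoped Topology
open Set Filter Metric

namespace Pool.Agent.Lib.BedF

namespace FamM

theorem orb_shift {G : Type} (g : ℕ → G → G) (n : ℕ) (x : G) :
    ∀ i : ℕ, orb g (n + 1) i (g n x) = orb g n (i + 1) x
  | 0 => rfl
  | i + 1 => by
    change g (n + 1 + i) (orb g (n + 1) i (g n x)) = g (n + (i + 1)) (orb g n (i + 1) x)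
    rw [orb_shift g n x i, show n + 1 + i = n + (i + 1) by omega]

section
variable {G : Type} [NormedAddCommGroup G] [NormedSpace ℂ G]

theorem orb_mem {R C c : ℝ} {g : ℕ → G → G} {a : ℕ → G →L[ℂ] G} (hS : Slw R C c g a) (n : ℕ)
    {x : G} (hx : x ∈ ball (0 : G) (R / 2)) : ∀ i : ℕ, orb g n i x ∈ ball (0 : G) (R / 2)
  | 0 => hx
  | i + 1 => by
    have h1 := orb_mem hS n hx i
    rw [mem_ball_zero_iff] at h1
    have h2 : orb g n i x ∈ ball (0 : G) R := by
      rw [mem_ball_zero_iff]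
      linarith [hS.R_pos]
    have h3 := hS.contr (n + i) _ h2
    rw [mem_ball_zero_iff]
    change ‖g (n + i) (orb g n i x)‖ < R / 2
    have h4 := norm_nonneg (orb g n i x)
    linarith

theorem ball_sub {R C c : ℝ} {g : ℕ → G → G} {a : ℕ → G →L[ℂ] G} (hS : Slw R C c g a) {x : G}
    (hx : x ∈ ball (0 : G) (R / 2)) : x ∈ ball (0 : G) R := by
  rw [mem_ball_zero_iff] at hx ⊢
  linarith [hS.R_pos]

theorem orb_diff {R C c : ℝ} {g : ℕ → G → G} {a : ℕ → G →L[ℂ] G} (hS : Slw R C c g a) (n : ℕ) :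
    ∀ i : ℕ, DifferentiableOn ℂ (fun x => orb g n i x) (ball (0 : G) (R / 2))
  | 0 => differentiableOn_id
  | i + 1 => by
    have h1 := orb_diff hS n i
    exact (hS.diff (n + i)).comp h1 fun x hx => ball_sub hS (orb_mem hS n hx i)

end

/-- The sequence of entire functions. -/
theorem seq {G W : Type} [NormedAddCommGroup G] [NormedSpace ℂ G] [FiniteDimensional ℂ G]
    [NormedAddCommGroup W] [NormedSpace ℂ W] [CompleteSpace W] (hRun : S_Run) {R C c : ℝ}
    {g : ℕ → G → G} {a : ℕ → G →L[ℂ] G} (hS : Slw R C c g a) (m : ℕ) {ε : ℝ} (hε : 0 < ε)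
    (p : G → W) (hp : Differentiable ℂ p) :
    ∃ Q : ℕ → G → W, Q 0 = p ∧ (∀ j, Differentiable ℂ (Q j)) ∧
      ∀ j, ∀ x ∈ ball (0 : G) (R / 2),
        ‖Q (j + 1) (g (m + j) x) - Q j x‖ ≤ ε * (1 / 2) ^ (j + 3) := by
  have hstep : ∀ (j : ℕ) (f : {f : G → W // Differentiable ℂ f}),
      ∃ f' : {f : G → W // Differentiable ℂ f}, ∀ x ∈ ball (0 : G) (R / 2),
        ‖f'.1 (g (m + j) x) - f.1 x‖ ≤ ε * (1 / 2) ^ (j + 3) := by
    intro j f
    obtain ⟨P, h1, h2⟩ := hRun G W R C c g a hS (m + j) (ε * (1 / 2) ^ (j + 3)) f.1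
      (by positivity) f.2
    exact ⟨⟨P, h1⟩, h2⟩
  choose nx hnx using hstep
  let q : ℕ → {f : G → W // Differentiable ℂ f} := fun j => Nat.rec ⟨p, hp⟩ (fun j f => nx j f) j
  exact ⟨fun j => (q j).1, rfl, fun j => (q j).2, fun j => hnx j (q j)⟩

end FamM

/-- **Fam.** Functions on the basin which approximate a given function at the time `m`. -/
theorem famP : S_Tay → S_Run → S_Fam := by
  intro hTay hRun G W _ _ _ _ _ _ R C c g a hS m ε p hε hp
  obtain ⟨p0, hp0, hp1⟩ := hTay G W R (R / 2) (ε / 2) p (by linarith [hS.R_pos])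
    (by linarith [hS.R_pos]) (by linarith) hp
  obtain ⟨Q, hQ0, hQd, hQ⟩ := FamM.seq hRun hS m hε p0 hp0
  have hH : ∀ j : ℕ, ∃ H : G → W, DifferentiableOn ℂ H (ball (0 : G) (R / 2)) ∧
      (∀ x ∈ ball (0 : G) (R / 2),
        Tendsto (fun i => Q (j + i) (orb g (m + j) i x)) atTop (𝓝 (H x))) ∧
      ∀ x ∈ ball (0 : G) (R / 2), ‖H x - Q j x‖ ≤ ε * (1 / 2) ^ (j + 3) * 2 := by
    intro j
    obtain ⟨H, h1, h2, h3, -⟩ := Bed.sWei G W (ball (0 : G) (R / 2))
      (fun i x => Q (j + i) (orb g (m + j) i x)) (fun i => ε * (1 / 2) ^ (j + 3) * (1 / 2) ^ i)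
      isOpen_ball (fun i => (hQd (j + i)).comp_differentiableOn (FamM.orb_diff hS (m + j) i))
      (summable_geometric_two.mul_left _) (by
        intro i x hx
        have h := hQ (j + i) (orb g (m + j) i x) (FamM.orb_mem hS (m + j) hx i)
        have e1 : orb g (m + j) (i + 1) x = g (m + (j + i)) (orb g (m + j) i x) := by
          change g (m + j + i) (orb g (m + j) i x) = _
          rw [add_assoc]
        have e2 : ε * (1 / 2) ^ (j + i + 3) = ε * (1 / 2) ^ (j + 3) * (1 / 2 : ℝ) ^ i := by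
          rw [show j + i + 3 = j + 3 + i by omega, pow_add _ (j + 3) i, mul_assoc]
        rw [e1, ← e2]
        exact h)
    refine ⟨H, h1, h2, fun x hx => ?_⟩
    have h := h3 x hx 0
    simp only [zero_add] at h
    rw [tsum_mul_left, tsum_geometric_two] at h
    exact h
  choose H hHd hHt hHb using hH
  have hcomp : ∀ j, ∀ x ∈ ball (0 : G) (R / 2), H (j + 1) (g (m + j) x) = H j x := by
    intro j x hx
    have hgx : g (m + j) x ∈ ball (0 : G) (R / 2) := FamM.orb_mem hS (m + j) hx 1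
    have t1 := hHt (j + 1) _ hgx
    have t2 := (tendsto_add_atTop_iff_nat 1).mpr (hHt j x hx)
    refine tendsto_nhds_unique t1 ?_
    refine t2.congr fun i => ?_
    rw [show m + (j + 1) = m + j + 1 by omega, FamM.orb_shift g (m + j) x i,
      show j + (i + 1) = j + 1 + i by omega]
  have hbdd : ∀ j, ∃ B : ℝ, ∀ x ∈ ball (0 : G) (R / 2), ‖H j x‖ ≤ B := by
    intro j
    have : ProperSpace G := FiniteDimensional.proper ℂ G
    obtain ⟨B, hB⟩ := (isCompact_closedBall (0 : G) (R / 2)).exists_bound_of_continuousOn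
      (hQd j).continuous.continuousOn
    refine ⟨ε * (1 / 2) ^ (j + 3) * 2 + B, fun x hx => ?_⟩
    have h1 := hHb j x hx
    have h2 := hB x (ball_subset_closedBall hx)
    calc ‖H j x‖ = ‖(H j x - Q j x) + Q j x‖ := by rw [sub_add_cancel]
      _ ≤ ‖H j x - Q j x‖ + ‖Q j x‖ := norm_add_le _ _
      _ ≤ _ := add_le_add h1 h2
  refine ⟨fun n x => H (n - m) (orb g n (m - n) x), ⟨fun n => ?_, fun n x hx => ?_, fun n => ?_⟩,
    fun x hx => ?_⟩
  · exact (hHd (n - m)).comp (FamM.orb_diff hS n (m - n)) fun x hx => FamM.orb_mem hS n hx _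
  · rcases le_or_gt m n with h | h
    · obtain ⟨j, rfl⟩ := Nat.exists_eq_add_of_le h
      rw [show m + j + 1 - m = j + 1 by omega, show m - (m + j + 1) = 0 by omega,
        show m + j - m = j by omega, show m - (m + j) = 0 by omega]
      exact hcomp j x hx
    · obtain ⟨k, rfl⟩ := Nat.exists_eq_add_of_lt h
      rw [show n + 1 - (n + k + 1) = 0 by omega, show n + k + 1 - (n + 1) = k by omega,
        show n - (n + k + 1) = 0 by omega, show n + k + 1 - n = k + 1 by omega,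
        FamM.orb_shift g n x k]
  · obtain ⟨B, hB⟩ := hbdd (n - m)
    exact ⟨B, fun x hx => hB _ (FamM.orb_mem hS n hx _)⟩
  · beta_reduce
    rw [show m - m = 0 by omega]
    have h1 := hHb 0 x hx
    rw [hQ0] at h1
    have h2 := hp1 x hx
    have h3 : orb g m 0 x = x := rfl
    rw [h3]
    calc ‖H 0 x - p x‖ = ‖(H 0 x - p0 x) + (p0 x - p x)‖ := by rw [sub_add_sub_cancel]
      _ ≤ ‖H 0 x - p0 x‖ + ‖p0 x - p x‖ := norm_add_le _ _
      _ ≤ ε * (1 / 2) ^ (0 + 3) * 2 + ε / 2 := add_le_add h1 h2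
      _ ≤ ε := by
        norm_num
        linarith

end Pool.Agent.Lib.BedF
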