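import Pool.Agent.Lib.BedF.SpecA
import Pool.Agent.Lib.Osgood

/-!
# Theorem F (MP_6f050a_an): one step in the fibre

`fibP : S_Fib`.
-/

set_option autoImplicit false
set_option linter.unusedSectionVars false

open scoped Topology
open Set Filter Metric

namespace Pool.Agent.Lib.BedF

namespace FibM

variable {G F : Type} [NormedAddCommGroup G] [NormedSpace ℂ G] [FiniteDimensional ℂ G]
  [NormedAddCommGroup F] [NormedSpace ℂ F] [FiniteDimensional ℂ F] {R C c : ℝ} {g : ℕ → G → G} {h : ℕ → G × F → F}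
  {b : ℕ → F →L[ℂ] F}

lemma CR_le (H : Skw R C c g h b) : C * R ≤ c / 2 ^ 12 := by
  have h1 := H.small
  have h2 := H.c_le
  have h3 := H.c_pos
  have h4 : c ^ 2 ≤ c := by nlinarith
  rw [le_div_iff₀ (by norm_num)]
  linarith

lemma CR_nonneg (H : Skw R C c g h b) : 0 ≤ C * R := mul_nonneg H.C_pos.le H.R_pos.le

lemma norm_AA_sub (H : Skw R C c g h b) (n : ℕ) {z : G × F} (hz : z ∈ ball (0 : G × F) R) :
    ‖AA h n z - b n‖ ≤ 2 * C * ‖z‖ := by
  have hC := H.C_pos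
  have hzd : DifferentiableAt ℂ (h n) z := (H.hdiff n z hz).differentiableAt (isOpen_ball.mem_nhds hz)
  have hφ : HasFDerivAt (fun w : G × F => h n w - b n w.2)
      (fderiv ℂ (h n) z - (b n).comp (ContinuousLinearMap.snd ℂ G F)) z := by
    refine hzd.hasFDerivAt.sub ?_
    exact ((b n).comp (ContinuousLinearMap.snd ℂ G F)).hasFDerivAt
  have key : ∀ ε : ℝ, 0 < ε → ‖fderiv ℂ (h n) z - (b n).comp (ContinuousLinearMap.snd ℂ G F)‖ ≤ 2 * C * ‖z‖ + ε := by
    intro ε hε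
    refine hφ.le_of_lip' (by positivity) ?_
    have hc : Tendsto (fun w : G × F => C * (‖w‖ + ‖z‖)) (𝓝 z) (𝓝 (C * (‖z‖ + ‖z‖))) := by
      refine Tendsto.const_mul _ (Tendsto.add_const _ ?_)
      exact continuous_norm.continuousAt
    have hlt : C * (‖z‖ + ‖z‖) < 2 * C * ‖z‖ + ε := by nlinarith
    filter_upwards [hc.eventually (gt_mem_nhds hlt), isOpen_ball.mem_nhds hz] with w hw1 hw2
    refine (H.hquad n w hw2 z hz).trans ?_
    exact mul_le_mul_of_nonneg_right hw1.le (norm_nonneg _)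
  have hD : ‖fderiv ℂ (h n) z - (b n).comp (ContinuousLinearMap.snd ℂ G F)‖ ≤ 2 * C * ‖z‖ :=
    le_of_forall_pos_le_add key
  refine ContinuousLinearMap.opNorm_le_bound _ (by positivity) (fun v => ?_)
  have e : (AA h n z - b n) v
      = (fderiv ℂ (h n) z - (b n).comp (ContinuousLinearMap.snd ℂ G F)) ((0 : G), v) := by
    simp [AA]
  rw [e]
  have h2 : ‖((0 : G), v)‖ = ‖v‖ := by
    rw [Prod.norm_mk, norm_zero, max_eq_right (norm_nonneg _)]
  calc ‖(fderiv ℂ (h n) z - (b n).comp (ContinuousLinearMap.snd ℂ G F)) ((0 : G), v)‖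
      ≤ ‖fderiv ℂ (h n) z - (b n).comp (ContinuousLinearMap.snd ℂ G F)‖ * ‖((0 : G), v)‖ :=
        ContinuousLinearMap.le_opNorm _ _
    _ ≤ 2 * C * ‖z‖ * ‖v‖ := by
        rw [h2]; exact mul_le_mul_of_nonneg_right hD (norm_nonneg _)

lemma diff_AA (H : Skw R C c g h b) (n : ℕ) : DifferentiableOn ℂ (AA h n) (ball (0 : G × F) R) := by
  have h1 : DifferentiableOn ℂ (fderiv ℂ (h n)) (ball (0 : G × F) R) :=
    Osgood.differentiableOn_fderiv isOpen_ball (H.hdiff n)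
  exact h1.clm_comp (differentiableOn_const _)

lemma norm_sk (H : Skw R C c g h b) (n : ℕ) {z : G × F} (hz : z ∈ ball (0 : G × F) R) :
    ‖sk g h n z‖ ≤ 1 / 4 * ‖z‖ := by
  have hC := H.C_pos
  have hR := H.R_pos
  have hcr := CR_le H
  have hc := H.c_le
  have hzR : ‖z‖ < R := by simpa using hz
  have h1 : ‖z.1‖ ≤ ‖z‖ := norm_fst_le z
  have h2 : ‖z.2‖ ≤ ‖z‖ := norm_snd_le z
  have hz1 : z.1 ∈ ball (0 : G) R := by simpa using lt_of_le_of_lt h1 hzR
  have hg : ‖g n z.1‖ ≤ 1 / 4 * ‖z‖ := (H.gcontr n _ hz1).trans (by linarith)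
  have h0 : (0 : G × F) ∈ ball (0 : G × F) R := by simpa using hR
  have hq := H.hquad n z hz 0 h0
  rw [H.h0 n] at hq
  simp only [Prod.snd_zero, map_zero, sub_zero, norm_zero, add_zero] at hq
  have hh : ‖h n z‖ ≤ 1 / 4 * ‖z‖ := by
    have e : h n z = b n z.2 + (h n z - b n z.2) := by abel
    have hb : ‖b n z.2‖ ≤ 1 / 8 * ‖z‖ :=
      ((b n).le_opNorm _).trans (mul_le_mul (H.bup n) h2 (norm_nonneg _) (by norm_num))
    have hq2 : C * ‖z‖ * ‖z‖ ≤ C * R * ‖z‖ := by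
      have : C * ‖z‖ ≤ C * R := mul_le_mul_of_nonneg_left hzR.le hC.le
      exact mul_le_mul_of_nonneg_right this (norm_nonneg _)
    have hq3 : C * R * ‖z‖ ≤ 1 / 8 * ‖z‖ := by
      refine mul_le_mul_of_nonneg_right ?_ (norm_nonneg _)
      have : c / 2 ^ 12 ≤ 1 / 8 := by
        rw [div_le_div_iff₀ (by norm_num) (by norm_num)]
        linarith
      linarith
    calc ‖h n z‖ = ‖b n z.2 + (h n z - b n z.2)‖ := by rw [← e]
      _ ≤ ‖b n z.2‖ + ‖h n z - b n z.2‖ := norm_add_le _ _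
      _ ≤ 1 / 8 * ‖z‖ + 1 / 8 * ‖z‖ := by linarith
      _ = 1 / 4 * ‖z‖ := by ring
  unfold sk
  rw [Prod.norm_mk]
  exact max_le hg hh

lemma lip_AA (H : Skw R C c g h b) (n : ℕ) {z w : G × F} (hz : z ∈ ball (0 : G × F) (R / 2))
    (hw : w ∈ ball (0 : G × F) (R / 2)) : ‖AA h n z - AA h n w‖ ≤ 4 * C * ‖z - w‖ := by
  have hC := H.C_pos
  have hR := H.R_pos
  have hd : DifferentiableOn ℂ (fun z => AA h n z - b n) (ball (0 : G × F) R) := (diff_AA H n).sub_const _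
  have hM : ∀ w ∈ ball (0 : G × F) R, ‖AA h n w - b n‖ ≤ 2 * C * R := by
    intro w hw
    have hwR : ‖w‖ < R := by simpa using hw
    refine (norm_AA_sub H n hw).trans ?_
    exact mul_le_mul_of_nonneg_left hwR.le (by positivity)
  have hbound : ∀ x ∈ ball (0 : G × F) (R / 2), ‖fderiv ℂ (fun z => AA h n z - b n) x‖ ≤ 4 * C := by
    intro x hx
    have := Osgood.norm_fderiv_le' (R := R) (r := R / 2) (M := 2 * C * R) (by linarith) hd hM
      (ball_subset_closedBall hx)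
    refine this.trans (le_of_eq ?_)
    field_simp
    ring
  have hdat : ∀ x ∈ ball (0 : G × F) (R / 2), DifferentiableAt ℂ (fun z => AA h n z - b n) x := by
    intro x hx
    have hx' : x ∈ ball (0 : G × F) R := ball_subset_ball (by linarith) hx
    exact (hd x hx').differentiableAt (isOpen_ball.mem_nhds hx')
  have := (convex_ball (0 : G × F) (R / 2)).norm_image_sub_le_of_norm_fderiv_le hdat hbound hw hz
  simpa using this

lemma mem_mk {z : G × F} {r : ℝ} (hz : z ∈ ball (0 : G × F) r) {y : F} (hy : y ∈ ball (0 : F) r) :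
    (z.1, y) ∈ ball (0 : G × F) r := by
  have h1 : ‖z.1‖ < r := lt_of_le_of_lt (norm_fst_le z) (by simpa using hz)
  have h2 : ‖y‖ < r := by simpa using hy
  rw [mem_ball_zero_iff, Prod.norm_mk]
  exact max_lt h1 h2

lemma mem_snd {z : G × F} {r : ℝ} (hz : z ∈ ball (0 : G × F) r) : z.2 ∈ ball (0 : F) r := by
  rw [mem_ball_zero_iff]
  exact lt_of_le_of_lt (norm_snd_le z) (by simpa using hz)

lemma second (H : Skw R C c g h b) (n : ℕ) {z w : G × F} (hz : z ∈ ball (0 : G × F) (R / 2))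
    (hw : w ∈ ball (0 : G × F) (R / 2)) (hzw : z.1 = w.1) :
    ‖h n w - h n z - AA h n z (w.2 - z.2)‖ ≤ 4 * C * ‖w.2 - z.2‖ ^ 2 := by
  have hC := H.C_pos
  have hR := H.R_pos
  have hseg : segment ℝ z.2 w.2 ⊆ ball (0 : F) (R / 2) :=
    (convex_ball (0 : F) (R / 2)).segment_subset (mem_snd hz) (mem_snd hw)
  have hder : ∀ y ∈ segment ℝ z.2 w.2,
      HasFDerivWithinAt (fun y : F => h n (z.1, y) - AA h n z y) (AA h n (z.1, y) - AA h n z)
        (segment ℝ z.2 w.2) y := by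
    intro y hy
    have hm : (z.1, y) ∈ ball (0 : G × F) R := ball_subset_ball (by linarith) (mem_mk hz (hseg hy))
    have h1 : HasFDerivAt (h n) (fderiv ℂ (h n) (z.1, y)) (z.1, y) :=
      ((H.hdiff n _ hm).differentiableAt (isOpen_ball.mem_nhds hm)).hasFDerivAt
    have h2 : HasFDerivAt (fun y : F => (z.1, y)) (ContinuousLinearMap.inr ℂ G F) y :=
      hasFDerivAt_prodMk_right z.1 y
    have h3 : HasFDerivAt (fun y : F => h n (z.1, y)) (AA h n (z.1, y)) y := HasFDerivAt.comp y h1 h2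
    exact (h3.sub (AA h n z).hasFDerivAt).hasFDerivWithinAt
  have hbound : ∀ y ∈ segment ℝ z.2 w.2, ‖AA h n (z.1, y) - AA h n z‖ ≤ 4 * C * ‖w.2 - z.2‖ := by
    intro y hy
    refine (lip_AA H n (mem_mk hz (hseg hy)) hz).trans ?_
    refine mul_le_mul_of_nonneg_left ?_ (by positivity)
    have e : (z.1, y) - z = ((0 : G), y - z.2) := by
      ext <;> simp
    rw [e, Prod.norm_mk, norm_zero, max_eq_right (norm_nonneg _)]
    obtain ⟨a, b', ha, hb, hab, rfl⟩ := hy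
    have : a • z.2 + b' • w.2 - z.2 = b' • (w.2 - z.2) := by
      have ha' : a = 1 - b' := by linarith
      rw [ha', sub_smul, one_smul, smul_sub]
      abel
    rw [this, norm_smul, Real.norm_eq_abs, abs_of_nonneg hb]
    have hb1 : b' ≤ 1 := by linarith
    exact mul_le_of_le_one_left (norm_nonneg _) hb1
  have := (convex_segment z.2 w.2).norm_image_sub_le_of_norm_hasFDerivWithin_le hder hbound
    (left_mem_segment ℝ z.2 w.2) (right_mem_segment ℝ z.2 w.2)
  have e1 : (z.1, w.2) = w := by rw [hzw]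
  have e2 : (h n (z.1, w.2) - AA h n z w.2) - (h n (z.1, z.2) - AA h n z z.2)
      = h n w - h n z - AA h n z (w.2 - z.2) := by
    rw [e1, map_sub]
    abel
  rw [e2] at this
  refine this.trans (le_of_eq ?_)
  ring

lemma first (H : Skw R C c g h b) (n : ℕ) {z w : G × F} (hz : z ∈ ball (0 : G × F) R)
    (hw : w ∈ ball (0 : G × F) R) (hzw : z.1 = w.1) : ‖h n w - h n z‖ ≤ be R C b n * ‖w.2 - z.2‖ := by
  have hC := H.C_pos
  have hzR : ‖z‖ < R := by simpa using hz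
  have hwR : ‖w‖ < R := by simpa using hw
  have hq := H.hquad n w hw z hz
  have e1 : w - z = ((0 : G), w.2 - z.2) := by
    ext <;> simp [hzw]
  have e3 : ‖((0 : G), w.2 - z.2)‖ = ‖w.2 - z.2‖ := by
    rw [Prod.norm_mk, norm_zero, max_eq_right (norm_nonneg _)]
  rw [e1, e3] at hq
  have e : h n w - h n z = b n (w.2 - z.2) + ((h n w - b n w.2) - (h n z - b n z.2)) := by
    rw [map_sub]; abel
  have hb : ‖b n (w.2 - z.2)‖ ≤ ‖b n‖ * ‖w.2 - z.2‖ := (b n).le_opNorm _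
  have h2 : C * (‖w‖ + ‖z‖) * ‖w.2 - z.2‖ ≤ 2 * C * R * ‖w.2 - z.2‖ := by
    refine mul_le_mul_of_nonneg_right ?_ (norm_nonneg _)
    nlinarith
  calc ‖h n w - h n z‖ = ‖b n (w.2 - z.2) + ((h n w - b n w.2) - (h n z - b n z.2))‖ := by rw [← e]
    _ ≤ ‖b n (w.2 - z.2)‖ + ‖(h n w - b n w.2) - (h n z - b n z.2)‖ := norm_add_le _ _
    _ ≤ ‖b n‖ * ‖w.2 - z.2‖ + 2 * C * R * ‖w.2 - z.2‖ := by linarith
    _ = be R C b n * ‖w.2 - z.2‖ := by unfold be; ring

lemma nums (H : Skw R C c g h b) (n : ℕ) :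
    4 * be R C b n ^ 2 ≤ ga R C c b n ∧ c / 2 ≤ ga R C c b n := by
  have hcr := CR_le H
  have hcr0 := CR_nonneg H
  have hc := H.c_pos
  have hc1 := H.c_le
  have hm1 : 16 * ‖b n‖ ^ 2 ≤ max (16 * ‖b n‖ ^ 2) c := le_max_left _ _
  have hm2 : c ≤ max (16 * ‖b n‖ ^ 2) c := le_max_right _ _
  unfold be ga
  set m := max (16 * ‖b n‖ ^ 2) c with hm
  set t := C * R with ht
  have e : 2 * C * R = 2 * t := by rw [ht]; ring
  rw [e]
  have ht1 : t ≤ c / 2 ^ 12 := hcr
  have ht2 : t ^ 2 ≤ t := by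
    have : t ≤ 1 := by
      have : c / 2 ^ 12 ≤ 1 := by
        rw [div_le_one (by norm_num)]
        linarith
      linarith
    nlinarith
  constructor
  · have h1 : 4 * (‖b n‖ + 2 * t) ^ 2 ≤ 8 * ‖b n‖ ^ 2 + 32 * t ^ 2 := by
      nlinarith [sq_nonneg (‖b n‖ - 2 * t)]
    have h2 : 34 * t ≤ c / 2 := by
      have : 34 * (c / 2 ^ 12) ≤ c / 2 := by
        have : (34 : ℝ) / 2 ^ 12 ≤ 1 / 2 := by norm_num
        nlinarith
      linarith
    nlinarith
  · have : 2 * (c / 2 ^ 12) ≤ c / 2 := by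
      have : (2 : ℝ) / 2 ^ 12 ≤ 1 / 2 := by norm_num
      nlinarith
    linarith

lemma bounds (H : Skw R C c g h b) (n : ℕ) {z : G × F} (hz : z ∈ ball (0 : G × F) R) (v : F) :
    ‖AA h n z v‖ ≤ be R C b n * ‖v‖ ∧ ga R C c b n * ‖v‖ ≤ ‖AA h n z v‖ := by
  have hC := H.C_pos
  have hzR : ‖z‖ < R := by simpa using hz
  have h1 : ‖(AA h n z - b n) v‖ ≤ 2 * C * R * ‖v‖ := by
    refine (ContinuousLinearMap.le_opNorm _ _).trans ?_
    refine mul_le_mul_of_nonneg_right ((norm_AA_sub H n hz).trans ?_) (norm_nonneg _)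
    exact mul_le_mul_of_nonneg_left hzR.le (by positivity)
  have e : AA h n z v = b n v + (AA h n z - b n) v := by
    simp
  have hb : ‖b n v‖ ≤ ‖b n‖ * ‖v‖ := (b n).le_opNorm _
  have hlow : max (16 * ‖b n‖ ^ 2) c * ‖v‖ ≤ ‖b n v‖ := by
    rcases le_total (16 * ‖b n‖ ^ 2) c with hle | hle
    · rw [max_eq_right hle]; exact H.blow n v
    · rw [max_eq_left hle]; exact H.bun n v
  constructor
  · calc ‖AA h n z v‖ = ‖b n v + (AA h n z - b n) v‖ := by rw [← e]
      _ ≤ ‖b n v‖ + ‖(AA h n z - b n) v‖ := norm_add_le _ _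
      _ ≤ ‖b n‖ * ‖v‖ + 2 * C * R * ‖v‖ := by linarith
      _ = be R C b n * ‖v‖ := by unfold be; ring
  · have h3 : ‖b n v‖ ≤ ‖AA h n z v‖ + ‖(AA h n z - b n) v‖ := by
      have e' : b n v = AA h n z v - (AA h n z - b n) v := by simp
      calc ‖b n v‖ = ‖AA h n z v - (AA h n z - b n) v‖ := by rw [← e']
        _ ≤ _ := norm_sub_le _ _
    have h4 : ga R C c b n * ‖v‖ = max (16 * ‖b n‖ ^ 2) c * ‖v‖ - 2 * C * R * ‖v‖ := by
      unfold ga; ring
    rw [h4]
    linarith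

end FibM

theorem fibP : S_Fib := by
  intro G F _ _ _ _ _ _ R C c g h b H n
  refine ⟨FibM.diff_AA H n, fun z hz => FibM.norm_sk H n hz, fun z hz => FibM.norm_AA_sub H n hz,
    fun z hz w hw => FibM.lip_AA H n hz hw, fun z hz w hw e => FibM.second H n hz hw e,
    fun z hz w hw e => FibM.first H n hz hw e, FibM.nums H n, fun z hz v => FibM.bounds H n hz v⟩

end Pool.Agent.Lib.BedF
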