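import Pool.Agent.Lib.BedF.SpecF

/-!
# Theorem F (MP_6f050a_an): reduction to sequences of maps
-/

set_option autoImplicit false

open scoped Manifold ContDiff Topology
open Set Filter Metric

namespace Pool.Agent.Lib.BedF

theorem finP : S_Fin := by
  intro hSet hFC hSeq E _ _ _ X _ _ _ nrm f K Es Eu C lam hF hH p hp r U W hfc
  obtain ⟨N, k, A, F, j, r', C', c, a₁, b₁, C₂, c₂, hk, hseq, hck, hcmp, -⟩ :=
    hSet E X nrm f K Es Eu C lam p hF hH hp
  subst hk
  refine hck (hSeq r _ r' (1 / 4) C' c F A (fun l => (U l).comap j) (fun l => (W l).comap j) hseq ?_)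
  exact hFC (TangentSpace 𝓘(ℂ, E) p) (Fin _ → ℂ) (Bed.nit nrm f p)
    (fun n z => ‖Bed.prodL A (ContinuousLinearMap.id ℂ _) n z‖) j r r N U W (Es p) a₁ b₁ hfc le_rfl
    hcmp.N_pos hcmp.a_pos hcmp.b_pos hcmp.inj (hcmp.range.trans hfc.top.symm)
    (fun n x => norm_nonneg _) (fun n x => ⟨hcmp.low n x, hcmp.up n x⟩)

end Pool.Agent.Lib.BedF
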