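import Pool.Agent.Lib.BedF.SpecB
import Pool.Agent.Lib.Bed.Frame

/-!
# Theorem F (MP_6f050a_an), part L: frames of a splitting
-/

set_option autoImplicit false

open scoped Topology
open Set Filter Metric

namespace Pool.Agent.Lib.BedF

namespace FrsM

variable {k k₁ k₂ : ℕ}

/-- If `e` maps the factors into complementary subspaces, it maps the first factor onto. -/
theorem sur1 {U W : Submodule ℂ (Fin k → ℂ)} (hd : Disjoint U W)
    (e : Bed.V k₁ k₂ ≃L[ℂ] (Fin k → ℂ)) (hU : ∀ z, e (z, 0) ∈ U) (hW : ∀ w, e (0, w) ∈ W)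
    (u : Fin k → ℂ) (hu : u ∈ U) : ∃ x, e (x, 0) = u := by
  obtain ⟨⟨x, y⟩, h1⟩ := e.surjective u
  have h2 : e (x, y) = e (x, 0) + e (0, y) := by
    rw [← map_add, Prod.mk_add_mk, add_zero, zero_add]
  have h3 : e (0, y) ∈ U := by
    have h4 : e (0, y) = u - e (x, 0) := by
      rw [← h1, h2, add_sub_cancel_left]
    rw [h4]
    exact U.sub_mem hu (hU x)
  have h5 : e (0, y) = 0 := (Submodule.disjoint_def.1 hd) _ h3 (hW y)
  exact ⟨x, by rw [← h1, h2, h5, add_zero]⟩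

/-- The same for the second factor. -/
theorem sur2 {U W : Submodule ℂ (Fin k → ℂ)} (hd : Disjoint U W)
    (e : Bed.V k₁ k₂ ≃L[ℂ] (Fin k → ℂ)) (hU : ∀ z, e (z, 0) ∈ U) (hW : ∀ w, e (0, w) ∈ W)
    (u : Fin k → ℂ) (hu : u ∈ W) : ∃ y, e (0, y) = u := by
  obtain ⟨⟨x, y⟩, h1⟩ := e.surjective u
  have h2 : e (x, y) = e (x, 0) + e (0, y) := by
    rw [← map_add, Prod.mk_add_mk, add_zero, zero_add]
  have h3 : e (x, 0) ∈ W := by
    have h4 : e (x, 0) = u - e (0, y) := by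
      rw [← h1, h2, add_sub_cancel_right]
    rw [h4]
    exact W.sub_mem hu (hW y)
  have h5 : e (x, 0) = 0 := (Submodule.disjoint_def.1 hd) _ (hU x) h3
  exact ⟨y, by rw [← h1, h2, h5, zero_add]⟩

/-- The products are injective. -/
theorem inj {A : ℕ → (Fin k → ℂ) →L[ℂ] (Fin k → ℂ)} {c : ℝ} (hc : 0 < c)
    (hA : ∀ n z, c * ‖z‖ ≤ ‖A n z‖) (n : ℕ) (v : Fin k → ℂ)
    (hv : Bed.prodL A (ContinuousLinearMap.id ℂ _) n v = 0) : v = 0 := by
  induction n with
  | zero => exact hv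
  | succ n ih =>
    have h1 : A n (Bed.prodL A (ContinuousLinearMap.id ℂ _) n v) = 0 := hv
    have h2 := hA n (Bed.prodL A (ContinuousLinearMap.id ℂ _) n v)
    rw [h1, norm_zero] at h2
    refine ih (norm_le_zero_iff.1 ?_)
    by_contra h3
    have h4 := mul_pos hc (not_le.1 h3)
    linarith

theorem inj' {A : ℕ → (Fin k → ℂ) →L[ℂ] (Fin k → ℂ)} {c : ℝ} (hc : 0 < c)
    (hA : ∀ n z, c * ‖z‖ ≤ ‖A n z‖) (n : ℕ) :
    Function.Injective (Bed.prodL A (ContinuousLinearMap.id ℂ _) n).toLinearMap :=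
  (injective_iff_map_eq_zero _).2 fun v hv => inj hc hA n v hv

theorem compl {U W : Submodule ℂ (Fin k → ℂ)} (h : IsCompl U W)
    (f : (Fin k → ℂ) →ₗ[ℂ] (Fin k → ℂ)) (hf : Function.Injective f) :
    IsCompl (U.map f) (W.map f) := by
  refine ⟨?_, ?_⟩
  · rw [Submodule.disjoint_def]
    rintro x ⟨u, hu, rfl⟩ ⟨w, hw, h1⟩
    have h2 : w = u := hf h1
    subst h2
    rw [(Submodule.disjoint_def.1 h.disjoint) w hu hw, map_zero]
  · rw [codisjoint_iff, ← Submodule.map_sup, h.sup_eq_top, Submodule.map_top,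
      LinearMap.range_eq_top]
    exact LinearMap.injective_iff_surjective.1 hf

end FrsM

open FrsM in
theorem frsP : S_Frs := by
  intro k A c γ U W hc hA hUW hγ hang
  obtain ⟨C, hC, hF⟩ := Bed.sFrame (Fin k → ℂ)
  have hinj := inj' hc hA
  have hcompl : ∀ n, IsCompl (U.map (Bed.prodL A (ContinuousLinearMap.id ℂ _) n).toLinearMap)
      (W.map (Bed.prodL A (ContinuousLinearMap.id ℂ _) n).toLinearMap) :=
    fun n => compl hUW _ (hinj n)
  have hfr : ∀ n, ∃ e : Bed.V (Module.finrank ℂ U) (Module.finrank ℂ W) ≃L[ℂ] (Fin k → ℂ),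
      (∀ z, e (z, 0) ∈ U.map (Bed.prodL A (ContinuousLinearMap.id ℂ _) n).toLinearMap) ∧
      (∀ w, e (0, w) ∈ W.map (Bed.prodL A (ContinuousLinearMap.id ℂ _) n).toLinearMap) ∧
      (∀ v, ‖e v‖ ≤ C * ‖v‖) ∧ ∀ v, ‖v‖ ≤ C * (1 + γ) * ‖e v‖ := by
    intro n
    refine hF _ _ _ _ γ (Submodule.equivMapOfInjective _ (hinj n) U).symm.finrank_eq
      (Submodule.equivMapOfInjective _ (hinj n) W).symm.finrank_eq (hcompl n) hγ ?_
    rintro v ⟨u, hu, rfl⟩ w ⟨w', hw', rfl⟩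
    have h1 := hang n u hu w' hw'
    rw [map_add] at h1
    exact h1
  choose e heU heW heup helow using hfr
  have hA1 : ∀ n x, ∃ x', A n (e n (x, 0)) = e (n + 1) (x', 0) := by
    intro n x
    obtain ⟨u, hu, h1⟩ := heU n x
    have h2 : A n (e n (x, 0)) ∈
        U.map (Bed.prodL A (ContinuousLinearMap.id ℂ _) (n + 1)).toLinearMap :=
      ⟨u, hu, by rw [← h1]; rfl⟩
    obtain ⟨x', h3⟩ := sur1 (hcompl (n + 1)).disjoint (e (n + 1)) (heU (n + 1)) (heW (n + 1)) _ h2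
    exact ⟨x', h3.symm⟩
  have hA2 : ∀ n y, ∃ y', A n (e n (0, y)) = e (n + 1) (0, y') := by
    intro n y
    obtain ⟨u, hu, h1⟩ := heW n y
    have h2 : A n (e n (0, y)) ∈
        W.map (Bed.prodL A (ContinuousLinearMap.id ℂ _) (n + 1)).toLinearMap :=
      ⟨u, hu, by rw [← h1]; rfl⟩
    obtain ⟨y', h3⟩ := sur2 (hcompl (n + 1)).disjoint (e (n + 1)) (heU (n + 1)) (heW (n + 1)) _ h2
    exact ⟨y', h3.symm⟩
  let a : ℕ → (Fin (Module.finrank ℂ U) → ℂ) →L[ℂ] (Fin (Module.finrank ℂ U) → ℂ) := fun n =>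
    (ContinuousLinearMap.fst ℂ (Fin (Module.finrank ℂ U) → ℂ) (Fin (Module.finrank ℂ W) → ℂ)).comp
      ((e (n + 1)).symm.toContinuousLinearMap.comp ((A n).comp
        ((e n).toContinuousLinearMap.comp (ContinuousLinearMap.inl ℂ
          (Fin (Module.finrank ℂ U) → ℂ) (Fin (Module.finrank ℂ W) → ℂ)))))
  let b : ℕ → (Fin (Module.finrank ℂ W) → ℂ) →L[ℂ] (Fin (Module.finrank ℂ W) → ℂ) := fun n =>
    (ContinuousLinearMap.snd ℂ (Fin (Module.finrank ℂ U) → ℂ) (Fin (Module.finrank ℂ W) → ℂ)).comp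
      ((e (n + 1)).symm.toContinuousLinearMap.comp ((A n).comp
        ((e n).toContinuousLinearMap.comp (ContinuousLinearMap.inr ℂ
          (Fin (Module.finrank ℂ U) → ℂ) (Fin (Module.finrank ℂ W) → ℂ)))))
  have ha : ∀ n x, A n (e n (x, 0)) = e (n + 1) (a n x, 0) := by
    intro n x
    obtain ⟨x', h1⟩ := hA1 n x
    have h2 : a n x = x' := by
      change ((e (n + 1)).symm (A n (e n (x, 0)))).1 = x'
      rw [h1, ContinuousLinearEquiv.symm_apply_apply]
    rw [h2, h1]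
  have hb : ∀ n y, A n (e n (0, y)) = e (n + 1) (0, b n y) := by
    intro n y
    obtain ⟨y', h1⟩ := hA2 n y
    have h2 : b n y = y' := by
      change ((e (n + 1)).symm (A n (e n (0, y)))).2 = y'
      rw [h1, ContinuousLinearEquiv.symm_apply_apply]
    rw [h2, h1]
  have hcomm : ∀ n x y, A n (e n (x, y)) = e (n + 1) (a n x, b n y) := by
    intro n x y
    have h1 : e n (x, y) = e n (x, 0) + e n (0, y) := by
      rw [← map_add, Prod.mk_add_mk, add_zero, zero_add]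
    have h2 : e (n + 1) (a n x, b n y) = e (n + 1) (a n x, 0) + e (n + 1) (0, b n y) := by
      rw [← map_add, Prod.mk_add_mk, add_zero, zero_add]
    rw [h1, map_add, ha, hb, h2]
  have hC1 : C * (1 + γ) ≤ max 1 (C * (1 + γ)) := le_max_right _ _
  have hC2 : C ≤ max 1 (C * (1 + γ)) := by
    refine le_trans ?_ hC1
    nlinarith
  refine ⟨Module.finrank ℂ U, Module.finrank ℂ W, max 1 (C * (1 + γ)), e, a, b,
    ⟨le_max_left _ _, fun n v => ?_, fun n v => ?_, fun x => ?_, fun y => ?_, fun u hu => ?_,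
      fun w hw => ?_, hcomm, fun n x y => ?_⟩⟩
  · exact (heup n v).trans (mul_le_mul_of_nonneg_right hC2 (norm_nonneg _))
  · exact (helow n v).trans (mul_le_mul_of_nonneg_right hC1 (norm_nonneg _))
  · obtain ⟨u, hu, h1⟩ := heU 0 x
    have h2 : u = e 0 (x, 0) := h1
    rw [← h2]
    exact hu
  · obtain ⟨u, hu, h1⟩ := heW 0 y
    have h2 : u = e 0 (0, y) := h1
    rw [← h2]
    exact hu
  · exact sur1 (hcompl 0).disjoint (e 0) (heU 0) (heW 0) u ⟨u, hu, rfl⟩
  · exact sur2 (hcompl 0).disjoint (e 0) (heU 0) (heW 0) w ⟨w, hw, rfl⟩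
  · induction n with
    | zero => rfl
    | succ n ih =>
      change A n (Bed.prodL A (ContinuousLinearMap.id ℂ _) n (e 0 (x, y))) = _
      rw [ih, hcomm]
      rfl

end Pool.Agent.Lib.BedF
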