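import Pool.Agent.Lib.BedF.SpecB

/-!
# Theorem F (MP_6f050a_an), part C: the tower of the trivialisation
-/

set_option autoImplicit false

open scoped Topology
open Set Filter Metric

namespace Pool.Agent.Lib.BedF

namespace GlAM

section

variable {G A : Type} [NormedAddCommGroup G] [NormedSpace ℂ G] [NormedRing A] [NormedAlgebra ℂ A]

/-- A product of families is a family. -/
theorem mul {ρ : ℝ} {g : ℕ → G → G} {P Q : ℕ → G → A} (hP : Fmy ρ g P) (hQ : Fmy ρ g Q) :
    Fmy ρ g (fun n x => P n x * Q n x) where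
  diff := fun n => (hP.diff n).mul (hQ.diff n)
  comp := fun n x hx => by
    show P (n + 1) (g n x) * Q (n + 1) (g n x) = P n x * Q n x
    rw [hP.comp n x hx, hQ.comp n x hx]
  bdd := fun n => by
    obtain ⟨B, hB⟩ := hP.bdd n
    obtain ⟨C, hC⟩ := hQ.bdd n
    refine ⟨B * C, fun x hx => ?_⟩
    have h1 := hB x hx
    have h2 := hC x hx
    exact (norm_mul_le _ _).trans
      (mul_le_mul h1 h2 (norm_nonneg _) ((norm_nonneg _).trans h1))

/-- The constant family `1`. -/
theorem one (ρ : ℝ) (g : ℕ → G → G) : Fmy ρ g (fun (_ : ℕ) (_ : G) => (1 : A)) where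
  diff := fun _ => differentiableOn_const _
  comp := fun _ _ _ => rfl
  bdd := fun _ => ⟨‖(1 : A)‖, fun _ _ => le_rfl⟩

/-- The states of the recursion. -/
def Good (ρ : ℝ) (g : ℕ → G → G) (p : A) : Type :=
  {w : (ℕ → G → A) × (ℕ → G → A) // Fmy ρ g w.1 ∧ Fmy ρ g w.2 ∧
    ∀ n, ∀ x ∈ ball (0 : G) ρ, w.1 n x * w.2 n x = 1 ∧ w.2 n x * w.1 n x = 1 ∧ p * w.2 n x = p}

theorem bound {ρ : ℝ} {g : ℕ → G → G} {p : A} (m : ℕ) (w : Good ρ g p) :
    ∃ q : ℝ, 1 ≤ q ∧ ∀ x ∈ ball (0 : G) ρ, ‖w.1.1 m x‖ ≤ q ∧ ‖w.1.2 m x‖ ≤ q := by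
  obtain ⟨B, hB⟩ := w.2.1.bdd m
  obtain ⟨C, hC⟩ := w.2.2.1.bdd m
  exact ⟨max 1 (max B C), le_max_left _ _, fun x hx =>
    ⟨(hB x hx).trans ((le_max_left _ _).trans (le_max_right _ _)),
      (hC x hx).trans ((le_max_right _ _).trans (le_max_right _ _))⟩⟩

end

end GlAM

open GlAM in
theorem glaP : S_GlA := by
  intro G A _ _ _ _ ρ g τ p H
  choose Qf hQ1 hQb using fun (m : ℕ) (w : Good ρ g p) => bound m w
  have hε : ∀ (m : ℕ) (w : Good ρ g p),
      (0 : ℝ) < (1 / 2) ^ (m + 3) / (Qf m w ^ 2 * (1 + ‖(1 : A)‖)) := by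
    intro m w
    have h1 : 0 < Qf m w := lt_of_lt_of_le one_pos (hQ1 m w)
    have h2 : (0 : ℝ) < 1 + ‖(1 : A)‖ := by
      have := norm_nonneg (1 : A)
      linarith
    positivity
  choose tf uf hft hfu htu hap using fun (m : ℕ) (w : Good ρ g p) => H m _ (hε m w)
  let nx : (m : ℕ) → Good ρ g p → Good ρ g p := fun m w =>
    ⟨(fun n x => tf m w n x * w.1.1 n x, fun n x => w.1.2 n x * uf m w n x),
      mul (hft m w) w.2.1, mul w.2.2.1 (hfu m w), fun n x hx => by
        obtain ⟨a1, a2, a3⟩ := w.2.2.2 n x hx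
        obtain ⟨b1, b2, b3⟩ := htu m w n x hx
        refine ⟨?_, ?_, ?_⟩
        · show tf m w n x * w.1.1 n x * (w.1.2 n x * uf m w n x) = 1
          rw [mul_assoc, ← mul_assoc (w.1.1 n x), a1, one_mul, b1]
        · show w.1.2 n x * uf m w n x * (tf m w n x * w.1.1 n x) = 1
          rw [mul_assoc, ← mul_assoc (uf m w n x), b2, one_mul, a2]
        · show p * (w.1.2 n x * uf m w n x) = p
          rw [← mul_assoc, a3]
          calc p * uf m w n x = p * tf m w n x * uf m w n x := by rw [b3]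
            _ = p := by rw [mul_assoc, b1, mul_one]⟩
  let w0 : Good ρ g p := ⟨(fun _ _ => 1, fun _ _ => 1), one ρ g, one ρ g, fun n x _ =>
    ⟨mul_one _, mul_one _, mul_one _⟩⟩
  let st : ℕ → Good ρ g p := fun m => Nat.rec w0 (fun m w => nx m w) m
  have hst : ∀ m, st (m + 1) = nx m (st m) := fun m => rfl
  refine ⟨fun m => (st m).1.1, fun m => (st m).1.2, fun m => uf m (st m),
    fun m => Qf m (st m), ?_⟩
  exact
    { famS := fun m => (st m).2.1
      famV := fun m => (st m).2.2.1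
      famu := fun m => hfu m (st m)
      Vs := fun m n x _ => rfl
      SV := fun m n x hx => (st m).2.2.2 n x hx
      Q_ge := fun m => hQ1 m (st m)
      bd := fun m x hx => hQb m (st m) x hx
      app := fun m x hx => hap m (st m) x hx }

end Pool.Agent.Lib.BedF
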