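import Pool.Agent.Lib.BedF.SpecB
import Pool.Agent.Lib.Bed.Wei

/-!
# Theorem F (MP_6f050a_an): the trivialisation (GlB)
-/

set_option autoImplicit false

open scoped Topology
open Set Filter Metric

namespace Pool.Agent.Lib.BedF

namespace GlBM

section
variable {G A : Type} [NormedAddCommGroup G] [NormedSpace ℂ G] [NormedRing A] [NormedAlgebra ℂ A]

/-- the product of `i` transition maps, from the time `n` -/
def Tm (g : ℕ → G → G) (τ : ℕ → G → A) (n : ℕ) : ℕ → G → A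
  | 0, _ => 1
  | i + 1, x => τ (n + i) (orb g n i x) * Tm g τ n i x

theorem orb_mem {g : ℕ → G → G} {ρ : ℝ} (hg : ∀ n, ∀ x ∈ ball (0 : G) ρ, g n x ∈ ball (0 : G) ρ)
    (n i : ℕ) {x : G} (hx : x ∈ ball (0 : G) ρ) : orb g n i x ∈ ball (0 : G) ρ := by
  induction i with
  | zero => exact hx
  | succ i ih => exact hg _ _ ih

theorem orb_diff {g : ℕ → G → G} {ρ : ℝ} (hd : ∀ n, DifferentiableOn ℂ (g n) (ball 0 ρ))
    (hg : ∀ n, ∀ x ∈ ball (0 : G) ρ, g n x ∈ ball (0 : G) ρ) (n i : ℕ) :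
    DifferentiableOn ℂ (orb g n i) (ball 0 ρ) := by
  induction i with
  | zero => exact differentiableOn_id
  | succ i ih => exact (hd (n + i)).comp ih fun x hx => orb_mem hg n i hx

theorem tm_diff {g : ℕ → G → G} {τ : ℕ → G → A} {ρ : ℝ} (hd : ∀ n, DifferentiableOn ℂ (g n) (ball 0 ρ))
    (hg : ∀ n, ∀ x ∈ ball (0 : G) ρ, g n x ∈ ball (0 : G) ρ)
    (hτ : ∀ n, DifferentiableOn ℂ (τ n) (ball 0 ρ)) (n i : ℕ) :
    DifferentiableOn ℂ (Tm g τ n i) (ball 0 ρ) := by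
  induction i with
  | zero => exact differentiableOn_const _
  | succ i ih => exact ((hτ (n + i)).comp (orb_diff hd hg n i) fun x hx => orb_mem hg n i hx).mul ih

theorem orb_succ (g : ℕ → G → G) (n i : ℕ) (x : G) : orb g (n + 1) i (g n x) = orb g n (i + 1) x := by
  induction i with
  | zero => rfl
  | succ i ih =>
    change g (n + 1 + i) (orb g (n + 1) i (g n x)) = g (n + (i + 1)) (orb g n (i + 1) x)
    rw [ih, show n + 1 + i = n + (i + 1) by omega]

theorem tm_succ (g : ℕ → G → G) (τ : ℕ → G → A) (n i : ℕ) (x : G) :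
    Tm g τ (n + 1) i (g n x) * τ n x = Tm g τ n (i + 1) x := by
  induction i with
  | zero =>
    change 1 * τ n x = τ (n + 0) x * 1
    simp
  | succ i ih =>
    change τ (n + 1 + i) (orb g (n + 1) i (g n x)) * Tm g τ (n + 1) i (g n x) * τ n x =
      τ (n + (i + 1)) (orb g n (i + 1) x) * Tm g τ n (i + 1) x
    rw [mul_assoc, ih, orb_succ, show n + 1 + i = n + (i + 1) by omega]

theorem p_tm {g : ℕ → G → G} {τ : ℕ → G → A} {ρ : ℝ} {p : A}
    (hg : ∀ n, ∀ x ∈ ball (0 : G) ρ, g n x ∈ ball (0 : G) ρ)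
    (hp : ∀ n, ∀ x ∈ ball (0 : G) ρ, p * τ n x = p) (n i : ℕ) {x : G} (hx : x ∈ ball (0 : G) ρ) :
    p * Tm g τ n i x = p := by
  induction i with
  | zero => exact mul_one p
  | succ i ih =>
    change p * (τ (n + i) (orb g n i x) * Tm g τ n i x) = p
    rw [← mul_assoc, hp _ _ (orb_mem hg n i hx), ih]

theorem fmy_orb {g : ℕ → G → G} {ρ : ℝ} {P : ℕ → G → A} (hP : Fmy ρ g P)
    (hg : ∀ n, ∀ x ∈ ball (0 : G) ρ, g n x ∈ ball (0 : G) ρ) (n i : ℕ) {x : G}
    (hx : x ∈ ball (0 : G) ρ) : P (n + i) (orb g n i x) = P n x := by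
  induction i with
  | zero => rfl
  | succ i ih =>
    change P (n + i + 1) (g (n + i) (orb g n i x)) = P n x
    rw [hP.comp _ _ (orb_mem hg n i hx), ih]

/-- the approximation `σ_i` -/
def sg (g : ℕ → G → G) (τ : ℕ → G → A) (V : ℕ → ℕ → G → A) (n i : ℕ) (x : G) : A :=
  V (n + i) n x * Tm g τ n i x

theorem step {g : ℕ → G → G} {τ : ℕ → G → A} {ρ : ℝ} {p : A} {S V u : ℕ → ℕ → G → A} {Q : ℕ → ℝ}
    (hg : ∀ n, ∀ x ∈ ball (0 : G) ρ, g n x ∈ ball (0 : G) ρ) (h : Tow ρ g τ p S V u Q) (n i : ℕ)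
    {x : G} (hx : x ∈ ball (0 : G) ρ) :
    ∃ E : A, sg g τ V n (i + 1) x - sg g τ V n i x = E * sg g τ V n i x ∧
      ‖E‖ ≤ (1 / 2) ^ (i + 3) / (1 + ‖(1 : A)‖) := by
  have hy := orb_mem hg n i hx
  have hv := fmy_orb (h.famV (n + i)) hg n i hx
  have hu := fmy_orb (h.famu (n + i)) hg n i hx
  have hsv := (h.SV (n + i) (n + i) _ hy).1
  have hbd := h.bd (n + i) _ hy
  have hap := h.app (n + i) _ hy
  have hQ := h.Q_ge (n + i)
  have h1 : 0 ≤ ‖(1 : A)‖ := norm_nonneg _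
  refine ⟨V (n + i) (n + i) (orb g n i x) *
    (u (n + i) (n + i) (orb g n i x) * τ (n + i) (orb g n i x) - 1) *
    S (n + i) (n + i) (orb g n i x), ?_, ?_⟩
  · have e1 : sg g τ V n (i + 1) x = V (n + i) n x * u (n + i) n x *
        (τ (n + i) (orb g n i x) * Tm g τ n i x) := by
      change V (n + i + 1) n x * (τ (n + i) (orb g n i x) * Tm g τ n i x) = _
      rw [h.Vs (n + i) n x hx]
    have e2 : sg g τ V n i x = V (n + i) n x * Tm g τ n i x := rfl
    rw [e1, e2, ← hv, ← hu]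
    have e3 : V (n + i) (n + i) (orb g n i x) *
        (u (n + i) (n + i) (orb g n i x) * τ (n + i) (orb g n i x) - 1) *
        S (n + i) (n + i) (orb g n i x) * (V (n + i) (n + i) (orb g n i x) * Tm g τ n i x) =
        V (n + i) (n + i) (orb g n i x) *
        (u (n + i) (n + i) (orb g n i x) * τ (n + i) (orb g n i x) - 1) *
        (S (n + i) (n + i) (orb g n i x) * V (n + i) (n + i) (orb g n i x)) * Tm g τ n i x := by
      noncomm_ring
    rw [e3, hsv]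
    noncomm_ring
  · have hq2 : 0 < Q (n + i) ^ 2 := by positivity
    have hq0 : 0 ≤ Q (n + i) := by linarith
    calc ‖V (n + i) (n + i) (orb g n i x) *
        (u (n + i) (n + i) (orb g n i x) * τ (n + i) (orb g n i x) - 1) *
        S (n + i) (n + i) (orb g n i x)‖
        ≤ ‖V (n + i) (n + i) (orb g n i x)‖ *
          ‖u (n + i) (n + i) (orb g n i x) * τ (n + i) (orb g n i x) - 1‖ *
          ‖S (n + i) (n + i) (orb g n i x)‖ :=
          (norm_mul_le _ _).trans (mul_le_mul_of_nonneg_right (norm_mul_le _ _) (norm_nonneg _))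
      _ ≤ Q (n + i) * ((1 / 2) ^ (n + i + 3) / (Q (n + i) ^ 2 * (1 + ‖(1 : A)‖))) * Q (n + i) :=
          mul_le_mul (mul_le_mul hbd.2 hap (norm_nonneg _) hq0) hbd.1 (norm_nonneg _)
            (mul_nonneg hq0 (by positivity))
      _ = (1 / 2) ^ (n + i + 3) / (1 + ‖(1 : A)‖) := by
          field_simp
      _ ≤ (1 / 2) ^ (i + 3) / (1 + ‖(1 : A)‖) := by
          refine div_le_div_of_nonneg_right ?_ (by positivity)
          exact pow_le_pow_of_le_one (by norm_num) (by norm_num) (by omega)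

theorem rbound {g : ℕ → G → G} {τ : ℕ → G → A} {ρ : ℝ} {p : A} {S V u : ℕ → ℕ → G → A} {Q : ℕ → ℝ}
    (hg : ∀ n, ∀ x ∈ ball (0 : G) ρ, g n x ∈ ball (0 : G) ρ) (h : Tow ρ g τ p S V u Q) (n i : ℕ)
    {x : G} (hx : x ∈ ball (0 : G) ρ) :
    ‖sg g τ V n i x * S n n x - 1‖ ≤ 1 / 2 - (1 / 2) ^ (i + 1) ∧
    ‖sg g τ V n (i + 1) x * S n n x - sg g τ V n i x * S n n x‖ ≤ (1 / 2) ^ (i + 3) := by
  have h1 : 0 ≤ ‖(1 : A)‖ := norm_nonneg _
  have key : ∀ j : ℕ, ‖sg g τ V n j x * S n n x - 1‖ ≤ 1 / 2 - (1 / 2) ^ (j + 1) →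
      ‖sg g τ V n (j + 1) x * S n n x - sg g τ V n j x * S n n x‖ ≤ (1 / 2) ^ (j + 3) := by
    intro j hj
    obtain ⟨E, hE, hEn⟩ := step hg h n j hx
    have hR : ‖sg g τ V n j x * S n n x‖ ≤ 1 + ‖(1 : A)‖ := by
      have h2 : ‖sg g τ V n j x * S n n x‖ ≤ ‖sg g τ V n j x * S n n x - 1‖ + ‖(1 : A)‖ := by
        have := norm_add_le (sg g τ V n j x * S n n x - 1) (1 : A)
        rwa [sub_add_cancel] at this
      have h3 : (0 : ℝ) ≤ (1 / 2) ^ (j + 1) := by positivity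
      linarith
    rw [← sub_mul, hE, mul_assoc]
    calc ‖E * (sg g τ V n j x * S n n x)‖ ≤ ‖E‖ * ‖sg g τ V n j x * S n n x‖ := norm_mul_le _ _
      _ ≤ (1 / 2) ^ (j + 3) / (1 + ‖(1 : A)‖) * (1 + ‖(1 : A)‖) :=
          mul_le_mul hEn hR (norm_nonneg _) (by positivity)
      _ = (1 / 2) ^ (j + 3) := by field_simp
  have main : ∀ j : ℕ, ‖sg g τ V n j x * S n n x - 1‖ ≤ 1 / 2 - (1 / 2) ^ (j + 1) := by
    intro j
    induction j with
    | zero =>
      have e : sg g τ V n 0 x * S n n x = 1 := by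
        change V n n x * 1 * S n n x = 1
        rw [mul_one, (h.SV n n x hx).2.1]
      rw [e]
      norm_num
    | succ j ih =>
      have h2 := key j ih
      have h3 : ‖sg g τ V n (j + 1) x * S n n x - 1‖ ≤
          ‖sg g τ V n (j + 1) x * S n n x - sg g τ V n j x * S n n x‖ +
          ‖sg g τ V n j x * S n n x - 1‖ := by
        have := norm_add_le (sg g τ V n (j + 1) x * S n n x - sg g τ V n j x * S n n x)
          (sg g τ V n j x * S n n x - 1)
        rwa [sub_add_sub_cancel] at this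
      have h4 : (0 : ℝ) ≤ (1 / 2) ^ j := by positivity
      have e1 : ((1 : ℝ) / 2) ^ (j + 1) = (1 / 2) ^ j * (1 / 2) := pow_succ _ _
      have e2 : ((1 : ℝ) / 2) ^ (j + 1 + 1) = (1 / 2) ^ j * (1 / 4) := by ring
      have e3 : ((1 : ℝ) / 2) ^ (j + 3) = (1 / 2) ^ j * (1 / 8) := by ring
      rw [e2]
      rw [e1] at ih
      rw [e3] at h2
      linarith
  exact ⟨main i, key i (main i)⟩

theorem sstep {g : ℕ → G → G} {τ : ℕ → G → A} {ρ : ℝ} {p : A} {S V u : ℕ → ℕ → G → A} {Q : ℕ → ℝ}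
    (hg : ∀ n, ∀ x ∈ ball (0 : G) ρ, g n x ∈ ball (0 : G) ρ) (h : Tow ρ g τ p S V u Q) (n i : ℕ)
    {x : G} (hx : x ∈ ball (0 : G) ρ) :
    ‖sg g τ V n (i + 1) x - sg g τ V n i x‖ ≤ (1 / 2) ^ (i + 3) * Q n := by
  have h1 := (rbound hg h n i hx).2
  have hsv := (h.SV n n x hx).1
  have e : sg g τ V n (i + 1) x - sg g τ V n i x =
      (sg g τ V n (i + 1) x * S n n x - sg g τ V n i x * S n n x) * V n n x := by
    rw [sub_mul, mul_assoc, mul_assoc, hsv, mul_one, mul_one]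
  rw [e]
  exact (norm_mul_le _ _).trans (mul_le_mul h1 (h.bd n x hx).2 (norm_nonneg _) (by positivity))

theorem sg_diff {g : ℕ → G → G} {τ : ℕ → G → A} {ρ : ℝ} {p : A} {S V u : ℕ → ℕ → G → A} {Q : ℕ → ℝ}
    (hd : ∀ n, DifferentiableOn ℂ (g n) (ball 0 ρ))
    (hg : ∀ n, ∀ x ∈ ball (0 : G) ρ, g n x ∈ ball (0 : G) ρ)
    (hτ : ∀ n, DifferentiableOn ℂ (τ n) (ball 0 ρ)) (h : Tow ρ g τ p S V u Q) (n i : ℕ) :
    DifferentiableOn ℂ (sg g τ V n i) (ball 0 ρ) :=
  ((h.famV (n + i)).diff n).mul (tm_diff hd hg hτ n i)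

theorem sg_comp {g : ℕ → G → G} {τ : ℕ → G → A} {ρ : ℝ} {p : A} {S V u : ℕ → ℕ → G → A} {Q : ℕ → ℝ}
    (h : Tow ρ g τ p S V u Q) (n i : ℕ) {x : G} (hx : x ∈ ball (0 : G) ρ) :
    sg g τ V (n + 1) i (g n x) * τ n x = sg g τ V n (i + 1) x := by
  change V (n + 1 + i) (n + 1) (g n x) * Tm g τ (n + 1) i (g n x) * τ n x =
    V (n + (i + 1)) n x * Tm g τ n (i + 1) x
  rw [mul_assoc, tm_succ, (h.famV (n + 1 + i)).comp n x hx, show n + 1 + i = n + (i + 1) by omega]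

theorem p_sg {g : ℕ → G → G} {τ : ℕ → G → A} {ρ : ℝ} {p : A} {S V u : ℕ → ℕ → G → A} {Q : ℕ → ℝ}
    (hg : ∀ n, ∀ x ∈ ball (0 : G) ρ, g n x ∈ ball (0 : G) ρ)
    (hp : ∀ n, ∀ x ∈ ball (0 : G) ρ, p * τ n x = p) (h : Tow ρ g τ p S V u Q) (n i : ℕ) {x : G}
    (hx : x ∈ ball (0 : G) ρ) : p * sg g τ V n i x = p := by
  change p * (V (n + i) n x * Tm g τ n i x) = p
  rw [← mul_assoc, (h.SV (n + i) n x hx).2.2, p_tm hg hp n i hx]

end

end GlBM

open GlBM in
theorem glbP : S_GlB := by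
  intro G A _ _ _ _ _ _ ρ g τ p S V u Q hd hg hτ hp h
  have hex : ∀ n, ∃ H : G → A, DifferentiableOn ℂ H (ball 0 ρ) ∧
      ∀ x ∈ ball (0 : G) ρ, Tendsto (fun i => sg g τ V n i x) atTop (𝓝 (H x)) := by
    intro n
    have hsum : Summable fun i : ℕ => ((1 : ℝ) / 2) ^ (i + 3) * Q n :=
      ((summable_nat_add_iff 3).2 (summable_geometric_of_lt_one (by norm_num) (by norm_num))).mul_right _
    obtain ⟨H, h1, h2, -⟩ := Bed.sWei G A (ball 0 ρ) (fun i => sg g τ V n i)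
      (fun i => (1 / 2) ^ (i + 3) * Q n) isOpen_ball (fun i => sg_diff hd hg hτ h n i) hsum
      (fun i x hx => sstep hg h n i hx)
    exact ⟨H, h1, h2⟩
  choose σ h1 h2 using hex
  refine ⟨σ, h1, fun n x hx => ⟨?_, ?_, ?_⟩⟩
  · have hlim : Tendsto (fun i => sg g τ V n i x * S n n x) atTop (𝓝 (σ n x * S n n x)) :=
      (h2 n x hx).mul_const _
    have hb : ‖σ n x * S n n x - 1‖ ≤ 1 / 2 := by
      refine le_of_tendsto ((hlim.sub_const 1).norm) (Eventually.of_forall fun i => ?_)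
      have := (rbound hg h n i hx).1
      have h3 : (0 : ℝ) ≤ (1 / 2) ^ (i + 1) := by positivity
      linarith
    have hun : IsUnit (σ n x * S n n x) := by
      have h4 : IsUnit (1 - (1 - σ n x * S n n x)) := by
        refine isUnit_one_sub_of_norm_lt_one ?_
        rw [norm_sub_rev]
        linarith
      rwa [sub_sub_cancel] at h4
    have hV : IsUnit (V n n x) :=
      ⟨⟨V n n x, S n n x, (h.SV n n x hx).2.1, (h.SV n n x hx).1⟩, rfl⟩
    have e : σ n x = σ n x * S n n x * V n n x := by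
      rw [mul_assoc, (h.SV n n x hx).1, mul_one]
    rw [e]
    exact hun.mul hV
  · have hlim : Tendsto (fun i => p * sg g τ V n i x) atTop (𝓝 (p * σ n x)) :=
      (h2 n x hx).const_mul _
    refine tendsto_nhds_unique hlim ?_
    have : (fun i => p * sg g τ V n i x) = fun _ => p := funext fun i => p_sg hg hp h n i hx
    rw [this]
    exact tendsto_const_nhds
  · have l1 : Tendsto (fun i => sg g τ V (n + 1) i (g n x) * τ n x) atTop
        (𝓝 (σ (n + 1) (g n x) * τ n x)) := (h2 (n + 1) (g n x) (hg n x hx)).mul_const _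
    have l2 : Tendsto (fun i => sg g τ V n (i + 1) x) atTop (𝓝 (σ n x)) :=
      (h2 n x hx).comp (tendsto_add_atTop_nat 1)
    refine tendsto_nhds_unique l1 ?_
    have : (fun i => sg g τ V (n + 1) i (g n x) * τ n x) = fun i => sg g τ V n (i + 1) x :=
      funext fun i => sg_comp h n i hx
    rw [this]
    exact l2

end Pool.Agent.Lib.BedF
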