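import Pool.Agent.Lib.BedF.SpecA
import Pool.Agent.Lib.Bed.Wei

/-!
# Hfb: the fibration (the invariant family of graphs)
-/

set_option autoImplicit false

open scoped Topology
open Set Filter Metric

namespace Pool.Agent.Lib.BedF

namespace HfbM

section
variable {G F : Type} [NormedAddCommGroup G] [NormedSpace ℂ G] [NormedAddCommGroup F] [NormedSpace ℂ F]
  {R C c : ℝ} {f : ℕ → G × F → G × F} {a : ℕ → G →L[ℂ] G} {b : ℕ → F →L[ℂ] F}

theorem cr (hB : Blk R C c f a b) : C * R ≤ 1 / 4096 := by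
  have h1 := hB.small
  have h2 : c ^ 2 ≤ 1 := by nlinarith [hB.c_pos, hB.c_le]
  norm_num at h1
  linarith

theorem kr (hB : Blk R C c f a b) : 16 * C / c * R ≤ 1 / 256 := by
  have h1 := hB.small
  have hc := hB.c_pos
  have h3 : 16 * C / c * R = 16 * (C * R) / c := by ring
  rw [h3, div_le_iff₀ hc]
  have h2 : c ^ 2 ≤ c := by nlinarith [hB.c_pos, hB.c_le]
  norm_num at h1
  nlinarith

theorem fle (hB : Blk R C c f a b) (n : ℕ) (z : G × F) (hz : z ∈ ball (0 : G × F) R) :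
    ‖f n z‖ ≤ 1 / 4 * ‖z‖ := by
  have h0 : (0 : G × F) ∈ ball (0 : G × F) R := mem_ball_self hB.R_pos
  have h1 := hB.quad n z hz 0 h0
  have h2 : ((a n (0 : G × F).1, b n (0 : G × F).2) : G × F) = 0 := by
    simp
  rw [hB.zero n, h2, sub_zero, sub_zero, norm_zero, add_zero, sub_zero] at h1
  have hz' : ‖z‖ < R := by simpa using hz
  have h3 : ‖((a n z.1, b n z.2) : G × F)‖ ≤ 1 / 8 * ‖z‖ := by
    rw [Prod.norm_mk]
    apply max_le
    · exact (hB.aup n z.1).trans (by have := norm_fst_le z; linarith)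
    · refine ((b n).le_opNorm z.2).trans ?_
      exact mul_le_mul (hB.bup n) (norm_snd_le z) (norm_nonneg _) (by norm_num)
  have h4 : C * ‖z‖ * ‖z‖ ≤ 1 / 4096 * ‖z‖ := by
    have h5 : C * ‖z‖ ≤ C * R := mul_le_mul_of_nonneg_left hz'.le hB.C_pos.le
    exact mul_le_mul_of_nonneg_right (h5.trans (cr hB)) (norm_nonneg _)
  have h5 : f n z = (f n z - (a n z.1, b n z.2)) + (a n z.1, b n z.2) := by abel
  calc ‖f n z‖ = ‖(f n z - (a n z.1, b n z.2)) + (a n z.1, b n z.2)‖ := by rw [← h5]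
    _ ≤ ‖f n z - (a n z.1, b n z.2)‖ + ‖((a n z.1, b n z.2) : G × F)‖ := norm_add_le _ _
    _ ≤ 1 / 4096 * ‖z‖ + 1 / 8 * ‖z‖ := add_le_add (h1.trans h4) h3
    _ ≤ 1 / 4 * ‖z‖ := by have := norm_nonneg z; nlinarith

theorem fmem (hB : Blk R C c f a b) (n : ℕ) (z : G × F) (hz : z ∈ ball (0 : G × F) R) :
    f n z ∈ ball (0 : G × F) (R / 2) := by
  have h1 := fle hB n z hz
  have hz' : ‖z‖ < R := by simpa using hz
  rw [mem_ball_zero_iff]
  have := hB.R_pos
  linarith

theorem sh (hB : Blk R C c f a b) (η : G × F → G) (hη : Cls R C c η) (z : G × F)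
    (hz : z ∈ ball (0 : G × F) (R / 2)) : z.1 + η z ∈ ball (0 : G) R := by
  have h1 := hη.2 z hz
  have hz' : ‖z‖ < R / 2 := by simpa using hz
  have hR := hB.R_pos
  have hk := kr hB
  have hk0 : 0 ≤ 16 * C / c := div_nonneg (by have := hB.C_pos; linarith) hB.c_pos.le
  have h2 := norm_fst_le z
  have h3 := norm_snd_le z
  rw [mem_ball_zero_iff]
  have h4 : 16 * C / c * ‖z‖ ≤ 1 / 256 :=
    (mul_le_mul_of_nonneg_left (by linarith : ‖z‖ ≤ R) hk0).trans hk
  have h5 : 16 * C / c * ‖z‖ * ‖z.2‖ ≤ 1 / 256 * (R / 2) :=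
    mul_le_mul h4 (by linarith) (norm_nonneg _) (by norm_num)
  have h6 := norm_add_le z.1 (η z)
  linarith

theorem zeroCls (hB : Blk R C c f a b) : Cls R C c (fun _ : G × F => (0 : G)) := by
  refine ⟨differentiableOn_const _, fun z _ => ?_⟩
  have hk0 : 0 ≤ 16 * C / c := div_nonneg (by have := hB.C_pos; linarith) hB.c_pos.le
  rw [norm_zero]
  positivity

end

end HfbM

open HfbM

/-- **Hfb.** -/
theorem hfbP : S_Cau → S_Pb → S_Ct → S_Hfb := by
  intro _ hPb hCt G F _ _ _ _ _ _ R C c f a b hB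
  have hR := hB.R_pos
  have hK0 : 0 ≤ 16 * C / c := div_nonneg (by have := hB.C_pos; linarith) hB.c_pos.le
  choose! Γ hΓ using fun n η (h : Cls R C c η) => hPb G F R C c f a b hB n η h
  obtain ⟨E, hE0, hE1⟩ : ∃ E : ℕ → ℕ → G × F → G, (∀ n, E 0 n = fun _ => 0) ∧
      ∀ i n, E (i + 1) n = Γ n (E i (n + 1)) := by
    refine ⟨fun i => Nat.rec (motive := fun _ => ℕ → G × F → G) (fun _ _ => 0)
      (fun _ e n => Γ n (e (n + 1))) i, fun n => rfl, fun i n => rfl⟩
  have hcls : ∀ i n, Cls R C c (E i n) := by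
    intro i
    induction i with
    | zero => intro n; rw [hE0]; exact zeroCls hB
    | succ i ih => intro n; rw [hE1]; exact (hΓ n _ (ih (n + 1))).1
  have hpb : ∀ i n, IsPB R C c (f n) (E i (n + 1)) (E (i + 1) n) := by
    intro i n
    rw [hE1]
    exact hΓ n _ (hcls i (n + 1))
  have hdif : ∀ i n, ∀ z ∈ ball (0 : G × F) (R / 2),
      ‖E (i + 1) n z - E i n z‖ ≤ (1 / 2) ^ i * (16 * C / c) * ‖z‖ * ‖z.2‖ := by
    intro i
    induction i with
    | zero =>
      intro n z hz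
      rw [hE0, sub_zero, pow_zero, one_mul]
      exact (hcls 1 n).2 z hz
    | succ i ih =>
      intro n z hz
      have h := hCt G F R C c f a b hB n (E (i + 1) (n + 1)) (E i (n + 1)) (E (i + 2) n) (E (i + 1) n)
        ((1 / 2) ^ i * (16 * C / c)) (by positivity) (hcls _ _) (hcls _ _) (hpb _ _) (hpb _ _)
        (ih (n + 1)) z hz
      refine h.trans (le_of_eq ?_)
      rw [pow_succ]
      ring
  have hsum : Summable fun i : ℕ => (1 / 2 : ℝ) ^ i * (16 * C / c * R * R) :=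
    (summable_geometric_of_lt_one (by norm_num) (by norm_num)).mul_right _
  have hb : ∀ n i, ∀ z ∈ ball (0 : G × F) (R / 2),
      ‖E (i + 1) n z - E i n z‖ ≤ (1 / 2 : ℝ) ^ i * (16 * C / c * R * R) := by
    intro n i z hz
    refine (hdif i n z hz).trans ?_
    have hz' : ‖z‖ < R / 2 := by simpa using hz
    have h3 := norm_snd_le z
    have h4 : 16 * C / c * ‖z‖ * ‖z.2‖ ≤ 16 * C / c * R * R :=
      mul_le_mul (mul_le_mul_of_nonneg_left (by linarith) hK0) (by linarith) (norm_nonneg _)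
        (by positivity)
    have h5 : (1 / 2 : ℝ) ^ i * (16 * C / c) * ‖z‖ * ‖z.2‖ =
        (1 / 2 : ℝ) ^ i * (16 * C / c * ‖z‖ * ‖z.2‖) := by ring
    rw [h5]
    exact mul_le_mul_of_nonneg_left h4 (by positivity)
  have hw := fun n => Bed.sWei (G × F) G (ball (0 : G × F) (R / 2)) (fun i => E i n) _ isOpen_ball
    (fun i => (hcls i n).1) hsum (fun i z hz => hb n i z hz)
  choose η hd hlim htail _ using hw
  have hclsη : ∀ n, Cls R C c (η n) := by
    intro n
    refine ⟨hd n, fun z hz => ?_⟩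
    exact le_of_tendsto ((hlim n z hz).norm) (Eventually.of_forall fun i => (hcls i n).2 z hz)
  have ht0 : Tendsto (fun i => ∑' j, (1 / 2 : ℝ) ^ (i + j) * (16 * C / c * R * R)) atTop (𝓝 0) := by
    have h := tendsto_sum_nat_add fun i => (1 / 2 : ℝ) ^ i * (16 * C / c * R * R)
    refine h.congr fun i => ?_
    refine tsum_congr fun j => ?_
    rw [Nat.add_comm]
  refine ⟨η, fun n => ⟨hclsη n, fun z hz => ⟨sh hB _ (hclsη n) z hz, ?_⟩⟩⟩
  have hzR : z ∈ ball (0 : G × F) R := ball_subset_ball (by linarith) hz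
  -- the right side
  have hr : Tendsto (fun i => PP (f n) (E i (n + 1)) z) atTop (𝓝 (PP (f n) (η (n + 1)) z)) := by
    unfold PP
    exact tendsto_const_nhds.add (hlim (n + 1) _ (fmem hB n z hzR))
  -- the left side
  have hx : Tendsto (fun i => ((z.1 + E (i + 1) n z, 0) : G × F)) atTop
      (𝓝 ((z.1 + η n z, 0) : G × F)) := by
    refine Tendsto.prodMk_nhds ?_ tendsto_const_nhds
    exact tendsto_const_nhds.add ((hlim n z hz).comp (tendsto_add_atTop_nat 1))
  have mem0 : ∀ x : G, x ∈ ball (0 : G) R → ((x, 0) : G × F) ∈ ball (0 : G × F) R := by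
    intro x hx
    rw [mem_ball_zero_iff] at hx ⊢
    rw [Prod.norm_mk, norm_zero, max_eq_left (norm_nonneg _)]
    exact hx
  have hxm : ((z.1 + η n z, 0) : G × F) ∈ ball (0 : G × F) R := mem0 _ (sh hB _ (hclsη n) z hz)
  have hxmi : ∀ i, ((z.1 + E (i + 1) n z, 0) : G × F) ∈ ball (0 : G × F) R :=
    fun i => mem0 _ (sh hB _ (hcls (i + 1) n) z hz)
  have hfx : Tendsto (fun i => f n ((z.1 + E (i + 1) n z, 0) : G × F)) atTop
      (𝓝 (f n ((z.1 + η n z, 0) : G × F))) := by
    have hc : ContinuousAt (f n) ((z.1 + η n z, 0) : G × F) :=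
      ((hB.diff n).differentiableAt (isOpen_ball.mem_nhds hxm)).continuousAt
    exact hc.tendsto.comp hx
  have hw := fmem hB n _ hxm
  have hηw : Tendsto (fun i => η (n + 1) (f n ((z.1 + E (i + 1) n z, 0) : G × F))) atTop
      (𝓝 (η (n + 1) (f n ((z.1 + η n z, 0) : G × F)))) := by
    have hc : ContinuousAt (η (n + 1)) (f n ((z.1 + η n z, 0) : G × F)) :=
      (((hclsη (n + 1)).1).differentiableAt (isOpen_ball.mem_nhds hw)).continuousAt
    exact hc.tendsto.comp hfx
  have hdw : Tendsto (fun i => E i (n + 1) (f n ((z.1 + E (i + 1) n z, 0) : G × F)) -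
      η (n + 1) (f n ((z.1 + E (i + 1) n z, 0) : G × F))) atTop (𝓝 0) := by
    rw [tendsto_zero_iff_norm_tendsto_zero]
    refine squeeze_zero (fun i => norm_nonneg _) (fun i => ?_) ht0
    rw [norm_sub_rev]
    exact htail (n + 1) _ (fmem hB n _ (hxmi i)) i
  have hEw : Tendsto (fun i => E i (n + 1) (f n ((z.1 + E (i + 1) n z, 0) : G × F))) atTop
      (𝓝 (η (n + 1) (f n ((z.1 + η n z, 0) : G × F)))) := by
    have h := hdw.add hηw
    rw [zero_add] at h
    refine h.congr fun i => ?_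
    abel
  have hl : Tendsto (fun i => PP (f n) (E i (n + 1)) ((z.1 + E (i + 1) n z, 0) : G × F)) atTop
      (𝓝 (PP (f n) (η (n + 1)) ((z.1 + η n z, 0) : G × F))) := by
    unfold PP
    exact ((continuous_fst.tendsto _).comp hfx).add hEw
  refine tendsto_nhds_unique hl (hr.congr fun i => ?_)
  exact (((hpb i n).2 z hz).2).symm

end Pool.Agent.Lib.BedF
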