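import Pool.Agent.Lib.BedF.SpecA
import Pool.Agent.Lib.Bed.Wei
import Pool.Agent.Lib.BedF.Dev

/-!
# Theorem F (MP_6f050a_an), module Hol: change of the base point
-/

set_option autoImplicit false
set_option linter.unusedSectionVars false

open scoped Topology
open Set Filter Metric

namespace Pool.Agent.Lib.BedF

namespace HolM

open DevM

section

variable {G F : Type} [NormedAddCommGroup G] [NormedSpace ℂ G] [FiniteDimensional ℂ G]
  [NormedAddCommGroup F] [NormedSpace ℂ F] [FiniteDimensional ℂ F]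

/-- the approximations -/
noncomputable def Lj (g : ℕ → G → G) (h : ℕ → G × F → F) (n j : ℕ) (p : G × F × F) : F →L[ℂ] F :=
  Ring.inverse (TT g h n j (p.1, p.2.1)) * TT g h n j (p.1, p.2.2)

theorem diff_Lj (hOrb : S_Orb) (R C c : ℝ) (g : ℕ → G → G) (h : ℕ → G × F → F)
    (b : ℕ → F →L[ℂ] F) (hs : Skw R C c g h b) (n j : ℕ) :
    DifferentiableOn ℂ (Lj g h n j) (ball 0 (R / 2)) := by
  have : CompleteSpace F := FiniteDimensional.complete ℂ F
  obtain ⟨-, hT, -, -, hU, -, -⟩ := hOrb G F R C c g h b hs n j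
  have hz : DifferentiableOn ℂ (fun p : G × F × F => (p.1, p.2.1)) (ball 0 (R / 2)) := by
    fun_prop
  have hw : DifferentiableOn ℂ (fun p : G × F × F => (p.1, p.2.2)) (ball 0 (R / 2)) := by
    fun_prop
  have h1 : DifferentiableOn ℂ (fun p : G × F × F => TT g h n j (p.1, p.2.1)) (ball 0 (R / 2)) :=
    hT.comp hz (fun p hp => mem_z p hp)
  have h1' : DifferentiableOn ℂ (fun p : G × F × F => TT g h n j (p.1, p.2.2)) (ball 0 (R / 2)) :=
    hT.comp hw (fun p hp => mem_w p hp)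
  have h2 : DifferentiableOn ℂ (fun p : G × F × F => Ring.inverse (TT g h n j (p.1, p.2.1)))
      (ball 0 (R / 2)) := by
    intro p hp
    have hu := (hU (p.1, p.2.1) (mem_z p hp)).1
    exact (differentiableAt_inverse hu).comp_differentiableWithinAt p (h1 p hp)
  exact h2.mul h1'

theorem Lj_zero (g : ℕ → G → G) (h : ℕ → G × F → F) (n : ℕ) (p : G × F × F) :
    Lj g h n 0 p = 1 := by
  unfold Lj
  show Ring.inverse (1 : F →L[ℂ] F) * 1 = 1
  rw [Ring.inverse_one, mul_one]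

theorem step (hFib : S_Fib) (hOrb : S_Orb) (R C c : ℝ) (g : ℕ → G → G) (h : ℕ → G × F → F)
    (b : ℕ → F →L[ℂ] F) (hs : Skw R C c g h b) (n j : ℕ) (p : G × F × F)
    (hp : p ∈ ball (0 : G × F × F) (R / 2)) :
    ‖Lj g h n (j + 1) p - Lj g h n j p‖ ≤ 8 * (C / c) * (1 / 4) ^ j * ‖p.2.2 - p.2.1‖ := by
  have hc := hs.c_pos
  have hC := hs.C_pos
  set z : G × F := (p.1, p.2.1) with hzdef
  set w : G × F := (p.1, p.2.2) with hwdef
  have hz : z ∈ ball (0 : G × F) (R / 2) := mem_z p hp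
  have hw : w ∈ ball (0 : G × F) (R / 2) := mem_w p hp
  obtain ⟨-, -, h3, h4, h5, hpos, hbg⟩ := hOrb G F R C c g h b hs n j
  obtain ⟨-, -, -, -, h5', hpos', -⟩ := hOrb G F R C c g h b hs n (j + 1)
  obtain ⟨-, -, -, f4, -, -, ⟨-, f7⟩, -⟩ := hFib G F R C c g h b hs (n + j)
  have hin : ∀ v ∈ ball (0 : G × F) (R / 2), orb (sk g h) n j v ∈ ball (0 : G × F) (R / 2) := by
    intro v hv
    have h6 := h3 v hv
    rw [mem_ball_zero_iff] at hv ⊢
    refine lt_of_le_of_lt (h6.trans ?_) hv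
    have h7 : ((1 : ℝ) / 4) ^ j ≤ 1 := pow_le_one₀ (by norm_num) (by norm_num)
    nlinarith [norm_nonneg v]
  obtain ⟨h41, h42⟩ := h4 z hz w hw rfl
  obtain ⟨hU, -⟩ := h5 z hz
  obtain ⟨-, hup⟩ := h5 w hw
  obtain ⟨hU', hlow⟩ := h5' z hz
  set P : ℝ := ∏ i ∈ Finset.range j, ga R C c b (n + i) with hPdef
  set Q : ℝ := ∏ i ∈ Finset.range j, be R C b (n + i) with hQdef
  set A : F →L[ℂ] F := AA h (n + j) (orb (sk g h) n j z) with hAdef
  set A' : F →L[ℂ] F := AA h (n + j) (orb (sk g h) n j w) with hA'def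
  set S : F →L[ℂ] F := TT g h n j z with hSdef
  set S' : F →L[ℂ] F := TT g h n j w with hS'def
  have hT1 : TT g h n (j + 1) z = A * S := rfl
  have hT1' : TT g h n (j + 1) w = A' * S' := rfl
  -- the difference of the points
  have hdn : ‖orb (sk g h) n j w - orb (sk g h) n j z‖ ≤ Q * ‖p.2.2 - p.2.1‖ := by
    rw [norm_prod_le_iff]
    refine ⟨?_, h42⟩
    have h8 : (orb (sk g h) n j w - orb (sk g h) n j z).1 = 0 := by
      rw [Prod.fst_sub, h41, sub_self]
    rw [h8, norm_zero]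
    exact (norm_nonneg _).trans h42
  have hAA : ‖A' - A‖ ≤ 4 * C * (Q * ‖p.2.2 - p.2.1‖) :=
    (f4 _ (hin w hw) _ (hin z hz)).trans
      (mul_le_mul_of_nonneg_left hdn (by positivity))
  have hP' : ∏ i ∈ Finset.range (j + 1), ga R C c b (n + i) = P * ga R C c b (n + j) := by
    rw [Finset.prod_range_succ]
  rw [hP'] at hpos' hlow
  have hga : 0 < ga R C c b (n + j) := by
    have := f7
    linarith
  have hK : 0 ≤ 8 * (C / c) * (1 / 4) ^ j * ‖p.2.2 - p.2.1‖ := by positivity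
  refine ContinuousLinearMap.opNorm_le_bound _ hK fun v => ?_
  -- the value at `v`
  have h7 : (Lj g h n (j + 1) p - Lj g h n j p) v =
      Ring.inverse (TT g h n (j + 1) z) ((A' - A) (S' v)) := by
    have e1 : Lj g h n (j + 1) p v = Ring.inverse (TT g h n (j + 1) z) (A' (S' v)) := rfl
    have e2 : Lj g h n j p v = Ring.inverse (TT g h n (j + 1) z) (A (S' v)) := by
      symm
      refine inv_eq _ hU' _ _ ?_
      rw [hT1]
      show A (S (Ring.inverse S (S' v))) = A (S' v)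
      rw [inv_app _ hU]
    rw [_root_.sub_apply, e1, e2, ← map_sub, _root_.sub_apply]
  have h8 := (hlow ((Lj g h n (j + 1) p - Lj g h n j p) v)).2
  rw [h7, inv_app _ hU', ← h7] at h8
  have hD0 : 0 ≤ ‖(Lj g h n (j + 1) p - Lj g h n j p) v‖ := norm_nonneg _
  set N : ℝ := ‖(Lj g h n (j + 1) p - Lj g h n j p) v‖ with hN
  have hv0 : 0 ≤ ‖v‖ := norm_nonneg v
  have hy0 : 0 ≤ ‖p.2.2 - p.2.1‖ := norm_nonneg _
  have hS'v : ‖S' v‖ ≤ Q * ‖v‖ := (hup v).1
  have h9 : ‖(A' - A) (S' v)‖ ≤ 4 * C * ((1 / 4) ^ j * P * (‖p.2.2 - p.2.1‖ * ‖v‖)) := by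
    have h10 : ‖(A' - A) (S' v)‖ ≤ (4 * C * (Q * ‖p.2.2 - p.2.1‖)) * (Q * ‖v‖) :=
      ((A' - A).le_opNorm _).trans
        (mul_le_mul hAA hS'v (norm_nonneg _) ((norm_nonneg _).trans hAA))
    have h11 := mul_le_mul_of_nonneg_right hbg (mul_nonneg hy0 hv0)
    have h12 := mul_le_mul_of_nonneg_left h11 (show (0 : ℝ) ≤ 4 * C by positivity)
    refine (h10.trans (le_of_eq ?_)).trans h12
    ring
  have h11 : P * (c / 2) * N ≤ 4 * C * ((1 / 4) ^ j * P * (‖p.2.2 - p.2.1‖ * ‖v‖)) := by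
    have h12 : P * (c / 2) * N ≤ P * ga R C c b (n + j) * N :=
      mul_le_mul_of_nonneg_right (mul_le_mul_of_nonneg_left f7 hpos.le) hD0
    linarith
  have h14 : P * ((c / 2) * N) ≤ P * ((c / 2) * (8 * (C / c) * (1 / 4) ^ j *
      ‖p.2.2 - p.2.1‖ * ‖v‖)) := by
    have h15 : (c / 2) * (8 * (C / c) * (1 / 4) ^ j * ‖p.2.2 - p.2.1‖ * ‖v‖) =
        4 * C * ((1 / 4) ^ j * (‖p.2.2 - p.2.1‖ * ‖v‖)) := by
      field_simp
      ring
    rw [h15]
    linarith
  exact le_of_mul_le_mul_left (le_of_mul_le_mul_left h14 hpos) (by positivity)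

theorem part_bd (hFib : S_Fib) (hOrb : S_Orb) (R C c : ℝ) (g : ℕ → G → G) (h : ℕ → G × F → F)
    (b : ℕ → F →L[ℂ] F) (hs : Skw R C c g h b) (n j : ℕ) (p : G × F × F)
    (hp : p ∈ ball (0 : G × F × F) (R / 2)) :
    ‖Lj g h n j p - 1‖ ≤ 32 / 3 * (C / c) * (1 - (1 / 4) ^ j) * ‖p.2.2 - p.2.1‖ := by
  induction j with
  | zero =>
    rw [Lj_zero, sub_self, norm_zero, pow_zero, sub_self]
    simp
  | succ j ih =>
    have h1 := step hFib hOrb R C c g h b hs n j p hp
    have h2 : ‖Lj g h n (j + 1) p - 1‖ ≤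
        ‖Lj g h n (j + 1) p - Lj g h n j p‖ + ‖Lj g h n j p - 1‖ := by
      have h3 : Lj g h n (j + 1) p - 1 =
        (Lj g h n (j + 1) p - Lj g h n j p) + (Lj g h n j p - 1) := by abel
      rw [h3]
      exact norm_add_le _ _
    refine (h2.trans (add_le_add h1 ih)).trans (le_of_eq ?_)
    rw [pow_succ]
    ring

/-- the relation for the approximations -/
theorem rel (hOrb : S_Orb) (R C c : ℝ) (g : ℕ → G → G) (h : ℕ → G × F → F)
    (b : ℕ → F →L[ℂ] F) (hs : Skw R C c g h b) (n j : ℕ) (x : G) (y y' y'' : F)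
    (hw : (x, y') ∈ ball (0 : G × F) (R / 2)) :
    Dj g h n j (x, y, y'') =
      Dj g h n j (x, y, y') + Lj g h n j (x, y, y') (Dj g h n j (x, y', y'')) := by
  obtain ⟨-, -, -, -, hU, -, -⟩ := hOrb G F R C c g h b hs n j
  have hu := (hU _ hw).1
  have h1 : Lj g h n j (x, y, y') (Dj g h n j (x, y', y'')) =
      Ring.inverse (TT g h n j (x, y))
        ((orb (sk g h) n j (x, y'')).2 - (orb (sk g h) n j (x, y')).2) := by
    show Ring.inverse (TT g h n j (x, y)) (TT g h n j (x, y') (Ring.inverse (TT g h n j (x, y'))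
      ((orb (sk g h) n j (x, y'')).2 - (orb (sk g h) n j (x, y')).2))) = _
    rw [inv_app _ hu]
  rw [h1]
  show Ring.inverse (TT g h n j (x, y))
      ((orb (sk g h) n j (x, y'')).2 - (orb (sk g h) n j (x, y)).2) =
    Ring.inverse (TT g h n j (x, y))
      ((orb (sk g h) n j (x, y')).2 - (orb (sk g h) n j (x, y)).2) + _
  rw [← map_add]
  congr 1
  abel

end

end HolM

open DevM HolM in
theorem holP : S_Fib → S_Orb → S_Hol := by
  intro hFib hOrb G F _ _ _ _ _ _ R C c g h b Dv hs hDv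
  have : CompleteSpace F := FiniteDimensional.complete ℂ F
  have hc := hs.c_pos
  have hC := hs.C_pos
  have hR := hs.R_pos
  have hq : 0 < C / c := div_pos hC hc
  -- the limits
  have hlim : ∀ n : ℕ, ∃ H : G × F × F → (F →L[ℂ] F), DifferentiableOn ℂ H (ball 0 (R / 2)) ∧
      ∀ p ∈ ball (0 : G × F × F) (R / 2), Tendsto (fun j => Lj g h n j p) atTop (𝓝 (H p)) := by
    intro n
    have hsum : Summable fun j : ℕ => 8 * (C / c) * R * (1 / 4 : ℝ) ^ j :=
      (summable_geometric_of_lt_one (by norm_num) (by norm_num)).mul_left _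
    obtain ⟨H, hH1, hH2, -, -⟩ := Bed.sWei (G × F × F) (F →L[ℂ] F) (ball 0 (R / 2)) (Lj g h n)
      (fun j => 8 * (C / c) * R * (1 / 4 : ℝ) ^ j) isOpen_ball
      (fun j => diff_Lj hOrb R C c g h b hs n j) hsum (fun j p hp => by
        refine (HolM.step hFib hOrb R C c g h b hs n j p hp).trans ?_
        have h1 : ‖p.2.2 - p.2.1‖ ≤ R := by
          rw [mem_ball_zero_iff] at hp
          have ha : ‖p.2.1‖ < R / 2 :=
            lt_of_le_of_lt ((norm_fst_le p.2).trans (norm_snd_le p)) hp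
          have hb : ‖p.2.2‖ < R / 2 :=
            lt_of_le_of_lt ((norm_snd_le p.2).trans (norm_snd_le p)) hp
          have := norm_sub_le p.2.2 p.2.1
          linarith
        have h3 : 0 ≤ 8 * (C / c) * (1 / 4 : ℝ) ^ j := by positivity
        have h4 := mul_le_mul_of_nonneg_left h1 h3
        linarith)
    exact ⟨H, hH1, hH2⟩
  choose Lm hLm1 hLm2 using hlim
  refine ⟨Lm, fun n => ⟨hLm1 n, fun x y y' hp => ⟨?_, fun y'' hy'' => ?_⟩⟩⟩
  · have h1 := (hLm2 n _ hp).sub_const 1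
    have h2 := h1.norm
    refine le_of_tendsto h2 (Eventually.of_forall fun j => ?_)
    have h3 := HolM.part_bd hFib hOrb R C c g h b hs n j _ hp
    refine h3.trans ?_
    show 32 / 3 * (C / c) * (1 - (1 / 4) ^ j) * ‖y' - y‖ ≤ 16 * C / c * ‖y' - y‖
    have h4 : (0 : ℝ) ≤ (1 / 4) ^ j := by positivity
    have h5 : 32 / 3 * (C / c) * (1 - (1 / 4 : ℝ) ^ j) ≤ 16 * C / c := by
      have h6 : 16 * C / c = 16 * (C / c) := by ring
      rw [h6]
      have h7 := mul_nonneg hq.le h4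
      nlinarith
    exact mul_le_mul_of_nonneg_right h5 (norm_nonneg _)
  · have hz : (x, y) ∈ ball (0 : G × F) (R / 2) := mem_z (x, y, y') hp
    have hw : (x, y') ∈ ball (0 : G × F) (R / 2) := mem_w (x, y, y') hp
    have hx : ‖x‖ < R / 2 := by
      rw [mem_ball_zero_iff] at hz
      exact lt_of_le_of_lt (norm_fst_le (x, y)) hz
    have hv : (x, y'') ∈ ball (0 : G × F) (R / 2) := by
      rw [mem_ball_zero_iff, Prod.norm_def]
      exact max_lt hx hy''
    have l1 := hDv.lim n x y y'' (mem_p _ _ _ hz hv)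
    have l2 := hDv.lim n x y y' hp
    have l3 := hDv.lim n x y' y'' (mem_p _ _ _ hw hv)
    have l5 : Tendsto (fun j => Lj g h n j (x, y, y') (Dj g h n j (x, y', y''))) atTop
        (𝓝 (Lm n (x, y, y') (Dv n (x, y', y'')))) :=
      ((continuous_fst.clm_apply continuous_snd).tendsto
        (Lm n (x, y, y'), Dv n (x, y', y''))).comp ((hLm2 n _ hp).prodMk_nhds l3)
    have l4 := l2.add l5
    refine tendsto_nhds_unique l1 (l4.congr fun j => ?_)
    exact (rel hOrb R C c g h b hs n j x y y' y'' hw).symm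

end Pool.Agent.Lib.BedF
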