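import Pool.Agent.Lib.BedF.SpecA

/-!
# Lipschitz inverse function theorem with a parameter
-/

set_option autoImplicit false

open scoped Topology
open Set Filter Metric

namespace Pool.Agent.Lib.BedF

namespace InvM

variable {E : Type} [NormedAddCommGroup E] [NormedSpace ℂ E]

/-- A continuous linear map bounded from below on a finite dimensional space has a continuous linear
inverse. -/
theorem inverse [FiniteDimensional ℂ E] (A : E →L[ℂ] E) (k : ℝ) (hk : 0 < k)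
    (hA : ∀ x, k * ‖x‖ ≤ ‖A x‖) : ∃ B : E →L[ℂ] E, (∀ x, B (A x) = x) ∧ (∀ x, A (B x) = x) ∧
      ∀ x, ‖B x‖ ≤ k⁻¹ * ‖x‖ := by
  have hinj : Function.Injective (A : E →ₗ[ℂ] E) := by
    intro x y hxy
    have h1 : A (x - y) = 0 := by
      rw [map_sub]
      exact sub_eq_zero.2 hxy
    have h2 := hA (x - y)
    rw [h1, norm_zero] at h2
    have h3 : ‖x - y‖ ≤ 0 := by
      by_contra h
      have h4 : 0 < k * ‖x - y‖ := mul_pos hk (not_le.1 h)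
      linarith
    exact sub_eq_zero.1 (norm_le_zero_iff.1 h3)
  let e := LinearEquiv.ofInjectiveEndo (A : E →ₗ[ℂ] E) hinj
  have h1 : ∀ x, e.symm (A x) = x := fun x => e.symm_apply_apply x
  have h2 : ∀ x, A (e.symm x) = x := fun x => e.apply_symm_apply x
  refine ⟨LinearMap.toContinuousLinearMap (e.symm : E →ₗ[ℂ] E), h1, h2, fun x => ?_⟩
  have h3 := hA (e.symm x)
  rw [h2 x] at h3
  change ‖e.symm x‖ ≤ k⁻¹ * ‖x‖
  rw [inv_mul_eq_div, le_div_iff₀ hk]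
  linarith

/-- The four statements. -/
theorem main [FiniteDimensional ℂ E] (L : E →L[ℂ] E)
    (κ θ ρ : ℝ) (φ : E → E) (hθ : 0 ≤ θ) (hκ : θ < κ) (hL : ∀ x, κ * ‖x‖ ≤ ‖L x‖)
    (hφ : DifferentiableOn ℂ φ (ball 0 ρ))
    (hlip : ∀ x ∈ ball (0 : E) ρ, ∀ y ∈ ball (0 : E) ρ,
      ‖(φ x - L x) - (φ y - L y)‖ ≤ θ * ‖x - y‖) :
    (∀ x ∈ ball (0 : E) ρ, ∀ y ∈ ball (0 : E) ρ, (κ - θ) * ‖x - y‖ ≤ ‖φ x - φ y‖) ∧
    (∀ x ∈ ball (0 : E) ρ, ∀ w, (κ - θ) * ‖w‖ ≤ ‖fderiv ℂ φ x w‖) ∧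
    (∀ x₀ t, ball x₀ t ⊆ ball (0 : E) ρ → ∀ u, ‖u - φ x₀‖ < (κ - θ) * t →
      ∃ x ∈ ball x₀ t, φ x = u) ∧
    ∀ (F : Type) [NormedAddCommGroup F] [NormedSpace ℂ F] (W : Set F) (ψ P : F → E), IsOpen W →
      DifferentiableOn ℂ P W → (∀ u ∈ W, ψ u ∈ ball (0 : E) ρ ∧ φ (ψ u) = P u) →
      DifferentiableOn ℂ ψ W := by
  have hκ0 : 0 < κ := lt_of_le_of_lt hθ hκ
  have hd : 0 < κ - θ := sub_pos.2 hκ
  have c1 : ∀ x ∈ ball (0 : E) ρ, ∀ y ∈ ball (0 : E) ρ, (κ - θ) * ‖x - y‖ ≤ ‖φ x - φ y‖ := by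
    intro x hx y hy
    have h1 := hL (x - y)
    have h2 := hlip x hx y hy
    have h3 : L (x - y) = (φ x - φ y) - ((φ x - L x) - (φ y - L y)) := by
      rw [map_sub]
      abel
    have h4 : ‖L (x - y)‖ ≤ ‖φ x - φ y‖ + ‖(φ x - L x) - (φ y - L y)‖ := by
      rw [h3]
      exact norm_sub_le _ _
    nlinarith
  have hdiff : ∀ x ∈ ball (0 : E) ρ, HasFDerivAt φ (fderiv ℂ φ x) x := fun x hx =>
    (hφ.differentiableAt (isOpen_ball.mem_nhds hx)).hasFDerivAt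
  have c2 : ∀ x ∈ ball (0 : E) ρ, ∀ w, (κ - θ) * ‖w‖ ≤ ‖fderiv ℂ φ x w‖ := by
    intro x hx w
    have h1 : HasFDerivAt (fun y => φ y - L y) (fderiv ℂ φ x - L) x :=
      (hdiff x hx).sub L.hasFDerivAt
    have h2 : ‖fderiv ℂ φ x - L‖ ≤ θ := by
      refine h1.le_of_lip' hθ ?_
      filter_upwards [isOpen_ball.mem_nhds hx] with y hy
      exact hlip y hy x hx
    have h3 : ‖fderiv ℂ φ x w - L w‖ ≤ θ * ‖w‖ := by
      exact (fderiv ℂ φ x - L).le_of_opNorm_le h2 w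
    have h5 := hL w
    have h6 : ‖L w‖ ≤ ‖fderiv ℂ φ x w‖ + ‖fderiv ℂ φ x w - L w‖ := by
      have h7 : L w = fderiv ℂ φ x w - (fderiv ℂ φ x w - L w) := by abel
      calc ‖L w‖ = ‖fderiv ℂ φ x w - (fderiv ℂ φ x w - L w)‖ := by rw [← h7]
        _ ≤ _ := norm_sub_le _ _
    nlinarith
  refine ⟨c1, c2, ?_, ?_⟩
  · intro x₀ t hball u hu
    obtain ⟨t', ht1, ht2⟩ : ∃ t', ‖u - φ x₀‖ ≤ (κ - θ) * t' ∧ t' < t := by
      refine ⟨‖u - φ x₀‖ / (κ - θ), ?_, ?_⟩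
      · rw [mul_div_cancel₀ _ (ne_of_gt hd)]
      · rw [div_lt_iff₀ hd]
        linarith
    have ht0 : 0 ≤ t' := by
      by_contra h
      have h1 : (κ - θ) * t' < 0 := mul_neg_of_pos_of_neg hd (not_le.1 h)
      linarith [norm_nonneg (u - φ x₀)]
    have : CompleteSpace E := FiniteDimensional.complete ℂ E
    obtain ⟨B, -, hB2, hB3⟩ := inverse L κ hκ0 hL
    have hA : ApproximatesLinearOn φ L (ball 0 ρ) ⟨θ, hθ⟩ := by
      intro x hx y hy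
      have h1 := hlip x hx y hy
      have h2 : φ x - φ y - L (x - y) = (φ x - L x) - (φ y - L y) := by
        rw [map_sub]
        abel
      rw [h2]
      exact h1
    let R : L.NonlinearRightInverse :=
      { toFun := B
        nnnorm := ⟨κ⁻¹, le_of_lt (inv_pos.2 hκ0)⟩
        bound' := hB3
        right_inv' := hB2 }
    have h3 := hA.surjOn_closedBall_of_nonlinearRightInverse R (ε := t') (b := x₀) ht0
      ((closedBall_subset_ball ht2).trans hball)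
    have h4 : u ∈ closedBall (φ x₀) ((((R.nnnorm : ℝ))⁻¹ - ((⟨θ, hθ⟩ : NNReal) : ℝ)) * t') := by
      rw [mem_closedBall, dist_eq_norm]
      change ‖u - φ x₀‖ ≤ ((κ⁻¹)⁻¹ - θ) * t'
      rw [inv_inv]
      exact ht1
    obtain ⟨x, hx, hxu⟩ := h3 h4
    exact ⟨x, closedBall_subset_ball ht2 hx, hxu⟩
  · intro F _ _ W ψ P hW hP hψ u₀ hu₀
    obtain ⟨hψ0, hψP⟩ := hψ u₀ hu₀
    obtain ⟨B, hB1, -, -⟩ := inverse (fderiv ℂ φ (ψ u₀)) (κ - θ) hd (c2 (ψ u₀) hψ0)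
    have hWn : W ∈ 𝓝 u₀ := hW.mem_nhds hu₀
    have hPd : HasFDerivAt P (fderiv ℂ P u₀) u₀ :=
      (hP.differentiableAt hWn).hasFDerivAt
    -- the Lipschitz type bound
    have hb : ∀ᶠ u in 𝓝 u₀, ‖ψ u - ψ u₀‖ ≤ (κ - θ)⁻¹ * ‖P u - P u₀‖ := by
      filter_upwards [hWn] with u hu
      have h1 := c1 (ψ u) (hψ u hu).1 (ψ u₀) hψ0
      rw [(hψ u hu).2, hψP] at h1
      rw [inv_mul_eq_div, le_div_iff₀ hd]
      linarith
    have hO1 : (fun u => ψ u - ψ u₀) =O[𝓝 u₀] fun u => P u - P u₀ :=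
      Asymptotics.IsBigO.of_bound _ hb
    have hO2 : (fun u => ψ u - ψ u₀) =O[𝓝 u₀] fun u => u - u₀ := hO1.trans hPd.isBigO_sub
    have hcont : Tendsto ψ (𝓝 u₀) (𝓝 (ψ u₀)) := by
      have h1 : Tendsto (fun u => ψ u - ψ u₀) (𝓝 u₀) (𝓝 0) := by
        refine hO2.trans_tendsto ?_
        have h2 : Tendsto (fun u : F => u - u₀) (𝓝 u₀) (𝓝 (u₀ - u₀)) :=
          (continuous_id.sub continuous_const).tendsto u₀
        rwa [sub_self] at h2
      exact tendsto_sub_nhds_zero_iff.1 h1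
    have h1 : (fun u => φ (ψ u) - φ (ψ u₀) - fderiv ℂ φ (ψ u₀) (ψ u - ψ u₀)) =o[𝓝 u₀]
        fun u => ψ u - ψ u₀ := (hasFDerivAt_iff_isLittleO.1 (hdiff (ψ u₀) hψ0)).comp_tendsto hcont
    have h2 := h1.trans_isBigO hO2
    have h3 : (fun u => P u - P u₀ - fderiv ℂ P u₀ (u - u₀)) =o[𝓝 u₀] fun u => u - u₀ :=
      hasFDerivAt_iff_isLittleO.1 hPd
    have h4 : (fun u => fderiv ℂ φ (ψ u₀) (ψ u - ψ u₀) - fderiv ℂ P u₀ (u - u₀)) =o[𝓝 u₀]
        fun u => u - u₀ := by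
      refine (h3.sub h2).congr' ?_ (EventuallyEq.refl _ _)
      filter_upwards [hWn] with u hu
      rw [(hψ u hu).2, hψP]
      abel
    have h5 : (fun u => ψ u - ψ u₀ - (B.comp (fderiv ℂ P u₀)) (u - u₀)) =o[𝓝 u₀]
        fun u => u - u₀ := by
      refine ((B.isBigO_comp _ _).trans_isLittleO h4).congr' ?_ (EventuallyEq.refl _ _)
      filter_upwards with u
      rw [map_sub, hB1]
      rfl
    exact (hasFDerivAt_iff_isLittleO.2 h5).differentiableAt.differentiableWithinAt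

end InvM

/-- **Inv.** -/
theorem invP : S_Inv := by
  intro E _ _ _ L κ θ ρ φ hθ hκ hL hφ hlip
  exact InvM.main L κ θ ρ φ hθ hκ hL hφ hlip

end Pool.Agent.Lib.BedF
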