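import Pool.Agent.Lib.BedF.SpecB
import Mathlib.Analysis.SpecialFunctions.Exponential
import Mathlib.Analysis.Calculus.InverseFunctionTheorem.ContDiff

/-!
# Theorem F (MP_6f050a_an): the local logarithm
-/

set_option autoImplicit false

open scoped Topology
open Set Filter Metric

namespace Pool.Agent.Lib.BedF

theorem logP : S_Log := by
  intro A _ _ _
  have hc : ContDiffAt ℂ 1 (NormedSpace.exp : A → A) 0 :=
    (NormedSpace.exp_analytic (𝕂 := ℂ) (0 : A)).contDiffAt
  have hd : HasFDerivAt (NormedSpace.exp : A → A)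
      ((ContinuousLinearEquiv.refl ℂ A : A ≃L[ℂ] A) : A →L[ℂ] A) 0 :=
    hasFDerivAt_exp_zero (𝕂 := ℂ) (𝔸 := A)
  have h1 : (1 : WithTop ℕ∞) ≠ 0 := one_ne_zero
  have hl := hc.to_localInverse hd h1
  have hr := (hc.hasStrictFDerivAt' hd h1).eventually_right_inverse
  rw [NormedSpace.exp_zero] at hl hr
  have hl2 := (hl.eventually (by simp)).and hr
  obtain ⟨δ, hδ, hb⟩ := Metric.eventually_nhds_iff_ball.1 hl2
  refine ⟨δ, hδ, hc.localInverse hd h1, fun X hX => ?_, fun X hX => (hb X hX).2⟩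
  exact ((hb X hX).1.differentiableAt h1).differentiableWithinAt

end Pool.Agent.Lib.BedF
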