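import Pool.Agent.Lib.BedF.SpecA

/-!
# `j` steps in the fibre
-/

set_option autoImplicit false

open scoped Topology
open Set Filter Metric

namespace Pool.Agent.Lib.BedF

namespace OrbM

section
variable {G F : Type} [NormedAddCommGroup G] [NormedSpace ℂ G] [NormedAddCommGroup F] [NormedSpace ℂ F]

theorem unit_of_low [FiniteDimensional ℂ F] (T : F →L[ℂ] F) (κ : ℝ) (hκ : 0 < κ)
    (h : ∀ v, κ * ‖v‖ ≤ ‖T v‖) : IsUnit T := by
  have : CompleteSpace F := FiniteDimensional.complete ℂ F
  have hinj : Function.Injective T := by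
    intro v w hvw
    have h1 := h (v - w)
    rw [map_sub, hvw, sub_self, norm_zero] at h1
    have h2 : ‖v - w‖ ≤ 0 := by
      by_contra h3
      have h4 := mul_pos hκ (not_le.1 h3)
      linarith
    exact sub_eq_zero.1 (norm_le_zero_iff.1 h2)
  have hsurj : Function.Surjective (T : F →ₗ[ℂ] F) :=
    LinearMap.injective_iff_surjective.1 hinj
  exact ContinuousLinearMap.isUnit_iff_bijective.2 ⟨hinj, hsurj⟩

theorem be_nonneg {R C : ℝ} (hR : 0 ≤ R) (hC : 0 ≤ C) (b : ℕ → F →L[ℂ] F) (n : ℕ) :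
    0 ≤ be R C b n := by
  unfold be
  positivity

theorem sk_diff {R C c : ℝ} {g : ℕ → G → G} {h : ℕ → G × F → F} {b : ℕ → F →L[ℂ] F}
    (hS : Skw R C c g h b) (k : ℕ) : DifferentiableOn ℂ (sk g h k) (ball (0 : G × F) R) := by
  have hm : MapsTo (Prod.fst : G × F → G) (ball (0 : G × F) R) (ball (0 : G) R) := by
    intro z hz
    rw [mem_ball_zero_iff] at hz ⊢
    exact lt_of_le_of_lt (norm_fst_le z) hz
  exact ((hS.gdiff k).comp differentiable_fst.differentiableOn hm).prodMk (hS.hdiff k)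

end

end OrbM

open OrbM in
theorem orbP : S_Fib → S_Orb := by
  intro hFib G F _ _ _ _ _ _ R C c g h b hS n j
  have hR := hS.R_pos
  have hC := hS.C_pos
  have hF := hFib G F R C c g h b hS
  have hbe : ∀ k, 0 ≤ be R C b k := be_nonneg hR.le hC.le b
  have hga : ∀ k, 0 < ga R C c b k := fun k =>
    lt_of_lt_of_le (half_pos hS.c_pos) (hF k).2.2.2.2.2.2.1.2
  induction j with
  | zero =>
    refine ⟨?_, ?_, ?_, ?_, ?_, ?_, ?_⟩
    · exact differentiableOn_id
    · exact differentiableOn_const _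
    · intro z _
      rw [pow_zero, one_mul]
      exact le_refl _
    · intro z _ w _ hzw
      refine ⟨hzw, ?_⟩
      rw [Finset.prod_range_zero, one_mul]
      exact le_refl _
    · intro z _
      refine ⟨isUnit_one, fun v => ?_⟩
      rw [Finset.prod_range_zero, Finset.prod_range_zero, one_mul]
      exact ⟨le_refl _, le_refl _⟩
    · rw [Finset.prod_range_zero]
      exact one_pos
    · rw [Finset.prod_range_zero, Finset.prod_range_zero]
      norm_num
  | succ j ih =>
    obtain ⟨i1, i2, i3, i4, i5, i6, i7⟩ := ih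
    obtain ⟨f1, f2, f3, f4, f5, f6, ⟨f7, f7'⟩, f8⟩ := hF (n + j)
    have hsmall : ∀ z ∈ ball (0 : G × F) (R / 2), orb (sk g h) n j z ∈ ball (0 : G × F) (R / 2) := by
      intro z hz
      have h1 := i3 z hz
      rw [mem_ball_zero_iff] at hz ⊢
      have h2 : (1 / 4 : ℝ) ^ j ≤ 1 := pow_le_one₀ (by norm_num) (by norm_num)
      have h3 : (1 / 4 : ℝ) ^ j * ‖z‖ ≤ 1 * ‖z‖ := mul_le_mul_of_nonneg_right h2 (norm_nonneg z)
      linarith
    have hbig : ∀ z ∈ ball (0 : G × F) (R / 2), z ∈ ball (0 : G × F) R := by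
      intro z hz
      rw [mem_ball_zero_iff] at hz ⊢
      linarith
    have hmaps : MapsTo (orb (sk g h) n j) (ball (0 : G × F) (R / 2)) (ball (0 : G × F) R) :=
      fun z hz => hbig _ (hsmall z hz)
    refine ⟨?_, ?_, ?_, ?_, ?_, ?_, ?_⟩
    · exact (sk_diff hS (n + j)).comp i1 hmaps
    · exact (f1.comp i1 hmaps).mul i2
    · intro z hz
      have h1 := f2 _ (hbig _ (hsmall z hz))
      have h2 := i3 z hz
      change ‖sk g h (n + j) (orb (sk g h) n j z)‖ ≤ _
      rw [pow_succ]
      linarith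
    · intro z hz w hw hzw
      obtain ⟨h1, h2⟩ := i4 z hz w hw hzw
      refine ⟨?_, ?_⟩
      · change g (n + j) (orb (sk g h) n j z).1 = g (n + j) (orb (sk g h) n j w).1
        rw [h1]
      · change ‖h (n + j) (orb (sk g h) n j w) - h (n + j) (orb (sk g h) n j z)‖ ≤ _
        have h3 := f6 _ (hbig _ (hsmall z hz)) _ (hbig _ (hsmall w hw)) h1
        refine h3.trans ?_
        have h4 := mul_le_mul_of_nonneg_left h2 (hbe (n + j))
        rw [Finset.prod_range_succ]
        linarith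
    · intro z hz
      obtain ⟨h1, h2⟩ := i5 z hz
      have h3 := f8 _ (hbig _ (hsmall z hz))
      have h4 : IsUnit (AA h (n + j) (orb (sk g h) n j z)) :=
        unit_of_low _ _ (hga (n + j)) fun v => (h3 v).2
      refine ⟨h4.mul h1, fun v => ?_⟩
      change ‖AA h (n + j) (orb (sk g h) n j z) (TT g h n j z v)‖ ≤ _ ∧
        _ ≤ ‖AA h (n + j) (orb (sk g h) n j z) (TT g h n j z v)‖
      obtain ⟨h5, h6⟩ := h3 (TT g h n j z v)
      obtain ⟨h7, h8⟩ := h2 v
      have h9 := mul_le_mul_of_nonneg_left h7 (hbe (n + j))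
      have h10 := mul_le_mul_of_nonneg_left h8 (hga (n + j)).le
      rw [Finset.prod_range_succ, Finset.prod_range_succ]
      constructor
      · linarith
      · linarith
    · rw [Finset.prod_range_succ]
      exact mul_pos i6 (hga (n + j))
    · have h1 : be R C b (n + j) ^ 2 ≤ 1 / 4 * ga R C c b (n + j) := by linarith
      have h2 : 0 ≤ (1 / 4 : ℝ) ^ j * ∏ i ∈ Finset.range j, ga R C c b (n + i) :=
        mul_nonneg (pow_nonneg (by norm_num) j) i6.le
      have e1 : (1 / 4 : ℝ) ^ (j + 1) = (1 / 4) ^ j * (1 / 4) := pow_succ _ _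
      rw [Finset.prod_range_succ, Finset.prod_range_succ, mul_pow, e1]
      generalize (∏ i ∈ Finset.range j, be R C b (n + i)) = P at i7 ⊢
      generalize (∏ i ∈ Finset.range j, ga R C c b (n + i)) = Q at i7 h2 ⊢
      generalize be R C b (n + j) = p at h1 ⊢
      generalize ga R C c b (n + j) = q at h1 ⊢
      generalize ((1 / 4 : ℝ) ^ j) = w at i7 h2 ⊢
      have h3 : P ^ 2 * p ^ 2 ≤ (w * Q) * (1 / 4 * q) := mul_le_mul i7 h1 (sq_nonneg _) h2
      linarith

end Pool.Agent.Lib.BedF
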