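import Pool.Agent.Lib.BedF.SpecA

/-!
# Pull back, existence (MP_6f050a_an, Theorem F): `S_Pb`
-/

set_option autoImplicit false
set_option linter.unusedSectionVars false

open scoped Topology
open Set Filter Metric

namespace Pool.Agent.Lib.BedF

namespace PbM

section
variable {G F : Type} [NormedAddCommGroup G] [NormedSpace ℂ G] [NormedAddCommGroup F] [NormedSpace ℂ F]
  {R C c : ℝ} {f : ℕ → G × F → G × F} {a : ℕ → G →L[ℂ] G} {b : ℕ → F →L[ℂ] F}

theorem CR_le (h : Blk R C c f a b) : C * R ≤ c / 2 ^ 12 := by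
  have h1 := h.small
  have h2 : c ^ 2 ≤ c := by
    have := h.c_le
    have := h.c_pos
    nlinarith
  rw [le_div_iff₀ (by norm_num)]
  nlinarith

theorem CR_pos (h : Blk R C c f a b) : 0 < C * R := mul_pos h.C_pos h.R_pos

theorem K_pos (h : Blk R C c f a b) : 0 < 16 * C / c :=
  div_pos (mul_pos (by norm_num) h.C_pos) h.c_pos

theorem KR_le (h : Blk R C c f a b) : 16 * C / c * R ≤ c / 2 ^ 8 := by
  have h1 := h.small
  have hc := h.c_pos
  rw [div_mul_eq_mul_div, div_le_div_iff₀ hc (by norm_num)]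
  nlinarith

theorem Kc (h : Blk R C c f a b) : 16 * C / c * c = 16 * C :=
  div_mul_cancel₀ _ h.c_pos.ne'

/-- The linear part is contracting. -/
theorem lin_le (h : Blk R C c f a b) (n : ℕ) (z : G × F) :
    ‖((a n z.1, b n z.2) : G × F)‖ ≤ 1 / 8 * ‖z‖ := by
  rw [Prod.norm_mk]
  refine max_le ?_ ?_
  · refine (h.aup n z.1).trans ?_
    exact mul_le_mul_of_nonneg_left (norm_fst_le z) (by norm_num)
  · refine ((b n).le_opNorm z.2).trans ?_
    exact mul_le_mul (h.bup n) (norm_snd_le z) (norm_nonneg _) (by norm_num)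

theorem zero_mem (h : Blk R C c f a b) : (0 : G × F) ∈ ball (0 : G × F) R :=
  mem_ball_self h.R_pos

/-- `f n` is contracting. -/
theorem f_le (h : Blk R C c f a b) (n : ℕ) (z : G × F) (hz : z ∈ ball (0 : G × F) R) :
    ‖f n z‖ ≤ 1 / 4 * ‖z‖ := by
  have h1 := h.quad n z hz 0 (zero_mem h)
  have h0 := h.zero n
  rw [h0] at h1
  simp only [Prod.fst_zero, Prod.snd_zero, map_zero, norm_zero, add_zero, sub_zero] at h1
  have e : ((0 : G), (0 : F)) = 0 := rfl
  rw [e, sub_zero, sub_zero] at h1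
  have h2 := lin_le h n z
  have h3 : ‖f n z‖ ≤ ‖f n z - (a n z.1, b n z.2)‖ + ‖((a n z.1, b n z.2) : G × F)‖ := by
    have := norm_add_le (f n z - (a n z.1, b n z.2)) (a n z.1, b n z.2)
    rwa [sub_add_cancel] at this
  have hzR : ‖z‖ < R := by simpa using hz
  have h4 := CR_le h
  have h5 : C * ‖z‖ * ‖z‖ ≤ C * R * ‖z‖ := by
    have : C * ‖z‖ ≤ C * R := mul_le_mul_of_nonneg_left hzR.le h.C_pos.le
    exact mul_le_mul_of_nonneg_right this (norm_nonneg _)
  have h6 : C * R * ‖z‖ ≤ 1 / 8 * ‖z‖ := by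
    apply mul_le_mul_of_nonneg_right _ (norm_nonneg _)
    have := h.c_le
    linarith
  linarith

theorem mk_norm (x : G) : ‖((x, 0) : G × F)‖ = ‖x‖ := by
  rw [Prod.norm_mk, norm_zero]
  exact max_eq_left (norm_nonneg _)

theorem mk_mem {r : ℝ} (x : G) (hx : x ∈ ball (0 : G) r) : ((x, 0) : G × F) ∈ ball (0 : G × F) r := by
  rw [mem_ball_zero_iff] at hx ⊢
  rwa [mk_norm]

/-- the constant `alpha` -/
noncomputable def al (c : ℝ) (b : F →L[ℂ] F) : ℝ := max (16 * ‖b‖) c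

theorem c_le_al (c : ℝ) (b : F →L[ℂ] F) : c ≤ al c b := le_max_right _ _

theorem b_le_al (c : ℝ) (b : F →L[ℂ] F) : ‖b‖ ≤ al c b / 16 := by
  have := le_max_left (16 * ‖b‖) c
  unfold al
  linarith

theorem al_low (h : Blk R C c f a b) (n : ℕ) (x : G) : al c (b n) * ‖x‖ ≤ ‖a n x‖ := by
  unfold al
  rcases max_choice (16 * ‖b n‖) c with h1 | h1
  · rw [h1]; exact h.dom n x
  · rw [h1]; exact h.alow n x

theorem al_pos (h : Blk R C c f a b) (n : ℕ) : 0 < al c (b n) :=
  lt_of_lt_of_le h.c_pos (c_le_al _ _)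

/-- the difference of two values on `G × 0` -/
theorem f_lip (h : Blk R C c f a b) (n : ℕ) (x y : G) (hx : x ∈ ball (0 : G) R) (hy : y ∈ ball (0 : G) R) :
    ‖((f n (x, 0)).1 - a n x) - ((f n (y, 0)).1 - a n y)‖ ≤ 2 * (C * R) * ‖x - y‖ ∧
    ‖f n (x, 0) - f n (y, 0)‖ ≤ 1 / 4 * ‖x - y‖ := by
  have h1 := h.quad n (x, 0) (mk_mem x hx) (y, 0) (mk_mem y hy)
  simp only [map_zero] at h1
  have hx' : ‖x‖ < R := by simpa using hx
  have hy' : ‖y‖ < R := by simpa using hy
  have e1 : ‖((x, 0) : G × F) - (y, 0)‖ = ‖x - y‖ := by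
    rw [Prod.mk_sub_mk, sub_zero, mk_norm]
  rw [e1, mk_norm, mk_norm] at h1
  have h2 : C * (‖x‖ + ‖y‖) * ‖x - y‖ ≤ 2 * (C * R) * ‖x - y‖ := by
    apply mul_le_mul_of_nonneg_right _ (norm_nonneg _)
    have : C * (‖x‖ + ‖y‖) ≤ C * (R + R) :=
      mul_le_mul_of_nonneg_left (add_le_add hx'.le hy'.le) h.C_pos.le
    linarith
  have h3 := h1.trans h2
  constructor
  · refine le_trans ?_ h3
    exact norm_fst_le ((f n (x, 0) - (a n x, 0)) - (f n (y, 0) - (a n y, 0)))
  · have e2 : f n (x, 0) - f n (y, 0) =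
        ((f n (x, 0) - (a n x, 0)) - (f n (y, 0) - (a n y, 0))) + (a n (x - y), 0) := by
      have : ((a n (x - y), 0) : G × F) = (a n x, 0) - (a n y, 0) := by
        rw [Prod.mk_sub_mk, map_sub, sub_zero]
      rw [this]
      abel
    rw [e2]
    refine (norm_add_le _ _).trans ?_
    rw [mk_norm]
    have h4 := h.aup n (x - y)
    have h5 := CR_le h
    have h6 : 2 * (C * R) * ‖x - y‖ ≤ 1 / 8 * ‖x - y‖ := by
      apply mul_le_mul_of_nonneg_right _ (norm_nonneg _)
      have := h.c_le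
      linarith
    linarith

/-- the difference of a value and the value at the projection -/
theorem f_ver (h : Blk R C c f a b) (n : ℕ) (z : G × F) (hz : z ∈ ball (0 : G × F) (R / 2)) :
    ‖(f n z).1 - (f n (z.1, 0)).1‖ ≤ 2 * C * ‖z‖ * ‖z.2‖ ∧
    ‖f n z - f n (z.1, 0)‖ ≤ al c (b n) / 15 * ‖z.2‖ := by
  have hR := h.R_pos
  have hz' : ‖z‖ < R / 2 := by simpa using hz
  have hz2 : z ∈ ball (0 : G × F) R := by
    rw [mem_ball_zero_iff]; linarith
  have hx : z.1 ∈ ball (0 : G) R := by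
    rw [mem_ball_zero_iff]
    exact lt_of_le_of_lt (norm_fst_le z) (by linarith)
  have h1 := h.quad n z hz2 (z.1, 0) (mk_mem z.1 hx)
  simp only [map_zero] at h1
  have e1 : ‖z - (z.1, 0)‖ = ‖z.2‖ := by
    have : z - (z.1, 0) = (0, z.2) := by
      ext <;> simp
    rw [this, Prod.norm_mk, norm_zero]
    exact max_eq_right (norm_nonneg _)
  rw [e1, mk_norm] at h1
  have h2 : C * (‖z‖ + ‖z.1‖) * ‖z.2‖ ≤ 2 * C * ‖z‖ * ‖z.2‖ := by
    apply mul_le_mul_of_nonneg_right _ (norm_nonneg _)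
    have : C * (‖z‖ + ‖z.1‖) ≤ C * (‖z‖ + ‖z‖) :=
      mul_le_mul_of_nonneg_left (add_le_add le_rfl (norm_fst_le z)) h.C_pos.le
    linarith
  have h3 := h1.trans h2
  constructor
  · refine le_trans ?_ h3
    have := norm_fst_le ((f n z - (a n z.1, b n z.2)) - (f n (z.1, 0) - (a n z.1, 0)))
    simp only [Prod.fst_sub] at this
    have e : (f n z).1 - a n z.1 - ((f n (z.1, 0)).1 - a n z.1) = (f n z).1 - (f n (z.1, 0)).1 := by abel
    rwa [e] at this
  · have e2 : f n z - f n (z.1, 0) =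
        ((f n z - (a n z.1, b n z.2)) - (f n (z.1, 0) - (a n z.1, 0))) + (0, b n z.2) := by
      have : ((0, b n z.2) : G × F) = (a n z.1, b n z.2) - (a n z.1, 0) := by
        rw [Prod.mk_sub_mk, sub_self, sub_zero]
      rw [this]
      abel
    rw [e2]
    refine (norm_add_le _ _).trans ?_
    have h4 : ‖((0, b n z.2) : G × F)‖ ≤ al c (b n) / 16 * ‖z.2‖ := by
      rw [Prod.norm_mk, norm_zero]
      refine max_le (by
        have := al_pos h n
        positivity) ?_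
      refine ((b n).le_opNorm z.2).trans ?_
      exact mul_le_mul_of_nonneg_right (b_le_al _ _) (norm_nonneg _)
    have h5 : 2 * C * ‖z‖ * ‖z.2‖ ≤ C * R * ‖z.2‖ := by
      apply mul_le_mul_of_nonneg_right _ (norm_nonneg _)
      have : C * ‖z‖ ≤ C * (R / 2) := mul_le_mul_of_nonneg_left hz'.le h.C_pos.le
      linarith
    have h6 := CR_le h
    have h7 := c_le_al c (b n)
    have h8 : C * R * ‖z.2‖ ≤ al c (b n) / 2 ^ 12 * ‖z.2‖ := by
      apply mul_le_mul_of_nonneg_right _ (norm_nonneg _)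
      linarith
    have h9 : al c (b n) / 2 ^ 12 * ‖z.2‖ + al c (b n) / 16 * ‖z.2‖ ≤ al c (b n) / 15 * ‖z.2‖ := by
      rw [← add_mul]
      apply mul_le_mul_of_nonneg_right _ (norm_nonneg _)
      have := al_pos h n
      linarith
    linarith

end

section
variable {G F : Type} [NormedAddCommGroup G] [NormedSpace ℂ G] [FiniteDimensional ℂ G]
  [NormedAddCommGroup F] [NormedSpace ℂ F] [FiniteDimensional ℂ F]
  {R C c : ℝ} {f : ℕ → G × F → G × F} {a : ℕ → G →L[ℂ] G} {b : ℕ → F →L[ℂ] F}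

theorem f_mem (h : Blk R C c f a b) (n : ℕ) (z : G × F) (hz : z ∈ ball (0 : G × F) R) :
    f n z ∈ ball (0 : G × F) (R / 4) := by
  rw [mem_ball_zero_iff] at hz ⊢
  have := f_le h n z (by rwa [mem_ball_zero_iff])
  linarith

theorem f_mem2 (h : Blk R C c f a b) (n : ℕ) (z : G × F) (hz : z ∈ ball (0 : G × F) R) :
    f n z ∈ ball (0 : G × F) (R / 2) :=
  ball_subset_ball (by have := h.R_pos; linarith) (f_mem h n z hz)

/-- `PP` is differentiable. -/
theorem PP_diff (h : Blk R C c f a b) (n : ℕ) (η : G × F → G) (hη : Cls R C c η) :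
    DifferentiableOn ℂ (PP (f n) η) (ball 0 R) := by
  have h1 : DifferentiableOn ℂ (fun z => (f n z).1) (ball (0 : G × F) R) := (h.diff n).fst
  have h2 : DifferentiableOn ℂ (fun z => η (f n z)) (ball (0 : G × F) R) :=
    hη.1.comp (h.diff n) (fun z hz => f_mem2 h n z hz)
  exact h1.add h2

/-- The Lipschitz constant of the nonlinear part of `x ↦ PP f η (x, 0)`. -/
theorem phi_lip (hC : S_Cau) (h : Blk R C c f a b) (n : ℕ) (η : G × F → G) (hη : Cls R C c η)
    (x : G) (hx : x ∈ ball (0 : G) R) (y : G) (hy : y ∈ ball (0 : G) R) :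
    ‖(PP (f n) η (x, 0) - a n x) - (PP (f n) η (y, 0) - a n y)‖ ≤ al c (b n) / 2 * ‖x - y‖ := by
  have hR := h.R_pos
  obtain ⟨h1, h2⟩ := f_lip h n x y hx hy
  have h3 := hC G F G (R / 2) (16 * C / c) η (K_pos h).le hη.1 hη.2 (R / 4) (by linarith)
    (f n (x, 0)) (f_mem h n _ (mk_mem x hx)) (f n (y, 0)) (f_mem h n _ (mk_mem y hy))
  have e : (PP (f n) η (x, 0) - a n x) - (PP (f n) η (y, 0) - a n y) =
      (((f n (x, 0)).1 - a n x) - ((f n (y, 0)).1 - a n y)) + (η (f n (x, 0)) - η (f n (y, 0))) := by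
    unfold PP
    abel
  rw [e]
  refine (norm_add_le _ _).trans ?_
  have hK := K_pos h
  have h4 : 4 * (16 * C / c) * (R / 4) * ‖f n (x, 0) - f n (y, 0)‖ ≤
      (16 * C / c * R) * (1 / 4 * ‖x - y‖) := by
    have e4 : 4 * (16 * C / c) * (R / 4) = 16 * C / c * R := by ring
    rw [e4]
    exact mul_le_mul_of_nonneg_left h2 (by positivity)
  have h5 := KR_le h
  have h6 := CR_le h
  have h7 := c_le_al c (b n)
  have hc := h.c_pos
  have h8 : 2 * (C * R) * ‖x - y‖ ≤ c / 4 * ‖x - y‖ := by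
    apply mul_le_mul_of_nonneg_right _ (norm_nonneg _)
    linarith
  have h9 : (16 * C / c * R) * (1 / 4 * ‖x - y‖) ≤ c / 4 * ‖x - y‖ := by
    have : (16 * C / c * R) * (1 / 4 * ‖x - y‖) = (16 * C / c * R) / 4 * ‖x - y‖ := by ring
    rw [this]
    apply mul_le_mul_of_nonneg_right _ (norm_nonneg _)
    linarith
  have h10 : c / 4 * ‖x - y‖ + c / 4 * ‖x - y‖ ≤ al c (b n) / 2 * ‖x - y‖ := by
    rw [← add_mul]
    apply mul_le_mul_of_nonneg_right _ (norm_nonneg _)
    linarith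
  linarith

/-- The distance of `PP f η z` and `PP f η (z.1, 0)`. -/
theorem PP_ver (hC : S_Cau) (h : Blk R C c f a b) (n : ℕ) (η : G × F → G) (hη : Cls R C c η)
    (z : G × F) (hz : z ∈ ball (0 : G × F) (R / 2)) :
    ‖PP (f n) η z - PP (f n) η (z.1, 0)‖ ≤ 1 / 3 * (16 * C / c) * al c (b n) * ‖z‖ * ‖z.2‖ := by
  have hR := h.R_pos
  have hz' : ‖z‖ < R / 2 := by simpa using hz
  have hz2 : z ∈ ball (0 : G × F) R := by
    rw [mem_ball_zero_iff]; linarith
  have hx : z.1 ∈ ball (0 : G) R := by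
    rw [mem_ball_zero_iff]
    exact lt_of_le_of_lt (norm_fst_le z) (by linarith)
  rcases eq_or_ne z 0 with h0 | h0
  · subst h0
    have e : (((0 : G × F).1, 0) : G × F) = 0 := rfl
    rw [e, sub_self]
    simp
  · have hzp : 0 < ‖z‖ := norm_pos_iff.mpr h0
    obtain ⟨h1, h2⟩ := f_ver h n z hz
    have m1 : f n z ∈ ball (0 : G × F) (‖z‖ / 2) := by
      rw [mem_ball_zero_iff]
      have := f_le h n z hz2
      linarith
    have m2 : f n (z.1, 0) ∈ ball (0 : G × F) (‖z‖ / 2) := by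
      rw [mem_ball_zero_iff]
      have h3 := f_le h n (z.1, 0) (mk_mem z.1 hx)
      rw [mk_norm] at h3
      have := norm_fst_le z
      linarith
    have h3 := hC G F G (R / 2) (16 * C / c) η (K_pos h).le hη.1 hη.2 (‖z‖ / 2) (by linarith)
      (f n z) m1 (f n (z.1, 0)) m2
    have e : PP (f n) η z - PP (f n) η (z.1, 0) =
        ((f n z).1 - (f n (z.1, 0)).1) + (η (f n z) - η (f n (z.1, 0))) := by
      unfold PP
      abel
    rw [e]
    refine (norm_add_le _ _).trans ?_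
    have hK := K_pos h
    have hal := al_pos h n
    have h4 : 4 * (16 * C / c) * (‖z‖ / 2) * ‖f n z - f n (z.1, 0)‖ ≤
        4 * (16 * C / c) * (‖z‖ / 2) * (al c (b n) / 15 * ‖z.2‖) :=
      mul_le_mul_of_nonneg_left h2 (by positivity)
    have h5 : 2 * C ≤ 16 * C / c * al c (b n) / 8 := by
      have := Kc h
      have h6 : 16 * C / c * c ≤ 16 * C / c * al c (b n) :=
        mul_le_mul_of_nonneg_left (c_le_al c (b n)) hK.le
      linarith
    have h6 : 2 * C * ‖z‖ * ‖z.2‖ ≤ (16 * C / c * al c (b n) / 8) * ‖z‖ * ‖z.2‖ := by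
      apply mul_le_mul_of_nonneg_right _ (norm_nonneg _)
      exact mul_le_mul_of_nonneg_right h5 (norm_nonneg _)
    have h7 : 4 * (16 * C / c) * (‖z‖ / 2) * (al c (b n) / 15 * ‖z.2‖) =
        2 / 15 * (16 * C / c * al c (b n) * ‖z‖ * ‖z.2‖) := by ring
    have h8 : (16 * C / c * al c (b n) / 8) * ‖z‖ * ‖z.2‖ =
        1 / 8 * (16 * C / c * al c (b n) * ‖z‖ * ‖z.2‖) := by ring
    have h9 : 1 / 3 * (16 * C / c) * al c (b n) * ‖z‖ * ‖z.2‖ =
        1 / 3 * (16 * C / c * al c (b n) * ‖z‖ * ‖z.2‖) := by ring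
    have h10 : 0 ≤ 16 * C / c * al c (b n) * ‖z‖ * ‖z.2‖ := by positivity
    rw [h9]
    linarith

/-- The pull back at one point. -/
theorem point (hI : S_Inv) (hC : S_Cau) (h : Blk R C c f a b) (n : ℕ) (η : G × F → G) (hη : Cls R C c η)
    (z : G × F) (hz : z ∈ ball (0 : G × F) (R / 2)) :
    ∃ w : G, z.1 + w ∈ ball (0 : G) R ∧ PP (f n) η (z.1 + w, 0) = PP (f n) η z ∧
      ‖w‖ ≤ 16 * C / c * ‖z‖ * ‖z.2‖ := by
  have hR := h.R_pos
  have hal := al_pos h n
  have hK := K_pos h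
  have hz' : ‖z‖ < R / 2 := by simpa using hz
  have hz1 : ‖z.1‖ < R / 2 := lt_of_le_of_lt (norm_fst_le z) hz'
  have hx : z.1 ∈ ball (0 : G) R := by
    rw [mem_ball_zero_iff]
    linarith
  have hφ : DifferentiableOn ℂ (fun x : G => PP (f n) η (x, 0)) (ball 0 R) := by
    have h1 : DifferentiableOn ℂ (fun x : G => ((x, 0) : G × F)) (ball 0 R) :=
      (differentiable_id.prodMk (differentiable_const (0 : F))).differentiableOn
    exact (PP_diff h n η hη).comp h1 (fun x hx => mk_mem x hx)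
  obtain ⟨i1, -, i3, -⟩ := hI G (a n) (al c (b n)) (al c (b n) / 2) R (fun x : G => PP (f n) η (x, 0))
    (by linarith) (by linarith) (al_low h n) hφ (phi_lip hC h n η hη)
  have hv := PP_ver hC h n η hη z hz
  have hlt : ‖PP (f n) η z - PP (f n) η (z.1, 0)‖ < (al c (b n) - al c (b n) / 2) * (R / 2) := by
    refine lt_of_le_of_lt hv ?_
    have h1 : ‖z.2‖ ≤ R / 2 := (norm_snd_le z).trans hz'.le
    have h2 : 1 / 3 * (16 * C / c) * al c (b n) * ‖z‖ * ‖z.2‖ ≤
        1 / 3 * (16 * C / c) * al c (b n) * (R / 2) * (R / 2) := by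
      apply mul_le_mul _ h1 (norm_nonneg _) (by positivity)
      exact mul_le_mul_of_nonneg_left hz'.le (by positivity)
    refine lt_of_le_of_lt h2 ?_
    have h3 := KR_le h
    have h4 := h.c_le
    have e : 1 / 3 * (16 * C / c) * al c (b n) * (R / 2) * (R / 2) =
        (16 * C / c * R / 6) * (al c (b n) * (R / 2)) := by ring
    rw [e]
    have e2 : (al c (b n) - al c (b n) / 2) * (R / 2) = 1 / 2 * (al c (b n) * (R / 2)) := by ring
    rw [e2]
    apply mul_lt_mul_of_pos_right _ (by positivity)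
    linarith
  have hsub : ball z.1 (R / 2) ⊆ ball (0 : G) R := by
    apply ball_subset_ball'
    rw [dist_zero_right]
    linarith
  obtain ⟨x', hx', he⟩ := i3 z.1 (R / 2) hsub (PP (f n) η z) hlt
  have hx'R := hsub hx'
  have h5 := i1 x' hx'R z.1 hx
  have he' : PP (f n) η (x', 0) = PP (f n) η z := he
  rw [he'] at h5
  refine ⟨x' - z.1, ?_, ?_, ?_⟩
  · rw [add_sub_cancel]; exact hx'R
  · rw [add_sub_cancel]; exact he
  · have h6 := h5.trans hv
    have h7 : al c (b n) / 2 * ‖x' - z.1‖ ≤ al c (b n) / 2 * (16 * C / c * ‖z‖ * ‖z.2‖) := by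
      have e1 : (al c (b n) - al c (b n) / 2) * ‖x' - z.1‖ = al c (b n) / 2 * ‖x' - z.1‖ := by ring
      have e2 : 1 / 3 * (16 * C / c) * al c (b n) * ‖z‖ * ‖z.2‖ =
          2 / 3 * (al c (b n) / 2 * (16 * C / c * ‖z‖ * ‖z.2‖)) := by ring
      have h8 : 0 ≤ al c (b n) / 2 * (16 * C / c * ‖z‖ * ‖z.2‖) := by positivity
      rw [e1, e2] at h6
      linarith
    exact le_of_mul_le_mul_left h7 (by linarith)

end

end PbM

open PbM in
theorem pbP : S_Inv → S_Cau → S_Pb := by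
  intro hI hC G F _ _ _ _ _ _ R C c f a b h n η hη
  classical
  have hR := h.R_pos
  have hal := al_pos h n
  have key : ∀ z : G × F, ∃ w : G, z ∈ ball (0 : G × F) (R / 2) →
      z.1 + w ∈ ball (0 : G) R ∧ PP (f n) η (z.1 + w, 0) = PP (f n) η z ∧
      ‖w‖ ≤ 16 * C / c * ‖z‖ * ‖z.2‖ := by
    intro z
    by_cases hz : z ∈ ball (0 : G × F) (R / 2)
    · obtain ⟨w, hw⟩ := point hI hC h n η hη z hz
      exact ⟨w, fun _ => hw⟩
    · exact ⟨0, fun hz' => absurd hz' hz⟩
  choose η' hη' using key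
  have hφ : DifferentiableOn ℂ (fun x : G => PP (f n) η (x, 0)) (ball 0 R) := by
    have h1 : DifferentiableOn ℂ (fun x : G => ((x, 0) : G × F)) (ball 0 R) :=
      (differentiable_id.prodMk (differentiable_const (0 : F))).differentiableOn
    exact (PP_diff h n η hη).comp h1 (fun x hx => mk_mem x hx)
  obtain ⟨-, -, -, i4⟩ := hI G (a n) (al c (b n)) (al c (b n) / 2) R (fun x : G => PP (f n) η (x, 0))
    (by linarith) (by linarith) (al_low h n) hφ (phi_lip hC h n η hη)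
  have hsub : ball (0 : G × F) (R / 2) ⊆ ball (0 : G × F) R := ball_subset_ball (by linarith)
  have hψ := i4 (G × F) (ball (0 : G × F) (R / 2)) (fun z => z.1 + η' z) (PP (f n) η) isOpen_ball
    ((PP_diff h n η hη).mono hsub) (fun u hu => ⟨(hη' u hu).1, (hη' u hu).2.1⟩)
  have hd : DifferentiableOn ℂ η' (ball (0 : G × F) (R / 2)) := by
    have h1 : DifferentiableOn ℂ (fun z : G × F => (z.1 + η' z) - z.1) (ball (0 : G × F) (R / 2)) :=
      hψ.sub differentiable_fst.differentiableOn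
    refine h1.congr ?_
    intro z _
    simp
  exact ⟨η', ⟨hd, fun z hz => (hη' z hz).2.2⟩, fun z hz => ⟨(hη' z hz).1, (hη' z hz).2.1⟩⟩

end Pool.Agent.Lib.BedF
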