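import Pool.Agent.Lib.BedF.SpecA

/-!
# Phi: affine coordinates of the fibres

The affine coordinate of the fibre over `x` is the developing map with the base point `(x, 0)`.
-/

set_option autoImplicit false

open scoped Topology
open Set Filter Metric

namespace Pool.Agent.Lib.BedF

namespace PhiM

variable {G F : Type} [NormedAddCommGroup G] [NormedAddCommGroup F]

theorem mem_tri {r : ℝ} {x : G} {y y' : F} (hx : ‖x‖ < r) (hy : ‖y‖ < r) (hy' : ‖y'‖ < r) :
    (x, y, y') ∈ ball (0 : G × F × F) r := by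
  rw [mem_ball_zero_iff, Prod.norm_mk, Prod.norm_mk]
  exact max_lt hx (max_lt hy hy')

theorem norm_inl (x : G) : ‖((x, 0) : G × F)‖ = ‖x‖ := by
  rw [Prod.norm_mk, norm_zero, max_eq_left (norm_nonneg x)]

theorem mem_inl {r : ℝ} {x : G} (hx : x ∈ ball (0 : G) r) : ((x, 0) : G × F) ∈ ball (0 : G × F) r := by
  rw [mem_ball_zero_iff, norm_inl]
  exact mem_ball_zero_iff.1 hx

variable [NormedSpace ℂ G] [NormedSpace ℂ F]

/-- The map `z ↦ (z.1, 0, z.2)`. -/
theorem diff_tri : Differentiable ℂ fun z : G × F => ((z.1, 0, z.2) : G × F × F) :=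
  differentiable_fst.prodMk ((differentiable_const _).prodMk differentiable_snd)

end PhiM

open PhiM in
theorem phiP : S_Fib → S_Dev → S_Hol → S_Phi := by
  intro hFib hDev hHol G F _ _ _ _ _ _ R C c g h b hs
  obtain ⟨Dv, hD⟩ := hDev G F R C c g h b hs
  obtain ⟨Lm, hL⟩ := hHol G F R C c g h b Dv hs hD
  have hR := hs.R_pos
  have hC := hs.C_pos
  have hc := hs.c_pos
  have hR2 : 0 < R / 2 := half_pos hR
  have hCR : C * R ≤ 1 / 2 ^ 12 := by
    have h1 := hs.small
    have h2 : c ^ 2 ≤ 1 := by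
      have := hs.c_le
      nlinarith
    rw [le_div_iff₀ (by positivity)]
    linarith
  have hK : 0 < 16 * C / c := by positivity
  have hKR : 0 < 16 * C / c * R := mul_pos hK hR
  have hsub : ball (0 : G × F) (R / 2) ⊆ ball 0 R := ball_subset_ball (by linarith)
  have hsubG : ball (0 : G) (R / 2) ⊆ ball 0 R := ball_subset_ball (by linarith)
  -- norms of the images
  have hg : ∀ n, ∀ x ∈ ball (0 : G) (R / 2), ‖g n x‖ ≤ 1 / 4 * ‖x‖ := fun n x hx =>
    hs.gcontr n x (hsubG hx)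
  have hh : ∀ n, ∀ z ∈ ball (0 : G × F) (R / 2), ‖h n z‖ ≤ 1 / 4 * ‖z‖ := by
    intro n z hz
    have h1 := ((hFib G F R C c g h b hs n).2.1) z (hsub hz)
    exact (norm_snd_le (sk g h n z)).trans h1
  have hh0 : ∀ n, ∀ x ∈ ball (0 : G) (R / 2), ‖h n (x, 0)‖ ≤ 1 / 4 * ‖x‖ := by
    intro n x hx
    have h1 := hh n (x, 0) (mem_inl hx)
    rwa [norm_inl] at h1
  have hlt : ∀ x ∈ ball (0 : G) (R / 2), 1 / 4 * ‖x‖ < R / 2 := by
    intro x hx
    have h1 := mem_ball_zero_iff.1 hx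
    have h2 := norm_nonneg x
    linarith
  have hmem : ∀ n, ∀ x ∈ ball (0 : G) (R / 2),
      ((g n x, 0, h n (x, 0)) : G × F × F) ∈ ball (0 : G × F × F) (R / 2) := fun n x hx =>
    mem_tri ((hg n x hx).trans_lt (hlt x hx)) (by rw [norm_zero]; exact hR2)
      ((hh0 n x hx).trans_lt (hlt x hx))
  have hin : Differentiable ℂ fun x : G => ((x, 0) : G × F) :=
    differentiable_id.prodMk (differentiable_const _)
  have hin' : MapsTo (fun x : G => ((x, 0) : G × F)) (ball 0 (R / 2)) (ball 0 R) := fun x hx =>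
    hsub (mem_inl hx)
  have hdt : ∀ n, DifferentiableOn ℂ (fun x : G => ((g n x, 0, h n (x, 0)) : G × F × F))
      (ball 0 (R / 2)) := fun n =>
    ((hs.gdiff n).mono hsubG).prodMk ((differentiableOn_const _).prodMk
      ((hs.hdiff n).comp hin.differentiableOn hin'))
  have hAA : ∀ n, ∀ z ∈ ball (0 : G × F) R, ‖AA h n z‖ ≤ 1 := by
    intro n z hz
    have h1 := (hFib G F R C c g h b hs n).2.2.2.2.2.2.2 z hz
    refine ContinuousLinearMap.opNorm_le_bound _ zero_le_one fun v => ?_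
    refine (h1 v).1.trans ?_
    refine mul_le_mul_of_nonneg_right ?_ (norm_nonneg v)
    unfold be
    have h2 := hs.bup n
    linarith
  refine ⟨16 * C / c + 2 * C + 1 + 16 * C / c * R, fun n z => Dv n (z.1, 0, z.2),
    fun n x => Lm (n + 1) (g n x, 0, h n (x, 0)) * AA h n (x, 0),
    fun n x => Dv (n + 1) (g n x, 0, h n (x, 0)), ?_⟩
  refine ⟨by positivity, fun n => ?_, fun n => ?_, fun n => ?_, fun n z hz => ?_, fun n z hz => ?_,
    fun n x hx => ?_, fun n x hx => ?_⟩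
  · refine (hD.diff n).comp diff_tri.differentiableOn fun z hz => ?_
    have h1 := mem_ball_zero_iff.1 hz
    exact mem_tri ((norm_fst_le z).trans_lt h1) (by rw [norm_zero]; exact hR2)
      ((norm_snd_le z).trans_lt h1)
  · refine DifferentiableOn.mul ?_ ?_
    · exact ((hL (n + 1)).1).comp (hdt n) fun x hx => hmem n x hx
    · exact ((hFib G F R C c g h b hs n).1).comp hin.differentiableOn hin'
  · exact (hD.diff (n + 1)).comp (hdt n) fun x hx => hmem n x hx
  · have h1 := mem_ball_zero_iff.1 hz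
    have h2 := hD.bd n z.1 0 z.2 (mem_tri ((norm_fst_le z).trans_lt h1)
      (by rw [norm_zero]; exact hR2) ((norm_snd_le z).trans_lt h1))
    rw [sub_zero] at h2
    refine h2.trans (mul_le_mul_of_nonneg_right ?_ (sq_nonneg _))
    linarith
  · have h1 := mem_ball_zero_iff.1 hz
    have hx : z.1 ∈ ball (0 : G) (R / 2) := mem_ball_zero_iff.2 ((norm_fst_le z).trans_lt h1)
    have hy : ‖z.2‖ < R / 2 := (norm_snd_le z).trans_lt h1
    have h3 : ‖h n z‖ < R / 2 := by
      have h4 := hh n z hz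
      have h5 := norm_nonneg z
      linarith
    have h4 := ((hL (n + 1)).2 (g n z.1) 0 (h n (z.1, 0)) (hmem n z.1 hx)).2 (h n z) h3
    have h5 := hD.comp n z.1 0 z.2 (mem_tri (mem_ball_zero_iff.1 hx)
      (by rw [norm_zero]; exact hR2) hy)
    change Dv (n + 1) (g n z.1, 0, h n z) = _
    rw [h4, add_comm]
    have h6 : h n (z.1, z.2) = h n z := rfl
    rw [h6] at h5
    rw [h5]
    rfl
  · have h1 := ((hL (n + 1)).2 (g n x) 0 (h n (x, 0)) (hmem n x hx)).1
    rw [sub_zero] at h1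
    have h2 := (hFib G F R C c g h b hs n).2.2.1 (x, 0) (hsub (mem_inl hx))
    rw [norm_inl] at h2
    have h3 := hAA n (x, 0) (hsub (mem_inl hx))
    have h4 := hh0 n x hx
    have hx0 := norm_nonneg x
    have h5 : Lm (n + 1) (g n x, 0, h n (x, 0)) * AA h n (x, 0) - b n =
        (Lm (n + 1) (g n x, 0, h n (x, 0)) - 1) * AA h n (x, 0) + (AA h n (x, 0) - b n) := by
      rw [sub_mul, one_mul]
      abel
    rw [h5]
    refine (norm_add_le _ _).trans ?_
    have h6 : ‖(Lm (n + 1) (g n x, 0, h n (x, 0)) - 1) * AA h n (x, 0)‖ ≤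
        16 * C / c * (1 / 4 * ‖x‖) := by
      refine (norm_mul_le _ _).trans ?_
      refine (mul_le_mul (h1.trans (mul_le_mul_of_nonneg_left h4 hK.le)) h3 (norm_nonneg _)
        (by positivity)).trans ?_
      rw [mul_one]
    have h7 : 0 ≤ 16 * C / c * ‖x‖ := by positivity
    have h8 : 0 ≤ 16 * C / c * R * ‖x‖ := by positivity
    nlinarith
  · have h1 := hD.bd (n + 1) (g n x) 0 (h n (x, 0)) (hmem n x hx)
    rw [sub_zero] at h1
    have h4 := hh0 n x hx
    have hx0 := norm_nonneg x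
    have hxR : ‖x‖ < R / 2 := mem_ball_zero_iff.1 hx
    have h5 : ‖h n (x, 0)‖ ^ 2 ≤ R * ‖x‖ := by
      have h6 := norm_nonneg (h n (x, 0))
      have h7 : ‖h n (x, 0)‖ ≤ R := by linarith
      have h8 : ‖h n (x, 0)‖ ≤ ‖x‖ := by linarith
      calc ‖h n (x, 0)‖ ^ 2 = ‖h n (x, 0)‖ * ‖h n (x, 0)‖ := sq _
        _ ≤ R * ‖x‖ := mul_le_mul h7 h8 h6 hR.le
    have h6 : ‖Dv (n + 1) (g n x, 0, h n (x, 0))‖ ≤
        ‖Dv (n + 1) (g n x, 0, h n (x, 0)) - h n (x, 0)‖ + ‖h n (x, 0)‖ := by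
      have h7 := norm_add_le (Dv (n + 1) (g n x, 0, h n (x, 0)) - h n (x, 0)) (h n (x, 0))
      rwa [sub_add_cancel] at h7
    have h7 : 16 * C / c * ‖h n (x, 0)‖ ^ 2 ≤ 16 * C / c * (R * ‖x‖) :=
      mul_le_mul_of_nonneg_left h5 hK.le
    have h8 : 0 ≤ 16 * C / c * ‖x‖ := by positivity
    have h9 : 0 ≤ C * ‖x‖ := by positivity
    nlinarith

end Pool.Agent.Lib.BedF
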