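import Pool.Agent.Lib.BedF.SpecB

/-!
# Qln: the linear parts of `q` steps in the frames
-/

set_option autoImplicit false

open scoped Topology
open Set Filter Metric

namespace Pool.Agent.Lib.BedF

namespace QlnM

/-- `Bed.prodL A id`. -/
noncomputable abbrev La {k : ℕ} (A : ℕ → (Fin k → ℂ) →L[ℂ] (Fin k → ℂ)) (n : ℕ) :
    (Fin k → ℂ) →L[ℂ] (Fin k → ℂ) := Bed.prodL A (ContinuousLinearMap.id ℂ _) n

theorem La_add {k : ℕ} (A : ℕ → (Fin k → ℂ) →L[ℂ] (Fin k → ℂ)) (m : ℕ) (z : Fin k → ℂ) :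
    ∀ q : ℕ, La A (m + q) z = pw A m q (La A m z)
  | 0 => rfl
  | q + 1 => by
    change A (m + q) (La A (m + q) z) = A (m + q) (pw A m q (La A m z))
    rw [La_add A m z q]

theorem pw_up {k : ℕ} {A : ℕ → (Fin k → ℂ) →L[ℂ] (Fin k → ℂ)} {D : ℝ} (hD : 0 ≤ D)
    (h : ∀ n z, ‖A n z‖ ≤ D * ‖z‖) (m : ℕ) (z : Fin k → ℂ) : ∀ q : ℕ, ‖pw A m q z‖ ≤ D ^ q * ‖z‖
  | 0 => by
    rw [pow_zero, one_mul]
    exact le_rfl
  | q + 1 => by
    have h1 := pw_up hD h m z q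
    calc ‖pw A m (q + 1) z‖ = ‖A (m + q) (pw A m q z)‖ := rfl
      _ ≤ D * ‖pw A m q z‖ := h _ _
      _ ≤ D * (D ^ q * ‖z‖) := mul_le_mul_of_nonneg_left h1 hD
      _ = D ^ (q + 1) * ‖z‖ := by ring

theorem pw_low {k : ℕ} {A : ℕ → (Fin k → ℂ) →L[ℂ] (Fin k → ℂ)} {c : ℝ} (hc : 0 ≤ c)
    (h : ∀ n z, c * ‖z‖ ≤ ‖A n z‖) (m : ℕ) (z : Fin k → ℂ) : ∀ q : ℕ, c ^ q * ‖z‖ ≤ ‖pw A m q z‖
  | 0 => by
    rw [pow_zero, one_mul]
    exact le_rfl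
  | q + 1 => by
    have h1 := pw_low hc h m z q
    calc c ^ (q + 1) * ‖z‖ = c * (c ^ q * ‖z‖) := by ring
      _ ≤ c * ‖pw A m q z‖ := mul_le_mul_of_nonneg_left h1 hc
      _ ≤ ‖A (m + q) (pw A m q z)‖ := h _ _

theorem La_low {k : ℕ} {A : ℕ → (Fin k → ℂ) →L[ℂ] (Fin k → ℂ)} {c : ℝ} (hc : 0 ≤ c)
    (h : ∀ n z, c * ‖z‖ ≤ ‖A n z‖) (z : Fin k → ℂ) : ∀ m : ℕ, c ^ m * ‖z‖ ≤ ‖La A m z‖
  | 0 => by
    rw [pow_zero, one_mul]
    exact le_rfl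
  | m + 1 => by
    have h1 := La_low hc h z m
    calc c ^ (m + 1) * ‖z‖ = c * (c ^ m * ‖z‖) := by ring
      _ ≤ c * ‖La A m z‖ := mul_le_mul_of_nonneg_left h1 hc
      _ ≤ ‖A m (La A m z)‖ := h _ _

variable {k k₁ k₂ : ℕ} {C₁ : ℝ} {A : ℕ → (Fin k → ℂ) →L[ℂ] (Fin k → ℂ)}
  {U W : Submodule ℂ (Fin k → ℂ)} {e : ℕ → Bed.V k₁ k₂ ≃L[ℂ] (Fin k → ℂ)}
  {a : ℕ → (Fin k₁ → ℂ) →L[ℂ] (Fin k₁ → ℂ)} {b : ℕ → (Fin k₂ → ℂ) →L[ℂ] (Fin k₂ → ℂ)}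

theorem pw_comm (h : Fra k k₁ k₂ C₁ A U W e a b) (m : ℕ) (x : Fin k₁ → ℂ) (y : Fin k₂ → ℂ) :
    ∀ q : ℕ, pw A m q (e m (x, y)) = e (m + q) (pw a m q x, pw b m q y)
  | 0 => rfl
  | q + 1 => by
    change A (m + q) (pw A m q (e m (x, y))) = _
    rw [pw_comm h m x y q, h.comm]
    rfl

theorem nl (x : Fin k₁ → ℂ) : ‖((x, 0) : Bed.V k₁ k₂)‖ = ‖x‖ := by
  rw [Prod.norm_mk, norm_zero]
  exact max_eq_left (norm_nonneg _)

theorem nr (y : Fin k₂ → ℂ) : ‖((0, y) : Bed.V k₁ k₂)‖ = ‖y‖ := by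
  rw [Prod.norm_mk, norm_zero]
  exact max_eq_right (norm_nonneg _)

theorem surjU (h : Fra k k₁ k₂ C₁ A U W e a b) {c : ℝ} (hc : 0 < c)
    (hl : ∀ n z, c * ‖z‖ ≤ ‖A n z‖) (m : ℕ) (x : Fin k₁ → ℂ) : ∃ u ∈ U, La A m u = e m (x, 0) := by
  have hinj : Function.Injective (La a m).toLinearMap := by
    refine (injective_iff_map_eq_zero _).2 fun x₀ hx₀ => ?_
    have h1 := h.prod m x₀ 0
    have h2 : Bed.prodL a (ContinuousLinearMap.id ℂ _) m x₀ = 0 := hx₀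
    rw [h2, map_zero] at h1
    have h3 : e m ((0, 0) : Bed.V k₁ k₂) = 0 := map_zero (e m)
    rw [h3] at h1
    have h4 := La_low hc.le hl (e 0 (x₀, 0)) m
    have h5 : La A m (e 0 (x₀, 0)) = 0 := h1
    rw [h5, norm_zero] at h4
    have h6 : ‖e 0 (x₀, 0)‖ ≤ 0 := by
      by_contra hcon
      rw [not_le] at hcon
      have := mul_pos (pow_pos hc m) hcon
      linarith
    have h7 := h.low 0 (x₀, 0)
    rw [nl] at h7
    have h8 : C₁ * ‖e 0 (x₀, 0)‖ ≤ 0 :=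
      mul_nonpos_of_nonneg_of_nonpos (zero_le_one.trans h.one_le) h6
    exact norm_le_zero_iff.1 (h7.trans h8)
  obtain ⟨x₀, hx₀⟩ := (LinearMap.injective_iff_surjective.1 hinj) x
  refine ⟨e 0 (x₀, 0), h.memU x₀, ?_⟩
  have h1 := h.prod m x₀ 0
  have h2 : Bed.prodL a (ContinuousLinearMap.id ℂ _) m x₀ = x := hx₀
  rw [h2, map_zero] at h1
  exact h1

theorem surjW (h : Fra k k₁ k₂ C₁ A U W e a b) {c : ℝ} (hc : 0 < c)
    (hl : ∀ n z, c * ‖z‖ ≤ ‖A n z‖) (m : ℕ) (y : Fin k₂ → ℂ) : ∃ w ∈ W, La A m w = e m (0, y) := by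
  have hinj : Function.Injective (La b m).toLinearMap := by
    refine (injective_iff_map_eq_zero _).2 fun x₀ hx₀ => ?_
    have h1 := h.prod m 0 x₀
    have h2 : Bed.prodL b (ContinuousLinearMap.id ℂ _) m x₀ = 0 := hx₀
    rw [h2, map_zero] at h1
    have h3 : e m ((0, 0) : Bed.V k₁ k₂) = 0 := map_zero (e m)
    rw [h3] at h1
    have h4 := La_low hc.le hl (e 0 (0, x₀)) m
    have h5 : La A m (e 0 (0, x₀)) = 0 := h1
    rw [h5, norm_zero] at h4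
    have h6 : ‖e 0 (0, x₀)‖ ≤ 0 := by
      by_contra hcon
      rw [not_le] at hcon
      have := mul_pos (pow_pos hc m) hcon
      linarith
    have h7 := h.low 0 (0, x₀)
    rw [nr] at h7
    have h8 : C₁ * ‖e 0 (0, x₀)‖ ≤ 0 :=
      mul_nonpos_of_nonneg_of_nonpos (zero_le_one.trans h.one_le) h6
    exact norm_le_zero_iff.1 (h7.trans h8)
  obtain ⟨x₀, hx₀⟩ := (LinearMap.injective_iff_surjective.1 hinj) y
  refine ⟨e 0 (0, x₀), h.memW x₀, ?_⟩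
  have h1 := h.prod m 0 x₀
  have h2 : Bed.prodL b (ContinuousLinearMap.id ℂ _) m x₀ = y := hx₀
  rw [h2, map_zero] at h1
  exact h1

/-- Norms in the frames. -/
theorem fr (h : Fra k k₁ k₂ C₁ A U W e a b) (n : ℕ) (v : Bed.V k₁ k₂) :
    ‖e n v‖ ≤ C₁ * ‖v‖ ∧ ‖v‖ ≤ C₁ * ‖e n v‖ := ⟨h.up n v, h.low n v⟩

theorem aup (h : Fra k k₁ k₂ C₁ A U W e a b) {D : ℝ} (hD : 0 ≤ D) (hA : ∀ n z, ‖A n z‖ ≤ D * ‖z‖)
    (m q : ℕ) (v : Bed.V k₁ k₂) :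
    ‖((pw a m q v.1, pw b m q v.2) : Bed.V k₁ k₂)‖ ≤ C₁ ^ 2 * D ^ q * ‖v‖ := by
  have hC : 0 ≤ C₁ := zero_le_one.trans h.one_le
  calc ‖((pw a m q v.1, pw b m q v.2) : Bed.V k₁ k₂)‖
      ≤ C₁ * ‖e (m + q) (pw a m q v.1, pw b m q v.2)‖ := (fr h _ _).2
    _ = C₁ * ‖pw A m q (e m v)‖ := by rw [← pw_comm h m v.1 v.2 q]
    _ ≤ C₁ * (D ^ q * ‖e m v‖) := mul_le_mul_of_nonneg_left (pw_up hD hA m _ q) hC
    _ ≤ C₁ * (D ^ q * (C₁ * ‖v‖)) := by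
        refine mul_le_mul_of_nonneg_left (mul_le_mul_of_nonneg_left (fr h m v).1 ?_) hC
        exact pow_nonneg hD q
    _ = C₁ ^ 2 * D ^ q * ‖v‖ := by ring

theorem alow (h : Fra k k₁ k₂ C₁ A U W e a b) {c : ℝ} (hc : 0 ≤ c) (hA : ∀ n z, c * ‖z‖ ≤ ‖A n z‖)
    (m q : ℕ) (v : Bed.V k₁ k₂) :
    c ^ q / C₁ ^ 2 * ‖v‖ ≤ ‖((pw a m q v.1, pw b m q v.2) : Bed.V k₁ k₂)‖ := by
  have hC : 0 < C₁ := zero_lt_one.trans_le h.one_le
  have h1 : c ^ q * ‖v‖ ≤ C₁ ^ 2 * ‖((pw a m q v.1, pw b m q v.2) : Bed.V k₁ k₂)‖ := by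
    calc c ^ q * ‖v‖ ≤ c ^ q * (C₁ * ‖e m v‖) :=
          mul_le_mul_of_nonneg_left (fr h m v).2 (pow_nonneg hc q)
      _ = C₁ * (c ^ q * ‖e m v‖) := by ring
      _ ≤ C₁ * ‖pw A m q (e m v)‖ := mul_le_mul_of_nonneg_left (pw_low hc hA m _ q) hC.le
      _ = C₁ * ‖e (m + q) (pw a m q v.1, pw b m q v.2)‖ := by rw [← pw_comm h m v.1 v.2 q]
      _ ≤ C₁ * (C₁ * ‖((pw a m q v.1, pw b m q v.2) : Bed.V k₁ k₂)‖) :=
          mul_le_mul_of_nonneg_left (fr h _ _).1 hC.le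
      _ = _ := by ring
  rw [div_mul_eq_mul_div, div_le_iff₀ (by positivity)]
  linarith

end QlnM

open QlnM in
theorem qlnP : S_Qln := by
  intro k k₁ k₂ D c C₁ A U W e a b C₂ η hD hD1 hc hAu hAl hF hC₂ hη hdom hbun
  have hC : 0 < C₁ := zero_lt_one.trans_le hF.one_le
  have ev1 : ∀ᶠ q : ℕ in atTop, C₁ ^ 2 * D ^ q ≤ 1 / 8 := by
    have h1 : Tendsto (fun q : ℕ => C₁ ^ 2 * D ^ q) atTop (𝓝 (C₁ ^ 2 * 0)) :=
      (tendsto_pow_atTop_nhds_zero_of_lt_one hD.le hD1).const_mul (C₁ ^ 2)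
    rw [mul_zero] at h1
    exact h1.eventually_le_const (by norm_num)
  have ev2 : ∀ᶠ q : ℕ in atTop, C₁ ^ 6 * (C₂ * Real.exp (-(η * q))) ≤ 1 / 16 := by
    have h0 : Tendsto (fun q : ℕ => η * (q : ℝ)) atTop atTop :=
      tendsto_natCast_atTop_atTop.const_mul_atTop hη
    have h1 : Tendsto (fun q : ℕ => C₁ ^ 6 * (C₂ * Real.exp (-(η * q)))) atTop
        (𝓝 (C₁ ^ 6 * (C₂ * 0))) :=
      ((Real.tendsto_exp_neg_atTop_nhds_zero.comp h0).const_mul C₂).const_mul (C₁ ^ 6)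
    rw [mul_zero, mul_zero] at h1
    exact h1.eventually_le_const (by norm_num)
  obtain ⟨q, ⟨hq1, hq2⟩, hq3⟩ := ((ev1.and ev2).and (eventually_ge_atTop 1)).exists
  have hE : 0 ≤ C₂ * Real.exp (-(η * q)) := by positivity
  have hq4 : C₁ ^ 4 * (C₂ * Real.exp (-(η * q))) ≤ 1 / 16 := by
    refine le_trans (mul_le_mul_of_nonneg_right ?_ hE) hq2
    exact pow_le_pow_right₀ hF.one_le (by norm_num)
  refine ⟨q, c ^ q / C₁ ^ 2, by omega, by positivity, fun m => ?_⟩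
  -- the pairs
  have hA1 : ∀ x : Fin k₁ → ℂ, ‖pw a m q x‖ ≤ C₁ * ‖e (m + q) (pw a m q x, 0)‖ ∧
      ‖e (m + q) (pw a m q x, 0)‖ ≤ C₁ * ‖pw a m q x‖ := fun x => by
    have h1 := fr hF (m + q) (pw a m q x, 0)
    rw [nl] at h1
    exact ⟨h1.2, h1.1⟩
  have hB1 : ∀ y : Fin k₂ → ℂ, ‖pw b m q y‖ ≤ C₁ * ‖e (m + q) (0, pw b m q y)‖ ∧
      ‖e (m + q) (0, pw b m q y)‖ ≤ C₁ * ‖pw b m q y‖ := fun y => by
    have h1 := fr hF (m + q) (0, pw b m q y)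
    rw [nr] at h1
    exact ⟨h1.2, h1.1⟩
  have hA0 : ∀ x : Fin k₁ → ℂ, ‖x‖ ≤ C₁ * ‖e m (x, 0)‖ ∧ ‖e m (x, 0)‖ ≤ C₁ * ‖x‖ := fun x => by
    have h1 := fr hF m (x, 0)
    rw [nl] at h1
    exact ⟨h1.2, h1.1⟩
  have hB0 : ∀ y : Fin k₂ → ℂ, ‖y‖ ≤ C₁ * ‖e m (0, y)‖ ∧ ‖e m (0, y)‖ ≤ C₁ * ‖y‖ := fun y => by
    have h1 := fr hF m (0, y)
    rw [nr] at h1
    exact ⟨h1.2, h1.1⟩
  have hU : ∀ x : Fin k₁ → ℂ, ∃ u ∈ U, La A m u = e m (x, 0) ∧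
      La A (m + q) u = e (m + q) (pw a m q x, 0) := fun x => by
    obtain ⟨u, hu, h1⟩ := surjU hF hc hAl m x
    refine ⟨u, hu, h1, ?_⟩
    rw [La_add, h1, pw_comm hF, map_zero]
  have hW : ∀ y : Fin k₂ → ℂ, ∃ w ∈ W, La A m w = e m (0, y) ∧
      La A (m + q) w = e (m + q) (0, pw b m q y) := fun y => by
    obtain ⟨w, hw, h1⟩ := surjW hF hc hAl m y
    refine ⟨w, hw, h1, ?_⟩
    rw [La_add, h1, pw_comm hF, map_zero]
  have hd : ∀ (x : Fin k₁ → ℂ) (y : Fin k₂ → ℂ), 16 * (‖pw b m q y‖ * ‖x‖) ≤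
      ‖y‖ * ‖pw a m q x‖ := by
    intro x y
    obtain ⟨u, hu, hu1, hu2⟩ := hU x
    obtain ⟨w, hw, hw1, hw2⟩ := hW y
    have h1 := hdom m q u hu w hw
    change ‖La A (m + q) w‖ * ‖La A m u‖ ≤ _ * (‖La A m w‖ * ‖La A (m + q) u‖) at h1
    rw [hu1, hu2, hw1, hw2] at h1
    have h2 : ‖pw b m q y‖ * ‖x‖ ≤
        C₁ ^ 4 * (C₂ * Real.exp (-(η * q))) * (‖y‖ * ‖pw a m q x‖) := by
      calc ‖pw b m q y‖ * ‖x‖
          ≤ (C₁ * ‖e (m + q) (0, pw b m q y)‖) * (C₁ * ‖e m (x, 0)‖) :=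
            mul_le_mul (hB1 y).1 (hA0 x).1 (norm_nonneg _) (by positivity)
        _ = C₁ ^ 2 * (‖e (m + q) (0, pw b m q y)‖ * ‖e m (x, 0)‖) := by ring
        _ ≤ C₁ ^ 2 * (C₂ * Real.exp (-(η * q)) *
            (‖e m (0, y)‖ * ‖e (m + q) (pw a m q x, 0)‖)) :=
            mul_le_mul_of_nonneg_left h1 (by positivity)
        _ ≤ C₁ ^ 2 * (C₂ * Real.exp (-(η * q)) * ((C₁ * ‖y‖) * (C₁ * ‖pw a m q x‖))) := by
            refine mul_le_mul_of_nonneg_left (mul_le_mul_of_nonneg_left ?_ hE) (by positivity)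
            exact mul_le_mul (hB0 y).2 (hA1 x).2 (norm_nonneg _) (by positivity)
        _ = _ := by ring
    have h3 := mul_le_mul_of_nonneg_right hq4
      (show 0 ≤ ‖y‖ * ‖pw a m q x‖ by positivity)
    linarith
  have hb : ∀ y y' : Fin k₂ → ℂ, 16 * (‖pw b m q y‖ ^ 2 * ‖y'‖) ≤ ‖y‖ ^ 2 * ‖pw b m q y'‖ := by
    intro y y'
    obtain ⟨v, hv, hv1, hv2⟩ := hW y
    obtain ⟨w, hw, hw1, hw2⟩ := hW y'
    have h1 := hbun m q v hv w hw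
    change ‖La A (m + q) v‖ ^ 2 * ‖La A m w‖ ≤ _ * (‖La A m v‖ ^ 2 * ‖La A (m + q) w‖) at h1
    rw [hv1, hv2, hw1, hw2] at h1
    have h2 : ‖pw b m q y‖ ^ 2 * ‖y'‖ ≤
        C₁ ^ 6 * (C₂ * Real.exp (-(η * q))) * (‖y‖ ^ 2 * ‖pw b m q y'‖) := by
      calc ‖pw b m q y‖ ^ 2 * ‖y'‖
          ≤ (C₁ * ‖e (m + q) (0, pw b m q y)‖) ^ 2 * (C₁ * ‖e m (0, y')‖) := by
            refine mul_le_mul ?_ (hB0 y').1 (norm_nonneg _) (by positivity)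
            exact pow_le_pow_left₀ (norm_nonneg _) (hB1 y).1 2
        _ = C₁ ^ 3 * (‖e (m + q) (0, pw b m q y)‖ ^ 2 * ‖e m (0, y')‖) := by ring
        _ ≤ C₁ ^ 3 * (C₂ * Real.exp (-(η * q)) *
            (‖e m (0, y)‖ ^ 2 * ‖e (m + q) (0, pw b m q y')‖)) :=
            mul_le_mul_of_nonneg_left h1 (by positivity)
        _ ≤ C₁ ^ 3 * (C₂ * Real.exp (-(η * q)) *
            ((C₁ * ‖y‖) ^ 2 * (C₁ * ‖pw b m q y'‖))) := by
            refine mul_le_mul_of_nonneg_left (mul_le_mul_of_nonneg_left ?_ hE) (by positivity)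
            refine mul_le_mul ?_ (hB1 y').2 (norm_nonneg _) (by positivity)
            exact pow_le_pow_left₀ (norm_nonneg _) (hB0 y).2 2
        _ = _ := by ring
    have h3 := mul_le_mul_of_nonneg_right hq2
      (show 0 ≤ ‖y‖ ^ 2 * ‖pw b m q y'‖ by positivity)
    linarith
  refine ⟨fun x => ?_, ?_, fun x => ?_, fun y => ?_, fun x => ?_, fun y' => ?_,
    fun x y => pw_comm hF m x y q⟩
  · have h1 := aup hF hD.le hAu m q (x, 0)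
    rw [nl] at h1
    refine (norm_fst_le _).trans (h1.trans ?_)
    exact mul_le_mul_of_nonneg_right hq1 (norm_nonneg _)
  · refine ContinuousLinearMap.opNorm_le_bound _ (by norm_num) fun y => ?_
    have h1 := aup hF hD.le hAu m q (0, y)
    rw [nr] at h1
    refine (norm_snd_le _).trans (h1.trans ?_)
    exact mul_le_mul_of_nonneg_right hq1 (norm_nonneg _)
  · have h1 := alow hF hc.le hAl m q (x, 0)
    rw [nl] at h1
    simp only [map_zero] at h1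
    rw [nl] at h1
    exact h1
  · have h1 := alow hF hc.le hAl m q (0, y)
    rw [nr] at h1
    simp only [map_zero] at h1
    rw [nr] at h1
    exact h1
  · rcases (norm_nonneg x).eq_or_lt with h0 | h0
    · rw [← h0, mul_zero]
      exact norm_nonneg _
    · have h1 : ‖pw b m q‖ ≤ ‖pw a m q x‖ / (16 * ‖x‖) := by
        refine ContinuousLinearMap.opNorm_le_bound _ (by positivity) fun y => ?_
        rw [div_mul_eq_mul_div, le_div_iff₀ (by positivity)]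
        have := hd x y
        linarith
      rw [le_div_iff₀ (by positivity)] at h1
      linarith
  · rcases (norm_nonneg y').eq_or_lt with h0 | h0
    · rw [← h0, mul_zero]
      exact norm_nonneg _
    · have hs : 0 ≤ ‖pw b m q y'‖ / (16 * ‖y'‖) := by positivity
      have h1 : ‖pw b m q‖ ≤ Real.sqrt (‖pw b m q y'‖ / (16 * ‖y'‖)) := by
        refine ContinuousLinearMap.opNorm_le_bound _ (Real.sqrt_nonneg _) fun y => ?_
        refine le_of_sq_le_sq ?_ (by positivity)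
        rw [mul_pow, Real.sq_sqrt hs, div_mul_eq_mul_div, le_div_iff₀ (by positivity)]
        have := hb y y'
        linarith
      have h2 : ‖pw b m q‖ ^ 2 ≤ ‖pw b m q y'‖ / (16 * ‖y'‖) := by
        have h3 := pow_le_pow_left₀ (norm_nonneg _) h1 2
        rwa [Real.sq_sqrt hs] at h3
      rw [le_div_iff₀ (by positivity)] at h2
      linarith

end Pool.Agent.Lib.BedF
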