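import Pool.Agent.Lib.BedF.SpecB

/-!
# Theorem F (MP_6f050a_an): the quadratic estimate for `q` steps
-/

set_option autoImplicit false

open scoped Topology
open Set Filter Metric

namespace Pool.Agent.Lib.BedF

namespace QqdM

variable {k : ℕ} {r D C c : ℝ} {f : ℕ → (Fin k → ℂ) → (Fin k → ℂ)}
  {A : ℕ → (Fin k → ℂ) →L[ℂ] (Fin k → ℂ)}

theorem A_le (h : Bed.SeqD k r D C c f A) (n : ℕ) (z : Fin k → ℂ) : ‖A n z‖ ≤ ‖z‖ := by
  have h1 := h.contrL n z
  have h2 : D * ‖z‖ ≤ 1 * ‖z‖ := mul_le_mul_of_nonneg_right h.D_lt.le (norm_nonneg _)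
  linarith

theorem pw_le (h : Bed.SeqD k r D C c f A) (m q : ℕ) (z : Fin k → ℂ) : ‖pw A m q z‖ ≤ ‖z‖ := by
  induction q with
  | zero => exact le_refl _
  | succ q ih =>
    have e : pw A m (q + 1) z = A (m + q) (pw A m q z) := rfl
    rw [e]
    exact (A_le h _ _).trans ih

theorem f_zero (h : Bed.SeqD k r D C c f A) (n : ℕ) : f n 0 = 0 := by
  have h1 := h.contr n 0 (mem_ball_self h.r_pos)
  rw [norm_zero, mul_zero] at h1
  exact norm_le_zero_iff.1 h1

theorem f_le (h : Bed.SeqD k r D C c f A) (n : ℕ) (z : Fin k → ℂ) (hz : z ∈ ball (0 : Fin k → ℂ) r) :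
    ‖f n z‖ ≤ ‖z‖ := by
  have h1 := h.contr n z hz
  have h2 : D * ‖z‖ ≤ 1 * ‖z‖ := mul_le_mul_of_nonneg_right h.D_lt.le (norm_nonneg _)
  linarith

end QqdM

open QqdM in
theorem qqdP : S_Qqd := by
  intro k r D C c f A h q
  induction q with
  | zero =>
    refine ⟨1, one_pos, fun m => ⟨differentiableOn_id, rfl, fun z _ => ⟨le_refl _, fun w _ => ?_⟩⟩⟩
    have e : (orb f m 0 z - pw A m 0 z) - (orb f m 0 w - pw A m 0 w) = 0 := by
      change (z - z) - (w - w) = 0
      rw [sub_self, sub_self, sub_self]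
    rw [e, norm_zero]
    positivity
  | succ q ih =>
    obtain ⟨Cq, hCq, H⟩ := ih
    have hC := h.C_pos
    have hr := h.r_pos
    refine ⟨C * (1 + 2 * Cq * r) + Cq, by positivity, fun m => ?_⟩
    obtain ⟨hd, h0, hH⟩ := H m
    have hmem : ∀ z ∈ ball (0 : Fin k → ℂ) r, orb f m q z ∈ ball (0 : Fin k → ℂ) r := by
      intro z hz
      rw [mem_ball_zero_iff] at hz ⊢
      exact lt_of_le_of_lt (hH z (mem_ball_zero_iff.2 hz)).1 hz
    have eo : ∀ z, orb f m (q + 1) z = f (m + q) (orb f m q z) := fun z => rfl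
    have ep : ∀ z, pw A m (q + 1) z = A (m + q) (pw A m q z) := fun z => rfl
    refine ⟨?_, ?_, fun z hz => ⟨?_, fun w hw => ?_⟩⟩
    · exact (h.diff (m + q)).comp hd hmem
    · rw [eo, h0]
      exact f_zero h _
    · rw [eo]
      exact (f_le h _ _ (hmem z hz)).trans (hH z hz).1
    · rw [eo, eo, ep, ep]
      have hyz := (hH z hz).1
      have hyw := (hH w hw).1
      have hq := (hH z hz).2 w hw
      have hf := h.quad (m + q) _ (hmem z hz) _ (hmem w hw)
      have hz' := mem_ball_zero_iff.1 hz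
      have hw' := mem_ball_zero_iff.1 hw
      generalize orb f m q z = y at *
      generalize orb f m q w = y' at *
      have hP : ‖pw A m q z - pw A m q w‖ ≤ ‖z - w‖ := by
        rw [← map_sub]
        exact pw_le h m q _
      have hs : 0 ≤ ‖z‖ + ‖w‖ := by positivity
      have hn : 0 ≤ ‖z - w‖ := norm_nonneg _
      have hyy : ‖y - y'‖ ≤ (1 + 2 * Cq * r) * ‖z - w‖ := by
        have e1 : y - y' = ((y - pw A m q z) - (y' - pw A m q w)) + (pw A m q z - pw A m q w) := by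
          abel
        have h1 : ‖y - y'‖ ≤ Cq * (‖z‖ + ‖w‖) * ‖z - w‖ + ‖z - w‖ := by
          rw [e1]
          exact (norm_add_le _ _).trans (add_le_add hq hP)
        have h2 : Cq * (‖z‖ + ‖w‖) * ‖z - w‖ ≤ Cq * (2 * r) * ‖z - w‖ :=
          mul_le_mul_of_nonneg_right (mul_le_mul_of_nonneg_left (by linarith) hCq.le) hn
        linarith
      have e2 : (f (m + q) y - A (m + q) (pw A m q z)) - (f (m + q) y' - A (m + q) (pw A m q w)) =
          ((f (m + q) y - A (m + q) y) - (f (m + q) y' - A (m + q) y')) +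
            A (m + q) ((y - pw A m q z) - (y' - pw A m q w)) := by
        rw [map_sub, map_sub, map_sub]
        abel
      have h3 : C * (‖y‖ + ‖y'‖) * ‖y - y'‖ ≤
          C * (‖z‖ + ‖w‖) * ((1 + 2 * Cq * r) * ‖z - w‖) := by
        refine mul_le_mul (mul_le_mul_of_nonneg_left (by linarith) hC.le) hyy (norm_nonneg _) ?_
        positivity
      calc ‖(f (m + q) y - A (m + q) (pw A m q z)) - (f (m + q) y' - A (m + q) (pw A m q w))‖
          ≤ ‖(f (m + q) y - A (m + q) y) - (f (m + q) y' - A (m + q) y')‖ +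
            ‖A (m + q) ((y - pw A m q z) - (y' - pw A m q w))‖ := by
            rw [e2]
            exact norm_add_le _ _
        _ ≤ C * (‖z‖ + ‖w‖) * ((1 + 2 * Cq * r) * ‖z - w‖) + Cq * (‖z‖ + ‖w‖) * ‖z - w‖ :=
            add_le_add (hf.trans h3) ((A_le h _ _).trans hq)
        _ = (C * (1 + 2 * Cq * r) + Cq) * (‖z‖ + ‖w‖) * ‖z - w‖ := by ring

end Pool.Agent.Lib.BedF
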