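import Pool.Agent.Lib.BedF.SpecB

/-!
# Theorem F (MP_6f050a_an), module `Run`: the balls are Runge, one step
-/

set_option autoImplicit false

open scoped Topology
open Set Filter Metric

namespace Pool.Agent.Lib.BedF

namespace RunM

/-- The inverse of an injective operator of a finite dimensional space. -/
theorem inv_exists {G : Type} [NormedAddCommGroup G] [NormedSpace ℂ G] [FiniteDimensional ℂ G]
    (a : G →L[ℂ] G) (c : ℝ) (hc : 0 < c) (h : ∀ x, c * ‖x‖ ≤ ‖a x‖) :
    ∃ B : G →L[ℂ] G, (∀ x, B (a x) = x) ∧ ∀ y, ‖B y‖ ≤ 1 / c * ‖y‖ := by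
  have hinj : Function.Injective (a : G →ₗ[ℂ] G) := by
    rw [injective_iff_map_eq_zero]
    intro x hx
    have h1 := h x
    have h2 : a x = 0 := hx
    rw [h2, norm_zero] at h1
    have h3 : ‖x‖ ≤ 0 := by
      by_contra h4
      have h5 : 0 < ‖x‖ := not_le.1 h4
      nlinarith [mul_pos hc h5]
    exact norm_le_zero_iff.1 h3
  let e : G ≃ₗ[ℂ] G := LinearEquiv.ofInjectiveEndo (a : G →ₗ[ℂ] G) hinj
  have he : ∀ x, e x = a x := fun x => rfl
  refine ⟨LinearMap.toContinuousLinearMap (e.symm : G →ₗ[ℂ] G), fun x => ?_, fun y => ?_⟩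
  · change e.symm (a x) = x
    rw [← he x, LinearEquiv.symm_apply_apply]
  · change ‖e.symm y‖ ≤ 1 / c * ‖y‖
    have h1 := h (e.symm y)
    rw [← he, LinearEquiv.apply_symm_apply] at h1
    rw [one_div, inv_mul_eq_div, le_div_iff₀ hc]
    linarith

end RunM

open RunM

theorem runP : S_Inv → S_Tay → S_Run := by
  intro hInv hTay G W _ _ _ _ _ _ R C c g a hS n ε p hε hp
  have hR := hS.R_pos
  have hC := hS.C_pos
  have hc := hS.c_pos
  obtain ⟨B, hB1, hB2⟩ := inv_exists (a n) c hc (hS.low n)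
  have hsm : 2 * C * R / c ≤ 1 / 16 := by
    rw [div_le_iff₀ hc]
    have := hS.small
    linarith
  have hu : ∀ x ∈ ball (0 : G) R, ∀ y ∈ ball (0 : G) R,
      ‖(B (g n x) - x) - (B (g n y) - y)‖ ≤ 1 / 16 * ‖x - y‖ := by
    intro x hx y hy
    have e : (B (g n x) - x) - (B (g n y) - y) = B ((g n x - a n x) - (g n y - a n y)) := by
      simp only [map_sub, hB1]
    rw [e]
    refine (hB2 _).trans ?_
    have h1 := hS.quad n x hx y hy
    rw [mem_ball_zero_iff] at hx hy
    have h2 : C * (‖x‖ + ‖y‖) * ‖x - y‖ ≤ C * (2 * R) * ‖x - y‖ := by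
      have h3 : ‖x‖ + ‖y‖ ≤ 2 * R := by linarith
      have h4 := mul_le_mul_of_nonneg_left h3 hC.le
      exact mul_le_mul_of_nonneg_right h4 (norm_nonneg _)
    calc 1 / c * ‖(g n x - a n x) - (g n y - a n y)‖ ≤ 1 / c * (C * (2 * R) * ‖x - y‖) :=
          mul_le_mul_of_nonneg_left (h1.trans h2) (by positivity)
      _ = 2 * C * R / c * ‖x - y‖ := by ring
      _ ≤ 1 / 16 * ‖x - y‖ := mul_le_mul_of_nonneg_right hsm (norm_nonneg _)
  have hud : DifferentiableOn ℂ (fun x => B (g n x)) (ball 0 R) :=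
    B.differentiable.comp_differentiableOn (hS.diff n)
  obtain ⟨i1, -, i3, i4⟩ := hInv G (ContinuousLinearMap.id ℂ G) 1 (1 / 16) R
    (fun x => B (g n x)) (by norm_num) (by norm_num)
    (fun x => by simp) hud (fun x hx y hy => hu x hx y hy)
  have h0 : B (g n 0) = 0 := by rw [hS.zero, map_zero]
  have hex : ∀ v ∈ ball (0 : G) (15 / 16 * R), ∃ x ∈ ball (0 : G) R, B (g n x) = v := by
    intro v hv
    refine i3 0 R (Subset.refl _) v ?_
    rw [mem_ball_zero_iff] at hv
    rw [h0, sub_zero]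
    linarith
  classical
  let w : G → G := fun v => if h : v ∈ ball (0 : G) (15 / 16 * R) then (hex v h).choose else 0
  have hw : ∀ v ∈ ball (0 : G) (15 / 16 * R), w v ∈ ball (0 : G) R ∧ B (g n (w v)) = v := by
    intro v hv
    have e : w v = (hex v hv).choose := dif_pos hv
    rw [e]
    exact (hex v hv).choose_spec
  have hwd : DifferentiableOn ℂ w (ball 0 (15 / 16 * R)) :=
    i4 G (ball 0 (15 / 16 * R)) w id isOpen_ball differentiableOn_id (fun v hv => hw v hv)
  obtain ⟨P₀, hP1, hP2⟩ := hTay G W (15 / 16 * R) (3 / 4 * R) ε (p ∘ w) (by positivity)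
    (by linarith) hε (hp.comp_differentiableOn hwd)
  refine ⟨fun y => P₀ (B y), hP1.comp B.differentiable, fun x hx => ?_⟩
  have hxR : x ∈ ball (0 : G) R := ball_subset_ball (by linarith) hx
  have h0R : (0 : G) ∈ ball (0 : G) R := mem_ball_self hR
  have hux : ‖B (g n x)‖ < 3 / 4 * R := by
    have h1 := hu x hxR 0 h0R
    rw [h0, sub_zero, sub_zero, sub_zero] at h1
    have h2 : ‖B (g n x)‖ ≤ ‖B (g n x) - x‖ + ‖x‖ := by
      have := norm_add_le (B (g n x) - x) x
      rwa [sub_add_cancel] at this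
    rw [mem_ball_zero_iff] at hx
    linarith
  have hv : B (g n x) ∈ ball (0 : G) (3 / 4 * R) := mem_ball_zero_iff.2 hux
  have hv' : B (g n x) ∈ ball (0 : G) (15 / 16 * R) := ball_subset_ball (by linarith) hv
  obtain ⟨w1, w2⟩ := hw _ hv'
  have hwx : w (B (g n x)) = x := by
    have h1 := i1 _ w1 _ hxR
    have h2 : ‖(fun x => B (g n x)) (w (B (g n x))) - (fun x => B (g n x)) x‖ = 0 := by
      change ‖B (g n (w (B (g n x)))) - B (g n x)‖ = 0
      rw [w2, sub_self, norm_zero]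
    rw [h2] at h1
    have h3 : ‖w (B (g n x)) - x‖ ≤ 0 := by linarith
    exact sub_eq_zero.1 (norm_le_zero_iff.1 h3)
  have h4 := hP2 _ hv
  rw [Function.comp_apply, hwx] at h4
  exact h4

end Pool.Agent.Lib.BedF
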