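import Pool.Agent.Lib.BedF.SpecB

/-!
# Theorem F: the induction on the number of blocks
-/

set_option autoImplicit false

open scoped Topology
open Set Filter Metric

namespace Pool.Agent.Lib.BedF

namespace SeqM

/-- the products of the linear parts -/
noncomputable abbrev LL {k : ℕ} (A : ℕ → (Fin k → ℂ) →L[ℂ] (Fin k → ℂ)) (n : ℕ) :
    (Fin k → ℂ) →L[ℂ] (Fin k → ℂ) := Bed.prodL A (ContinuousLinearMap.id ℂ _) n

theorem LL_zero {k : ℕ} (A : ℕ → (Fin k → ℂ) →L[ℂ] (Fin k → ℂ)) (z : Fin k → ℂ) : LL A 0 z = z := rfl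

theorem LL_succ {k : ℕ} (A : ℕ → (Fin k → ℂ) →L[ℂ] (Fin k → ℂ)) (n : ℕ) (z : Fin k → ℂ) :
    LL A (n + 1) z = A n (LL A n z) := rfl

theorem LL_pw {k : ℕ} (a : ℕ → (Fin k → ℂ) →L[ℂ] (Fin k → ℂ)) (m j : ℕ) (z : Fin k → ℂ) :
    LL a (m + j) z = pw a m j (LL a m z) := by
  induction j with
  | zero => rfl
  | succ j ih =>
    show a (m + j) (LL a (m + j) z) = a (m + j) (pw a m j (LL a m z))
    rw [ih]

theorem LL_sub {k : ℕ} (a : ℕ → (Fin k → ℂ) →L[ℂ] (Fin k → ℂ)) (q n : ℕ) (z : Fin k → ℂ) :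
    LL (fun n => pw a (q * n) q) n z = LL a (q * n) z := by
  induction n with
  | zero => rfl
  | succ n ih =>
    rw [LL_succ, ih, Nat.mul_succ, LL_pw]

/-- the embedding of the slow block -/
noncomputable def jj {k k₁ k₂ : ℕ} (e : Bed.V k₁ k₂ ≃L[ℂ] (Fin k → ℂ)) :
    (Fin k₁ → ℂ) →ₗ[ℂ] (Fin k → ℂ) :=
  (e.toLinearEquiv.toLinearMap).comp (LinearMap.inl ℂ (Fin k₁ → ℂ) (Fin k₂ → ℂ))

theorem jj_apply {k k₁ k₂ : ℕ} (e : Bed.V k₁ k₂ ≃L[ℂ] (Fin k → ℂ)) (x : Fin k₁ → ℂ) :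
    jj e x = e (x, 0) := rfl

theorem jj_inj {k k₁ k₂ : ℕ} (e : Bed.V k₁ k₂ ≃L[ℂ] (Fin k → ℂ)) : Function.Injective (jj e) := by
  intro x y h
  rw [jj_apply, jj_apply] at h
  have h1 := e.injective h
  exact (Prod.ext_iff.1 h1).1

theorem bas_comp {E H H' : Type} [NormedAddCommGroup E] [NormedSpace ℂ E] [NormedAddCommGroup H]
    [NormedSpace ℂ H] [NormedAddCommGroup H'] [NormedSpace ℂ H'] (e : H ≃L[ℂ] H') (r : ℝ)
    (f : ℕ → E → E) (h : Bas H r f) : Bas H' r f := by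
  obtain ⟨Ψ, h1, h2, h3, h4, h5⟩ := h
  refine ⟨fun n x => e (Ψ n x), fun n => ?_, fun n x hx => ?_, fun n x hx y hy hxy => ?_,
    fun n x hx w hw => ?_, fun u => ?_⟩
  · exact e.differentiable.comp_differentiableOn (h1 n)
  · show e (Ψ (n + 1) (f n x)) = e (Ψ n x)
    rw [h2 n x hx]
  · exact h3 n hx hy (e.injective hxy)
  · have hd : DifferentiableAt ℂ (Ψ n) x := (h1 n).differentiableAt (isOpen_ball.mem_nhds hx)
    have h6 : HasFDerivAt (fun x => e (Ψ n x)) ((e : H →L[ℂ] H').comp (fderiv ℂ (Ψ n) x)) x :=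
      (e.hasFDerivAt (x := Ψ n x)).comp x hd.hasFDerivAt
    rw [h6.fderiv] at hw
    have h7 : e (fderiv ℂ (Ψ n) x w) = 0 := hw
    apply h4 n x hx w
    exact e.injective (by rw [h7, map_zero])
  · obtain ⟨n, x, hx, hu⟩ := h5 (e.symm u)
    exact ⟨n, x, hx, by show e (Ψ n x) = u; rw [hu, e.apply_symm_apply]⟩

theorem blk_contr {G F : Type} [NormedAddCommGroup G] [NormedSpace ℂ G] [NormedAddCommGroup F]
    [NormedSpace ℂ F] {R C c : ℝ} {f : ℕ → G × F → G × F} {a : ℕ → G →L[ℂ] G} {b : ℕ → F →L[ℂ] F}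
    (h : Blk R C c f a b) (n : ℕ) (z : G × F) (hz : z ∈ ball (0 : G × F) R) :
    ‖f n z‖ ≤ 1 / 4 * ‖z‖ := by
  have hz' : ‖z‖ < R := by simpa using hz
  have h0 : (0 : G × F) ∈ ball (0 : G × F) R := by simpa using h.R_pos
  have h1 := h.quad n z hz 0 h0
  rw [h.zero n] at h1
  have h2 : ((0 : G × F) - (a n (0 : G × F).1, b n (0 : G × F).2)) = 0 := by
    simp
  rw [h2, sub_zero, norm_zero, add_zero, sub_zero] at h1
  have h3 : ‖(a n z.1, b n z.2)‖ ≤ 1 / 8 * ‖z‖ := by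
    rw [Prod.norm_def]
    apply max_le
    · exact (h.aup n z.1).trans (by
        have := norm_fst_le z
        linarith)
    · refine ((b n).le_opNorm z.2).trans ?_
      have h4 := norm_snd_le z
      have h5 := h.bup n
      exact mul_le_mul h5 h4 (norm_nonneg _) (by norm_num)
  have h6 : ‖f n z‖ ≤ ‖f n z - (a n z.1, b n z.2)‖ + ‖(a n z.1, b n z.2)‖ := by
    have := norm_add_le (f n z - (a n z.1, b n z.2)) (a n z.1, b n z.2)
    rwa [sub_add_cancel] at this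
  have hc : c ^ 2 ≤ 1 := pow_le_one₀ h.c_pos.le h.c_le
  have h7 : C * R ≤ 1 / 8 := by
    have := h.small
    nlinarith
  have h8 : C * ‖z‖ * ‖z‖ ≤ 1 / 8 * ‖z‖ := by
    apply mul_le_mul_of_nonneg_right _ (norm_nonneg z)
    exact (mul_le_mul_of_nonneg_left hz'.le h.C_pos.le).trans h7
  linarith

theorem sq_seqD {k : ℕ} {r D C c : ℝ} {f : ℕ → (Fin k → ℂ) → (Fin k → ℂ)}
    {A : ℕ → (Fin k → ℂ) →L[ℂ] (Fin k → ℂ)} (h : Sq r D C c f A) : Bed.SeqD k r D C c f A :=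
  ⟨h.r_pos, h.D_pos, h.D_lt, h.C_pos, h.c_pos, h.diff, h.inj, h.dinj, h.contr, h.quad, h.contrL, h.low⟩

theorem seqD_sq {k : ℕ} {r D C c : ℝ} {f : ℕ → (Fin k → ℂ) → (Fin k → ℂ)}
    {A : ℕ → (Fin k → ℂ) →L[ℂ] (Fin k → ℂ)} (h : Bed.SeqD k r D C c f A) : Sq r D C c f A :=
  ⟨h.r_pos, h.D_pos, h.D_lt, h.C_pos, h.c_pos, h.diff, h.inj, h.dinj, h.contr, h.quad, h.contrL, h.low⟩

theorem weak {C C' η η' x y z : ℝ} (hC : C ≤ C') (hC' : 0 ≤ C') (hη : η' ≤ η) (hx : 0 ≤ x) (hz : 0 ≤ z)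
    (h : y ≤ C * Real.exp (-(η * x)) * z) : y ≤ C' * Real.exp (-(η' * x)) * z := by
  refine h.trans (mul_le_mul_of_nonneg_right ?_ hz)
  apply mul_le_mul hC _ (Real.exp_pos _).le hC'
  apply Real.exp_le_exp.2
  have := mul_le_mul_of_nonneg_right hη hx
  linarith

/-- the frames: the norms of `(e n).symm` -/
theorem symm_le {k k₁ k₂ : ℕ} {C₁ : ℝ} {A : ℕ → (Fin k → ℂ) →L[ℂ] (Fin k → ℂ)}
    {U W : Submodule ℂ (Fin k → ℂ)} {e : ℕ → Bed.V k₁ k₂ ≃L[ℂ] (Fin k → ℂ)}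
    {a : ℕ → (Fin k₁ → ℂ) →L[ℂ] (Fin k₁ → ℂ)} {b : ℕ → (Fin k₂ → ℂ) →L[ℂ] (Fin k₂ → ℂ)}
    (h : Fra k k₁ k₂ C₁ A U W e a b) (n : ℕ) (z : Fin k → ℂ) : ‖(e n).symm z‖ ≤ C₁ * ‖z‖ := by
  have := h.low n ((e n).symm z)
  rwa [(e n).apply_symm_apply] at this

/-- the transfer of the basin -/
theorem transf (hTr : S_Tr) {k k₁ k₂ : ℕ} {r D C c C₁ : ℝ} {f : ℕ → (Fin k → ℂ) → (Fin k → ℂ)}
    {A : ℕ → (Fin k → ℂ) →L[ℂ] (Fin k → ℂ)}
    {U W : Submodule ℂ (Fin k → ℂ)} {e : ℕ → Bed.V k₁ k₂ ≃L[ℂ] (Fin k → ℂ)}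
    {a : ℕ → (Fin k₁ → ℂ) →L[ℂ] (Fin k₁ → ℂ)} {b : ℕ → (Fin k₂ → ℂ) →L[ℂ] (Fin k₂ → ℂ)}
    (hS : Bed.SeqD k r D C c f A) (h : Fra k k₁ k₂ C₁ A U W e a b) {q : ℕ} (hq : 0 < q)
    {R C' c' : ℝ} {F : ℕ → Bed.V k₁ k₂ → Bed.V k₁ k₂} (hR : C₁ * R ≤ r)
    {a' : ℕ → (Fin k₁ → ℂ) →L[ℂ] (Fin k₁ → ℂ)} {b' : ℕ → (Fin k₂ → ℂ) →L[ℂ] (Fin k₂ → ℂ)}
    (hB : Blk R C' c' F a' b')
    (hF : ∀ n, ∀ z ∈ ball (0 : Bed.V k₁ k₂) R, e (q * (n + 1)) (F n z) = orb f (q * n) q (e (q * n) z))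
    (hb : Bas (Bed.V k₁ k₂) R F) : Bed.BasinCk k r f := by
  have hC : 0 < C₁ := lt_of_lt_of_le one_pos h.one_le
  have hRp := hB.R_pos
  have hb' : Bas (Fin k → ℂ) R F := bas_comp (e 0) R F hb
  refine hTr (Fin k → ℂ) (Bed.V k₁ k₂) (Fin k → ℂ) r D C c f A q (C₁ * R) (R / C₁) R
    (fun n => ((e (q * n)).symm : (Fin k → ℂ) → Bed.V k₁ k₂)) F (seqD_sq hS) hq (by positivity) ?_ hR
    (fun n => (e (q * n)).symm.differentiable.differentiableOn)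
    (fun n => (e (q * n)).symm.injective.injOn) ?_ ?_ ?_ ?_ hb'
  · rw [div_le_iff₀ hC]
    nlinarith [h.one_le, mul_le_mul_of_nonneg_right h.one_le hRp.le,
      mul_le_mul_of_nonneg_right h.one_le (mul_pos hC hRp).le]
  · intro n z _ w hw
    have h1 : HasFDerivAt (fun z => (e (q * n)).symm z)
        (((e (q * n)).symm : (Fin k → ℂ) ≃L[ℂ] Bed.V k₁ k₂) : (Fin k → ℂ) →L[ℂ] Bed.V k₁ k₂) z :=
      (e (q * n)).symm.hasFDerivAt
    rw [h1.fderiv] at hw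
    have h2 : (e (q * n)).symm w = 0 := hw
    exact (e (q * n)).symm.injective (by rw [h2, map_zero])
  · intro n z hz
    have h1 : ‖z‖ < R / C₁ := by simpa using hz
    have h2 := symm_le h (q * n) z
    rw [mem_ball_zero_iff]
    refine lt_of_le_of_lt h2 ?_
    rw [lt_div_iff₀ hC] at h1
    linarith
  · intro n w hw
    have h1 : ‖w‖ < R := by simpa using hw
    refine ⟨?_, e (q * n) w, ?_, (e (q * n)).symm_apply_apply w⟩
    · rw [mem_ball_zero_iff]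
      have h2 := blk_contr hB n w hw
      have h3 := norm_nonneg w
      linarith
    · rw [mem_ball_zero_iff]
      exact lt_of_le_of_lt (h.up (q * n) w) (mul_lt_mul_of_pos_left h1 hC)
  · intro n z _ hz
    have h1 := hF n ((e (q * n)).symm z) hz
    rw [(e (q * n)).apply_symm_apply] at h1
    show F n ((e (q * n)).symm z) = (e (q * (n + 1))).symm (orb f (q * n) q z)
    rw [← h1, (e (q * (n + 1))).symm_apply_apply]

/-- the condition (F) for the slow block -/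
theorem fcSlow (hFCt : S_FCt) {k k₁ k₂ : ℕ} {C₁ : ℝ}
    {A : ℕ → (Fin k → ℂ) →L[ℂ] (Fin k → ℂ)}
    {i : ℕ} {U W : ℕ → Submodule ℂ (Fin k → ℂ)} {e : ℕ → Bed.V k₁ k₂ ≃L[ℂ] (Fin k → ℂ)}
    {a : ℕ → (Fin k₁ → ℂ) →L[ℂ] (Fin k₁ → ℂ)} {b : ℕ → (Fin k₂ → ℂ) →L[ℂ] (Fin k₂ → ℂ)}
    (h : Fra k k₁ k₂ C₁ A (U i) (W i) e a b) {q : ℕ} (hq : 0 < q)
    (hF : FC (fun n z => ‖Bed.prodL A (ContinuousLinearMap.id ℂ _) n z‖) (i + 1) U W ⊤) :
    FC (fun n z => ‖Bed.prodL (fun n => pw a (q * n) q) (ContinuousLinearMap.id ℂ _) n z‖) i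
      (fun l => (U l).comap (jj (e 0))) (fun l => (W l).comap (jj (e 0))) ⊤ := by
  have hC : 0 < C₁ := lt_of_lt_of_le one_pos h.one_le
  refine hFCt (Fin k → ℂ) (Fin k₁ → ℂ) (fun n z => ‖Bed.prodL A (ContinuousLinearMap.id ℂ _) n z‖)
    (fun n z => ‖Bed.prodL (fun n => pw a (q * n) q) (ContinuousLinearMap.id ℂ _) n z‖) (jj (e 0))
    (i + 1) i q U W ⊤ (1 / C₁) C₁ hF (Nat.le_succ i) hq (by positivity) hC (jj_inj _) ?_
    (fun n x => norm_nonneg _) ?_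
  · apply le_antisymm
    · rintro _ ⟨x, rfl⟩
      exact h.memU x
    · intro u hu
      obtain ⟨x, hx⟩ := h.surU u hu
      exact ⟨x, hx⟩
  · intro n x
    have h1 : LL A (q * n) (jj (e 0) x) = e (q * n) (LL a (q * n) x, 0) := by
      rw [jj_apply]
      have h2 := h.prod (q * n) x 0
      rw [map_zero] at h2
      exact h2
    have h3 : LL (fun n => pw a (q * n) q) n x = LL a (q * n) x := LL_sub a q n x
    show 1 / C₁ * ‖LL (fun n => pw a (q * n) q) n x‖ ≤ ‖LL A (q * n) (jj (e 0) x)‖ ∧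
      ‖LL A (q * n) (jj (e 0) x)‖ ≤ C₁ * ‖LL (fun n => pw a (q * n) q) n x‖
    rw [h1, h3]
    have h4 : ‖((LL a (q * n) x, 0) : Bed.V k₁ k₂)‖ = ‖LL a (q * n) x‖ := by
      rw [Prod.norm_def]
      simp
    have h5 := h.up (q * n) (LL a (q * n) x, 0)
    have h6 := h.low (q * n) (LL a (q * n) x, 0)
    rw [h4] at h5 h6
    refine ⟨?_, h5⟩
    rw [one_div, inv_mul_le_iff₀ hC]
    exact h6

end SeqM

open SeqM in
/-- The theorem for sequences. -/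
theorem seqP : S_Seq := by
  intro hTr hStp hAgl hFrs hQst hFCt hBse i
  induction i with
  | zero =>
    intro k r D C c f A U W hS hF
    exact hBse k r D C c f A U W hS hF
  | succ i ih =>
    intro k r D C c f A U W hS hF
    obtain ⟨C₂, η₂, hC₂, hη₂, hdom⟩ := hF.dom
    obtain ⟨C₃, η₃, hC₃, hη₃, hbun⟩ := hF.bun
    have hcompl : IsCompl (U i) (W i) := by
      refine ⟨hF.disj i (Nat.lt_succ_self i), codisjoint_iff.2 ?_⟩
      rw [← hF.sup i (Nat.lt_succ_self i), hF.top]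
    have hCp : 0 < C₂ + C₃ := by linarith
    have hηp : 0 < min η₂ η₃ := lt_min hη₂ hη₃
    have hdom' : ∀ n m : ℕ, ∀ u ∈ U i, ∀ w ∈ W i, ‖Bed.prodL A (ContinuousLinearMap.id ℂ _) (n + m) w‖ *
        ‖Bed.prodL A (ContinuousLinearMap.id ℂ _) n u‖ ≤ (C₂ + C₃) * Real.exp (-(min η₂ η₃ * m)) *
        (‖Bed.prodL A (ContinuousLinearMap.id ℂ _) n w‖ *
          ‖Bed.prodL A (ContinuousLinearMap.id ℂ _) (n + m) u‖) := by
      intro n m u hu w hw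
      exact weak (by linarith) hCp.le (min_le_left _ _) (Nat.cast_nonneg m) (by positivity)
        (hdom i (Nat.lt_succ_self i) n m u hu w hw)
    have hbun' : ∀ n m : ℕ, ∀ v ∈ W i, ∀ w ∈ W i,
        ‖Bed.prodL A (ContinuousLinearMap.id ℂ _) (n + m) v‖ ^ 2 *
        ‖Bed.prodL A (ContinuousLinearMap.id ℂ _) n w‖ ≤ (C₂ + C₃) * Real.exp (-(min η₂ η₃ * m)) *
        (‖Bed.prodL A (ContinuousLinearMap.id ℂ _) n v‖ ^ 2 *
          ‖Bed.prodL A (ContinuousLinearMap.id ℂ _) (n + m) w‖) := by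
      intro n m v hv w hw
      exact weak (by linarith) hCp.le (min_le_right _ _) (Nat.cast_nonneg m) (by positivity)
        (hbun i (Nat.lt_succ_self i) n m v hv w hw)
    obtain ⟨γ, hγ, hang⟩ := hAgl k (fun n => Bed.prodL A (ContinuousLinearMap.id ℂ _) n) c (C₂ + C₃)
      (min η₂ η₃) (U i) (W i) hS.c_pos hCp hηp (by
        intro n z
        refine ⟨hS.low n _, ?_⟩
        exact (hS.contrL n _).trans (mul_le_of_le_one_left (norm_nonneg _) hS.D_lt.le)) hdom'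
    obtain ⟨k₁, k₂, C₁, e, a, b, hFra⟩ := hFrs k A c γ (U i) (W i) hS.c_pos hS.low hcompl hγ hang
    obtain ⟨q, R, C', c', F, hq, hR, hB, hFe⟩ := hQst k k₁ k₂ r D C c C₁ f A (U i) (W i) e a b
      (C₂ + C₃) (min η₂ η₃) hS hFra hCp hηp hdom' hbun'
    obtain ⟨r₁, C₁', g, hg, hbas⟩ := hStp (Fin k₁ → ℂ) (Fin k₂ → ℂ) R C' c' F
      (fun n => pw a (q * n) q) (fun n => pw b (q * n) q) hB
    have hfc := fcSlow hFCt hFra hq hF
    have h1 : Bed.BasinCk k₁ r₁ g := ih k₁ r₁ (1 / 4) C₁' c' g (fun n => pw a (q * n) q) _ _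
      (sq_seqD hg) hfc
    exact transf hTr hS hFra hq hR hB hFe (hbas (Fin k₁ → ℂ) h1)

end Pool.Agent.Lib.BedF
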