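import Pool.Agent.Lib.BedF.SpecA

/-!
# The skew form (`S_Skp`)
-/

set_option autoImplicit false

open scoped Topology
open Set Filter Metric

namespace Pool.Agent.Lib.BedF

namespace SkpM

section
variable {G F : Type} [NormedAddCommGroup G] [NormedSpace ℂ G] [NormedAddCommGroup F] [NormedSpace ℂ F]

/-- The coordinates in which the fibration is the projection. -/
def kap (η : G × F → G) (z : G × F) : G × F := (z.1 + η z, z.2)

open Classical in
/-- The inverse of `kap η`. -/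
noncomputable def iot (r : ℝ) (η : G × F → G) (u : G × F) : G × F :=
  if h : ∃ x ∈ ball (0 : G × F) r, kap η x = u then h.choose else 0

omit [NormedSpace ℂ G] [NormedSpace ℂ F] in
theorem iot_spec (r : ℝ) (η : G × F → G) (u : G × F) (h : ∃ x ∈ ball (0 : G × F) r, kap η x = u) :
    iot r η u ∈ ball (0 : G × F) r ∧ kap η (iot r η u) = u := by
  unfold iot
  rw [dif_pos h]
  exact h.choose_spec

/-- The properties of `kap η` and of its inverse. -/
structure KI (R : ℝ) (η : G × F → G) : Prop where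
  pos : 0 < R
  z0 : η 0 = 0
  lip : ∀ z ∈ ball (0 : G × F) (R / 4), ∀ w ∈ ball (0 : G × F) (R / 4), ‖η z - η w‖ ≤ 1 / 2 * ‖z - w‖
  kdiff : DifferentiableOn ℂ (kap η) (ball 0 (R / 4))
  low : ∀ x ∈ ball (0 : G × F) (R / 4), ∀ y ∈ ball (0 : G × F) (R / 4),
    1 / 2 * ‖x - y‖ ≤ ‖kap η x - kap η y‖
  dlow : ∀ x ∈ ball (0 : G × F) (R / 4), ∀ w, 1 / 2 * ‖w‖ ≤ ‖fderiv ℂ (kap η) x w‖
  mem : ∀ u ∈ ball (0 : G × F) (R / 8), iot (R / 4) η u ∈ ball (0 : G × F) (R / 4) ∧
    kap η (iot (R / 4) η u) = u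
  idiff : DifferentiableOn ℂ (iot (R / 4) η) (ball 0 (R / 8))

theorem ki [FiniteDimensional ℂ G] [FiniteDimensional ℂ F] (hInv : S_Inv) (hCau : S_Cau) (R C c : ℝ)
    (η : G × F → G) (hR : 0 < R) (hC : 0 < C) (hc : 0 < c) (hc1 : c ≤ 1) (hs : 2 ^ 12 * C * R ≤ c ^ 2)
    (hη : Cls R C c η) : KI R η := by
  have : CompleteSpace G := FiniteDimensional.complete ℂ G
  have hK : 0 ≤ 16 * C / c := by positivity
  have hcc : c ^ 2 ≤ c := by nlinarith
  have hKR : 16 * C / c * R ≤ 1 / 2 := by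
    rw [div_mul_eq_mul_div, div_le_iff₀ hc]
    nlinarith
  have z0 : η 0 = 0 := by
    have h0 : (0 : G × F) ∈ ball (0 : G × F) (R / 2) := mem_ball_self (by positivity)
    have := hη.2 0 h0
    simpa using this
  have hlip : ∀ z ∈ ball (0 : G × F) (R / 4), ∀ w ∈ ball (0 : G × F) (R / 4),
      ‖η z - η w‖ ≤ 1 / 2 * ‖z - w‖ := by
    intro z hz w hw
    have h := hCau G F G (R / 2) (16 * C / c) η hK hη.1 hη.2 (R / 4) (by linarith) z hz w hw
    have hn := norm_nonneg (z - w)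
    calc ‖η z - η w‖ ≤ 4 * (16 * C / c) * (R / 4) * ‖z - w‖ := h
      _ = (16 * C / c * R) * ‖z - w‖ := by ring
      _ ≤ 1 / 2 * ‖z - w‖ := mul_le_mul_of_nonneg_right hKR hn
  have hkd : DifferentiableOn ℂ (kap η) (ball (0 : G × F) (R / 4)) := by
    have h1 : DifferentiableOn ℂ η (ball (0 : G × F) (R / 4)) :=
      hη.1.mono (ball_subset_ball (by linarith))
    exact (differentiableOn_fst.add h1).prodMk differentiableOn_snd
  have hl' : ∀ x ∈ ball (0 : G × F) (R / 4), ∀ y ∈ ball (0 : G × F) (R / 4),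
      ‖(kap η x - ContinuousLinearMap.id ℂ (G × F) x) - (kap η y - ContinuousLinearMap.id ℂ (G × F) y)‖ ≤
        1 / 2 * ‖x - y‖ := by
    intro x hx y hy
    have e : (kap η x - ContinuousLinearMap.id ℂ (G × F) x) - (kap η y - ContinuousLinearMap.id ℂ (G × F) y)
        = (η x - η y, 0) := by
      ext <;> simp [kap]
    rw [e, Prod.norm_mk, norm_zero, max_eq_left (norm_nonneg _)]
    exact hlip x hx y hy
  obtain ⟨h1, h2, h3, h4⟩ := hInv (G × F) (ContinuousLinearMap.id ℂ (G × F)) 1 (1 / 2) (R / 4) (kap η)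
    (by norm_num) (by norm_num) (fun x => by simp) hkd hl'
  have hk0 : kap η 0 = 0 := by
    ext <;> simp [kap, z0]
  have hmem : ∀ u ∈ ball (0 : G × F) (R / 8), iot (R / 4) η u ∈ ball (0 : G × F) (R / 4) ∧
      kap η (iot (R / 4) η u) = u := by
    intro u hu
    apply iot_spec
    refine h3 0 (R / 4) Subset.rfl u ?_
    rw [hk0, sub_zero]
    rw [mem_ball_zero_iff] at hu
    linarith
  refine ⟨hR, z0, hlip, hkd, ?_, ?_, hmem, ?_⟩
  · intro x hx y hy
    have := h1 x hx y hy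
    have e : (1 : ℝ) - 1 / 2 = 1 / 2 := by norm_num
    rwa [e] at this
  · intro x hx w
    have := h2 x hx w
    have e : (1 : ℝ) - 1 / 2 = 1 / 2 := by norm_num
    rwa [e] at this
  · exact h4 (G × F) (ball 0 (R / 8)) (iot (R / 4) η) id isOpen_ball differentiableOn_id
      (fun u hu => hmem u hu)

variable {R : ℝ} {η : G × F → G}

theorem KI.k0 (h : KI R η) : kap η 0 = 0 := by
  ext <;> simp [kap, h.z0]

theorem KI.inj (h : KI R η) : InjOn (kap η) (ball 0 (R / 4)) := by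
  intro x hx y hy hxy
  have := h.low x hx y hy
  rw [hxy, sub_self, norm_zero] at this
  have h0 : ‖x - y‖ = 0 := le_antisymm (by linarith) (norm_nonneg _)
  exact sub_eq_zero.1 (norm_eq_zero.1 h0)

theorem KI.ilip (h : KI R η) (u v : G × F) (hu : u ∈ ball (0 : G × F) (R / 8))
    (hv : v ∈ ball (0 : G × F) (R / 8)) : ‖iot (R / 4) η u - iot (R / 4) η v‖ ≤ 2 * ‖u - v‖ := by
  have h1 := h.mem u hu
  have h2 := h.mem v hv
  have := h.low _ h1.1 _ h2.1
  rw [h1.2, h2.2] at this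
  linarith

theorem KI.izero (h : KI R η) : iot (R / 4) η 0 = 0 := by
  have h0 : (0 : G × F) ∈ ball (0 : G × F) (R / 8) := mem_ball_self (by have := h.pos; positivity)
  have h1 := h.mem 0 h0
  refine h.inj h1.1 (mem_ball_self (by have := h.pos; positivity)) ?_
  rw [h1.2, h.k0]

theorem KI.inorm (h : KI R η) (u : G × F) (hu : u ∈ ball (0 : G × F) (R / 8)) :
    ‖iot (R / 4) η u‖ ≤ 2 * ‖u‖ := by
  have h0 : (0 : G × F) ∈ ball (0 : G × F) (R / 8) := mem_ball_self (by have := h.pos; positivity)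
  have := h.ilip u 0 hu h0
  rwa [h.izero, sub_zero, sub_zero] at this

theorem KI.isnd (h : KI R η) (u : G × F) (hu : u ∈ ball (0 : G × F) (R / 8)) :
    (iot (R / 4) η u).2 = u.2 := by
  have h1 := (h.mem u hu).2
  have := congrArg Prod.snd h1
  simpa [kap] using this

theorem KI.ikap (h : KI R η) (z : G × F) (hz : z ∈ ball (0 : G × F) (R / 4))
    (hk : kap η z ∈ ball (0 : G × F) (R / 8)) : iot (R / 4) η (kap η z) = z := by
  have h1 := h.mem _ hk
  exact h.inj h1.1 hz h1.2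

theorem KI.knorm (h : KI R η) (z : G × F) (hz : z ∈ ball (0 : G × F) (R / 4)) :
    ‖kap η z‖ ≤ 3 / 2 * ‖z‖ := by
  have h0 : (0 : G × F) ∈ ball (0 : G × F) (R / 4) := mem_ball_self (by have := h.pos; positivity)
  have h1 := h.lip z hz 0 h0
  rw [h.z0, sub_zero, sub_zero] at h1
  have h2 : ‖z.1‖ ≤ ‖z‖ := norm_fst_le z
  have h3 : ‖z.2‖ ≤ ‖z‖ := norm_snd_le z
  have h4 := norm_nonneg z
  have h5 : ‖z.1 + η z‖ ≤ ‖z.1‖ + ‖η z‖ := norm_add_le _ _
  unfold kap
  rw [Prod.norm_mk]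
  refine max_le ?_ ?_ <;> linarith

end

end SkpM

open SkpM in
theorem skpP : S_Inv → S_Cau → S_Tr → S_BSq → S_Slo → S_Skp := by
  intro hInv hCau hTr hBSq hSlo G F _ _ _ _ _ _ R C c f a b η hB hP
  have hR := hB.R_pos
  have hC := hB.C_pos
  have hc := hB.c_pos
  have hsm := hB.small
  have hcc : c ^ 2 ≤ 1 := by
    have := hB.c_le
    nlinarith
  have hK : ∀ n, KI R (η n) := fun n =>
    ki hInv hCau R C c (η n) hR hC hc hB.c_le hB.small (hP n).1
  have hS := hSlo G F R C c f a b η hB hP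
  refine ⟨fun n u => (f n (iot (R / 4) (η n) u)).2, fun R' hR' hR8 => ?_⟩
  have hsub : ball (0 : G × F) R' ⊆ ball (0 : G × F) (R / 8) := ball_subset_ball hR8
  have key : Skw R' (4 * C) c (fun n x => PP (f n) (η (n + 1)) (x, 0))
      (fun n u => (f n (iot (R / 4) (η n) u)).2) b := by
    refine ⟨hR', by positivity, hc, hB.c_le, ?_, ?_, ?_, ?_, ?_, ?_, hB.bup, hB.blow, hB.bun⟩
    · nlinarith [mul_le_mul_of_nonneg_left hR8 hC.le]
    · intro n
      exact (hS.diff n).mono (ball_subset_ball (by linarith))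
    · intro n x hx
      exact hS.contr n x (ball_subset_ball (by linarith) hx)
    · intro n
      have hi : DifferentiableOn ℂ (iot (R / 4) (η n)) (ball (0 : G × F) R') := (hK n).idiff.mono hsub
      have hf : DifferentiableOn ℂ (fun u => f n (iot (R / 4) (η n) u)) (ball (0 : G × F) R') := by
        refine (hB.diff n).comp hi ?_
        intro u hu
        exact ball_subset_ball (by linarith) ((hK n).mem u (hsub hu)).1
      exact hf.snd
    · intro n
      show (f n (iot (R / 4) (η n) 0)).2 = 0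
      rw [(hK n).izero, hB.zero n]
      rfl
    · intro n z hz w hw
      have hz8 := hsub hz
      have hw8 := hsub hw
      have hz1 := ball_subset_ball (show R / 4 ≤ R by linarith) ((hK n).mem z hz8).1
      have hw1 := ball_subset_ball (show R / 4 ≤ R by linarith) ((hK n).mem w hw8).1
      have hq := hB.quad n _ hz1 _ hw1
      have h2 := norm_snd_le ((f n (iot (R / 4) (η n) z) -
        (a n (iot (R / 4) (η n) z).1, b n (iot (R / 4) (η n) z).2)) -
        (f n (iot (R / 4) (η n) w) - (a n (iot (R / 4) (η n) w).1, b n (iot (R / 4) (η n) w).2)))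
      have e : ((f n (iot (R / 4) (η n) z) -
        (a n (iot (R / 4) (η n) z).1, b n (iot (R / 4) (η n) z).2)) -
        (f n (iot (R / 4) (η n) w) - (a n (iot (R / 4) (η n) w).1, b n (iot (R / 4) (η n) w).2))).2 =
        ((f n (iot (R / 4) (η n) z)).2 - b n z.2) - ((f n (iot (R / 4) (η n) w)).2 - b n w.2) := by
        simp only [Prod.snd_sub, (hK n).isnd z hz8, (hK n).isnd w hw8]
      rw [e] at h2
      have i1 := (hK n).inorm z hz8
      have i2 := (hK n).inorm w hw8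
      have i3 := (hK n).ilip z w hz8 hw8
      calc ‖((f n (iot (R / 4) (η n) z)).2 - b n z.2) - ((f n (iot (R / 4) (η n) w)).2 - b n w.2)‖
          ≤ C * (‖iot (R / 4) (η n) z‖ + ‖iot (R / 4) (η n) w‖) *
            ‖iot (R / 4) (η n) z - iot (R / 4) (η n) w‖ := h2.trans hq
        _ ≤ C * (2 * ‖z‖ + 2 * ‖w‖) * (2 * ‖z - w‖) := by gcongr
        _ = 4 * C * (‖z‖ + ‖w‖) * ‖z - w‖ := by ring
  refine ⟨key, ?_⟩
  intro H _ _ hBas
  refine hTr (G × F) (G × F) H R (1 / 4) C c f (fun n => (a n).prodMap (b n)) 1 (R / 4) (R' / 2) R'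
    (fun n => kap (η n)) (sk (fun n x => PP (f n) (η (n + 1)) (x, 0))
      (fun n u => (f n (iot (R / 4) (η n) u)).2)) (hBSq G F R C c f a b hB) one_pos (by positivity)
    (by linarith) (by linarith) (fun n => (hK n).kdiff) (fun n => (hK n).inj) ?_ ?_ ?_ ?_ hBas
  · intro n z hz w hw
    have := (hK n).dlow z hz w
    rw [hw, norm_zero] at this
    have h0 : ‖w‖ = 0 := le_antisymm (by linarith) (norm_nonneg _)
    exact norm_eq_zero.1 h0
  · intro n z hz
    rw [mem_ball_zero_iff] at hz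
    have hz4 : z ∈ ball (0 : G × F) (R / 4) := by
      rw [mem_ball_zero_iff]
      linarith
    have := (hK n).knorm z hz4
    rw [mem_ball_zero_iff]
    linarith [norm_nonneg z]
  · intro n w hw
    refine ⟨?_, ⟨_, ((hK n).mem w (hsub hw)).1, ((hK n).mem w (hsub hw)).2⟩⟩
    have hw0 : (0 : G × F) ∈ ball (0 : G × F) R' := mem_ball_self hR'
    have hwn : ‖w‖ < R' := mem_ball_zero_iff.1 hw
    have hwp := norm_nonneg w
    have h1 : ‖w.1‖ ≤ ‖w‖ := norm_fst_le w
    have h2 : ‖w.2‖ ≤ ‖w‖ := norm_snd_le w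
    have hg := key.gcontr n w.1 (by rw [mem_ball_zero_iff]; exact lt_of_le_of_lt h1 hwn)
    have hh := key.hquad n w hw 0 hw0
    have h0 := key.h0 n
    simp only [Prod.snd_zero, map_zero, sub_zero, norm_zero, add_zero] at hh
    rw [h0, sub_zero] at hh
    have hb : ‖b n w.2‖ ≤ 1 / 8 * ‖w‖ := by
      calc ‖b n w.2‖ ≤ ‖b n‖ * ‖w.2‖ := (b n).le_opNorm _
        _ ≤ 1 / 8 * ‖w‖ := by
          have := hB.bup n
          gcongr
    have hCR : 4 * C * R' ≤ 1 / 8 := by
      nlinarith [mul_le_mul_of_nonneg_left hR8 hC.le]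
    have hh2 : ‖(f n (iot (R / 4) (η n) w)).2‖ ≤ 1 / 8 * ‖w‖ + 4 * C * ‖w‖ * ‖w‖ := by
      calc ‖(f n (iot (R / 4) (η n) w)).2‖
          = ‖((f n (iot (R / 4) (η n) w)).2 - b n w.2) + b n w.2‖ := by rw [sub_add_cancel]
        _ ≤ ‖(f n (iot (R / 4) (η n) w)).2 - b n w.2‖ + ‖b n w.2‖ := norm_add_le _ _
        _ ≤ 4 * C * ‖w‖ * ‖w‖ + 1 / 8 * ‖w‖ := add_le_add hh hb
        _ = _ := by ring
    have hh3 : 4 * C * ‖w‖ * ‖w‖ ≤ 1 / 8 * ‖w‖ := by
      have : 4 * C * ‖w‖ ≤ 1 / 8 := by nlinarith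
      exact mul_le_mul_of_nonneg_right this hwp
    rw [mem_ball_zero_iff]
    unfold sk
    rw [Prod.norm_mk]
    refine max_lt ?_ ?_
    · exact lt_of_le_of_lt hg (by linarith)
    · exact lt_of_le_of_lt hh2 (by linarith)
  · intro n z hz hk
    have hz2 : z ∈ ball (0 : G × F) (R / 2) := ball_subset_ball (by linarith) hz
    have hι := (hK n).ikap z hz (hsub hk)
    have hpb := ((hP n).2 z hz2).2
    have ho : orb f (1 * n) 1 z = f n z := by
      simp [orb]
    rw [ho]
    show (PP (f n) (η (n + 1)) ((kap (η n) z).1, 0), (f n (iot (R / 4) (η n) (kap (η n) z))).2) =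
      kap (η (n + 1)) (f n z)
    rw [hι]
    have : PP (f n) (η (n + 1)) ((kap (η n) z).1, 0) = PP (f n) (η (n + 1)) z := hpb
    rw [this]
    rfl

end Pool.Agent.Lib.BedF
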