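import Pool.Agent.Lib.BedF.SpecA

/-!
# Slo: the slow quotient (MP_6f050a_an, Theorem F)
-/

set_option autoImplicit false

open scoped Topology
open Set Filter Metric

namespace Pool.Agent.Lib.BedF

namespace SloM

section
variable {G F : Type} [NormedAddCommGroup G] [NormedSpace ℂ G] [NormedAddCommGroup F] [NormedSpace ℂ F]
variable {R C c : ℝ} {f : ℕ → G × F → G × F} {a : ℕ → G →L[ℂ] G} {b : ℕ → F →L[ℂ] F}

/-- `C R ≤ 1 / 2 ^ 12`. -/
theorem CR_le (h : Blk R C c f a b) : 2 ^ 12 * (C * R) ≤ 1 := by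
  have h1 := h.small
  have h2 := h.c_le
  have h3 := h.c_pos
  nlinarith

/-- `K R ≤ c / 2 ^ 8`. -/
theorem KR_le (h : Blk R C c f a b) : 2 ^ 8 * (16 * C / c * R) ≤ c := by
  have h1 := h.small
  have h3 := h.c_pos
  have h4 : 2 ^ 8 * (16 * C / c * R) = (2 ^ 12 * C * R) / c := by ring
  rw [h4, div_le_iff₀ h3]
  nlinarith

/-- The linear part. -/
theorem lin_le (h : Blk R C c f a b) (n : ℕ) (z : G × F) : ‖((a n z.1, b n z.2) : G × F)‖ ≤ 1 / 8 * ‖z‖ := by
  rw [Prod.norm_def]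
  refine max_le ?_ ?_
  · have h1 := h.aup n z.1
    have h2 := norm_fst_le z
    change ‖a n z.1‖ ≤ _
    linarith
  · have h1 := (b n).le_opNorm z.2
    have h2 := norm_snd_le z
    have h3 := h.bup n
    have h4 : ‖b n‖ * ‖z.2‖ ≤ 1 / 8 * ‖z‖ := mul_le_mul h3 h2 (norm_nonneg _) (by norm_num)
    change ‖b n z.2‖ ≤ _
    linarith

/-- `f n` has the Lipschitz constant `1 / 4`. -/
theorem lip4 (h : Blk R C c f a b) (n : ℕ) {z w : G × F} (hz : z ∈ ball (0 : G × F) R)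
    (hw : w ∈ ball (0 : G × F) R) : ‖f n z - f n w‖ ≤ 1 / 4 * ‖z - w‖ := by
  have hq := h.quad n z hz w hw
  have hz0 : ‖z‖ < R := mem_ball_zero_iff.1 hz
  have hw0 : ‖w‖ < R := mem_ball_zero_iff.1 hw
  have hL := lin_le h n (z - w)
  have hCR := CR_le h
  have hC := h.C_pos
  have e : f n z - f n w = ((f n z - (a n z.1, b n z.2)) - (f n w - (a n w.1, b n w.2))) +
      ((a n (z - w).1, b n (z - w).2) : G × F) := by
    ext
    · simp only [Prod.fst_sub, Prod.fst_add, map_sub]; abel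
    · simp only [Prod.snd_sub, Prod.snd_add, map_sub]; abel
  have h1 : C * (‖z‖ + ‖w‖) * ‖z - w‖ ≤ (2 * (C * R)) * ‖z - w‖ := by
    apply mul_le_mul_of_nonneg_right _ (norm_nonneg _)
    nlinarith
  have h2 : (2 * (C * R)) * ‖z - w‖ ≤ 1 / 8 * ‖z - w‖ := by
    apply mul_le_mul_of_nonneg_right _ (norm_nonneg _)
    linarith
  calc ‖f n z - f n w‖ ≤ C * (‖z‖ + ‖w‖) * ‖z - w‖ + 1 / 8 * ‖z - w‖ := by
        rw [e]; exact (norm_add_le _ _).trans (add_le_add hq hL)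
    _ ≤ 1 / 4 * ‖z - w‖ := by linarith

/-- `‖f n z‖ ≤ ‖z‖ / 4`. -/
theorem contr4 (h : Blk R C c f a b) (n : ℕ) {z : G × F} (hz : z ∈ ball (0 : G × F) R) :
    ‖f n z‖ ≤ 1 / 4 * ‖z‖ := by
  have h1 := lip4 h n hz (mem_ball_self h.R_pos)
  rwa [h.zero, sub_zero, sub_zero] at h1

omit [NormedSpace ℂ G] [NormedSpace ℂ F] in
theorem norm_x0 (x : G) : ‖((x, 0) : G × F)‖ = ‖x‖ := by
  rw [Prod.norm_def]; simp

omit [NormedSpace ℂ G] [NormedSpace ℂ F] in
theorem norm_x0y0 (x y : G) : ‖((x, 0) : G × F) - (y, 0)‖ = ‖x - y‖ := by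
  rw [Prod.norm_def]; simp

omit [NormedSpace ℂ G] [NormedSpace ℂ F] in
theorem x0_mem {r : ℝ} {x : G} (hx : x ∈ ball (0 : G) r) : ((x, 0) : G × F) ∈ ball (0 : G × F) r := by
  rw [mem_ball_zero_iff, norm_x0]; exact mem_ball_zero_iff.1 hx

end

/-- The main estimate. -/
theorem quadg (hCau : S_Cau) (G F : Type) [NormedAddCommGroup G] [NormedSpace ℂ G] [FiniteDimensional ℂ G]
    [NormedAddCommGroup F] [NormedSpace ℂ F] [FiniteDimensional ℂ F] (R C c : ℝ) (f : ℕ → G × F → G × F)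
    (a : ℕ → G →L[ℂ] G) (b : ℕ → F →L[ℂ] F) (h : Blk R C c f a b) (η : G × F → G) (hη : Cls R C c η) (n : ℕ)
    (x : G) (hx : x ∈ ball (0 : G) (R / 4)) (y : G) (hy : y ∈ ball (0 : G) (R / 4)) :
    ‖(PP (f n) η (x, 0) - a n x) - (PP (f n) η (y, 0) - a n y)‖ ≤ 16 * C / c * (‖x‖ + ‖y‖) * ‖x - y‖ := by
  have : CompleteSpace G := FiniteDimensional.complete ℂ G
  have hR := h.R_pos
  have hC := h.C_pos
  have hc := h.c_pos
  have hK : 0 < 16 * C / c := by positivity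
  have hx0 : ‖x‖ < R / 4 := mem_ball_zero_iff.1 hx
  have hy0 : ‖y‖ < R / 4 := mem_ball_zero_iff.1 hy
  have hxR : ((x, 0) : G × F) ∈ ball (0 : G × F) R := x0_mem (mem_ball_zero_iff.2 (by linarith))
  have hyR : ((y, 0) : G × F) ∈ ball (0 : G × F) R := x0_mem (mem_ball_zero_iff.2 (by linarith))
  have hq := h.quad n _ hxR _ hyR
  rw [norm_x0, norm_x0, norm_x0y0] at hq
  have h1 : ‖((f n (x, 0)).1 - a n x) - ((f n (y, 0)).1 - a n y)‖ ≤ C * (‖x‖ + ‖y‖) * ‖x - y‖ :=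
    (norm_fst_le ((f n (x, 0) - (a n x, b n 0)) - (f n (y, 0) - (a n y, b n 0)))).trans hq
  have h2 : ‖η (f n (x, 0)) - η (f n (y, 0))‖ ≤ 16 * C / c / 2 * (‖x‖ + ‖y‖) * ‖x - y‖ := by
    rcases eq_or_ne x y with hxy | hxy
    · subst hxy
      simp
    · have hpos : 0 < ‖x‖ + ‖y‖ := by
        rcases eq_or_ne x 0 with h0 | h0
        · have : y ≠ 0 := fun h' => hxy (by rw [h0, h'])
          have := norm_pos_iff.2 this
          linarith [norm_nonneg x]
        · have := norm_pos_iff.2 h0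
          linarith [norm_nonneg y]
      have hfx := contr4 h n hxR
      have hfy := contr4 h n hyR
      rw [norm_x0] at hfx hfy
      have hl := lip4 h n hxR hyR
      rw [norm_x0y0] at hl
      have hx1 := norm_nonneg x
      have hy1 := norm_nonneg y
      have hcau := hCau G F G (R / 2) (16 * C / c) η hK.le hη.1 hη.2 ((‖x‖ + ‖y‖) / 2) (by linarith)
        (f n (x, 0)) (mem_ball_zero_iff.2 (by linarith)) (f n (y, 0)) (mem_ball_zero_iff.2 (by linarith))
      refine hcau.trans ?_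
      have h3 : 0 ≤ 4 * (16 * C / c) * ((‖x‖ + ‖y‖) / 2) := by positivity
      calc 4 * (16 * C / c) * ((‖x‖ + ‖y‖) / 2) * ‖f n (x, 0) - f n (y, 0)‖
          ≤ 4 * (16 * C / c) * ((‖x‖ + ‖y‖) / 2) * (1 / 4 * ‖x - y‖) := mul_le_mul_of_nonneg_left hl h3
        _ = 16 * C / c / 2 * (‖x‖ + ‖y‖) * ‖x - y‖ := by ring
  have e : (PP (f n) η (x, 0) - a n x) - (PP (f n) η (y, 0) - a n y) =
      (((f n (x, 0)).1 - a n x) - ((f n (y, 0)).1 - a n y)) + (η (f n (x, 0)) - η (f n (y, 0))) := by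
    unfold PP; abel
  have hC2 : C ≤ 16 * C / c / 2 := by
    rw [div_div, le_div_iff₀ (by positivity)]
    have := h.c_le
    nlinarith
  have h4 : 0 ≤ (‖x‖ + ‖y‖) * ‖x - y‖ := by positivity
  rw [e]
  calc ‖(((f n (x, 0)).1 - a n x) - ((f n (y, 0)).1 - a n y)) + (η (f n (x, 0)) - η (f n (y, 0)))‖
      ≤ C * (‖x‖ + ‖y‖) * ‖x - y‖ + 16 * C / c / 2 * (‖x‖ + ‖y‖) * ‖x - y‖ :=
        (norm_add_le _ _).trans (add_le_add h1 h2)
    _ ≤ 16 * C / c * (‖x‖ + ‖y‖) * ‖x - y‖ := by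
        have := mul_le_mul_of_nonneg_right hC2 h4
        nlinarith

end SloM

open SloM in
/-- **Slo.** The slow quotient. -/
theorem sloP : S_Inv → S_Cau → S_Slo := by
  intro hInv hCau G F _ _ _ _ _ _ R C c f a b η h hη
  have hR := h.R_pos
  have hC := h.C_pos
  have hc := h.c_pos
  have hK : 0 < 16 * C / c := by positivity
  have hKR := KR_le h
  have hQ : ∀ n, ∀ x ∈ ball (0 : G) (R / 4), ∀ y ∈ ball (0 : G) (R / 4),
      ‖(PP (f n) (η (n + 1)) (x, 0) - a n x) - (PP (f n) (η (n + 1)) (y, 0) - a n y)‖ ≤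
        16 * C / c * (‖x‖ + ‖y‖) * ‖x - y‖ := fun n x hx y hy =>
    quadg hCau G F R C c f a b h (η (n + 1)) (hη (n + 1)).1 n x hx y hy
  have hdiff : ∀ n, DifferentiableOn ℂ (fun x => PP (f n) (η (n + 1)) (x, 0)) (ball (0 : G) (R / 4)) := by
    intro n
    have hι : DifferentiableOn ℂ (fun x : G => ((x, 0) : G × F)) (ball (0 : G) (R / 4)) :=
      (differentiable_id.prodMk (differentiable_const _)).differentiableOn
    have hfι : DifferentiableOn ℂ (fun x : G => f n (x, 0)) (ball (0 : G) (R / 4)) :=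
      (h.diff n).comp hι (fun x hx => by
        have hx0 : ‖x‖ < R / 4 := mem_ball_zero_iff.1 hx
        exact x0_mem (mem_ball_zero_iff.2 (by linarith)))
    have hηf : DifferentiableOn ℂ (fun x : G => η (n + 1) (f n (x, 0))) (ball (0 : G) (R / 4)) :=
      (hη (n + 1)).1.1.comp hfι (fun x hx => by
        have hx0 : ‖x‖ < R / 4 := mem_ball_zero_iff.1 hx
        have h1 := contr4 h n (z := (x, 0)) (x0_mem (mem_ball_zero_iff.2 (by linarith)))
        rw [norm_x0] at h1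
        exact mem_ball_zero_iff.2 (by linarith [norm_nonneg x]))
    have hf1 : DifferentiableOn ℂ (fun x : G => (f n (x, 0)).1) (ball (0 : G) (R / 4)) := hfι.fst
    exact hf1.add hηf
  have hLip : ∀ n, ∀ x ∈ ball (0 : G) (R / 4), ∀ y ∈ ball (0 : G) (R / 4),
      ‖(PP (f n) (η (n + 1)) (x, 0) - a n x) - (PP (f n) (η (n + 1)) (y, 0) - a n y)‖ ≤
        16 * C / c * (R / 2) * ‖x - y‖ := by
    intro n x hx y hy
    refine (hQ n x hx y hy).trans ?_
    have hx0 : ‖x‖ < R / 4 := mem_ball_zero_iff.1 hx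
    have hy0 : ‖y‖ < R / 4 := mem_ball_zero_iff.1 hy
    have h1 : 16 * C / c * (‖x‖ + ‖y‖) ≤ 16 * C / c * (R / 2) :=
      mul_le_mul_of_nonneg_left (by linarith) hK.le
    exact mul_le_mul_of_nonneg_right h1 (norm_nonneg _)
  have hθ : 16 * C / c * (R / 2) < c := by nlinarith
  have hI := fun n => hInv G (a n) c (16 * C / c * (R / 2)) (R / 4) (fun x => PP (f n) (η (n + 1)) (x, 0))
    (by positivity) hθ (h.alow n) (hdiff n) (hLip n)
  have h00 : ((0, 0) : G × F) = 0 := rfl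
  have hη0 : ∀ n, η n 0 = 0 := by
    intro n
    have h1 := (hη n).1.2 0 (mem_ball_self (by linarith))
    simpa using h1
  have hg0 : ∀ n, PP (f n) (η (n + 1)) ((0, 0) : G × F) = 0 := by
    intro n
    unfold PP
    rw [h00, h.zero, hη0]
    simp
  refine ⟨by linarith, by norm_num, by norm_num, hK, hc, hdiff, ?_, ?_, ?_, hQ, ?_, h.alow⟩
  · intro n x hx y hy hxy
    have h1 := (hI n).1 x hx y hy
    have h2 : PP (f n) (η (n + 1)) (x, 0) - PP (f n) (η (n + 1)) (y, 0) = 0 := sub_eq_zero.2 hxy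
    rw [h2, norm_zero] at h1
    have h3 : ‖x - y‖ = 0 := by
      have h4 := norm_nonneg (x - y)
      nlinarith
    exact sub_eq_zero.1 (norm_eq_zero.1 h3)
  · intro n x hx w hw
    have h1 := (hI n).2.1 x hx w
    rw [hw, norm_zero] at h1
    have h3 : ‖w‖ = 0 := by
      have h4 := norm_nonneg w
      nlinarith
    exact norm_eq_zero.1 h3
  · intro n x hx
    have hx0 : ‖x‖ < R / 4 := mem_ball_zero_iff.1 hx
    have h1 := hQ n x hx 0 (mem_ball_self (by linarith))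
    rw [hg0, map_zero, sub_zero, sub_zero, norm_zero, add_zero, sub_zero] at h1
    have h2 := h.aup n x
    have e : PP (f n) (η (n + 1)) (x, 0) = (PP (f n) (η (n + 1)) (x, 0) - a n x) + a n x := by abel
    have h3 : 16 * C / c * ‖x‖ * ‖x‖ ≤ 1 / 8 * ‖x‖ := by
      apply mul_le_mul_of_nonneg_right _ (norm_nonneg _)
      have h5 : 16 * C / c * ‖x‖ ≤ 16 * C / c * R := mul_le_mul_of_nonneg_left (by linarith) hK.le
      have := h.c_le
      linarith
    change ‖PP (f n) (η (n + 1)) (x, 0)‖ ≤ _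
    rw [e]
    calc ‖(PP (f n) (η (n + 1)) (x, 0) - a n x) + a n x‖ ≤ 16 * C / c * ‖x‖ * ‖x‖ + 1 / 8 * ‖x‖ :=
          (norm_add_le _ _).trans (add_le_add h1 h2)
      _ ≤ 1 / 4 * ‖x‖ := by linarith
  · intro n x
    have h2 := h.aup n x
    linarith [norm_nonneg x]

end Pool.Agent.Lib.BedF
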