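import Pool.Agent.Lib.BedF.SpecB
import Pool.Agent.Lib.Bed.Str

/-!
# Theorem F (MP_6f050a_an): the final statement
-/

set_option autoImplicit false

open scoped Manifold ContDiff Topology
open Set Filter Metric

namespace Pool.Agent.Lib.BedF

/-- Theorem F. -/
def BedfordF : Prop := ∀ (E : Type) [NormedAddCommGroup E] [NormedSpace ℂ E] [FiniteDimensional ℂ E] (X : Type)
  [MetricSpace X] [ChartedSpace E X] [IsManifold 𝓘(ℂ, E) 1 X] (nrm : (x : X) → TangentSpace 𝓘(ℂ, E) x → ℝ) (f : X ≃ X)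
  (K : Set X) (Es Eu : (x : X) → Submodule ℂ (TangentSpace 𝓘(ℂ, E) x)) (C lam : ℝ), Bed.IsFinsler nrm →
  Bed.IsHyp nrm f K Es Eu C lam → ∀ p ∈ K, ∀ (r : ℕ) (U W : ℕ → Submodule ℂ (TangentSpace 𝓘(ℂ, E) p)),
  FC (Bed.nit nrm f p) r U W (Es p) → Bed.StabCk E (Module.finrank ℂ (Es p)) f p

/-- **Fin.** PROOF (compare `BedG/Fin.lean`, `sFinG`).  `Bed.SetupC2` gives `N`, `k`, `A`, `F`, `j`, .. with `Bed.SeqD k ..`, `Bed.BasinCk → Bed.StabCk` and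
`Bed.Cmp nrm f p (Es p) N k j Λ a₁ b₁`, `Λ = Bed.prodL A id`.  `S_FCt` with `V = T_p X`, `V' = Fin k → ℂ`, `N = Bed.nit nrm f p`, `N' n z = ‖Λ n z‖`, `i = r`, `q = N`,
`α = a₁`, `β = b₁`, `range j = Es p = U r` (`top`).  Then `SeqF`. -/
def S_Fin : Prop := Bed.SetupC2 → S_FCt → SeqF → BedfordF

end Pool.Agent.Lib.BedF
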