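import Pool.Agent.Lib.BedF.SpecB

/-!
# Theorem F (MP_6f050a_an), module Stp: the step
-/

set_option autoImplicit false

open scoped Topology
open Set Filter Metric

namespace Pool.Agent.Lib.BedF

namespace StpM

variable {G F : Type} [NormedAddCommGroup G] [NormedSpace ℂ G] [NormedAddCommGroup F] [NormedSpace ℂ F]

lemma af_eq (M : F →L[ℂ] F) (q : F) :
    af M q = (ContinuousLinearMap.inl ℂ F ℂ).comp (M.comp (ContinuousLinearMap.fst ℂ F ℂ)) +
      (ContinuousLinearMap.inl ℂ F ℂ).comp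
        (ContinuousLinearMap.smulRightL ℂ (F × ℂ) F (ContinuousLinearMap.snd ℂ F ℂ) q) +
      (ContinuousLinearMap.inr ℂ F ℂ).comp (ContinuousLinearMap.snd ℂ F ℂ) := by
  refine ContinuousLinearMap.ext fun z => ?_
  obtain ⟨x, s⟩ := z
  simp [af]

lemma af_diff {s : Set G} {M : G → (F →L[ℂ] F)} {q : G → F} (hM : DifferentiableOn ℂ M s)
    (hq : DifferentiableOn ℂ q s) : DifferentiableOn ℂ (fun x => af (M x) (q x)) s := by
  have h1 : DifferentiableOn ℂ (fun x => (ContinuousLinearMap.inl ℂ F ℂ).comp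
      ((M x).comp (ContinuousLinearMap.fst ℂ F ℂ))) s :=
    (differentiableOn_const _).clm_comp (hM.clm_comp (differentiableOn_const _))
  have h2 : DifferentiableOn ℂ (fun x => (ContinuousLinearMap.inl ℂ F ℂ).comp
      (ContinuousLinearMap.smulRightL ℂ (F × ℂ) F (ContinuousLinearMap.snd ℂ F ℂ) (q x))) s :=
    (differentiableOn_const _).clm_comp
      ((ContinuousLinearMap.differentiable _).comp_differentiableOn hq)
  have h3 := (h1.add h2).add (differentiableOn_const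
    ((ContinuousLinearMap.inr ℂ F ℂ).comp (ContinuousLinearMap.snd ℂ F ℂ)))
  refine h3.congr fun x _ => ?_
  rw [af_eq]
  rfl

lemma pr_af (M : F →L[ℂ] F) (q : F) : pr F * af M q = pr F := by
  refine ContinuousLinearMap.ext fun z => ?_
  obtain ⟨x, s⟩ := z
  simp [af, pr]

end StpM

open StpM in
/-- The step: a dominated bunched fast block splits off. -/
theorem stpP : S_Stp := by
  intro hHfb hSlo hSkp hPhi hCvr hGlA hGlB hAff hAsm
  intro G F _ _ _ _ _ _ R C c f a b hB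
  obtain ⟨η, hη⟩ := hHfb G F R C c f a b hB
  have hSq := hSlo G F R C c f a b η hB hη
  obtain ⟨h, hh⟩ := hSkp G F R C c f a b η hB hη
  generalize hg : (fun (n : ℕ) (x : G) => PP (f n) (η (n + 1)) (x, 0)) = g at hSq hh
  have hR := hB.R_pos
  have hC := hB.C_pos
  have hc := hB.c_pos
  have hSkw := (hh (R / 8) (by positivity) le_rfl).1
  obtain ⟨C', φ, M, q, hAf⟩ := hPhi G F (R / 8) (4 * C) c g h b hSkw
  have hC' := hAf.C_pos
  obtain ⟨r₀, hr₀, hr₀', hCov⟩ := hCvr G F (R / 8 / 2) C' φ (by positivity) hC' hAf.diff hAf.bd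
  obtain ⟨δ, hδ, hA⟩ := hAff F
  obtain ⟨R₁, hR₁, h16, hr, hδc, h14⟩ : ∃ R₁ : ℝ, 0 < R₁ ∧ R₁ ≤ R / 16 ∧ R₁ ≤ r₀ ∧
      C' * R₁ ≤ δ * c ∧ C' * R₁ ≤ 1 / 4 := by
    refine ⟨min (min (R / 16) r₀) (min (δ * c / C') (1 / 4 / C')), ?_, ?_, ?_, ?_, ?_⟩
    · positivity
    · exact (min_le_left _ _).trans (min_le_left _ _)
    · exact (min_le_left _ _).trans (min_le_right _ _)
    · have h1 : min (min (R / 16) r₀) (min (δ * c / C') (1 / 4 / C')) ≤ δ * c / C' :=
        (min_le_right _ _).trans (min_le_left _ _)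
      rw [le_div_iff₀ hC'] at h1
      linarith
    · have h1 : min (min (R / 16) r₀) (min (δ * c / C') (1 / 4 / C')) ≤ 1 / 4 / C' :=
        (min_le_right _ _).trans (min_le_right _ _)
      rw [le_div_iff₀ hC'] at h1
      linarith
  have hsub1 : ball (0 : G) R₁ ⊆ ball 0 (R / 4) := ball_subset_ball (by linarith)
  have hsub2 : ball (0 : G) (R₁ / 2) ⊆ ball 0 R₁ := ball_subset_ball (by linarith)
  have hsub3 : ball (0 : G) R₁ ⊆ ball 0 (R / 8 / 2) := ball_subset_ball (by linarith)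
  have hsub4 : ball (0 : G × F) (R₁ / 2) ⊆ ball 0 (R / 8 / 2) := ball_subset_ball (by linarith)
  have hsmall := hB.small
  have hSlw : Slw R₁ (16 * C / c) c g a := by
    refine ⟨hR₁, by positivity, hc, ?_, fun n => (hSq.diff n).mono hsub1, fun n => ?_,
      fun n x hx => hSq.contr n x (hsub1 hx),
      fun n x hx y hy => hSq.quad n x (hsub1 hx) y (hsub1 hy), hSq.low⟩
    · have e : 2 ^ 5 * (16 * C / c) * R₁ = 2 ^ 9 * (C * R₁) / c := by ring
      rw [e, div_le_iff₀ hc]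
      have h1 : C * R₁ ≤ C * (R / 16) := mul_le_mul_of_nonneg_left h16 hC.le
      have h2 : 0 < C * R := mul_pos hC hR
      nlinarith
    · have h1 := hSq.contr n 0 (mem_ball_self (by positivity))
      rw [norm_zero, mul_zero] at h1
      exact norm_le_zero_iff.1 h1
  have hr₁ : 0 < R₁ / 2 := by positivity
  haveI : CompleteSpace F := FiniteDimensional.complete ℂ F
  obtain ⟨S, V, u, Q, hTow⟩ := hGlA G ((F × ℂ) →L[ℂ] (F × ℂ)) (R₁ / 2) g
    (fun n x => af (M n x) (q n x)) (pr F) (fun m ε hε =>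
      hA G R₁ (16 * C / c) c C' g a b M q hSlw hC' hδc hB.blow
        (fun n => (hAf.diffM n).mono hsub3) (fun n => (hAf.diffq n).mono hsub3)
        (fun n x hx => hAf.bdM n x (hsub3 hx)) m ε hε)
  obtain ⟨σ, hσd, hσ⟩ := hGlB G ((F × ℂ) →L[ℂ] (F × ℂ)) (R₁ / 2) g
    (fun n x => af (M n x) (q n x)) (pr F) S V u Q
    (fun n => (hSlw.diff n).mono hsub2)
    (fun n x hx => by
      rw [mem_ball_zero_iff] at hx ⊢
      have h1 := hSlw.contr n x (hsub2 (mem_ball_zero_iff.2 hx))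
      have h2 := norm_nonneg x
      linarith)
    (fun n => af_diff ((hAf.diffM n).mono (hsub2.trans hsub3))
      ((hAf.diffq n).mono (hsub2.trans hsub3)))
    (fun n x _ => pr_af _ _) hTow
  refine ⟨R₁ / 2, 16 * C / c, g, ?_, ?_⟩
  · exact ⟨hr₁, hSq.D_pos, hSq.D_lt, hSq.C_pos, hSq.c_pos,
      fun n => (hSq.diff n).mono (hsub2.trans hsub1),
      fun n => (hSq.inj n).mono (hsub2.trans hsub1),
      fun n x hx => hSq.dinj n x (hsub1 (hsub2 hx)),
      fun n x hx => hSq.contr n x (hsub1 (hsub2 hx)),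
      fun n x hx y hy => hSq.quad n x (hsub1 (hsub2 hx)) y (hsub1 (hsub2 hy)),
      hSq.contrL, hSq.low⟩
  · intro H _ _ hBas
    refine (hh (R₁ / 2) hr₁ (by linarith)).2 (H × F) ?_
    refine hAsm G F H (R₁ / 2) C' g h φ M q σ hr₁
      (fun n x hx => hSlw.contr n x (hsub2 hx))
      (fun n z hz => hAf.comp n z (hsub4 hz)) ?_
      (fun n => (hAf.diff n).mono hsub4) (hCov _ hr₁ (by linarith)) hσd hσ hBas
    intro n x hx
    refine ⟨?_, hAf.bdq n x (hsub3 (hsub2 hx))⟩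
    have h1 := hAf.bdM n x (hsub3 (hsub2 hx))
    have h2 : ‖M n x‖ ≤ ‖M n x - b n‖ + ‖b n‖ := norm_le_norm_sub_add _ _
    have h3 := hB.bup n
    rw [mem_ball_zero_iff] at hx
    have h4 : C' * ‖x‖ ≤ C' * R₁ := mul_le_mul_of_nonneg_left (by linarith) hC'.le
    linarith

end Pool.Agent.Lib.BedF
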