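import Pool.Agent.Lib.BedF.SpecA
import Pool.Agent.Lib.Osgood

/-!
# MP_6f050a_an, project BedF, task Tay: entire approximation on smaller balls

The partial sums of the Taylor series along complex lines.
-/

set_option autoImplicit false

open scoped Topology
open Set Filter Metric

namespace Pool.Agent.Lib.BedF

namespace TayM

variable {G W : Type} [NormedAddCommGroup G] [NormedSpace ℂ G]
  [NormedAddCommGroup W] [NormedSpace ℂ W]

/-- The homogeneous part of degree `k` of the Taylor series at `0`. -/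
noncomputable def T (p : G → W) (k : ℕ) (x : G) : W :=
  ((k.factorial : ℕ) : ℂ)⁻¹ • iteratedFDeriv ℂ k p 0 (fun _ => x)

theorem T_diff (p : G → W) (k : ℕ) : Differentiable ℂ (T p k) := by
  unfold T
  have h1 : Differentiable ℂ (fun x : G => iteratedFDeriv ℂ k p 0 (fun _ : Fin k => x)) := by
    intro x
    have h2 : DifferentiableAt ℂ (fun m : Fin k → G => iteratedFDeriv ℂ k p 0 m)
        (fun _ => x) :=
      ((iteratedFDeriv ℂ k p 0).hasFDerivAt (fun _ => x)).differentiableAt
    have h3 : DifferentiableAt ℂ (fun x : G => (fun _ : Fin k => x)) x := by fun_prop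
    exact DifferentiableAt.comp x h2 h3
  exact h1.const_smul _

theorem T_line [FiniteDimensional ℂ G] [CompleteSpace W] {p : G → W} {ρ : ℝ} (hρ : 0 < ρ)
    (hp : DifferentiableOn ℂ p (ball 0 ρ)) (k : ℕ) (x : G) :
    ((k.factorial : ℕ) : ℂ)⁻¹ • iteratedDeriv k (fun s : ℂ => p (0 + s • x)) 0 = T p k x := by
  have h := Osgood.iteratedDeriv_line hp x k 0 (by
    rw [zero_smul, add_zero]
    exact mem_ball_self hρ)
  rw [zero_smul, add_zero] at h
  unfold T
  rw [h]

end TayM

open TayM in
theorem tayP : S_Tay := by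
  intro G W _ _ _ _ _ _ ρ ρ' ε p hρ' hρρ hε hp
  have hprop : ProperSpace G := FiniteDimensional.proper ℂ G
  obtain ⟨ρ₁, h1, h2⟩ := exists_between hρρ
  have hρ₁ : 0 < ρ₁ := hρ'.trans h1
  have hρ : 0 < ρ := hρ₁.trans h2
  -- the bound on the compact ball
  obtain ⟨B, hB⟩ := (isCompact_closedBall (0 : G) ρ₁).exists_bound_of_continuousOn
    (f := p) (hp.continuousOn.mono (closedBall_subset_ball h2))
  have hB0 : 0 ≤ B := (norm_nonneg _).trans (hB 0 (mem_closedBall_self hρ₁.le))
  set R : ℝ := ρ₁ / ρ' with hR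
  have hR1 : 1 < R := (one_lt_div hρ').2 h1
  have hR0 : 0 < R := one_pos.trans hR1
  set r : ℝ := 1 / R with hr
  have hr0 : 0 < r := one_div_pos.2 hR0
  have hr1 : r < 1 := by
    rw [hr, div_lt_one hR0]
    exact hR1
  have h1r : 0 < 1 - r := sub_pos.2 hr1
  obtain ⟨N, hN⟩ := exists_pow_lt_of_lt_one (show 0 < ε * (1 - r) / (B + 1) by positivity) hr1
  refine ⟨fun x => ∑ k ∈ Finset.range N, T p k x, ?_, ?_⟩
  · exact Differentiable.fun_sum fun k _ => T_diff p k
  · intro x hx
    have hxn : ‖x‖ < ρ' := by simpa using hx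
    have hmem : ∀ s : ℂ, ‖s‖ ≤ R → (0 : G) + s • x ∈ closedBall (0 : G) ρ₁ := by
      intro s hs
      rw [zero_add, mem_closedBall, dist_zero_right, norm_smul]
      calc ‖s‖ * ‖x‖ ≤ R * ρ' := mul_le_mul hs hxn.le (norm_nonneg _) hR0.le
        _ = ρ₁ := by rw [hR, div_mul_cancel₀ _ hρ'.ne']
    have hdiff : ∀ s : ℂ, ‖s‖ ≤ R → DifferentiableAt ℂ (fun s : ℂ => p (0 + s • x)) s := by
      intro s hs
      have h3 : (0 : G) + s • x ∈ ball (0 : G) ρ := closedBall_subset_ball h2 (hmem s hs)
      exact (Osgood.deriv_line x s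
        ((hp _ h3).differentiableAt (isOpen_ball.mem_nhds h3))).differentiableAt
    have hdc : DiffContOnCl ℂ (fun s : ℂ => p (0 + s • x)) (ball 0 R) := by
      refine ⟨fun s hs => (hdiff s ?_).differentiableWithinAt, fun s hs => ?_⟩
      · simpa using (mem_ball_zero_iff.1 hs).le
      · rw [closure_ball _ hR0.ne'] at hs
        exact (hdiff s (by simpa using hs)).continuousAt.continuousWithinAt
    have hbd : ∀ k, ‖T p k x‖ ≤ B * r ^ k := by
      intro k
      have h4 := Complex.norm_iteratedDeriv_le_of_forall_mem_sphere_norm_le k hR0 hdc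
        (C := B) (fun s hs => hB _ (hmem s (by
          rw [mem_sphere, dist_zero_right] at hs
          exact hs.le)))
      rw [← T_line hρ hp k x, norm_smul, norm_inv, Complex.norm_natCast]
      have hk : (0 : ℝ) < k.factorial := by exact_mod_cast k.factorial_pos
      rw [inv_mul_le_iff₀ hk]
      refine h4.trans (le_of_eq ?_)
      rw [hr, one_div, inv_pow]
      field_simp
    have hsum : HasSum (fun k => T p k x) (p x) := by
      have h5 := Complex.hasSum_taylorSeries_on_ball (f := fun s : ℂ => p (0 + s • x)) (c := 0)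
        (r := R) hdc.differentiableOn (z := 1) (by simpa using hR1)
      have e1 : p (0 + (1 : ℂ) • x) = p x := by
        rw [one_smul, zero_add]
      have e2 : (fun k => T p k x) = fun k : ℕ => ((k.factorial : ℕ) : ℂ)⁻¹ •
          ((1 : ℂ) - 0) ^ k • iteratedDeriv k (fun s : ℂ => p (0 + s • x)) 0 := by
        funext k
        rw [sub_zero, one_pow, one_smul, T_line hρ hp k x]
      rw [e1] at h5
      rw [e2]
      exact h5
    have h6 := norm_sub_le_of_geometric_bound_of_hasSum hr1 hbd hsum N
    refine h6.trans ?_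
    rw [div_le_iff₀ h1r]
    have h7 : r ^ N * (B + 1) < ε * (1 - r) := by
      rwa [lt_div_iff₀ (by linarith)] at hN
    nlinarith [pow_pos hr0 N]

end Pool.Agent.Lib.BedF
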