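import Pool.Agent.Lib.BedF.SpecA

/-!
# Transfer of the basin (MP_6f050a_an, Theorem F, statement `S_Tr`)
-/

set_option autoImplicit false

open scoped Topology
open Set Filter Metric

namespace Pool.Agent.Lib.BedF

namespace TrM

section
variable {E : Type}

theorem orb_add (f : ℕ → E → E) (m i : ℕ) (z : E) :
    ∀ j : ℕ, orb f m (i + j) z = orb f (m + i) j (orb f m i z)
  | 0 => rfl
  | j + 1 => by
    have h := orb_add f m i z j
    change f (m + (i + j)) (orb f m (i + j) z) = f (m + i + j) (orb f (m + i) j (orb f m i z))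
    rw [h, Nat.add_assoc]

end

section
variable {E : Type} [NormedAddCommGroup E] [NormedSpace ℂ E]
variable {r D C c : ℝ} {f : ℕ → E → E} {L : ℕ → E →L[ℂ] E}

theorem orb_norm (hS : Sq r D C c f L) (m : ℕ) (z : E) (hz : z ∈ ball (0 : E) r) :
    ∀ i : ℕ, orb f m i z ∈ ball (0 : E) r ∧ ‖orb f m i z‖ ≤ D ^ i * ‖z‖
  | 0 => by
    refine ⟨hz, ?_⟩
    change ‖z‖ ≤ D ^ 0 * ‖z‖
    simp
  | i + 1 => by
    obtain ⟨h1, h2⟩ := orb_norm hS m z hz i
    have h3 : ‖orb f m (i + 1) z‖ ≤ D * ‖orb f m i z‖ := hS.contr (m + i) _ h1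
    have h4 : D * ‖orb f m i z‖ ≤ ‖orb f m i z‖ := by
      nlinarith [norm_nonneg (orb f m i z), hS.D_lt]
    refine ⟨?_, ?_⟩
    · rw [mem_ball_zero_iff] at h1 ⊢
      linarith
    · calc ‖orb f m (i + 1) z‖ ≤ D * ‖orb f m i z‖ := h3
        _ ≤ D * (D ^ i * ‖z‖) := mul_le_mul_of_nonneg_left h2 hS.D_pos.le
        _ = D ^ (i + 1) * ‖z‖ := by ring

theorem orb_maps (hS : Sq r D C c f L) (m i : ℕ) : MapsTo (orb f m i) (ball (0 : E) r) (ball 0 r) :=
  fun z hz => (orb_norm hS m z hz i).1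

theorem orb_diff (hS : Sq r D C c f L) (m : ℕ) :
    ∀ i : ℕ, DifferentiableOn ℂ (orb f m i) (ball (0 : E) r)
  | 0 => differentiableOn_id
  | i + 1 => (hS.diff (m + i)).comp (orb_diff hS m i) (orb_maps hS m i)

theorem orb_inj (hS : Sq r D C c f L) (m : ℕ) : ∀ i : ℕ, InjOn (orb f m i) (ball (0 : E) r)
  | 0 => fun _ _ _ _ h => h
  | i + 1 => (hS.inj (m + i)).comp (orb_inj hS m i) (orb_maps hS m i)

theorem comp_imm {A B G : Type} [NormedAddCommGroup A] [NormedSpace ℂ A] [NormedAddCommGroup B]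
    [NormedSpace ℂ B] [NormedAddCommGroup G] [NormedSpace ℂ G] (φ : A → B) (ψ : B → G) (s t : ℝ)
    (hφ : DifferentiableOn ℂ φ (ball 0 s)) (hψ : DifferentiableOn ℂ ψ (ball 0 t)) (z : A)
    (hz : z ∈ ball (0 : A) s) (hm : φ z ∈ ball (0 : B) t)
    (h1 : ∀ w, fderiv ℂ φ z w = 0 → w = 0) (h2 : ∀ w, fderiv ℂ ψ (φ z) w = 0 → w = 0) :
    ∀ w, fderiv ℂ (ψ ∘ φ) z w = 0 → w = 0 := by
  intro w hw
  have d1 : DifferentiableAt ℂ φ z := hφ.differentiableAt (isOpen_ball.mem_nhds hz)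
  have d2 : DifferentiableAt ℂ ψ (φ z) := hψ.differentiableAt (isOpen_ball.mem_nhds hm)
  rw [fderiv_comp z d2 d1] at hw
  exact h1 w (h2 _ hw)

theorem orb_imm (hS : Sq r D C c f L) (m : ℕ) (z : E) (hz : z ∈ ball (0 : E) r) :
    ∀ i : ℕ, ∀ w, fderiv ℂ (orb f m i) z w = 0 → w = 0
  | 0 => by
    intro w hw
    have h : orb f m 0 = (id : E → E) := rfl
    rw [h, fderiv_id] at hw
    exact hw
  | i + 1 => comp_imm (orb f m i) (f (m + i)) r r (orb_diff hS m i) (hS.diff (m + i)) z hz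
      (orb_maps hS m i hz) (orb_imm hS m z hz i) (hS.dinj (m + i) _ (orb_maps hS m i hz))

end

end TrM

open TrM in
theorem trP : S_Tr := by
  intro E E' H _ _ _ _ _ _ r D C c f L q ρ ρ' r' κ F hS hq hρ' h1 h2 hκd hκi hκf hκm hF hc hB
  obtain ⟨Ψ, hΨd, hΨc, hΨi, hΨf, hΨs⟩ := hB
  obtain ⟨N, hN⟩ : ∃ N : ℕ, D ^ N * r ≤ ρ' := by
    obtain ⟨N, hN⟩ := exists_pow_lt_of_lt_one (div_pos hρ' hS.r_pos) hS.D_lt
    exact ⟨N, ((lt_div_iff₀ hS.r_pos).1 hN).le⟩
  have hle : ∀ n : ℕ, n ≤ q * n := fun n => Nat.le_mul_of_pos_left n hq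
  -- the orbits enter the small ball
  have hsm : ∀ m n : ℕ, m + N ≤ n → ∀ z ∈ ball (0 : E) r, orb f m (q * n - m) z ∈ ball (0 : E) ρ' := by
    intro m n hmn z hz
    have ha := (orb_norm hS m z hz (q * n - m)).2
    have hb : D ^ (q * n - m) ≤ D ^ N := by
      apply pow_le_pow_of_le_one hS.D_pos.le hS.D_lt.le
      have := hle n
      omega
    rw [mem_ball_zero_iff] at hz ⊢
    have hDN : 0 < D ^ (q * n - m) := pow_pos hS.D_pos _
    calc ‖orb f m (q * n - m) z‖ ≤ D ^ (q * n - m) * ‖z‖ := ha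
      _ < D ^ (q * n - m) * r := mul_lt_mul_of_pos_left hz hDN
      _ ≤ D ^ N * r := mul_le_mul_of_nonneg_right hb hS.r_pos.le
      _ ≤ ρ' := hN
  have hsub : ∀ z, z ∈ ball (0 : E) ρ' → z ∈ ball (0 : E) ρ := fun z hz => ball_subset_ball h1 hz
  have hsub2 : ∀ z, z ∈ ball (0 : E) ρ → z ∈ ball (0 : E) r := fun z hz => ball_subset_ball h2 hz
  have hstep : ∀ m n : ℕ, m + N ≤ n → ∀ z ∈ ball (0 : E) r,
      Ψ (n + 1) (κ (n + 1) (orb f m (q * (n + 1) - m) z)) = Ψ n (κ n (orb f m (q * n - m) z)) := by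
    intro m n hmn z hz
    have hy := hsm m n hmn z hz
    have hl := hle n
    have e1 : q * (n + 1) - m = (q * n - m) + q := by
      rw [Nat.mul_add, Nat.mul_one]
      omega
    have e2 : m + (q * n - m) = q * n := by omega
    rw [e1, orb_add, e2, ← hc n _ (hsub _ hy) (hκm n _ hy), hΨc n _ (hκm n _ hy)]
  have hall : ∀ m n : ℕ, m + N ≤ n → ∀ z ∈ ball (0 : E) r,
      Ψ n (κ n (orb f m (q * n - m) z)) = Ψ (m + N) (κ (m + N) (orb f m (q * (m + N) - m) z)) := by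
    intro m n hmn z hz
    induction n, hmn using Nat.le_induction with
    | base => rfl
    | succ n hn ih => rw [hstep m n hn z hz, ih]
  have hmap : ∀ m : ℕ, MapsTo (orb f m (q * (m + N) - m)) (ball (0 : E) r) (ball 0 ρ') :=
    fun m z hz => hsm m (m + N) le_rfl z hz
  have hmap1 : ∀ m : ℕ, MapsTo (orb f m (q * (m + N) - m)) (ball (0 : E) r) (ball 0 ρ) :=
    fun m z hz => hsub _ (hmap m hz)
  have hmap2 : ∀ m : ℕ, MapsTo (κ (m + N) ∘ orb f m (q * (m + N) - m)) (ball (0 : E) r) (ball 0 r') :=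
    fun m z hz => hκm _ _ (hmap m hz)
  have hd1 : ∀ m : ℕ, DifferentiableOn ℂ (κ (m + N) ∘ orb f m (q * (m + N) - m)) (ball (0 : E) r) :=
    fun m => (hκd (m + N)).comp (orb_diff hS m _) (hmap1 m)
  refine ⟨fun m z => Ψ (m + N) (κ (m + N) (orb f m (q * (m + N) - m) z)), ?_, ?_, ?_, ?_, ?_⟩
  · intro m
    exact (hΨd (m + N)).comp (hd1 m) (hmap2 m)
  · intro m z hz
    have hfz : f m z ∈ ball (0 : E) r := orb_maps hS m 1 hz
    have hl := hle (m + 1 + N)
    have e1 : q * (m + 1 + N) - m = 1 + (q * (m + 1 + N) - (m + 1)) := by omega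
    have e2 : orb f m 1 z = f m z := rfl
    have h := hall m (m + 1 + N) (by omega) z hz
    rw [e1, orb_add, e2] at h
    exact h
  · intro m
    exact (hΨi (m + N)).comp ((hκi (m + N)).comp (orb_inj hS m _) (hmap1 m)) (hmap2 m)
  · intro m z hz
    refine comp_imm (κ (m + N) ∘ orb f m (q * (m + N) - m)) (Ψ (m + N)) r r' (hd1 m) (hΨd (m + N)) z hz
      (hmap2 m hz) ?_ (hΨf (m + N) _ (hmap2 m hz))
    exact comp_imm (orb f m (q * (m + N) - m)) (κ (m + N)) r ρ (orb_diff hS m _) (hκd (m + N)) z hz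
      (hmap1 m hz) (orb_imm hS m z hz _) (hκf (m + N) _ (hmap1 m hz))
  · intro u
    obtain ⟨m, w, hw, rfl⟩ := hΨs u
    obtain ⟨-, z, hz, rfl⟩ := hF m w hw
    have key : ∀ i : ℕ, orb f (q * m) (q * i) z ∈ ball (0 : E) ρ ∧
        κ (m + i) (orb f (q * m) (q * i) z) ∈ ball (0 : E') r' ∧
        Ψ (m + i) (κ (m + i) (orb f (q * m) (q * i) z)) = Ψ m (κ m z) := by
      intro i
      induction i with
      | zero => exact ⟨hz, hw, rfl⟩
      | succ i ih =>
        obtain ⟨ha, hb, hd⟩ := ih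
        have e1 : orb f (q * m) (q * (i + 1)) z = orb f (q * (m + i)) q (orb f (q * m) (q * i) z) := by
          rw [Nat.mul_add q i 1, Nat.mul_one, orb_add, Nat.mul_add]
        have e2 := hc (m + i) _ ha hb
        have h3 := hF (m + i) _ hb
        have h4 := hΨc (m + i) _ hb
        rw [e2] at h3 h4
        rw [e1]
        refine ⟨?_, h3.1, h4.trans hd⟩
        have h5 := (orb_norm hS (q * (m + i)) _ (hsub2 _ ha) q).2
        have h6 : D ^ q ≤ 1 := pow_le_one₀ hS.D_pos.le hS.D_lt.le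
        rw [mem_ball_zero_iff] at ha ⊢
        have h7 : D ^ q * ‖orb f (q * m) (q * i) z‖ ≤ 1 * ‖orb f (q * m) (q * i) z‖ :=
          mul_le_mul_of_nonneg_right h6 (norm_nonneg _)
        linarith
    refine ⟨q * m, z, hsub2 _ hz, ?_⟩
    have h := hall (q * m) (m + (q * m + N)) (by omega) z (hsub2 _ hz)
    have e : q * (m + (q * m + N)) - q * m = q * (q * m + N) := by
      rw [Nat.mul_add q m]
      omega
    rw [e, (key (q * m + N)).2.2] at h
    exact h.symm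

end Pool.Agent.Lib.BedF
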