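import Pool.Agent.Lib.Bed.Main2
import Pool.Agent.Lib.BedF.SpecF
import Pool.Agent.Lib.BedF.Inv
import Pool.Agent.Lib.BedF.Tr
import Pool.Agent.Lib.BedF.Cau
import Pool.Agent.Lib.BedF.Tay
import Pool.Agent.Lib.BedF.BSq
import Pool.Agent.Lib.BedF.Pb
import Pool.Agent.Lib.BedF.Ct
import Pool.Agent.Lib.BedF.Hfb
import Pool.Agent.Lib.BedF.Slo
import Pool.Agent.Lib.BedF.Skp
import Pool.Agent.Lib.BedF.Fib
import Pool.Agent.Lib.BedF.Orb
import Pool.Agent.Lib.BedF.Dev
import Pool.Agent.Lib.BedF.Hol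
import Pool.Agent.Lib.BedF.Phi
import Pool.Agent.Lib.BedF.Cvr
import Pool.Agent.Lib.BedF.Run
import Pool.Agent.Lib.BedF.Fam
import Pool.Agent.Lib.BedF.Log
import Pool.Agent.Lib.BedF.GlA
import Pool.Agent.Lib.BedF.GlB
import Pool.Agent.Lib.BedF.Exu
import Pool.Agent.Lib.BedF.Aff
import Pool.Agent.Lib.BedF.Asm
import Pool.Agent.Lib.BedF.Stp
import Pool.Agent.Lib.BedF.Agl
import Pool.Agent.Lib.BedF.Frs
import Pool.Agent.Lib.BedF.Qln
import Pool.Agent.Lib.BedF.Qqd
import Pool.Agent.Lib.BedF.Qst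
import Pool.Agent.Lib.BedF.FCt
import Pool.Agent.Lib.BedF.Bse
import Pool.Agent.Lib.BedF.Seq
import Pool.Agent.Lib.BedF.Fin

/-!
# MP_6f050a_an, theorem F: assembly
-/

set_option autoImplicit false

namespace Pool.Agent.Lib.BedF

theorem skpA : S_Skp := skpP invP cauP trP (bsqP invP) (sloP invP cauP)

theorem hfbA : S_Hfb := hfbP cauP (pbP invP cauP) (ctP invP cauP)

theorem phiA : S_Phi := phiP fibP (devP fibP (orbP fibP)) (holP fibP (orbP fibP))

theorem famA : S_Fam := famP tayP (runP invP tayP)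

theorem stpC : StpC :=
  stpP hfbA (sloP invP cauP) skpA phiA (cvrP invP) glaP glbP (affP famA logP exuP) asmP

theorem seqF : SeqF := seqP trP stpC aglP frsP (qstP qlnP qqdP) fctP bseP

/-- Theorem F. -/
theorem bedfordF : BedfordF := finP Bed.setupC2 fctP seqF

end Pool.Agent.Lib.BedF
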