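import Pool.Agent.Lib.BedF.SpecB

/-!
# BedF, Qst: the `q`-step maps in the frames

See the docstring of `S_Qst` in `SpecB.lean`.
-/

set_option autoImplicit false

open scoped Topology
open Set Filter Metric

namespace Pool.Agent.Lib.BedF

namespace QstM

theorem symm_le {k k₁ k₂ : ℕ} {C₁ : ℝ} {A : ℕ → (Fin k → ℂ) →L[ℂ] (Fin k → ℂ)}
    {U W : Submodule ℂ (Fin k → ℂ)} {e : ℕ → Bed.V k₁ k₂ ≃L[ℂ] (Fin k → ℂ)}
    {a : ℕ → (Fin k₁ → ℂ) →L[ℂ] (Fin k₁ → ℂ)} {b : ℕ → (Fin k₂ → ℂ) →L[ℂ] (Fin k₂ → ℂ)}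
    (fr : Fra k k₁ k₂ C₁ A U W e a b) (n : ℕ) (u : Fin k → ℂ) : ‖(e n).symm u‖ ≤ C₁ * ‖u‖ := by
  have h := fr.low n ((e n).symm u)
  rwa [ContinuousLinearEquiv.apply_symm_apply] at h

end QstM

open QstM in
theorem qstP : S_Qln → S_Qqd → S_Qst := by
  intro hQln hQqd k k₁ k₂ r D C c C₁ f A U W e a b C₂ η hf fr hC₂ hη hdom hbun
  obtain ⟨q, c'', hq, hc'', hm⟩ := hQln k k₁ k₂ D c C₁ A U W e a b C₂ η hf.D_pos hf.D_lt hf.c_pos
    hf.contrL hf.low fr hC₂ hη hdom hbun
  obtain ⟨Cq, hCq, hqd⟩ := hQqd k r D C c f A hf q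
  have hC₁ : 0 < C₁ := lt_of_lt_of_le one_pos fr.one_le
  have hr := hf.r_pos
  set C' : ℝ := C₁ ^ 3 * Cq with hC'
  have hC'0 : 0 < C' := by positivity
  set c' : ℝ := min 1 c'' with hc'
  have hc'0 : 0 < c' := lt_min one_pos hc''
  have hc'1 : c' ≤ 1 := min_le_left _ _
  have hc'2 : c' ≤ c'' := min_le_right _ _
  set R : ℝ := min (r / C₁) (c' ^ 2 / (2 ^ 12 * C')) with hR
  have hR0 : 0 < R := lt_min (by positivity) (by positivity)
  have hR1 : C₁ * R ≤ r := by
    have h : R ≤ r / C₁ := min_le_left _ _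
    calc C₁ * R ≤ C₁ * (r / C₁) := mul_le_mul_of_nonneg_left h hC₁.le
      _ = r := by field_simp
  have hR2 : 2 ^ 12 * C' * R ≤ c' ^ 2 := by
    have h : R ≤ c' ^ 2 / (2 ^ 12 * C') := min_le_right _ _
    calc 2 ^ 12 * C' * R ≤ 2 ^ 12 * C' * (c' ^ 2 / (2 ^ 12 * C')) :=
          mul_le_mul_of_nonneg_left h (by positivity)
      _ = c' ^ 2 := by field_simp
  have hmaps : ∀ n, ∀ z ∈ ball (0 : Bed.V k₁ k₂) R, e n z ∈ ball (0 : Fin k → ℂ) r := by
    intro n z hz
    rw [mem_ball_zero_iff] at hz ⊢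
    calc ‖e n z‖ ≤ C₁ * ‖z‖ := fr.up n z
      _ < C₁ * R := mul_lt_mul_of_pos_left hz hC₁
      _ ≤ r := hR1
  refine ⟨q, R, C', c', fun n z => (e (q * (n + 1))).symm (orb f (q * n) q (e (q * n) z)), hq, hR1,
    ?_, ?_⟩
  · refine
      { R_pos := hR0
        C_pos := hC'0
        c_pos := hc'0
        c_le := hc'1
        small := hR2
        diff := ?_
        zero := ?_
        quad := ?_
        aup := fun n x => (hm (q * n)).1 x
        bup := fun n => (hm (q * n)).2.1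
        alow := fun n x => le_trans (mul_le_mul_of_nonneg_right hc'2 (norm_nonneg x))
          ((hm (q * n)).2.2.1 x)
        blow := fun n y => le_trans (mul_le_mul_of_nonneg_right hc'2 (norm_nonneg y))
          ((hm (q * n)).2.2.2.1 y)
        dom := fun n x => (hm (q * n)).2.2.2.2.1 x
        bun := fun n y => (hm (q * n)).2.2.2.2.2.1 y }
    · intro n
      have h1 : DifferentiableOn ℂ (fun z : Bed.V k₁ k₂ => orb f (q * n) q (e (q * n) z)) (ball 0 R) :=
        (hqd (q * n)).1.comp (e (q * n)).differentiable.differentiableOn (hmaps (q * n))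
      exact (e (q * (n + 1))).symm.differentiable.comp_differentiableOn h1
    · intro n
      change (e (q * (n + 1))).symm (orb f (q * n) q (e (q * n) 0)) = 0
      rw [map_zero, (hqd (q * n)).2.1, map_zero]
    · intro n z hz w hw
      have key : ∀ z : Bed.V k₁ k₂, (e (q * (n + 1))).symm (orb f (q * n) q (e (q * n) z)) -
          (pw a (q * n) q z.1, pw b (q * n) q z.2) =
          (e (q * (n + 1))).symm (orb f (q * n) q (e (q * n) z) - pw A (q * n) q (e (q * n) z)) := by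
        intro z
        have h := (hm (q * n)).2.2.2.2.2.2 z.1 z.2
        rw [map_sub, sub_right_inj, Prod.mk.eta] at *
        rw [h, ← Nat.mul_succ, ContinuousLinearEquiv.symm_apply_apply]
      change ‖((e (q * (n + 1))).symm (orb f (q * n) q (e (q * n) z)) -
        (pw a (q * n) q z.1, pw b (q * n) q z.2)) -
        ((e (q * (n + 1))).symm (orb f (q * n) q (e (q * n) w)) -
        (pw a (q * n) q w.1, pw b (q * n) q w.2))‖ ≤ C' * (‖z‖ + ‖w‖) * ‖z - w‖
      rw [key, key, ← map_sub]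
      have h1 := symm_le fr (q * (n + 1)) ((orb f (q * n) q (e (q * n) z) -
        pw A (q * n) q (e (q * n) z)) - (orb f (q * n) q (e (q * n) w) -
        pw A (q * n) q (e (q * n) w)))
      have h2 := ((hqd (q * n)).2.2 _ (hmaps (q * n) z hz)).2 _ (hmaps (q * n) w hw)
      have h3 : ‖e (q * n) z‖ + ‖e (q * n) w‖ ≤ C₁ * (‖z‖ + ‖w‖) := by
        have := fr.up (q * n) z
        have := fr.up (q * n) w
        linarith
      have h4 : ‖e (q * n) z - e (q * n) w‖ ≤ C₁ * ‖z - w‖ := by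
        rw [← map_sub]
        exact fr.up (q * n) (z - w)
      calc _ ≤ C₁ * ‖_‖ := h1
        _ ≤ C₁ * (Cq * (‖e (q * n) z‖ + ‖e (q * n) w‖) * ‖e (q * n) z - e (q * n) w‖) :=
          mul_le_mul_of_nonneg_left h2 hC₁.le
        _ ≤ C₁ * (Cq * (C₁ * (‖z‖ + ‖w‖)) * (C₁ * ‖z - w‖)) := by gcongr
        _ = C' * (‖z‖ + ‖w‖) * ‖z - w‖ := by rw [hC']; ring
  · intro n z _
    exact ContinuousLinearEquiv.apply_symm_apply _ _

end Pool.Agent.Lib.BedF
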