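import Pool.Agent.Lib.BedF.Defs

/-!
# Theorem F (MP_6f050a_an): general tools, the fibration (part A), the fibres (part B)

CONVENTION.  Statement `S_X` is proved in the file `BedF/X.lean` as `theorem xP : S_X` or `theorem xP : S_Y → S_Z → S_X` (the
statements after USES are explicit hypotheses in that order), auxiliary lemmas in the namespace `Pool.Agent.Lib.BedF.XM`.  All
proofs are complete in the docstrings.  `Bed.sWei` (uniform limits, `Pool.Agent.Lib.Bed.Wei`) and the Cauchy estimates of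
`Pool.Agent.Lib.Osgood` may be imported.
-/

set_option autoImplicit false

open scoped Topology
open Set Filter Metric

namespace Pool.Agent.Lib.BedF

/-! ## Tools -/

/-- **Tr.** Transfer of the basin.  PROOF (compare `BedG/QB.lean`, `S_QB`).  `orb f m i` maps `ball 0 r` into itself,
`‖orb f m i z‖ ≤ D^i ‖z‖` (here `f n 0 = 0` is not needed, only `contr`).  Let `D^N₀ r ≤ ρ'`.  For `n` with `m + N₀ ≤ n` (so
`m + N₀ ≤ q n`) put `Ψ^n_m z = Ψ n (κ n (orb f m (q n - m) z))`; the argument of `κ n` is in `ball 0 ρ'`, so the argument of `Ψ n` is in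
`ball 0 r'`, and `Ψ^(n+1)_m z = Ψ (n+1) (κ (n+1) (orb f (q n) q (orb f m (q n - m) z))) = Ψ (n+1) (F n (κ n ..)) = Ψ^n_m z`
(`orb f m (i + j) z = orb f (m + i) j (orb f m i z)`).  The new maps are `Ψ' m = Ψ^(m + N₀)_m`, equal to `Ψ^n_m` for all `n ≥ m + N₀`.
Compatibility: `Ψ' (m+1) (f m z) = Ψ^n_(m+1) (f m z) = Ψ^n_m z = Ψ' m z`, `n = m + 1 + N₀`.  Differentiable, injective, immersion:
compositions (chain rule; `orb f m i` is injective and immersive on `ball 0 r` by induction).  Onto: `u = Ψ m w = Ψ m (κ m z)`,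
`w ∈ ball 0 r'`, `z ∈ ball 0 ρ`.  By induction on `i`: `κ (m+i) (orb f (q m) (q i) z) ∈ ball 0 r'` and `Ψ (m+i)` of it is `u` (last two
hypotheses), so `Ψ' (q m) z = u`, taking `n = m + i ≥ q m + N₀`. -/
def S_Tr : Prop := ∀ (E E' H : Type) [NormedAddCommGroup E] [NormedSpace ℂ E] [NormedAddCommGroup E'] [NormedSpace ℂ E']
  [NormedAddCommGroup H] [NormedSpace ℂ H] (r D C c : ℝ) (f : ℕ → E → E) (L : ℕ → E →L[ℂ] E) (q : ℕ) (ρ ρ' r' : ℝ)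
  (κ : ℕ → E → E') (F : ℕ → E' → E'), Sq r D C c f L → 0 < q → 0 < ρ' → ρ' ≤ ρ → ρ ≤ r →
  (∀ n, DifferentiableOn ℂ (κ n) (ball 0 ρ)) → (∀ n, InjOn (κ n) (ball 0 ρ)) →
  (∀ n, ∀ z ∈ ball (0 : E) ρ, ∀ w, fderiv ℂ (κ n) z w = 0 → w = 0) →
  (∀ n, ∀ z ∈ ball (0 : E) ρ', κ n z ∈ ball (0 : E') r') →
  (∀ n, ∀ w ∈ ball (0 : E') r', F n w ∈ ball (0 : E') r' ∧ ∃ z ∈ ball (0 : E) ρ, κ n z = w) →
  (∀ n, ∀ z ∈ ball (0 : E) ρ, κ n z ∈ ball (0 : E') r' → F n (κ n z) = κ (n + 1) (orb f (q * n) q z)) →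
  Bas H r' F → Bas H r f

/-- **Inv.** Lipschitz inverse function theorem with a parameter.  PROOF.  `L` is injective, so bijective (finite dimension),
`‖L⁻¹‖ ≤ 1/κ`.  (1) `φ x - φ y = L (x - y) + ((φ x - L x) - (φ y - L y))`.  (2) the derivative of `φ - L` at `x` has norm at most `θ`
(`HasFDerivAt.le_of_lipschitzOn` or a limit of difference quotients).  (3) Let `t' < t` with `‖u - φ x₀‖ ≤ (κ - θ) t'`.
`T x = x - L⁻¹ (φ x - u)` satisfies `‖T x - T y‖ = ‖L⁻¹ ((φ x - L x) - (φ y - L y))‖ ≤ (θ/κ) ‖x - y‖`,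
`‖T x - x₀‖ ≤ (θ/κ) t' + (1/κ) (κ - θ) t' = t'`, so it is a contraction of `closedBall x₀ t'` (complete); the fixed point solves `φ x = u`
(`ContractingWith` on the subtype, or iterate).  (4) `ψ` is continuous on `W` by (1): `(κ-θ) ‖ψ u - ψ u₀‖ ≤ ‖P u - P u₀‖`.  At `u₀ ∈ W`,
`x₀ = ψ u₀`, `φ` has the derivative `A`, invertible by (2).  `φ (ψ u) - φ (ψ u₀) = A (ψ u - ψ u₀) + o(‖ψ u - ψ u₀‖)` and
`‖ψ u - ψ u₀‖ = O(‖P u - P u₀‖) = O(‖u - u₀‖)`, so `ψ u - ψ u₀ = A⁻¹ (P u - P u₀) + o(‖u - u₀‖)`.  (Or: `HasFDerivAt.of_local_left_inverse`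
for the inverse of `φ` on the open set `φ (ball 0 ρ)`, composed with `P`.) -/
def S_Inv : Prop := ∀ (E : Type) [NormedAddCommGroup E] [NormedSpace ℂ E] [FiniteDimensional ℂ E] (L : E →L[ℂ] E)
  (κ θ ρ : ℝ) (φ : E → E), 0 ≤ θ → θ < κ → (∀ x, κ * ‖x‖ ≤ ‖L x‖) → DifferentiableOn ℂ φ (ball 0 ρ) →
  (∀ x ∈ ball (0 : E) ρ, ∀ y ∈ ball (0 : E) ρ, ‖(φ x - L x) - (φ y - L y)‖ ≤ θ * ‖x - y‖) →
  (∀ x ∈ ball (0 : E) ρ, ∀ y ∈ ball (0 : E) ρ, (κ - θ) * ‖x - y‖ ≤ ‖φ x - φ y‖) ∧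
  (∀ x ∈ ball (0 : E) ρ, ∀ w, (κ - θ) * ‖w‖ ≤ ‖fderiv ℂ φ x w‖) ∧
  (∀ x₀ t, ball x₀ t ⊆ ball (0 : E) ρ → ∀ u, ‖u - φ x₀‖ < (κ - θ) * t → ∃ x ∈ ball x₀ t, φ x = u) ∧
  ∀ (F : Type) [NormedAddCommGroup F] [NormedSpace ℂ F] (W : Set F) (ψ P : F → E), IsOpen W → DifferentiableOn ℂ P W →
    (∀ u ∈ W, ψ u ∈ ball (0 : E) ρ ∧ φ (ψ u) = P u) → DifferentiableOn ℂ ψ W

/-- **Cau.** PROOF.  For `z ∈ ball 0 ρ` the ball `ball z ρ` is in `ball 0 (2ρ) ⊆ ball 0 R` and `‖η‖ ≤ K (2ρ)(2ρ)` there, so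
`‖fderiv η z‖ ≤ 4 K ρ² / ρ` (Cauchy, `Osgood.norm_fderiv_le`); mean value inequality on the convex ball
(`Convex.norm_image_sub_le_of_norm_fderiv_le` or `.._fderivWithin_le`). -/
def S_Cau : Prop := ∀ (G F W : Type) [NormedAddCommGroup G] [NormedSpace ℂ G] [FiniteDimensional ℂ G]
  [NormedAddCommGroup F] [NormedSpace ℂ F] [FiniteDimensional ℂ F] [NormedAddCommGroup W] [NormedSpace ℂ W]
  [CompleteSpace W] (R K : ℝ) (η : G × F → W), 0 ≤ K → DifferentiableOn ℂ η (ball 0 R) →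
  (∀ z ∈ ball (0 : G × F) R, ‖η z‖ ≤ K * ‖z‖ * ‖z.2‖) → ∀ ρ : ℝ, 2 * ρ ≤ R →
  ∀ z ∈ ball (0 : G × F) ρ, ∀ w ∈ ball (0 : G × F) ρ, ‖η z - η w‖ ≤ 4 * K * ρ * ‖z - w‖

/-- **Tay.** Entire approximation on smaller balls.  PROOF.  Let `ρ' < ρ₁ < ρ`, `‖p‖ ≤ B` on `ball 0 ρ₁` (compactness of
`closedBall 0 ρ₁`).  `T_k x = (1/k!) (iteratedFDeriv ℂ k p 0) (fun _ => x)` is a continuous multilinear map on the diagonal, so
differentiable everywhere, and it is the `k`-th Taylor coefficient at `0` of `F_x ζ = p (ζ x)` (`Osgood.iteratedDeriv_line`).  For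
`x ∈ ball 0 ρ'` the function `F_x` is differentiable on the disc of radius `ρ₁/‖x‖ > 1` (`x = 0` is trivial) and bounded by `B`, so (Cauchy)
`‖T_k x‖ ≤ B (ρ'/ρ₁)^k` and `p x = F_x 1 = ∑ T_k x` (`Complex.hasSum_taylorSeries_on_ball` or the like).  `P = ∑_{k<N} T_k`, the remainder is
at most `B (ρ'/ρ₁)^N / (1 - ρ'/ρ₁) ≤ ε` for large `N`.  (Another way: Cesaro or Cauchy integral formulas along circles; any proof
is good.) -/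
def S_Tay : Prop := ∀ (G W : Type) [NormedAddCommGroup G] [NormedSpace ℂ G] [FiniteDimensional ℂ G]
  [NormedAddCommGroup W] [NormedSpace ℂ W] [CompleteSpace W] (ρ ρ' ε : ℝ) (p : G → W), 0 < ρ' → ρ' < ρ → 0 < ε →
  DifferentiableOn ℂ p (ball 0 ρ) → ∃ P : G → W, Differentiable ℂ P ∧ ∀ x ∈ ball (0 : G) ρ', ‖P x - p x‖ ≤ ε

/-! ## Part A: the fibration

Data `Blk`.  Numbers: `α = max (16 ‖b n‖) c`, so `α ‖x‖ ≤ ‖a n x‖`, `‖b n‖ ≤ α / 16`, `c ≤ α`; `K = 16 C / c`; `C R ≤ c² / 2^12`, `K R ≤ c / 2^8`.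
`‖f n z‖ ≤ ‖z‖ / 4` on `ball 0 R` (`quad` with `w = 0`, `zero`). -/

/-- **BSq.** USES `S_Inv`.  PROOF.  `contr`: `‖f n z‖ ≤ ‖(a z.1, b z.2)‖ + C ‖z‖² ≤ (1/8 + C R) ‖z‖`.  `inj`, `dinj`: `S_Inv` with `κ = c`,
`θ = 2 C R < c` (`‖(a x, b y)‖ ≥ c ‖(x, y)‖`, sup norm). -/
def S_BSq : Prop := ∀ (G F : Type) [NormedAddCommGroup G] [NormedSpace ℂ G] [FiniteDimensional ℂ G]
  [NormedAddCommGroup F] [NormedSpace ℂ F] [FiniteDimensional ℂ F] (R C c : ℝ) (f : ℕ → G × F → G × F)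
  (a : ℕ → G →L[ℂ] G) (b : ℕ → F →L[ℂ] F), Blk R C c f a b → Sq R (1 / 4) C c f (fun n => (a n).prodMap (b n))

/-- **Pb.** Pull back, existence.  USES `S_Inv`, `S_Cau`.  PROOF.  `f = f n`, `φ x = PP f η (x, 0)` on `ball 0 R` of `G` (`f z ∈ ball 0 (R/4)`).
`φ - a` is Lipschitz with the constant `2 C R + K R / 4 ≤ α / 2`: the first part by `quad`; for the second `S_Cau` for `η` with `ρ = R/4`:
constant `K R`, and `‖f (x,0) - f (x',0)‖ ≤ (1/8 + 2 C R) ‖x - x'‖ ≤ ‖x - x'‖ / 4`.  So `S_Inv` holds with `L = a n`, `κ = α`, `θ = α / 2`,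
`ρ = R`.  Let `z = (x, y) ∈ ball 0 (R/2)`.  `f z - f (x, 0) = (0, b y) +` an error `≤ C (‖z‖ + ‖x‖) ‖y‖ ≤ 2 C ‖z‖ ‖y‖` (`quad`).  For `z ≠ 0`
both `f z`, `f (x,0)` are in `ball 0 (‖z‖/2)`, `η` has there the Lipschitz constant `2 K ‖z‖` (`S_Cau`), and
`‖f z - f (x,0)‖ ≤ (‖b‖ + C R) ‖y‖ ≤ (α/15) ‖y‖`; so `‖PP f η z - φ x‖ ≤ 2 C ‖z‖ ‖y‖ + (2/15) K α ‖z‖ ‖y‖ ≤ (1/3) K α ‖z‖ ‖y‖` (`2 C = K c / 8`).
As `(1/3) K α (R/2)^2 < (α/2) (R/2)`, `S_Inv` (3) with `x₀ = x`, `t = R/2` gives `x' ∈ ball x (R/2) ⊆ ball 0 R`, `φ x' = PP f η z`, and by (1)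
`(α/2) ‖x' - x‖ ≤ (1/3) K α ‖z‖ ‖y‖`, so `‖x' - x‖ ≤ K ‖z‖ ‖y‖`.  `η' z = x' - x`.  Differentiability: `S_Inv` (4) with `W = ball 0 (R/2)`,
`ψ z = z.1 + η' z`, `P = PP f η`.  (`G` or `F` trivial is no problem.) -/
def S_Pb : Prop := ∀ (G F : Type) [NormedAddCommGroup G] [NormedSpace ℂ G] [FiniteDimensional ℂ G]
  [NormedAddCommGroup F] [NormedSpace ℂ F] [FiniteDimensional ℂ F] (R C c : ℝ) (f : ℕ → G × F → G × F)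
  (a : ℕ → G →L[ℂ] G) (b : ℕ → F →L[ℂ] F), Blk R C c f a b → ∀ (n : ℕ) (η : G × F → G), Cls R C c η →
  ∃ η' : G × F → G, IsPB R C c (f n) η η'

/-- **Ct.** Pull back, contraction.  USES `S_Inv`, `S_Cau`.  PROOF.  Notation of `S_Pb`; `φ₁`, `x₁ = x + η₁' z` for `η₁`, and `φ₂`, `x₂` for `η₂`;
`d = η₁ - η₂`, `‖d z‖ ≤ δ ‖z‖ ‖z.2‖`.  `φ₁ x₁ - φ₁ x₂ = PP f η₁ z - PP f η₂ z + φ₂ x₂ - φ₁ x₂ = d (f z) - d (f (x₂, 0))`.  Let `z ≠ 0`.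
`‖x₂‖ ≤ ‖z‖ + K (R/2) ‖z‖ ≤ 1.01 ‖z‖`, so `f z`, `f (x₂, 0)` are in `ball 0 (‖z‖/2)` and `S_Cau` for `d` gives the Lipschitz constant `2 δ ‖z‖`.
`f z - f (x₂, 0) = (a (x - x₂), b y) +` an error `≤ C (2.01 ‖z‖) ‖(x - x₂, y)‖`, where `‖x - x₂‖ = ‖η₂' z‖ ≤ K ‖z‖ ‖y‖ ≤ (c/512) ‖y‖`; so
`‖f z - f (x₂, 0)‖ ≤ max (c/4096) (α/16) ‖y‖ + (1.01 C R) ‖y‖ ≤ (α/15) ‖y‖`.  By `S_Inv` (1) for `φ₁` (`κ = α`, `θ = α/2`, see `S_Pb`)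
`(α/2) ‖x₁ - x₂‖ ≤ 2 δ ‖z‖ (α/15) ‖y‖`, so `‖η₁' z - η₂' z‖ ≤ (4/15) δ ‖z‖ ‖y‖`. -/
def S_Ct : Prop := ∀ (G F : Type) [NormedAddCommGroup G] [NormedSpace ℂ G] [FiniteDimensional ℂ G]
  [NormedAddCommGroup F] [NormedSpace ℂ F] [FiniteDimensional ℂ F] (R C c : ℝ) (f : ℕ → G × F → G × F)
  (a : ℕ → G →L[ℂ] G) (b : ℕ → F →L[ℂ] F), Blk R C c f a b → ∀ (n : ℕ) (η₁ η₂ η₁' η₂' : G × F → G) (δ : ℝ), 0 ≤ δ →
  Cls R C c η₁ → Cls R C c η₂ → IsPB R C c (f n) η₁ η₁' → IsPB R C c (f n) η₂ η₂' →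
  (∀ z ∈ ball (0 : G × F) (R / 2), ‖η₁ z - η₂ z‖ ≤ δ * ‖z‖ * ‖z.2‖) →
  ∀ z ∈ ball (0 : G × F) (R / 2), ‖η₁' z - η₂' z‖ ≤ δ / 2 * ‖z‖ * ‖z.2‖

/-- **Hfb.** The fibration.  USES `S_Cau`, `S_Pb`, `S_Ct`.  PROOF.  Choose a pull back `Γ n η` for every `η` in the class (`S_Pb`).
`η^0_n = 0`, `η^(i+1)_n = Γ n (η^i_(n+1))`.  By `S_Ct` and induction `‖η^(i+1)_n z - η^i_n z‖ ≤ 2^(-i) K ‖z‖ ‖z.2‖` (`i = 0`: the class).
`Bed.sWei` on `ball 0 (R/2)` with `b i = 2^(-i) K R²`: limit `η_n`, in the class.  Equation: for `z ∈ ball 0 (R/2)`, `x_i = z.1 + η^(i+1)_n z`,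
`PP (f n) (η^i_(n+1)) (x_i, 0) = PP (f n) (η^i_(n+1)) z`; let `i → ∞`: right side clear; `x_i → x = z.1 + η_n z` with
`‖x‖ ≤ (1 + K R/2) ‖z‖ < R`; `‖η^i (f (x_i,0)) - η (f (x,0))‖ ≤ K R ‖f (x_i,0) - f (x,0)‖ + ‖η^i (f (x,0)) - η (f (x,0))‖` (`S_Cau` with `ρ = R/4`,
uniform in `i`) tends to `0`. -/
def S_Hfb : Prop := ∀ (G F : Type) [NormedAddCommGroup G] [NormedSpace ℂ G] [FiniteDimensional ℂ G]
  [NormedAddCommGroup F] [NormedSpace ℂ F] [FiniteDimensional ℂ F] (R C c : ℝ) (f : ℕ → G × F → G × F)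
  (a : ℕ → G →L[ℂ] G) (b : ℕ → F →L[ℂ] F), Blk R C c f a b →
  ∃ η : ℕ → G × F → G, ∀ n, IsPB R C c (f n) (η (n + 1)) (η n)

/-- **Slo.** The slow quotient.  USES `S_Inv`, `S_Cau`.  PROOF.  `g n x = (f n (x,0)).1 + η (n+1) (f n (x,0))`.  `diff`: composition, on
`ball 0 (R/4)`.  `quad`: `C (‖x‖ + ‖y‖) ‖x - y‖` for the first part; second part for `x, y ∈ ball 0 (R/4)`, not both `0`: `f (x,0)`, `f (y,0)` are in
`ball 0 ρ`, `ρ = (‖x‖ + ‖y‖)/2 ≤ R/4`, so by `S_Cau` it is at most `4 K ρ ‖f (x,0) - f (y,0)‖ ≤ 2 K (‖x‖ + ‖y‖) ‖x - y‖ / 4`; total constant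
`C + K/2 ≤ 9 C / c ≤ 16 C / c`.  `contr`: `1/8 + (16 C/c) (R/4) ≤ 1/4` (`g 0 = 0`: `f 0 = 0`, `η 0 = 0`).  `contrL`, `low` from `aup`, `alow`.
`inj`, `dinj`: `S_Inv` with `κ = c`, `θ = (16 C/c) (R/2) < c`. -/
def S_Slo : Prop := ∀ (G F : Type) [NormedAddCommGroup G] [NormedSpace ℂ G] [FiniteDimensional ℂ G]
  [NormedAddCommGroup F] [NormedSpace ℂ F] [FiniteDimensional ℂ F] (R C c : ℝ) (f : ℕ → G × F → G × F)
  (a : ℕ → G →L[ℂ] G) (b : ℕ → F →L[ℂ] F) (η : ℕ → G × F → G), Blk R C c f a b →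
  (∀ n, IsPB R C c (f n) (η (n + 1)) (η n)) →
  Sq (R / 4) (1 / 4) (16 * C / c) c (fun n x => PP (f n) (η (n + 1)) (x, 0)) a

/-- **Skp.** The skew form.  USES `S_Inv`, `S_Cau`, `S_Tr`, `S_BSq`, `S_Slo`.  PROOF.  `κ n z = (z.1 + η n z, z.2)`.  On `ball 0 (R/4)`:
`(κ n z - z) - (κ n w - w) = (η n z - η n w, 0)`, Lipschitz constant `K R ≤ 1/2` (`S_Cau`, `ρ = R/4`), so `S_Inv` applies with `L = id`, `κ = 1`,
`θ = 1/2`: injective, immersion, and every `u ∈ ball 0 (R/8)` is `κ n z` for some `z = ι n u ∈ ball 0 (R/4)` (`x₀ = 0`, `κ n 0 = 0`);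
`ι n` is differentiable on `ball 0 (R/8)` ((4) with `P = id`), `‖ι u - ι v‖ ≤ 2 ‖u - v‖`, `‖ι u‖ ≤ 2 ‖u‖`, `(ι u).2 = u.2`.
`h n u = (f n (ι n u)).2`.  `hquad`: `(h u - b u.2) - (h v - b v.2)` is the second component of the difference in `quad` for `ι u`, `ι v`, so
at most `C (2‖u‖ + 2‖v‖) (2 ‖u - v‖)`.  `small`: `2^12 (4 C) (R/8) ≤ c²`.  `gcontr`, `gdiff` from `S_Slo`.  `bup`, `blow`, `bun` from `Blk`.
Transfer: `S_Tr` with `q = 1`, the maps `κ n`, `ρ = R/4`, `ρ' = R'/2`, `r' = R'`, `F = sk g h` and `Sq` for `f` from `S_BSq`: `‖κ n z‖ ≤ 2 ‖z‖`;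
`‖sk g h n w‖ ≤ ‖w‖/4` for `w ∈ ball 0 R'` (`‖h w‖ ≤ (1/8 + 4 C R') ‖w‖`); for `z ∈ ball 0 (R/4)` with `κ n z ∈ ball 0 R'`: `ι n (κ n z) = z`
(injectivity), `g n (κ n z).1 = PP (f n) (η (n+1)) (z.1 + η n z, 0) = PP (f n) (η (n+1)) z = (f n z).1 + η (n+1) (f n z)`, so
`sk g h n (κ n z) = κ (n+1) (f n z)`. -/
def S_Skp : Prop := ∀ (G F : Type) [NormedAddCommGroup G] [NormedSpace ℂ G] [FiniteDimensional ℂ G]
  [NormedAddCommGroup F] [NormedSpace ℂ F] [FiniteDimensional ℂ F] (R C c : ℝ) (f : ℕ → G × F → G × F)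
  (a : ℕ → G →L[ℂ] G) (b : ℕ → F →L[ℂ] F) (η : ℕ → G × F → G), Blk R C c f a b →
  (∀ n, IsPB R C c (f n) (η (n + 1)) (η n)) → ∃ h : ℕ → G × F → F, ∀ R' : ℝ, 0 < R' → R' ≤ R / 8 →
  Skw R' (4 * C) c (fun n x => PP (f n) (η (n + 1)) (x, 0)) h b ∧
  ∀ (H : Type) [NormedAddCommGroup H] [NormedSpace ℂ H],
    Bas H R' (sk (fun n x => PP (f n) (η (n + 1)) (x, 0)) h) → Bas H R f

/-! ## Part B: the affine structure of the fibres -/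

/-- Upper bound for one step in the fibre. -/
noncomputable def be {F : Type} [NormedAddCommGroup F] [NormedSpace ℂ F] (R C : ℝ) (b : ℕ → F →L[ℂ] F) (n : ℕ) : ℝ :=
  ‖b n‖ + 2 * C * R

/-- Lower bound for one step in the fibre. -/
noncomputable def ga {F : Type} [NormedAddCommGroup F] [NormedSpace ℂ F] (R C c : ℝ) (b : ℕ → F →L[ℂ] F) (n : ℕ) : ℝ :=
  max (16 * ‖b n‖ ^ 2) c - 2 * C * R

/-- **Fib.** One step in the fibre.  PROOF.  (1) composition of `fderiv` (differentiable, `Osgood.differentiableOn_fderiv`) with a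
continuous linear map.  (2) `gcontr`; `‖h z‖ ≤ ‖b‖ ‖z.2‖ + C ‖z‖² ≤ (1/8 + C R) ‖z‖`.  (3) derivative of `h n - b n ∘ snd` at `z` in the direction
`(0, v)`: difference quotients and `hquad`.  (4) `AA h n - b n` is bounded by `2 C R` on `ball 0 R` (by (3)), so its derivative is at most
`2 C R / (R/2) = 4 C` on `ball 0 (R/2)` (Cauchy, `Osgood.norm_fderiv_le`), mean value inequality.  (5) mean value inequality for
`t ↦ h n (z.1, z.2 + t d) - t AA h n z d`, `d = w.2 - z.2`, `0 ≤ t ≤ 1`: derivative `(AA h n (z.1, z.2 + t d) - AA h n z) d`, at most `4 C ‖d‖²`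
by (4).  (6) `hquad`: `‖h w - h z - b d‖ ≤ C (‖z‖ + ‖w‖) ‖w - z‖ ≤ 2 C R ‖d‖`.  (7) `m = max (16 ‖b‖²) c`: `4 (‖b‖ + 2CR)² ≤ 8 ‖b‖² + 32 (CR)²`,
`8 ‖b‖² ≤ m/2`, `32 (CR)² + 2 C R ≤ c/2 ≤ m/2`, `2 C R ≤ c/2`.  (8) by (3), `blow`, `bun`: `‖AA v‖ ≥ m ‖v‖ - 2 C R ‖v‖`. -/
def S_Fib : Prop := ∀ (G F : Type) [NormedAddCommGroup G] [NormedSpace ℂ G] [FiniteDimensional ℂ G]
  [NormedAddCommGroup F] [NormedSpace ℂ F] [FiniteDimensional ℂ F] (R C c : ℝ) (g : ℕ → G → G) (h : ℕ → G × F → F)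
  (b : ℕ → F →L[ℂ] F), Skw R C c g h b → ∀ n : ℕ,
  DifferentiableOn ℂ (AA h n) (ball (0 : G × F) R) ∧
  (∀ z ∈ ball (0 : G × F) R, ‖sk g h n z‖ ≤ 1 / 4 * ‖z‖) ∧
  (∀ z ∈ ball (0 : G × F) R, ‖AA h n z - b n‖ ≤ 2 * C * ‖z‖) ∧
  (∀ z ∈ ball (0 : G × F) (R / 2), ∀ w ∈ ball (0 : G × F) (R / 2), ‖AA h n z - AA h n w‖ ≤ 4 * C * ‖z - w‖) ∧
  (∀ z ∈ ball (0 : G × F) (R / 2), ∀ w ∈ ball (0 : G × F) (R / 2), z.1 = w.1 →
    ‖h n w - h n z - AA h n z (w.2 - z.2)‖ ≤ 4 * C * ‖w.2 - z.2‖ ^ 2) ∧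
  (∀ z ∈ ball (0 : G × F) R, ∀ w ∈ ball (0 : G × F) R, z.1 = w.1 →
    ‖h n w - h n z‖ ≤ be R C b n * ‖w.2 - z.2‖) ∧
  (4 * be R C b n ^ 2 ≤ ga R C c b n ∧ c / 2 ≤ ga R C c b n) ∧
  ∀ z ∈ ball (0 : G × F) R, ∀ v, ‖AA h n z v‖ ≤ be R C b n * ‖v‖ ∧ ga R C c b n * ‖v‖ ≤ ‖AA h n z v‖

/-- **Orb.** `j` steps in the fibre.  USES `S_Fib`.  PROOF.  Induction on `j` from `S_Fib` ((2): the orbits stay in `ball 0 (R/2)`; the first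
components of the two orbits agree; (6); (8)).  `TT` is a unit: a bounded below endomorphism of a finite dimensional space is
invertible (`LinearMap.injective_iff_surjective`, `ContinuousLinearEquiv.ofBijective` or `LinearEquiv.toContinuousLinearEquiv`).
`TT` is differentiable: products, and `orb (sk g h) n j` is differentiable (composition, `gdiff`, `hdiff`).  Last: `4 be² ≤ ga`. -/
def S_Orb : Prop := ∀ (G F : Type) [NormedAddCommGroup G] [NormedSpace ℂ G] [FiniteDimensional ℂ G]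
  [NormedAddCommGroup F] [NormedSpace ℂ F] [FiniteDimensional ℂ F] (R C c : ℝ) (g : ℕ → G → G) (h : ℕ → G × F → F)
  (b : ℕ → F →L[ℂ] F), Skw R C c g h b → ∀ n j : ℕ,
  DifferentiableOn ℂ (orb (sk g h) n j) (ball (0 : G × F) (R / 2)) ∧
  DifferentiableOn ℂ (TT g h n j) (ball (0 : G × F) (R / 2)) ∧
  (∀ z ∈ ball (0 : G × F) (R / 2), ‖orb (sk g h) n j z‖ ≤ (1 / 4) ^ j * ‖z‖) ∧
  (∀ z ∈ ball (0 : G × F) (R / 2), ∀ w ∈ ball (0 : G × F) (R / 2), z.1 = w.1 →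
    (orb (sk g h) n j z).1 = (orb (sk g h) n j w).1 ∧
    ‖(orb (sk g h) n j w).2 - (orb (sk g h) n j z).2‖ ≤ (∏ i ∈ Finset.range j, be R C b (n + i)) * ‖w.2 - z.2‖) ∧
  (∀ z ∈ ball (0 : G × F) (R / 2), IsUnit (TT g h n j z) ∧ ∀ v,
    ‖TT g h n j z v‖ ≤ (∏ i ∈ Finset.range j, be R C b (n + i)) * ‖v‖ ∧
    (∏ i ∈ Finset.range j, ga R C c b (n + i)) * ‖v‖ ≤ ‖TT g h n j z v‖) ∧
  0 < ∏ i ∈ Finset.range j, ga R C c b (n + i) ∧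
  (∏ i ∈ Finset.range j, be R C b (n + i)) ^ 2 ≤ (1 / 4) ^ j * ∏ i ∈ Finset.range j, ga R C c b (n + i)

/-- `Dv n (x, y, y')` is the difference of the points `(x, y')` and `(x, y)` of a fibre in the affine coordinate of the fibre which is tangent to
the identity at `(x, y)`. -/
structure IsDv {G F : Type} [NormedAddCommGroup G] [NormedSpace ℂ G] [NormedAddCommGroup F] [NormedSpace ℂ F]
    (R C c : ℝ) (g : ℕ → G → G) (h : ℕ → G × F → F) (Dv : ℕ → G × F × F → F) : Prop where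
  diff : ∀ n, DifferentiableOn ℂ (Dv n) (ball 0 (R / 2))
  bd : ∀ n x y y', (x, y, y') ∈ ball (0 : G × F × F) (R / 2) → ‖Dv n (x, y, y') - (y' - y)‖ ≤ 16 * C / c * ‖y' - y‖ ^ 2
  comp : ∀ n x y y', (x, y, y') ∈ ball (0 : G × F × F) (R / 2) →
    Dv (n + 1) (g n x, h n (x, y), h n (x, y')) = AA h n (x, y) (Dv n (x, y, y'))
  lim : ∀ n x y y', (x, y, y') ∈ ball (0 : G × F × F) (R / 2) →
    Tendsto (fun j => Ring.inverse (TT g h n j (x, y)) ((orb (sk g h) n j (x, y')).2 - (orb (sk g h) n j (x, y)).2))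
      atTop (𝓝 (Dv n (x, y, y')))

/-- **Dev.** USES `S_Fib`, `S_Orb`.  PROOF.  `z = (x, y)`, `w = (x, y')`, `z_j`, `w_j` the orbits, `T_j = TT g h n j z`, `d_j = (w_j).2 - (z_j).2`,
`D_j = T_j⁻¹ d_j`.  `D_(j+1) - D_j = T_(j+1)⁻¹ (d_(j+1) - AA h (n+j) z_j d_j)`, and by `S_Fib` (5)
`‖..‖ ≤ (∏_(j+1) ga)⁻¹ 4 C (∏_j be)² ‖d_0‖² ≤ 4 C ga_j⁻¹ 4^(-j) ‖d_0‖² ≤ (8 C/c) 4^(-j) ‖y' - y‖²`.  `Bed.sWei` on `ball 0 (R/2)` (the `D_j` are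
differentiable in `(x, y, y')`: `Ring.inverse` is differentiable at units, `differentiableAt_inverse`): limit `Dv n`, `D_0 = y' - y`,
`∑ (8 C/c) 4^(-j) ≤ 16 C/c`.  `comp`: `TT g h n (j+1) z = TT g h (n+1) j (sk g h n z) * AA h n z` and `orb (sk g h) n (j+1) z =
orb (sk g h) (n+1) j (sk g h n z)` (induction on `j`), so `AA h n z D_(j+1)(n; ..) = D_j(n+1; ..)`; let `j → ∞` (`sk g h n` maps `ball 0 (R/2)`
into itself). -/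
def S_Dev : Prop := ∀ (G F : Type) [NormedAddCommGroup G] [NormedSpace ℂ G] [FiniteDimensional ℂ G]
  [NormedAddCommGroup F] [NormedSpace ℂ F] [FiniteDimensional ℂ F] (R C c : ℝ) (g : ℕ → G → G) (h : ℕ → G × F → F)
  (b : ℕ → F →L[ℂ] F), Skw R C c g h b → ∃ Dv : ℕ → G × F × F → F, IsDv R C c g h Dv

/-- **Hol.** Change of the base point.  USES `S_Fib`, `S_Orb`.  PROOF.  Notation of `S_Dev`, `T'_j = TT g h n j w`, `Λ_j = T_j⁻¹ T'_j`.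
`Λ_(j+1) - Λ_j = T_(j+1)⁻¹ (AA h (n+j) w_j - AA h (n+j) z_j) T'_j`, by `S_Fib` (4) at most `(∏_(j+1) ga)⁻¹ 4 C ‖d_j‖ ∏_j be ≤ (8 C/c) 4^(-j) ‖y' - y‖`
(`‖w_j - z_j‖ = ‖d_j‖`, the first components agree).  `Bed.sWei`: limit `Lm n`.  Relation: `T_j⁻¹ (y''_j - y_j) = T_j⁻¹ (y'_j - y_j) +
Λ_j (T'_j⁻¹ (y''_j - y'_j))`, let `j → ∞` (`lim` of `IsDv`, three times). -/
def S_Hol : Prop := ∀ (G F : Type) [NormedAddCommGroup G] [NormedSpace ℂ G] [FiniteDimensional ℂ G]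
  [NormedAddCommGroup F] [NormedSpace ℂ F] [FiniteDimensional ℂ F] (R C c : ℝ) (g : ℕ → G → G) (h : ℕ → G × F → F)
  (b : ℕ → F →L[ℂ] F) (Dv : ℕ → G × F × F → F), Skw R C c g h b → IsDv R C c g h Dv →
  ∃ Lm : ℕ → G × F × F → (F →L[ℂ] F), ∀ n, DifferentiableOn ℂ (Lm n) (ball 0 (R / 2)) ∧
    ∀ x y y', (x, y, y') ∈ ball (0 : G × F × F) (R / 2) →
    ‖Lm n (x, y, y') - 1‖ ≤ 16 * C / c * ‖y' - y‖ ∧
    ∀ y'', ‖y''‖ < R / 2 → Dv n (x, y, y'') = Dv n (x, y, y') + Lm n (x, y, y') (Dv n (x, y', y''))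

/-- The affine coordinates `φ n` of the fibres and the affine maps `(M n x, q n x)` between the fibres. -/
structure IsAf {G F : Type} [NormedAddCommGroup G] [NormedSpace ℂ G] [NormedAddCommGroup F] [NormedSpace ℂ F]
    (ρ C' : ℝ) (g : ℕ → G → G) (h : ℕ → G × F → F) (b : ℕ → F →L[ℂ] F) (φ : ℕ → G × F → F)
    (M : ℕ → G → (F →L[ℂ] F)) (q : ℕ → G → F) : Prop where
  C_pos : 0 < C'
  diff : ∀ n, DifferentiableOn ℂ (φ n) (ball 0 ρ)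
  diffM : ∀ n, DifferentiableOn ℂ (M n) (ball 0 ρ)
  diffq : ∀ n, DifferentiableOn ℂ (q n) (ball 0 ρ)
  bd : ∀ n, ∀ z ∈ ball (0 : G × F) ρ, ‖φ n z - z.2‖ ≤ C' * ‖z.2‖ ^ 2
  comp : ∀ n, ∀ z ∈ ball (0 : G × F) ρ, φ (n + 1) (sk g h n z) = M n z.1 (φ n z) + q n z.1
  bdM : ∀ n, ∀ x ∈ ball (0 : G) ρ, ‖M n x - b n‖ ≤ C' * ‖x‖
  bdq : ∀ n, ∀ x ∈ ball (0 : G) ρ, ‖q n x‖ ≤ C' * ‖x‖

/-- **Phi.** USES `S_Fib`, `S_Dev`, `S_Hol`.  PROOF.  `φ n (x, y) = Dv n (x, 0, y)`, `q n x = Dv (n+1) (g n x, 0, h n (x, 0))`,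
`M n x = Lm (n+1) (g n x, 0, h n (x, 0)) * AA h n (x, 0)`.  `comp`: by `S_Hol` (base points `0`, `h n (x,0)`, third point `h n (x,y)`) and `comp` of
`IsDv`: `φ (n+1) (g n x, h n (x,y)) = q n x + Lm (..) (Dv (n+1) (g n x, h n (x,0), h n (x,y))) = q n x + Lm (..) (AA h n (x,0) (Dv n (x,0,y)))`.
`‖h n (x,0)‖ ≤ ‖x‖/4` (`S_Fib` (2)); `‖q n x‖ ≤ ‖h n (x,0)‖ + (16 C/c) ‖h n (x,0)‖²`; `‖M n x - b n‖ ≤ ‖Lm - 1‖ ‖AA‖ + ‖AA - b‖ ≤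
(16 C/c) (‖x‖/4) + 2 C ‖x‖` (`‖AA‖ ≤ be ≤ 1`).  `C' = 16 C/c + 2 C + 1 + (16 C/c) R`. -/
def S_Phi : Prop := ∀ (G F : Type) [NormedAddCommGroup G] [NormedSpace ℂ G] [FiniteDimensional ℂ G]
  [NormedAddCommGroup F] [NormedSpace ℂ F] [FiniteDimensional ℂ F] (R C c : ℝ) (g : ℕ → G → G) (h : ℕ → G × F → F)
  (b : ℕ → F →L[ℂ] F), Skw R C c g h b → ∃ (C' : ℝ) (φ : ℕ → G × F → F) (M : ℕ → G → (F →L[ℂ] F)) (q : ℕ → G → F),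
    IsAf (R / 2) C' g h b φ M q

/-- `φ n (x, .)` is an open embedding of the ball of radius `r` and covers the ball of radius `r / 2`. -/
def Cov {G F : Type} [NormedAddCommGroup G] [NormedSpace ℂ G] [NormedAddCommGroup F] [NormedSpace ℂ F] (r : ℝ)
    (φ : ℕ → G × F → F) : Prop :=
  ∀ n, ∀ x ∈ ball (0 : G) r,
    (∀ y ∈ ball (0 : F) r, ∀ y' ∈ ball (0 : F) r, φ n (x, y) = φ n (x, y') → y = y') ∧
    (∀ y ∈ ball (0 : F) r, ∀ w, fderiv ℂ (φ n) (x, y) (0, w) = 0 → w = 0) ∧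
    ∀ v, ‖v‖ < r / 2 → ∃ y ∈ ball (0 : F) r, φ n (x, y) = v

/-- **Cvr.** USES `S_Inv`.  PROOF.  Fix `n`, `x`; `e y = φ n (x, y) - y` on `ball 0 ρ` of `F`, `‖e y‖ ≤ C' ‖y‖²`.  For `r ≤ r₀ = min (ρ/2) (1/(8 C'))` the
function `e` has the Lipschitz constant `C' (2r)² / r ≤ 1/2` on `ball 0 r` (Cauchy estimate on balls of radius `r`, mean value
inequality).  `S_Inv` with `L = id`, `κ = 1`, `θ = 1/2`, radius `r`: (1) injective, (2) the derivative of `y ↦ φ n (x, y)` at `y` in the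
direction `w` is `fderiv ℂ (φ n) (x, y) (0, w)` (chain rule), (3) with `x₀ = 0`, `t = r`, `φ n (x, 0) = 0` (by the bound). -/
def S_Cvr : Prop := ∀ (G F : Type) [NormedAddCommGroup G] [NormedSpace ℂ G] [FiniteDimensional ℂ G]
  [NormedAddCommGroup F] [NormedSpace ℂ F] [FiniteDimensional ℂ F] (ρ C' : ℝ) (φ : ℕ → G × F → F), 0 < ρ → 0 < C' →
  (∀ n, DifferentiableOn ℂ (φ n) (ball 0 ρ)) → (∀ n, ∀ z ∈ ball (0 : G × F) ρ, ‖φ n z - z.2‖ ≤ C' * ‖z.2‖ ^ 2) →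
  ∃ r₀ : ℝ, 0 < r₀ ∧ r₀ ≤ ρ ∧ ∀ r, 0 < r → r ≤ r₀ → Cov r φ

end Pool.Agent.Lib.BedF
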