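import Pool.Agent.Lib.BedF.SpecA
import Pool.Agent.Lib.Bed.SpecM

/-!
# Theorem F (MP_6f050a_an): trivialisation (part C), linear algebra (part L), assembly

Same convention as in `SpecA.lean`.
-/

set_option autoImplicit false

open scoped Topology
open Set Filter Metric

namespace Pool.Agent.Lib.BedF

/-! ## Part C: trivialisation over the slow basin -/

/-- **Run.** The balls are Runge, one step.  USES `S_Inv`, `S_Tay`.  PROOF.  `a n` is injective, so invertible, `‖(a n)⁻¹‖ ≤ 1/c`.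
`u = (a n)⁻¹ ∘ g n` on `ball 0 R`: `u - id` has the Lipschitz constant `(1/c) C (2R) ≤ 1/16` (`quad`), `u 0 = 0`.  `S_Inv` with `L = id`, `κ = 1`,
`θ = 1/16`, `ρ = R`: every `v ∈ ball 0 (15 R/16)` is `u x` for a unique `x = w v ∈ ball 0 R`, and `w` is differentiable on this ball.  `S_Tay` for
`p ∘ w` (radii `15 R/16 > 3 R/4`): an entire `P₀` with `‖P₀ - p ∘ w‖ ≤ ε` on `ball 0 (3R/4)`.  `P = P₀ ∘ (a n)⁻¹`: for `x ∈ ball 0 (R/2)`,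
`‖u x‖ ≤ (17/16) ‖x‖ < 3R/4`, `P (g n x) = P₀ (u x)`, `p (w (u x)) = p x`.  (`W` may be trivial, `G` too.) -/
def S_Run : Prop := ∀ (G W : Type) [NormedAddCommGroup G] [NormedSpace ℂ G] [FiniteDimensional ℂ G]
  [NormedAddCommGroup W] [NormedSpace ℂ W] [CompleteSpace W] (R C c : ℝ) (g : ℕ → G → G) (a : ℕ → G →L[ℂ] G),
  Slw R C c g a → ∀ (n : ℕ) (ε : ℝ) (p : G → W), 0 < ε → Differentiable ℂ p →
  ∃ P : G → W, Differentiable ℂ P ∧ ∀ x ∈ ball (0 : G) (R / 2), ‖P (g n x) - p x‖ ≤ ε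

/-- **Fam.** Functions on the basin which approximate a given function at the time `m`.  USES `S_Tay`, `S_Run`.  PROOF.  Entire `p_m` with
`‖p_m - p‖ ≤ ε/2` on `ball 0 (R/2)` (`S_Tay`, radii `R > R/2`); `p_(m+j+1)` from `S_Run` for `p_(m+j)` with `ε_j = ε 2^(-(j+3))`.  For `n = m + j`:
`P n = lim_i p_(n+i) ∘ orb g n i` on `ball 0 (R/2)` (`orb g n i` maps it into itself; the differences of consecutive terms are at most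
`ε 2^(-(j+i+3))`; `Bed.sWei`), `‖P n - p_n‖ ≤ ε/2`, `P (n+1) (g n x) = P n x` (`orb g (n+1) i (g n x) = orb g n (i+1) x`).  For `n < m`:
`P n = P m ∘ orb g n (m - n)`.  Bounded: `p_n` is continuous, so bounded on `closedBall 0 (R/2)` (compact). -/
def S_Fam : Prop := ∀ (G W : Type) [NormedAddCommGroup G] [NormedSpace ℂ G] [FiniteDimensional ℂ G]
  [NormedAddCommGroup W] [NormedSpace ℂ W] [CompleteSpace W] (R C c : ℝ) (g : ℕ → G → G) (a : ℕ → G →L[ℂ] G),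
  Slw R C c g a → ∀ (m : ℕ) (ε : ℝ) (p : G → W), 0 < ε → DifferentiableOn ℂ p (ball 0 R) →
  ∃ P : ℕ → G → W, Fmy (R / 2) g P ∧ ∀ x ∈ ball (0 : G) (R / 2), ‖P m x - p x‖ ≤ ε

/-- **Log.** PROOF.  `NormedSpace.exp` is analytic and has the strict derivative `1` at `0` (`hasStrictFDerivAt_exp_zero`), `exp 0 = 1`; local
inverse (`ContDiffAt.toOpenPartialHomeomorph`, `ContDiffAt.to_localInverse`), differentiable near `1`. -/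
def S_Log : Prop := ∀ (A : Type) [NormedRing A] [NormedAlgebra ℂ A] [CompleteSpace A],
  ∃ δ : ℝ, 0 < δ ∧ ∃ lg : A → A, DifferentiableOn ℂ lg (ball 1 δ) ∧ ∀ X ∈ ball (1 : A) δ, NormedSpace.exp (lg X) = X

/-- The data of the trivialisation: `S m`, `V m` are families (functions on the basin), inverse to each other, `V (m+1) = V m * u m`, and
`u m` is nearly the inverse of `τ m` at the time `m`. -/
structure Tow {G A : Type} [NormedAddCommGroup G] [NormedSpace ℂ G] [NormedRing A] [NormedAlgebra ℂ A] (ρ : ℝ)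
    (g : ℕ → G → G) (τ : ℕ → G → A) (p : A) (S V u : ℕ → ℕ → G → A) (Q : ℕ → ℝ) : Prop where
  famS : ∀ m, Fmy ρ g (S m)
  famV : ∀ m, Fmy ρ g (V m)
  famu : ∀ m, Fmy ρ g (u m)
  Vs : ∀ m n, ∀ x ∈ ball (0 : G) ρ, V (m + 1) n x = V m n x * u m n x
  SV : ∀ m n, ∀ x ∈ ball (0 : G) ρ, S m n x * V m n x = 1 ∧ V m n x * S m n x = 1 ∧ p * V m n x = p
  Q_ge : ∀ m, 1 ≤ Q m
  bd : ∀ m, ∀ x ∈ ball (0 : G) ρ, ‖S m m x‖ ≤ Q m ∧ ‖V m m x‖ ≤ Q m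
  app : ∀ m, ∀ x ∈ ball (0 : G) ρ, ‖u m m x * τ m x - 1‖ ≤ (1 / 2) ^ (m + 3) / (Q m ^ 2 * (1 + ‖(1 : A)‖))

/-- **GlA.** The tower.  PROOF.  Recursion on `m`: state = a pair of families `(S_m, V_m)` with `S V = V S = 1`, `p V = p`; start `S_0 = V_0 = 1`.
Step: `Q m ≥ 1` bounds `‖S_m m x‖`, `‖V_m m x‖` on the ball (`bdd` of `Fmy` at the time `m`), `t_m`, `u_m` from the hypothesis with
`ε = (1/2)^(m+3) / (Q m ^ 2 (1 + ‖1‖))`, `S_(m+1) = t_m * S_m`, `V_(m+1) = V_m * u_m`.  (`p * u = p * t * u = p`.)  Products of families are families.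
(`Nat.rec` into the subtype of good pairs, with `Classical.choose`; or `exists_seq`-like lemma for dependent choice.) -/
def S_GlA : Prop := ∀ (G A : Type) [NormedAddCommGroup G] [NormedSpace ℂ G]
  [NormedRing A] [NormedAlgebra ℂ A] (ρ : ℝ) (g : ℕ → G → G) (τ : ℕ → G → A) (p : A),
  (∀ (m : ℕ) (ε : ℝ), 0 < ε → ∃ t u : ℕ → G → A, Fmy ρ g t ∧ Fmy ρ g u ∧
    (∀ n, ∀ x ∈ ball (0 : G) ρ, t n x * u n x = 1 ∧ u n x * t n x = 1 ∧ p * t n x = p) ∧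
    ∀ x ∈ ball (0 : G) ρ, ‖u m x * τ m x - 1‖ ≤ ε) →
  ∃ (S V u : ℕ → ℕ → G → A) (Q : ℕ → ℝ), Tow ρ g τ p S V u Q

/-- **GlB.** The trivialisation.  PROOF.  Fix `n`.  `x_i = orb g n i x ∈ ball 0 ρ`,
`T_0 = 1`, `T_(i+1) x = τ (n+i) x_i * T_i x`, `σ_i x = V (n+i) n x * T_i x`.  `V (n+i) n x = V (n+i) (n+i) x_i`, `S`, `u` likewise (`comp`).  `σ_(i+1) - σ_i =
V (n+i) n x * (u (n+i) (n+i) x_i * τ (n+i) x_i - 1) * T_i x = E_i * σ_i`, `E_i = V (..) S` with `V = V (n+i) (n+i) x_i`, `S = S (n+i) (n+i) x_i`, so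
`‖E_i‖ ≤ (1/2)^(n+i+3) / (1 + ‖1‖)`.  Let `R_0 = 1`, `R_(i+1) = (1 + E_i) * R_i`; `σ_i = R_i * V n n x` (`σ_0 = V n n x`).  By induction
`‖R_i - 1‖ ≤ 1/2 - (1/2)^(i+1)`, so `‖R_i‖ ≤ ‖1‖ + 1` and `‖R_(i+1) - R_i‖ ≤ ‖E_i‖ ‖R_i‖ ≤ (1/2)^(i+3)`.  Hence `‖σ_(i+1) x - σ_i x‖ ≤ (1/2)^(i+2) Q n`: `Bed.sWei` on
`ball 0 ρ` gives the limit `σ n`, differentiable (`σ_i` is: products, compositions with `orb g n i`).  Unit: `σ n x * S n n x` is the limit of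
`R_i`, so `‖σ n x * S n n x - 1‖ ≤ 1/2 < 1` is a unit (`isUnit_of_...`, `Units.oneSub`, `NormedRing.inverse_one_sub`), and `S n n x` is a unit.
`p * σ n x = p`: `p * V = p`, `p * T_i = p` (`p * τ = p`), `p * V * T_i = p`, limit.  Compatibility: `T_i^(n+1) (g n x) * τ n x = T_(i+1)^n x`
(induction, `orb g (n+1) i (g n x) = orb g n (i+1) x`) and `V (n+1+i) (n+1) (g n x) = V (n+i+1) n x`, so `σ_i^(n+1) (g n x) * τ n x = σ_(i+1)^n x`; let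
`i → ∞`. -/
def S_GlB : Prop := ∀ (G A : Type) [NormedAddCommGroup G] [NormedSpace ℂ G] [FiniteDimensional ℂ G]
  [NormedRing A] [NormedAlgebra ℂ A] [CompleteSpace A] (ρ : ℝ) (g : ℕ → G → G) (τ : ℕ → G → A) (p : A)
  (S V u : ℕ → ℕ → G → A) (Q : ℕ → ℝ),
  (∀ n, DifferentiableOn ℂ (g n) (ball 0 ρ)) → (∀ n, ∀ x ∈ ball (0 : G) ρ, g n x ∈ ball (0 : G) ρ) →
  (∀ n, DifferentiableOn ℂ (τ n) (ball 0 ρ)) → (∀ n, ∀ x ∈ ball (0 : G) ρ, p * τ n x = p) → Tow ρ g τ p S V u Q →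
  ∃ σ : ℕ → G → A, (∀ n, DifferentiableOn ℂ (σ n) (ball 0 ρ)) ∧
    ∀ n, ∀ x ∈ ball (0 : G) ρ, IsUnit (σ n x) ∧ p * σ n x = p ∧ σ (n + 1) (g n x) * τ n x = σ n x

/-- **Exu.** The exponential of endomorphisms.  PROOF.  `F →L[ℂ] F` is finite dimensional, closed balls are compact, `NormedSpace.exp` is
continuous (`NormedSpace.exp_continuous`), so bounded and uniformly continuous on closed balls.  (2)
`exp (-Y) * exp X - 1 = exp (-Y) * (exp X - exp Y)` (`exp (-Y) * exp Y = 1`, `NormedSpace.exp_add_of_commute`), with `‖Y‖ ≤ B + 1` for `ε' ≤ 1`. -/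
def S_Exu : Prop := ∀ (F : Type) [NormedAddCommGroup F] [NormedSpace ℂ F] [FiniteDimensional ℂ F] (B : ℝ),
  ∃ B₂ : ℝ, (∀ X : F →L[ℂ] F, ‖X‖ ≤ B + 1 → ‖NormedSpace.exp X‖ ≤ B₂ ∧ ‖NormedSpace.exp (-X)‖ ≤ B₂) ∧
    ∀ ε : ℝ, 0 < ε → ∃ ε' : ℝ, 0 < ε' ∧ ε' ≤ 1 ∧ ∀ X Y : F →L[ℂ] F, ‖X‖ ≤ B → ‖X - Y‖ ≤ ε' →
      ‖NormedSpace.exp (-Y) * NormedSpace.exp X - 1‖ ≤ ε

/-- **Aff.** Global affine families near the given ones.  USES `S_Fam`, `S_Log`, `S_Exu`.  PROOF.  `δ`, `lg` from `S_Log` for `A = F →L[ℂ] F`.  Let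
`0 < C'`, `C' R ≤ δ c`.  `b m` is invertible, `‖(b m)⁻¹‖ ≤ 1/c` (finite dimension).  For `x ∈ ball 0 R`:
`‖(b m)⁻¹ M m x - 1‖ ≤ C' ‖x‖ / c < δ`, so `N x = lg ((b m)⁻¹ * M m x)` is differentiable on `ball 0 R` and `b m * exp (N x) = M m x`.
`S_Fam`: families `N'` (near `N`) and `q'` (near `q m`) within `ε'` on `ball 0 (R/2)`.  `t n x = af (b m * exp (N' n x)) (q' n x)`,
`u n x = af (exp (-N' n x) * (b m)⁻¹) (-(exp (-N' n x) * (b m)⁻¹) (q' n x))`.  `af M q * af M' q' = af (M * M') (M q' + q)`, `af 1 0 = 1`,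
`exp (-X) exp X = 1` (`NormedSpace.exp_add_of_commute`), `pr F * af M q = pr F`.  Families: `exp` is differentiable (`NormedSpace.exp_analytic`),
compatible by construction, bounded by `S_Exu`.  `u m x * af (M m x) (q m x) - 1 = af (exp (-N') * exp N) (exp (-N') (b m)⁻¹ (q m x - q' m x)) - af 1 0`.
`N` is bounded on `ball 0 (R/2)` by some `B` (continuous on the compact `closedBall 0 (R/2)`), so for small `ε'` all is `≤ ε` by `S_Exu`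
(`‖af M q - af 1 0‖ ≤ ‖M - 1‖ + ‖q‖`). -/
def S_Aff : Prop := ∀ (F : Type) [NormedAddCommGroup F] [NormedSpace ℂ F] [FiniteDimensional ℂ F], ∃ δ : ℝ, 0 < δ ∧
  ∀ (G : Type) [NormedAddCommGroup G] [NormedSpace ℂ G] [FiniteDimensional ℂ G] (R C c C' : ℝ) (g : ℕ → G → G)
  (a : ℕ → G →L[ℂ] G) (b : ℕ → F →L[ℂ] F) (M : ℕ → G → (F →L[ℂ] F)) (q : ℕ → G → F), Slw R C c g a → 0 < C' →
  C' * R ≤ δ * c → (∀ n y, c * ‖y‖ ≤ ‖b n y‖) → (∀ n, DifferentiableOn ℂ (M n) (ball 0 R)) →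
  (∀ n, DifferentiableOn ℂ (q n) (ball 0 R)) → (∀ n, ∀ x ∈ ball (0 : G) R, ‖M n x - b n‖ ≤ C' * ‖x‖) →
  ∀ (m : ℕ) (ε : ℝ), 0 < ε → ∃ t u : ℕ → G → ((F × ℂ) →L[ℂ] (F × ℂ)), Fmy (R / 2) g t ∧ Fmy (R / 2) g u ∧
    (∀ n, ∀ x ∈ ball (0 : G) (R / 2), t n x * u n x = 1 ∧ u n x * t n x = 1 ∧ pr F * t n x = pr F) ∧
    ∀ x ∈ ball (0 : G) (R / 2), ‖u m x * af (M m x) (q m x) - 1‖ ≤ ε

/-- **Asm.** The basin of the skew sequence.  PROOF.  `Ψ¹` from `Bas H r g`.  `Ψ n (x, y) = (Ψ¹ n x, (σ n x (φ n (x, y), 1)).1)`.  As `pr F * σ n x = pr F`,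
the second component of `σ n x (v, s)` is `s`.  Compatibility: `σ (n+1) (g n x) (φ (n+1) (sk z), 1) = σ (n+1) (g n x) (af (M n x) (q n x) (φ n z, 1))
= σ n x (φ n z, 1)`.  Injective: `x = x'` by `Ψ¹`, then `σ n x (φ n (x,y), 1) = σ n x (φ n (x,y'), 1)`, unit, `Cov`.  Immersion: `w = (ξ, ω)`; the first
component gives `ξ = 0`; then the derivative of the second component in the direction `(0, ω)` is `(σ n x (d, 0)).1`, `d = fderiv (φ n) z (0, ω)`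
(chain rule along `t ↦ (x, y + t ω)`, `x` fixed), and `(σ n x (d, 0)).2 = 0`, so `d = 0`, `ω = 0` by `Cov`.  Onto: `(u, v)`, `u = Ψ¹ n x`,
`x_j = orb g n j x ∈ ball 0 r`, `‖x_j‖ ≤ 4^(-j) r`, `Ψ¹ (n+j) x_j = u`.  Let `s_j` with `σ (n+j) x_j s_j = (v, 1)` (unit), `s_j = (v_j, 1)`.
`σ (n+j+1) x_(j+1) (af (M ..) (q ..) s_j) = σ (n+j) x_j s_j = (v, 1)`, so `v_(j+1) = M (n+j) x_j v_j + q (n+j) x_j`,
`‖v_(j+1)‖ ≤ ‖v_j‖/2 + K 4^(-j)`, `K = |C'| r`; by induction `‖v_j‖ ≤ 2^(-j) ‖v_0‖ + 4 K (2^(-j) - 4^(-j))`, tends to `0`.  Take `j` with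
`‖v_j‖ < r/2` and `y ∈ ball 0 r` with `φ (n+j) (x_j, y) = v_j` (`Cov`): `Ψ (n+j) (x_j, y) = (u, v)`. -/
def S_Asm : Prop := ∀ (G F H : Type) [NormedAddCommGroup G] [NormedSpace ℂ G] [NormedAddCommGroup F] [NormedSpace ℂ F]
  [NormedAddCommGroup H] [NormedSpace ℂ H] (r C' : ℝ) (g : ℕ → G → G) (h : ℕ → G × F → F) (φ : ℕ → G × F → F)
  (M : ℕ → G → (F →L[ℂ] F)) (q : ℕ → G → F) (σ : ℕ → G → ((F × ℂ) →L[ℂ] (F × ℂ))), 0 < r →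
  (∀ n, ∀ x ∈ ball (0 : G) r, ‖g n x‖ ≤ 1 / 4 * ‖x‖) →
  (∀ n, ∀ z ∈ ball (0 : G × F) r, φ (n + 1) (sk g h n z) = M n z.1 (φ n z) + q n z.1) →
  (∀ n, ∀ x ∈ ball (0 : G) r, ‖M n x‖ ≤ 1 / 2 ∧ ‖q n x‖ ≤ C' * ‖x‖) →
  (∀ n, DifferentiableOn ℂ (φ n) (ball 0 r)) → Cov r φ → (∀ n, DifferentiableOn ℂ (σ n) (ball 0 r)) →
  (∀ n, ∀ x ∈ ball (0 : G) r, IsUnit (σ n x) ∧ pr F * σ n x = pr F ∧
    σ (n + 1) (g n x) * af (M n x) (q n x) = σ n x) →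
  Bas H r g → Bas (H × F) r (sk g h)

/-- The step: a dominated bunched fast block splits off. -/
def StpC : Prop := ∀ (G F : Type) [NormedAddCommGroup G] [NormedSpace ℂ G] [FiniteDimensional ℂ G]
  [NormedAddCommGroup F] [NormedSpace ℂ F] [FiniteDimensional ℂ F] (R C c : ℝ) (f : ℕ → G × F → G × F)
  (a : ℕ → G →L[ℂ] G) (b : ℕ → F →L[ℂ] F), Blk R C c f a b →
  ∃ (r₁ C₁ : ℝ) (g : ℕ → G → G), Sq r₁ (1 / 4) C₁ c g a ∧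
    ∀ (H : Type) [NormedAddCommGroup H] [NormedSpace ℂ H], Bas H r₁ g → Bas (H × F) R f

/-- **Stp.** The step.  PROOF.  `η` (`S_Hfb`), `g n x = PP (f n) (η (n+1)) (x, 0)`, `Sq (R/4) (1/4) (16 C/c) c g a` (`S_Slo`), `h` (`S_Skp`),
`Skw (R/8) (4 C) c g h b`; `C'`, `φ`, `M`, `q` with `IsAf (R/16) C' g h b φ M q` (`S_Phi`); `r₀ ≤ R/16` (`S_Cvr` with `ρ = R/16`); `δ` (`S_Aff` for `F`).
Choose `R₁ > 0` with `R₁ ≤ R/16`, `R₁ ≤ r₀`, `C' R₁ ≤ δ c`, `C' R₁ ≤ 1/4`; `Slw R₁ (16 C/c) c g a` (`2^5 (16 C/c) R₁ ≤ 2^5 C R/c ≤ c`).  `r₁ = R₁/2`.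
`‖M n x‖ ≤ ‖b n‖ + C' ‖x‖ ≤ 1/8 + 1/4`.  `S_GlA`, `S_GlB` with `A = (F × ℂ) →L[ℂ] (F × ℂ)`, `ρ = r₁`, `τ n x = af (M n x) (q n x)` (differentiable: `af` is affine
and continuous in `(M, q)`), `p = pr F`, the approximations from `S_Aff`.  `S_Asm` with `r = r₁`, then the transfer of `S_Skp` with `R' = r₁`.
`Sq r₁ ..` by restriction of `Sq (R/4) ..`. -/
def S_Stp : Prop := S_Hfb → S_Slo → S_Skp → S_Phi → S_Cvr → S_GlA → S_GlB → S_Aff → S_Asm → StpC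

/-! ## Part L: linear algebra -/

/-- **Agl.** The angle is bounded.  PROOF.  `C exp(-η m) ≤ 1/4` for some `m`.  Let `N₁ = ‖Λ n u‖ > 0`, `N₂ = ‖Λ n w‖`, and `N₁'`, `N₂'` the norms at the
time `n + m`: `N₂' N₁ ≤ (1/4) N₂ N₁'`.  If `N₂ ≥ 2 N₁` then `‖Λ n (u + w)‖ ≥ N₂ - N₁ ≥ N₁`.  Otherwise `N₂' ≤ N₁'/2`, so
`‖Λ n (u + w)‖ ≥ ‖Λ (n+m) (u + w)‖ ≥ N₁'/2 ≥ (c^m/2) N₁`.  `γ = 1 + 2 c^(-m)`. -/
def S_Agl : Prop := ∀ (k : ℕ) (Λ : ℕ → (Fin k → ℂ) →L[ℂ] (Fin k → ℂ)) (c C η : ℝ) (U W : Submodule ℂ (Fin k → ℂ)),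
  0 < c → 0 < C → 0 < η → (∀ n z, c * ‖Λ n z‖ ≤ ‖Λ (n + 1) z‖ ∧ ‖Λ (n + 1) z‖ ≤ ‖Λ n z‖) →
  (∀ n m : ℕ, ∀ u ∈ U, ∀ w ∈ W, ‖Λ (n + m) w‖ * ‖Λ n u‖ ≤ C * Real.exp (-(η * m)) * (‖Λ n w‖ * ‖Λ (n + m) u‖)) →
  ∃ γ : ℝ, 0 ≤ γ ∧ ∀ n, ∀ u ∈ U, ∀ w ∈ W, ‖Λ n u‖ ≤ γ * ‖Λ n (u + w)‖

/-- Frames of a splitting: `A n` is `(a n, b n)` in the coordinates `e n`. -/
structure Fra (k k₁ k₂ : ℕ) (C₁ : ℝ) (A : ℕ → (Fin k → ℂ) →L[ℂ] (Fin k → ℂ)) (U W : Submodule ℂ (Fin k → ℂ))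
    (e : ℕ → Bed.V k₁ k₂ ≃L[ℂ] (Fin k → ℂ)) (a : ℕ → (Fin k₁ → ℂ) →L[ℂ] (Fin k₁ → ℂ))
    (b : ℕ → (Fin k₂ → ℂ) →L[ℂ] (Fin k₂ → ℂ)) : Prop where
  one_le : 1 ≤ C₁
  up : ∀ n v, ‖e n v‖ ≤ C₁ * ‖v‖
  low : ∀ n v, ‖v‖ ≤ C₁ * ‖e n v‖
  memU : ∀ x, e 0 (x, 0) ∈ U
  memW : ∀ y, e 0 (0, y) ∈ W
  surU : ∀ u ∈ U, ∃ x, e 0 (x, 0) = u
  surW : ∀ w ∈ W, ∃ y, e 0 (0, y) = w
  comm : ∀ n x y, A n (e n (x, y)) = e (n + 1) (a n x, b n y)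
  prod : ∀ n x y, Bed.prodL A (ContinuousLinearMap.id ℂ _) n (e 0 (x, y)) =
    e n (Bed.prodL a (ContinuousLinearMap.id ℂ _) n x, Bed.prodL b (ContinuousLinearMap.id ℂ _) n y)

/-- **Frs.** PROOF.  `Λ n = Bed.prodL A id n`, injective, `Λ 0 = id`.  `U_n`, `W_n` the images of `U`, `W` under `Λ n`: `IsCompl`, same dimensions `k₁`, `k₂`.
`Bed.sFrame` (file `Bed/Frame.lean`, `E = Fin k → ℂ`, `F = U_n`, `G = W_n`, `γ`): `e n` with `C₁ = max 1 (C (1 + γ))`-like constants.  `A n` maps `U_n` into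
`U_(n+1)` and `W_n` into `W_(n+1)`; `e n` maps `ℂ^k₁ × 0` onto `U_n` (for `u ∈ U_n`, `u = e n (x, y)`, so `e n (0, y) = u - e n (x, 0) ∈ U_n ∩ W_n = 0`), the
same for `W_n`.  So `(e (n+1))⁻¹ A n (e n (x, 0))` is in `ℂ^k₁ × 0`, etc.: `a n x` = the first component, `b n y` = the second component of
`(e (n+1))⁻¹ A n (e n (0, y))`.  `prod`: induction. -/
def S_Frs : Prop := ∀ (k : ℕ) (A : ℕ → (Fin k → ℂ) →L[ℂ] (Fin k → ℂ)) (c γ : ℝ) (U W : Submodule ℂ (Fin k → ℂ)),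
  0 < c → (∀ n z, c * ‖z‖ ≤ ‖A n z‖) → IsCompl U W → 0 ≤ γ →
  (∀ n, ∀ u ∈ U, ∀ w ∈ W, ‖Bed.prodL A (ContinuousLinearMap.id ℂ _) n u‖ ≤
    γ * ‖Bed.prodL A (ContinuousLinearMap.id ℂ _) n (u + w)‖) →
  ∃ (k₁ k₂ : ℕ) (C₁ : ℝ) (e : ℕ → Bed.V k₁ k₂ ≃L[ℂ] (Fin k → ℂ)) (a : ℕ → (Fin k₁ → ℂ) →L[ℂ] (Fin k₁ → ℂ))
    (b : ℕ → (Fin k₂ → ℂ) →L[ℂ] (Fin k₂ → ℂ)), Fra k k₁ k₂ C₁ A U W e a b

/-- The product of `i` steps from the time `m`. -/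
noncomputable def pw {E : Type} [NormedAddCommGroup E] [NormedSpace ℂ E] (a : ℕ → E →L[ℂ] E) (m : ℕ) : ℕ → (E →L[ℂ] E)
  | 0 => 1
  | i + 1 => a (m + i) * pw a m i

/-- **Qln.** The linear parts of `q` steps in the frames, for large `q`.  PROOF.  `pw A m q (e m (x, y)) = e (m+q) (pw a m q x, pw b m q y)` (`comm`, induction),
`c^q ‖z‖ ≤ ‖pw A m q z‖ ≤ D^q ‖z‖`; so `‖pw a m q x‖ ≤ C₁² D^q ‖x‖`, `≥ (c^q/C₁²) ‖x‖`, the same for `b`.  DOMINATION: for `m`, `x`, `y` let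
`u ∈ U`, `w ∈ W` with `Λ m u = e m (x, 0)`, `Λ m w = e m (0, y)` (`Λ n = Bed.prodL A id n`; `prod`, `memU`, `memW`; `Bed.prodL a id m` is injective, so surjective);
`Λ (m+q) = pw A m q * Λ m`; the hypothesis for `(m, q)` gives `‖pw b m q y‖ ‖x‖ ≤ C₁^4 C₂ exp(-η q) ‖y‖ ‖pw a m q x‖` (`‖e v‖` and `‖v‖` differ at
most by the factor `C₁`).  BUNCHING in the same way: `‖pw b m q y‖² ‖y'‖ ≤ C₁^6 C₂ exp(-η q) ‖y‖² ‖pw b m q y'‖`.  Choose `q ≥ 1` with `C₁² D^q ≤ 1/8`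
and both constants at most `1/16`; take the supremum over `‖y‖ ≤ 1` (`ContinuousLinearMap.opNorm_le_bound`; for the square: `‖T‖² ≤ s` iff
`‖T‖ ≤ √s`; `x = 0`, `y' = 0` are trivial).  `c'' = c^q / C₁²`. -/
def S_Qln : Prop := ∀ (k k₁ k₂ : ℕ) (D c C₁ : ℝ)
  (A : ℕ → (Fin k → ℂ) →L[ℂ] (Fin k → ℂ)) (U W : Submodule ℂ (Fin k → ℂ)) (e : ℕ → Bed.V k₁ k₂ ≃L[ℂ] (Fin k → ℂ))
  (a : ℕ → (Fin k₁ → ℂ) →L[ℂ] (Fin k₁ → ℂ)) (b : ℕ → (Fin k₂ → ℂ) →L[ℂ] (Fin k₂ → ℂ)) (C₂ η : ℝ),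
  0 < D → D < 1 → 0 < c → (∀ n z, ‖A n z‖ ≤ D * ‖z‖) → (∀ n z, c * ‖z‖ ≤ ‖A n z‖) →
  Fra k k₁ k₂ C₁ A U W e a b → 0 < C₂ → 0 < η →
  (∀ n m : ℕ, ∀ u ∈ U, ∀ w ∈ W, ‖Bed.prodL A (ContinuousLinearMap.id ℂ _) (n + m) w‖ *
    ‖Bed.prodL A (ContinuousLinearMap.id ℂ _) n u‖ ≤ C₂ * Real.exp (-(η * m)) *
    (‖Bed.prodL A (ContinuousLinearMap.id ℂ _) n w‖ * ‖Bed.prodL A (ContinuousLinearMap.id ℂ _) (n + m) u‖)) →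
  (∀ n m : ℕ, ∀ v ∈ W, ∀ w ∈ W, ‖Bed.prodL A (ContinuousLinearMap.id ℂ _) (n + m) v‖ ^ 2 *
    ‖Bed.prodL A (ContinuousLinearMap.id ℂ _) n w‖ ≤ C₂ * Real.exp (-(η * m)) *
    (‖Bed.prodL A (ContinuousLinearMap.id ℂ _) n v‖ ^ 2 * ‖Bed.prodL A (ContinuousLinearMap.id ℂ _) (n + m) w‖)) →
  ∃ (q : ℕ) (c'' : ℝ), 0 < q ∧ 0 < c'' ∧ ∀ m : ℕ, (∀ x, ‖pw a m q x‖ ≤ 1 / 8 * ‖x‖) ∧ ‖pw b m q‖ ≤ 1 / 8 ∧
    (∀ x, c'' * ‖x‖ ≤ ‖pw a m q x‖) ∧ (∀ y, c'' * ‖y‖ ≤ ‖pw b m q y‖) ∧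
    (∀ x, 16 * ‖pw b m q‖ * ‖x‖ ≤ ‖pw a m q x‖) ∧ (∀ y, 16 * ‖pw b m q‖ ^ 2 * ‖y‖ ≤ ‖pw b m q y‖) ∧
    ∀ x y, pw A m q (e m (x, y)) = e (m + q) (pw a m q x, pw b m q y)

/-- **Qqd.** Quadratic estimate for `q` steps (see `BedG.S_QL`, `BedG/QL.lean`).  PROOF.  Induction on `q`: with `y = orb f m q z`, `y' = orb f m q w`,
`P = pw A m q`: `f y - A P z = (f y - A y) + A (y - P z)`, `‖y‖ ≤ ‖z‖`, `‖y - y'‖ ≤ (1 + 2 C_q r) ‖z - w‖` (`‖P‖ ≤ 1`, induction hypothesis), so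
`C_(q+1) = C (1 + 2 C_q r) + C_q` works (`‖A n z‖ ≤ ‖z‖`). -/
def S_Qqd : Prop := ∀ (k : ℕ) (r D C c : ℝ) (f : ℕ → (Fin k → ℂ) → (Fin k → ℂ))
  (A : ℕ → (Fin k → ℂ) →L[ℂ] (Fin k → ℂ)), Bed.SeqD k r D C c f A → ∀ q : ℕ, ∃ Cq : ℝ, 0 < Cq ∧ ∀ m : ℕ,
  DifferentiableOn ℂ (orb f m q) (ball 0 r) ∧ orb f m q 0 = 0 ∧
  ∀ z ∈ ball (0 : Fin k → ℂ) r, ‖orb f m q z‖ ≤ ‖z‖ ∧ ∀ w ∈ ball (0 : Fin k → ℂ) r,
    ‖(orb f m q z - pw A m q z) - (orb f m q w - pw A m q w)‖ ≤ Cq * (‖z‖ + ‖w‖) * ‖z - w‖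

/-- **Qst.** The `q`-step maps in the frames.  USES `S_Qln`, `S_Qqd`.  PROOF.  `q`, `c''` from `S_Qln`, `C_q` from `S_Qqd`.
`F n z = (e (q (n+1))).symm (orb f (q n) q (e (q n) z))`, `C' = C₁³ C_q`, `c' = min 1 c''`, `R > 0` so small that `C₁ R ≤ r` and `2^12 C' R ≤ c'^2`.
`quad`: `F n z - (a' z.1, b' z.2) = (e (q (n+1))).symm (orb f (q n) q v - pw A (q n) q v)`, `v = e (q n) z`, factors `C₁` three times. -/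
def S_Qst : Prop := ∀ (k k₁ k₂ : ℕ) (r D C c C₁ : ℝ) (f : ℕ → (Fin k → ℂ) → (Fin k → ℂ))
  (A : ℕ → (Fin k → ℂ) →L[ℂ] (Fin k → ℂ)) (U W : Submodule ℂ (Fin k → ℂ)) (e : ℕ → Bed.V k₁ k₂ ≃L[ℂ] (Fin k → ℂ))
  (a : ℕ → (Fin k₁ → ℂ) →L[ℂ] (Fin k₁ → ℂ)) (b : ℕ → (Fin k₂ → ℂ) →L[ℂ] (Fin k₂ → ℂ)) (C₂ η : ℝ),
  Bed.SeqD k r D C c f A → Fra k k₁ k₂ C₁ A U W e a b → 0 < C₂ → 0 < η →
  (∀ n m : ℕ, ∀ u ∈ U, ∀ w ∈ W, ‖Bed.prodL A (ContinuousLinearMap.id ℂ _) (n + m) w‖ *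
    ‖Bed.prodL A (ContinuousLinearMap.id ℂ _) n u‖ ≤ C₂ * Real.exp (-(η * m)) *
    (‖Bed.prodL A (ContinuousLinearMap.id ℂ _) n w‖ * ‖Bed.prodL A (ContinuousLinearMap.id ℂ _) (n + m) u‖)) →
  (∀ n m : ℕ, ∀ v ∈ W, ∀ w ∈ W, ‖Bed.prodL A (ContinuousLinearMap.id ℂ _) (n + m) v‖ ^ 2 *
    ‖Bed.prodL A (ContinuousLinearMap.id ℂ _) n w‖ ≤ C₂ * Real.exp (-(η * m)) *
    (‖Bed.prodL A (ContinuousLinearMap.id ℂ _) n v‖ ^ 2 * ‖Bed.prodL A (ContinuousLinearMap.id ℂ _) (n + m) w‖)) →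
  ∃ (q : ℕ) (R C' c' : ℝ) (F : ℕ → Bed.V k₁ k₂ → Bed.V k₁ k₂), 0 < q ∧ C₁ * R ≤ r ∧
    Blk R C' c' F (fun n => pw a (q * n) q) (fun n => pw b (q * n) q) ∧
    ∀ n, ∀ z ∈ ball (0 : Bed.V k₁ k₂) R, e (q * (n + 1)) (F n z) = orb f (q * n) q (e (q * n) z)

/-- **FCt.** The condition (F) passes to subspaces of the filtration and to subsequences.  PROOF.  `range j = U i` and `U l ≤ U i`, `W l ≤ U i` for `l < i`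
(`sup`, induction).  `top`: `comap j (U i) = ⊤`.  `sup`: if `j x = u + w`, `u = j x₁`, `w = j x₂` then `x = x₁ + x₂`.  `disj`: `j` is injective.  `dom`:
`N' (n+m) w N' n u ≤ α⁻² N (q n + q m) (j w) N (q n) (j u) ≤ α⁻² C exp(-η q m) N (q n) (j w) N (q n + q m) (j u) ≤ (β/α)² C exp(-η m) (N' n w N' (n+m) u)`
(`q ≥ 1`; all values are nonnegative).  `bun`: the same with `(β/α)³`.  `base`: `lam^q`, `mu^q`, constant `C β/α`; `finrank (comap j (U 0)) = finrank (U 0)`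
(`j` is injective and `U 0 ≤ range j`: `Submodule.comap` is mapped onto `U 0`, `LinearEquiv.finrank_eq` of `Submodule.equivMapOfInjective`);
`(lam^q)^5 < (mu^q)^2`, `(lam^q)^3 < mu^q` (`pow_lt_pow_left₀`, `q ≠ 0`). -/
def S_FCt : Prop := ∀ (V V' : Type) [AddCommGroup V] [Module ℂ V] [AddCommGroup V'] [Module ℂ V'] (N : ℕ → V → ℝ)
  (N' : ℕ → V' → ℝ) (j : V' →ₗ[ℂ] V) (r i q : ℕ) (U W : ℕ → Submodule ℂ V) (T : Submodule ℂ V) (α β : ℝ),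
  FC N r U W T → i ≤ r → 0 < q → 0 < α → 0 < β → Function.Injective j → LinearMap.range j = U i →
  (∀ n x, 0 ≤ N' n x) → (∀ n x, α * N' n x ≤ N (q * n) (j x) ∧ N (q * n) (j x) ≤ β * N' n x) →
  FC N' i (fun l => (U l).comap j) (fun l => (W l).comap j) ⊤

/-! ## Assembly -/

/-- The theorem for sequences. -/
def SeqF : Prop := ∀ (i k : ℕ) (r D C c : ℝ) (f : ℕ → (Fin k → ℂ) → (Fin k → ℂ))
  (A : ℕ → (Fin k → ℂ) →L[ℂ] (Fin k → ℂ)) (U W : ℕ → Submodule ℂ (Fin k → ℂ)), Bed.SeqD k r D C c f A →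
  FC (fun n z => ‖Bed.prodL A (ContinuousLinearMap.id ℂ _) n z‖) i U W ⊤ → Bed.BasinCk k r f

/-- **Bse.** The base of the induction.  IMPORTS `Pool.Agent.Lib.BedG.Main`, `Pool.Agent.Lib.BedD.Main` (look there how `bedfordG`, `bedfordD` are
assembled: `BedG.seqDC BedG.sQL BedG.sQB BedG.seqGC : BedG.SeqDC` and `BedD.seqDC BedD.sQL BedD.sQB BedD.seqEC : BedD.SeqDC`).  PROOF.
`U 0 = ⊤` (`top`).  In the first case of `BC` this is `BedG.GCond`.  In the second case `k = 2` (`finrank ⊤ = k`), `BedD.DCond`. -/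
def S_Bse : Prop := ∀ (k : ℕ) (r D C c : ℝ) (f : ℕ → (Fin k → ℂ) → (Fin k → ℂ))
  (A : ℕ → (Fin k → ℂ) →L[ℂ] (Fin k → ℂ)) (U W : ℕ → Submodule ℂ (Fin k → ℂ)), Bed.SeqD k r D C c f A →
  FC (fun n z => ‖Bed.prodL A (ContinuousLinearMap.id ℂ _) n z‖) 0 U W ⊤ → Bed.BasinCk k r f

/-- **Seq.** PROOF.  Induction on `i`, for all `k`, `f`, ...  `i = 0`: `S_Bse`.  Step `i + 1`: `U' = U i`, `W' = W i`, `IsCompl` (`sup`, `disj`, `top`).  `C`, `η` of `dom`,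
`bun` may be taken equal (the sum of the constants, the minimum of the rates; or use two pairs and weaken).  `Λ (n+1) z = A n (Λ n z)`,
`c ‖Λ n z‖ ≤ ‖Λ (n+1) z‖ ≤ D ‖Λ n z‖`: `S_Agl` gives `γ`, `S_Frs` frames, `S_Qst` the maps `F`, `StpC` gives `r₁`, `C₁'`, `g` with `Sq r₁ (1/4) C₁' c' g a'`,
`a' n = pw a (q n) q`; this is `Bed.SeqD k₁ r₁ (1/4) C₁' c' g a'`.  `Bed.prodL a' id n = Bed.prodL a id (q n)` (induction).  `S_FCt` with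
`j x = e 0 (x, 0)` (range `U'` by `memU`, `surU`), `N n z = ‖Λ n z‖`, `N' n x = ‖Bed.prodL a' id n x‖`, `α = 1/C₁`, `β = C₁` (`prod` with `y = 0`, `up`, `low`) gives
`FC` for `i`, so `Bed.BasinCk k₁ r₁ g`, i.e. `Bas (Fin k₁ → ℂ) r₁ g`, and `Bas (Bed.V k₁ k₂) R F`.  Composing the maps `Ψ n` with `e 0`: `Bas (Fin k → ℂ) R F`.
`S_Tr` with `E = Fin k → ℂ`, `κ n = (e (q n)).symm`, `ρ = C₁ R ≤ r`, `ρ' = R/C₁`, `r' = R`: `‖κ n z‖ ≤ C₁ ‖z‖`, `‖e w‖ ≤ C₁ ‖w‖`, `F` maps `ball 0 R` into itself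
(`‖F z‖ ≤ ‖z‖/4`, see `S_BSq`; from `quad`, `zero`, `aup`, `bup`, `small`).  `Bas (Fin k → ℂ) r f` is `Bed.BasinCk k r f`; `Sq` for `f` is `Bed.SeqD`. -/
def S_Seq : Prop := S_Tr → StpC → S_Agl → S_Frs → S_Qst → S_FCt → S_Bse → SeqF

end Pool.Agent.Lib.BedF
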